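import Pool.Agent.Lib.MP_7b7e48_nt.KM.Stmts
import Pool.Agent.Lib.MP_7b7e48_nt.GT.Transfer

/-!
# KM project, module T1: autocorrelation of the primes and the rough numbers
-/

open Finset

namespace Pool.Agent.Lib.KM

namespace AcorMod

open Pool.Agent.Lib.GT

open Pool.Agent.Lib.GT.Corr

/-- upper bound for the correlation of two rough majorants -/
theorem pair_sum : ∃ K : ℕ, 1 ≤ K ∧ ∀ z : ℕ, 2 ≤ z → ∀ u v : ℕ, 2 ≤ u → u ≤ z → 2 ≤ v → v ≤ z →
    ∀ X d : ℕ, 1 ≤ d → d ≤ X →
      ∑ x ∈ Finset.Icc 1 (X - d), Lw u x * Lw v (x + d) ≤ K * Tw 0 d * X + (z : ℝ) ^ K := by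
  obtain ⟨K₀, hK₀, hFL⟩ := fund_lemma
  refine ⟨K₀ + 2, by omega, ?_⟩
  intro z hz2 u v hu2 hu hv2 hv X d hd hdX
  have hz' : (2 : ℝ) ≤ z := by exact_mod_cast hz2
  have hT01 : 1 ≤ Tw 0 d := one_le_Tw 0 d
  by_cases hdodd : Even d
  swap
  · have h0 : ∑ x ∈ Finset.Icc 1 (X - d), Lw u x * Lw v (x + d) = 0 := by
      apply Finset.sum_eq_zero
      intro x _
      have hL : ∀ u y : ℕ, 2 ≤ u → Even y → Lw u y = 0 := by
        intro u y hu hy
        unfold Lw
        rw [if_neg]
        intro h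
        have := h 2 Nat.prime_two hy.two_dvd
        omega
      by_cases hx : Even x
      · rw [hL u x hu2 hx, zero_mul]
      · have hxd : Even (x + d) := by
          rw [Nat.not_even_iff_odd] at hx hdodd
          exact hx.add_odd hdodd
        rw [hL v _ hv2 hxd, mul_zero]
    rw [h0]
    positivity
  set N := X - d with hN
  have hNX : (N : ℝ) ≤ X := by exact_mod_cast Nat.sub_le X d
  have hN0 : (0 : ℝ) ≤ N := Nat.cast_nonneg N
  have hVu := V_pos u
  have hVv := V_pos v
  have h1 := hFL 1 le_rfl z hz2 (pr z) (fun r hr => mem_pr.mp hr) (Om d u v) (by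
    intro r hr
    have hrp := (mem_pr.mp hr).1
    have hr2 := hrp.two_le
    have hc2 : (Om d u v r).card ≤ 2 := by
      unfold Om
      refine (Finset.card_union_le _ _).trans ?_
      split_ifs <;> simp
    refine ⟨hc2, ?_, ?_⟩
    · rcases Nat.lt_or_ge 2 r with h | h
      · omega
      · have hr' : r = 2 := by omega
        subst hr'
        have h3 : negd d 2 = 0 := (negd_eq_zero (by norm_num)).mpr hdodd.two_dvd
        unfold Om
        rw [h3]
        split_ifs <;> simp
    · intro x hx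
      unfold Om at hx
      rw [Finset.mem_union] at hx
      rcases hx with hx | hx
      · split_ifs at hx
        · rw [Finset.mem_singleton] at hx
          omega
        · simp at hx
      · split_ifs at hx
        · rw [Finset.mem_singleton] at hx
          rw [hx]
          exact negd_lt (by omega)
        · simp at hx) 1 N
  rw [← count_eq hu hv, prod_Om hu hv, mul_one K₀] at h1
  rw [sum_eq]
  set c : ℝ := (((Finset.Icc 1 N).filter fun x => Rough u x ∧ Rough v (x + d)).card : ℝ) with hc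
  have hG0 : 0 ≤ G d z u v := by
    unfold G
    refine Finset.prod_nonneg fun r hr => ?_
    split_ifs
    · exact al_nonneg (mem_pr.mp hr).1.two_le
    · exact zero_le_one
  have hGT : G d z u v ≤ Tw 0 d := by
    unfold G
    rw [← Finset.prod_filter]
    refine prod_al_le (by omega) _ fun r hr => ?_
    have := (mem_pr.mp (Finset.mem_filter.mp hr).1).1
    exact ⟨this, this.pos⟩
  have hinv : 0 ≤ (V u)⁻¹ * (V v)⁻¹ := by positivity
  have h2 := (abs_le.mp h1).2
  have h3 : c ≤ (K₀ * (1 / 2) ^ 1 + 1) * (N * (G d z u v * (V u * V v))) + (z : ℝ) ^ K₀ := by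
    linarith
  calc (V u)⁻¹ * (V v)⁻¹ * c
      ≤ (V u)⁻¹ * (V v)⁻¹ * ((K₀ * (1 / 2) ^ 1 + 1) * (N * (G d z u v * (V u * V v))) +
        (z : ℝ) ^ K₀) := mul_le_mul_of_nonneg_left h3 hinv
    _ = (K₀ * (1 / 2) ^ 1 + 1) * (N * G d z u v) +
        (z : ℝ) ^ K₀ * ((V u)⁻¹ * (V v)⁻¹) := by
        field_simp
    _ ≤ (K₀ + 2) * Tw 0 d * X + (z : ℝ) ^ K₀ * ((z : ℝ) * z) := by
        have a1 : (V u)⁻¹ ≤ z := (V_inv_le (by omega)).trans (by exact_mod_cast hu)
        have a2 : (V v)⁻¹ ≤ z := (V_inv_le (by omega)).trans (by exact_mod_cast hv)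
        have a3 : (V u)⁻¹ * (V v)⁻¹ ≤ (z : ℝ) * z :=
          mul_le_mul a1 a2 (inv_nonneg.mpr hVv.le) (by linarith)
        have a4 : (0 : ℝ) ≤ (z : ℝ) ^ K₀ := by positivity
        have a5 := mul_le_mul_of_nonneg_left a3 a4
        have a6 : (N : ℝ) * G d z u v ≤ X * Tw 0 d := mul_le_mul hNX hGT hG0 (Nat.cast_nonneg _)
        have a7 : (K₀ * (1 / 2) ^ 1 + 1 : ℝ) ≤ K₀ + 2 := by
          have : (0 : ℝ) ≤ K₀ := Nat.cast_nonneg _
          linarith
        have a8 : (K₀ * (1 / 2) ^ 1 + 1 : ℝ) * (N * G d z u v) ≤ (K₀ + 2) * (X * Tw 0 d) :=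
          mul_le_mul a7 a6 (mul_nonneg hN0 hG0) (by positivity)
        calc _ ≤ (K₀ + 2) * (X * Tw 0 d) + (z : ℝ) ^ K₀ * ((z : ℝ) * z) := add_le_add a8 a5
          _ = _ := by ring
    _ = ((K₀ + 2 : ℕ) : ℝ) * Tw 0 d * X + (z : ℝ) ^ (K₀ + 2) := by
        push_cast
        ring

/-- a prime larger than `z` is `z`-rough -/
theorem lam_le_rough {z n X : ℕ} (hn : z < n) (hX : n ≤ X) :
    lam n ≤ Real.log X * V z * Lw z n := by
  by_cases hp : n.Prime
  · have hr : Rough z n := by
      intro p hp' hd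
      rw [(Nat.prime_dvd_prime_iff_eq hp' hp).1 hd]
      exact hn
    unfold Lw lam
    rw [if_pos hp, if_pos hr, mul_assoc, mul_inv_cancel₀ (V_pos z).ne', mul_one]
    exact Real.log_le_log (by exact_mod_cast hp.pos) (by exact_mod_cast hX)
  · unfold lam
    rw [if_neg hp]
    exact mul_nonneg (mul_nonneg (Real.log_natCast_nonneg X) (V_pos z).le) (Lw_nonneg _ _)

theorem lam_le_split {z n X : ℕ} (hX : n ≤ X) :
    lam n ≤ Real.log X * V z * Lw z n + (if n ≤ z then Real.log X else 0) := by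
  have h0 : 0 ≤ Real.log X * V z * Lw z n :=
    mul_nonneg (mul_nonneg (Real.log_natCast_nonneg X) (V_pos z).le) (Lw_nonneg _ _)
  by_cases hn : n ≤ z
  · rw [if_pos hn]
    have h1 := lam_le_log n
    rcases Nat.eq_zero_or_pos n with h | h
    · subst h
      have : Real.log ((0 : ℕ) : ℝ) ≤ Real.log X := by
        rw [Nat.cast_zero, Real.log_zero]
        exact Real.log_natCast_nonneg X
      linarith
    · have : Real.log n ≤ Real.log X :=
        Real.log_le_log (by exact_mod_cast h) (by exact_mod_cast hX)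
      linarith
  · rw [if_neg hn, add_zero]
    exact lam_le_rough (by omega) hX

end AcorMod

open AcorMod Pool.Agent.Lib.GT Pool.Agent.Lib.GT.Transfer Pool.Agent.Lib.GT.Corr in
theorem acor_holds : AcorS := by
  obtain ⟨K, hK, hpair⟩ := pair_sum
  obtain ⟨C, hC, hll⟩ := lamlam_le
  refine ⟨C + 2 * (4 * K * (K + 1) + 1) + (K + 1) + 1, ?_, ?_⟩
  · have : (0 : ℝ) ≤ K := Nat.cast_nonneg K
    have h2 : (0 : ℝ) ≤ 2 * (4 * K * (K + 1) + 1) + (K + 1) := by positivity
    linarith
  intro w hw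
  have hVw := V_pos w
  obtain ⟨X₀, hX₀⟩ := Filter.eventually_atTop.1 (ev_log_pow 2 ((V w / 2) ^ 2) (by positivity))
  refine ⟨max (max X₀ 2) (w ^ (2 * K * 1)), ?_⟩
  intro X hX D hD hDX
  have hX1 : X₀ ≤ X := (le_max_left _ _).trans ((le_max_left _ _).trans hX)
  have hX2 : 2 ≤ X := (le_max_right _ _).trans ((le_max_left _ _).trans hX)
  have hX3 : w ^ (2 * K * 1) ≤ X := (le_max_right _ _).trans hX
  obtain ⟨z, hwz, hz1, hz2, hzc⟩ := exists_z hK le_rfl hw hX3
  rw [mul_one] at hz1
  rw [Nat.cast_one, mul_one] at hzc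
  have hz : 2 ≤ z := hw.trans hwz
  set S := Real.sqrt X with hS
  set L := Real.log X with hL
  set T := Tw 0 D with hT
  have hT1 : 1 ≤ T := one_le_Tw 0 D
  have hXr : (2 : ℝ) ≤ X := by exact_mod_cast hX2
  have hL0 : 0 ≤ L := Real.log_natCast_nonneg X
  have hS0 : 0 ≤ S := Real.sqrt_nonneg _
  have hSS : S * S = X := Real.mul_self_sqrt (by linarith)
  have hS1 : 1 ≤ S := Real.one_le_sqrt.2 (by linarith)
  have hSX : S ≤ X := by nlinarith
  have hLS : L ≤ V w / 2 * S := by
    have h1 := hX₀ X hX1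
    have h2 : L ^ 2 ≤ (V w / 2 * S) ^ 2 := by
      rw [mul_pow, pow_two S, hSS]
      exact h1
    exact (pow_le_pow_iff_left₀ hL0 (by positivity) two_ne_zero).1 h2
  have hzr : (2 : ℝ) ≤ z := by exact_mod_cast hz
  have herr : ((z : ℝ) + 1) * (L * (V w)⁻¹) ≤ X := by
    have h1 : L * (V w)⁻¹ ≤ S / 2 := by
      rw [← div_eq_mul_inv, div_le_iff₀ hVw]
      linarith
    have h2 : (z : ℝ) + 1 ≤ 2 * S := by linarith
    calc ((z : ℝ) + 1) * (L * (V w)⁻¹) ≤ (2 * S) * (S / 2) :=
          mul_le_mul h2 h1 (by positivity) (by positivity)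
      _ = X := by rw [← hSS]; ring
  have hw0 : lam 0 + Lw w 0 = 0 := by
    have h1 : lam 0 = 0 := by
      unfold lam
      rw [if_neg (by norm_num)]
    have h2 : Lw w 0 = 0 := by
      unfold Lw
      rw [if_neg]
      intro h
      have := h 2 Nat.prime_two (dvd_zero 2)
      omega
    rw [h1, h2, add_zero]
  have hVz : 0 ≤ L * V z := mul_nonneg hL0 (V_pos z).le
  -- the sum over `Icc 1 N`
  have hsum : ∑ x ∈ range (X + 1 - D), (lam x + Lw w x) * (lam (x + D) + Lw w (x + D)) =
      ∑ x ∈ Icc 1 (X - D), (lam x + Lw w x) * (lam (x + D) + Lw w (x + D)) := by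
    rw [show X + 1 - D = (X - D) + 1 by omega, Finset.range_eq_Ico,
      Finset.sum_eq_sum_Ico_succ_bot (by omega), hw0, zero_mul, zero_add]
    apply Finset.sum_congr _ fun _ _ => rfl
    ext n
    simp only [Finset.mem_Ico, Finset.mem_Icc]
    omega
  have hsum2 : ∑ x ∈ range (X + 1 - D), lam x * lam (x + D) =
      ∑ x ∈ Icc 1 (X - D), lam x * lam (x + D) := by
    have h1 : lam 0 = 0 := by
      unfold lam
      rw [if_neg (by norm_num)]
    rw [show X + 1 - D = (X - D) + 1 by omega, Finset.range_eq_Ico,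
      Finset.sum_eq_sum_Ico_succ_bot (by omega), h1, zero_mul, zero_add]
    apply Finset.sum_congr _ fun _ _ => rfl
    ext n
    simp only [Finset.mem_Ico, Finset.mem_Icc]
    omega
  have hP := fun u v h1 h2 h3 h4 => hpair z hz u v h1 h2 h3 h4 X D hD hDX
  have hsplit : ∑ x ∈ Icc 1 (X - D), (lam x + Lw w x) * (lam (x + D) + Lw w (x + D)) =
      ∑ x ∈ Icc 1 (X - D), lam x * lam (x + D) + ∑ x ∈ Icc 1 (X - D), lam x * Lw w (x + D) +
      ∑ x ∈ Icc 1 (X - D), Lw w x * lam (x + D) +
      ∑ x ∈ Icc 1 (X - D), Lw w x * Lw w (x + D) := by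
    rw [← Finset.sum_add_distrib, ← Finset.sum_add_distrib, ← Finset.sum_add_distrib]
    exact Finset.sum_congr rfl fun x _ => by ring
  have e1 := hll X D hX2 hD hDX
  rw [hsum2] at e1
  have e4 := hP w w hw hwz hw hwz
  have cnt1 : (((Icc 1 (X - D)).filter (fun x => x ≤ z)).card : ℝ) ≤ z + 1 := by
    have h1 : (Icc 1 (X - D)).filter (fun x => x ≤ z) ⊆ range (z + 1) := by
      intro x hx
      rw [mem_filter] at hx
      rw [mem_range]
      omega
    have := Finset.card_le_card h1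
    rw [card_range] at this
    exact_mod_cast this
  have cnt2 : (((Icc 1 (X - D)).filter (fun x => x + D ≤ z)).card : ℝ) ≤ z + 1 := by
    have h1 : (Icc 1 (X - D)).filter (fun x => x + D ≤ z) ⊆ range (z + 1) := by
      intro x hx
      rw [mem_filter] at hx
      rw [mem_range]
      omega
    have := Finset.card_le_card h1
    rw [card_range] at this
    exact_mod_cast this
  have e2 : ∑ x ∈ Icc 1 (X - D), lam x * Lw w (x + D) ≤
      L * V z * ∑ x ∈ Icc 1 (X - D), Lw z x * Lw w (x + D) + ((z : ℝ) + 1) * (L * (V w)⁻¹) := by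
    calc ∑ x ∈ Icc 1 (X - D), lam x * Lw w (x + D)
        ≤ ∑ x ∈ Icc 1 (X - D), (L * V z * (Lw z x * Lw w (x + D)) +
          if x ≤ z then L * (V w)⁻¹ else 0) := by
          refine Finset.sum_le_sum fun x hx => ?_
          rw [Finset.mem_Icc] at hx
          have h1 := lam_le_split (z := z) (n := x) (X := X) (by omega)
          have h2 := mul_le_mul_of_nonneg_right h1 (Lw_nonneg w (x + D))
          refine h2.trans ?_
          rw [add_mul]
          have h3 : (if x ≤ z then Real.log X else 0) * Lw w (x + D) ≤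
              if x ≤ z then L * (V w)⁻¹ else 0 := by
            split_ifs
            · exact mul_le_mul_of_nonneg_left (Lw_le w _) hL0
            · rw [zero_mul]
          have h4 : Real.log X * V z * Lw z x * Lw w (x + D) =
              L * V z * (Lw z x * Lw w (x + D)) := by
            rw [hL]; ring
          rw [h4]
          exact add_le_add le_rfl h3
      _ = L * V z * ∑ x ∈ Icc 1 (X - D), Lw z x * Lw w (x + D) +
          (((Icc 1 (X - D)).filter (fun x => x ≤ z)).card : ℝ) * (L * (V w)⁻¹) := by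
          rw [Finset.sum_add_distrib, ← Finset.mul_sum, ← Finset.sum_filter, Finset.sum_const,
            nsmul_eq_mul]
      _ ≤ _ := by
          have h5 : 0 ≤ L * (V w)⁻¹ := mul_nonneg hL0 (inv_nonneg.2 hVw.le)
          exact add_le_add le_rfl (mul_le_mul_of_nonneg_right cnt1 h5)
  have e3 : ∑ x ∈ Icc 1 (X - D), Lw w x * lam (x + D) ≤
      L * V z * ∑ x ∈ Icc 1 (X - D), Lw w x * Lw z (x + D) + ((z : ℝ) + 1) * (L * (V w)⁻¹) := by
    calc ∑ x ∈ Icc 1 (X - D), Lw w x * lam (x + D)
        ≤ ∑ x ∈ Icc 1 (X - D), (L * V z * (Lw w x * Lw z (x + D)) +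
          if x + D ≤ z then L * (V w)⁻¹ else 0) := by
          refine Finset.sum_le_sum fun x hx => ?_
          rw [Finset.mem_Icc] at hx
          have h1 := lam_le_split (z := z) (n := x + D) (X := X) (by omega)
          have h2 := mul_le_mul_of_nonneg_left h1 (Lw_nonneg w x)
          refine h2.trans ?_
          rw [mul_add]
          have h3 : Lw w x * (if x + D ≤ z then Real.log X else 0) ≤
              if x + D ≤ z then L * (V w)⁻¹ else 0 := by
            split_ifs
            · rw [mul_comm]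
              exact mul_le_mul_of_nonneg_left (Lw_le w _) hL0
            · rw [mul_zero]
          have h4 : Lw w x * (Real.log X * V z * Lw z (x + D)) =
              L * V z * (Lw w x * Lw z (x + D)) := by
            rw [hL]; ring
          rw [h4]
          exact add_le_add le_rfl h3
      _ = L * V z * ∑ x ∈ Icc 1 (X - D), Lw w x * Lw z (x + D) +
          (((Icc 1 (X - D)).filter (fun x => x + D ≤ z)).card : ℝ) * (L * (V w)⁻¹) := by
          rw [Finset.sum_add_distrib, ← Finset.mul_sum, ← Finset.sum_filter, Finset.sum_const,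
            nsmul_eq_mul]
      _ ≤ _ := by
          have h5 : 0 ≤ L * (V w)⁻¹ := mul_nonneg hL0 (inv_nonneg.2 hVw.le)
          exact add_le_add le_rfl (mul_le_mul_of_nonneg_right cnt2 h5)
  have e2' := hP z w hz le_rfl hw hwz
  have e3' := hP w z hw hwz hz le_rfl
  have hK0 : (0 : ℝ) ≤ K := Nat.cast_nonneg K
  have hTX : (X : ℝ) ≤ T * X := by nlinarith
  have hbd : K * T * X + (z : ℝ) ^ K ≤ (K + 1) * (T * X) := by
    have : (z : ℝ) ^ K ≤ T * X := hz1.trans (hSX.trans hTX)
    linarith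
  have hTX0 : 0 ≤ T * (X : ℝ) := by positivity
  have g2 : L * V z * ∑ x ∈ Icc 1 (X - D), Lw z x * Lw w (x + D) ≤
      4 * K * ((K + 1) * (T * X)) :=
    (mul_le_mul_of_nonneg_left (e2'.trans hbd) hVz).trans
      (mul_le_mul_of_nonneg_right hzc (by positivity))
  have g3 : L * V z * ∑ x ∈ Icc 1 (X - D), Lw w x * Lw z (x + D) ≤
      4 * K * ((K + 1) * (T * X)) :=
    (mul_le_mul_of_nonneg_left (e3'.trans hbd) hVz).trans
      (mul_le_mul_of_nonneg_right hzc (by positivity))
  rw [hsum, hsplit]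
  have hfin : (C + 2 * (4 * K * (K + 1) + 1) + (K + 1) + 1) * T * X =
      C * T * X + (4 * K * ((K + 1) * (T * X)) + T * X) + (4 * K * ((K + 1) * (T * X)) + T * X) +
      (K + 1) * (T * X) + T * X := by ring
  rw [hfin]
  linarith [e1, e2, e3, e4, g2, g3, herr, hTX, hbd]

end Pool.Agent.Lib.KM
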