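import Pool.Agent.Lib.MP_7b7e48_nt.KM.Stmts
import Pool.Agent.Lib.MP_7b7e48_nt.GT.ExpTools

/-!
# KM project, module AP: almost periods
-/

open Finset

namespace Pool.Agent.Lib.KM

open Pool.Agent.Lib.GT (e)

namespace AlmostPeriod

open Pool.Agent.Lib.GT (norm_e e_add e_nat e_add_int)
open Pool.Agent.Lib.GT.RE (norm_e_sub_one_le)

theorem norm_e_sub_e (x y : ℝ) : ‖e x - e y‖ ≤ 2 * Real.pi * |x - y| := by
  have h : e x - e y = e y * (e (x - y) - 1) := by
    have : e x = e y * e (x - y) := by rw [← e_add]; congr 1; ring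
    rw [this]; ring
  rw [h, norm_mul, norm_e, one_mul]
  exact norm_e_sub_one_le _

theorem ft_le {N : ℕ} {F : ℕ → ℝ} (hF : ∀ n, |F n| ≤ 1) (x : ℝ) :
    ‖∑ n ∈ range N, (F n : ℂ) * e (x * n)‖ ≤ N := by
  refine (norm_sum_le _ _).trans ?_
  have : ∀ n ∈ range N, ‖(F n : ℂ) * e (x * n)‖ ≤ 1 := by
    intro n _
    rw [norm_mul, norm_e, mul_one, Complex.norm_real, Real.norm_eq_abs]
    exact hF n
  refine (Finset.sum_le_sum this).trans ?_
  simp

theorem ft_lip {N : ℕ} {F : ℕ → ℝ} (hF : ∀ n, |F n| ≤ 1) (x y : ℝ) :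
    ‖∑ n ∈ range N, (F n : ℂ) * e (x * n)‖ ≤
      ‖∑ n ∈ range N, (F n : ℂ) * e (y * n)‖ + 2 * Real.pi * |x - y| * N * N := by
  have h : ‖∑ n ∈ range N, (F n : ℂ) * e (x * n) - ∑ n ∈ range N, (F n : ℂ) * e (y * n)‖ ≤
      2 * Real.pi * |x - y| * N * N := by
    rw [← Finset.sum_sub_distrib]
    refine (norm_sum_le _ _).trans ?_
    have : ∀ n ∈ range N, ‖(F n : ℂ) * e (x * n) - (F n : ℂ) * e (y * n)‖ ≤
        2 * Real.pi * |x - y| * N := by
      intro n hn
      have hn' : (n : ℝ) ≤ N := by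
        exact_mod_cast (Finset.mem_range.mp hn).le
      rw [← mul_sub, norm_mul, Complex.norm_real, Real.norm_eq_abs]
      have h1 := norm_e_sub_e (x * n) (y * n)
      have h2 : |x * n - y * n| = |x - y| * n := by
        rw [← sub_mul, abs_mul, abs_of_nonneg (Nat.cast_nonneg n : (0 : ℝ) ≤ n)]
      rw [h2] at h1
      have hpi := Real.pi_pos
      calc |F n| * ‖e (x * n) - e (y * n)‖ ≤ 1 * (2 * Real.pi * (|x - y| * n)) :=
            mul_le_mul (hF n) h1 (norm_nonneg _) zero_le_one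
        _ = 2 * Real.pi * |x - y| * n := by ring
        _ ≤ 2 * Real.pi * |x - y| * N :=
            mul_le_mul_of_nonneg_left hn' (by positivity)
    refine (Finset.sum_le_sum this).trans ?_
    simp only [Finset.sum_const, Finset.card_range, nsmul_eq_mul]
    exact le_of_eq (by ring)
  have h2 := norm_le_norm_add_norm_sub' (∑ n ∈ range N, (F n : ℂ) * e (x * n))
    (∑ n ∈ range N, (F n : ℂ) * e (y * n))
  linarith

/-- periodicity of the transform -/
theorem ft_fract {N : ℕ} {F : ℕ → ℝ} (x : ℝ) :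
    ∑ n ∈ range N, (F n : ℂ) * e (x * n) = ∑ n ∈ range N, (F n : ℂ) * e (Int.fract x * n) := by
  refine Finset.sum_congr rfl fun n _ => ?_
  congr 1
  have : x * n = Int.fract x * n + ((⌊x⌋ * n : ℤ) : ℝ) := by
    push_cast
    rw [← add_mul, Int.fract_add_floor]
  rw [this, e_add_int]

theorem e_fract (x : ℝ) (b : ℕ) : e (x * b) = e (Int.fract x * b) := by
  have : x * b = Int.fract x * b + ((⌊x⌋ * b : ℤ) : ℝ) := by
    push_cast
    rw [← add_mul, Int.fract_add_floor]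
  rw [this, e_add_int]

end AlmostPeriod

open AlmostPeriod in
/-- AP -/
theorem almostPeriod_of (hS : SpecS) (hB : BohrS) : AlmostPeriodS := by
  intro δ ρ₀ hδ hρ₀ q₀ hq₀
  have hpi := Real.pi_pos
  -- reduce to `ρ ≤ 1`
  set ρ : ℝ := min ρ₀ 1 with hρdef
  have hρ : 0 < ρ := lt_min hρ₀ one_pos
  have hρ1 : ρ ≤ 1 := min_le_right _ _
  have hρ2 : ρ ≤ ρ₀ := min_le_left _ _
  obtain ⟨L, hL⟩ := exists_nat_ge (8 * Real.pi / δ + 1)
  obtain ⟨K, hK⟩ := exists_nat_ge (4 * Real.pi / δ + 1)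
  obtain ⟨D, hD⟩ := exists_nat_ge (16 * (L : ℝ) / δ ^ 2)
  have hL0 : (0 : ℝ) < L := lt_of_lt_of_le (by positivity) hL
  have hK0 : (0 : ℝ) < K := lt_of_lt_of_le (by positivity) hK
  have hLn : 0 < L := by exact_mod_cast hL0
  have hKn : 0 < K := by exact_mod_cast hK0
  have hK1 : (1 : ℝ) ≤ K := by exact_mod_cast hKn
  have hLδ : 2 * Real.pi / L ≤ δ / 4 := by
    rw [div_le_div_iff₀ hL0 (by norm_num)]
    have : 8 * Real.pi / δ * δ = 8 * Real.pi := by field_simp
    nlinarith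
  have hKδ : 2 * Real.pi / K ≤ δ / 2 := by
    rw [div_le_div_iff₀ hK0 (by norm_num)]
    have : 4 * Real.pi / δ * δ = 4 * Real.pi := by field_simp
    nlinarith
  have hq : (0 : ℝ) < q₀ := by exact_mod_cast hq₀
  have hKD : (0 : ℝ) < (K : ℝ) ^ D := by positivity
  set c : ℝ := ρ / (2 * q₀ * (K : ℝ) ^ D) with hc
  have hc0 : 0 < c := by positivity
  obtain ⟨N₀, hN₀⟩ := exists_nat_ge (1 / c + 1)
  refine ⟨q₀ * c, by positivity, N₀, fun N hN F hF => ?_⟩
  have hNr : 1 / c + 1 ≤ (N : ℝ) := hN₀.trans (by exact_mod_cast hN)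
  have hcN : 1 ≤ c * N := by
    have : 1 / c ≤ N := by linarith
    rw [div_le_iff₀ hc0] at this
    linarith
  have hNpos : (0 : ℝ) < N := by
    have : 0 < 1 / c := by positivity
    linarith
  have hNn : 0 < N := by exact_mod_cast hNpos
  have hspec := hS N L hNn hLn F hF (δ / 4) (by positivity)
  set Sp : Finset ℕ := (range (L * N)).filter (fun j : ℕ =>
    δ / 4 * N ≤ ‖∑ n ∈ range N, (F n : ℂ) * e ((j : ℝ) / (L * N) * n)‖) with hSp
  have hSpD : Sp.card ≤ D := by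
    have h1 : (Sp.card : ℝ) ≤ D := by
      refine hspec.trans ?_
      have : (L : ℝ) / (δ / 4) ^ 2 = 16 * L / δ ^ 2 := by
        field_simp
        norm_num
      rw [this]
      exact hD
    exact_mod_cast h1
  classical
  set Θ : Finset ℝ := Sp.image (fun j : ℕ => (q₀ : ℝ) * ((j : ℝ) / (L * N))) with hΘ
  have hΘD : Θ.card ≤ D := Finset.card_image_le.trans hSpD
  set M : ℕ := ⌊ρ * N / q₀⌋₊ with hM
  have hMge : ρ * N / q₀ ≤ (M : ℝ) + 1 := (Nat.lt_floor_add_one _).le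
  have hMle : (M : ℝ) ≤ ρ * N / q₀ := Nat.floor_le (by positivity)
  have hbohr := hB Θ K M hKn
  set B : Finset ℕ := (range (M + 1)).filter (fun t : ℕ => ∀ θ ∈ Θ,
    ‖e (θ * t) - 1‖ ≤ 2 * Real.pi / K) with hBdef
  have hBcard : 2 * c * N ≤ (B.card : ℝ) := by
    refine le_trans ?_ hbohr
    have h1 : ((M : ℝ) + 1) / (K : ℝ) ^ D ≤ ((M : ℝ) + 1) / (K : ℝ) ^ Θ.card :=
      div_le_div_of_nonneg_left (by positivity) (by positivity)
        (pow_le_pow_right₀ hK1 hΘD)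
    refine le_trans ?_ h1
    rw [le_div_iff₀ hKD]
    have : 2 * c * N * (K : ℝ) ^ D = ρ * N / q₀ := by
      rw [hc]; field_simp
    rw [this]
    exact hMge
  have hBne : B.Nonempty := by
    rw [← Finset.card_pos]
    have : (0 : ℝ) < B.card := by nlinarith
    exact_mod_cast this
  set t₁ : ℕ := B.max' hBne with ht₁
  have ht₁B : t₁ ∈ B := Finset.max'_mem B hBne
  have hBsub : B ⊆ range (t₁ + 1) := by
    intro t ht
    rw [Finset.mem_range]
    exact Nat.lt_succ_of_le (Finset.le_max' B t ht)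
  have ht₁ge : c * N ≤ (t₁ : ℝ) := by
    have h1 : B.card ≤ t₁ + 1 := by
      have := Finset.card_le_card hBsub
      simpa using this
    have h2 : (B.card : ℝ) ≤ t₁ + 1 := by exact_mod_cast h1
    linarith
  have ht₁M : t₁ ≤ M := by
    have := (Finset.mem_filter.mp ht₁B).1
    rw [Finset.mem_range] at this
    omega
  have ht₁e := (Finset.mem_filter.mp ht₁B).2
  refine ⟨q₀ * t₁, ?_, Dvd.intro _ rfl, ?_, ?_, fun α => ?_⟩
  · have : (0 : ℝ) < t₁ := by linarith
    exact Nat.mul_pos hq₀ (by exact_mod_cast this)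
  · push_cast
    rw [mul_assoc]
    exact mul_le_mul_of_nonneg_left ht₁ge hq.le
  · push_cast
    have h1 : (t₁ : ℝ) ≤ ρ * N / q₀ := le_trans (by exact_mod_cast ht₁M) hMle
    rw [le_div_iff₀ hq] at h1
    calc (q₀ : ℝ) * t₁ = t₁ * q₀ := by ring
      _ ≤ ρ * N := h1
      _ ≤ ρ₀ * N := mul_le_mul_of_nonneg_right hρ2 hNpos.le
  · have hbρ : ((q₀ * t₁ : ℕ) : ℝ) ≤ N := by
      push_cast
      have h1 : (t₁ : ℝ) ≤ ρ * N / q₀ := le_trans (by exact_mod_cast ht₁M) hMle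
      rw [le_div_iff₀ hq] at h1
      nlinarith
    rw [ft_fract α, e_fract α]
    set x : ℝ := Int.fract α with hx
    have hx0 : 0 ≤ x := Int.fract_nonneg α
    have hx1 : x < 1 := Int.fract_lt_one α
    have hLN : (0 : ℝ) < (L : ℝ) * N := by positivity
    rcases le_or_gt (‖∑ n ∈ range N, (F n : ℂ) * e (x * n)‖) (δ / 2 * N) with hsmall | hbig
    · have h2 : ‖e (x * ((q₀ * t₁ : ℕ) : ℝ)) - 1‖ ≤ 2 := by
        refine (norm_sub_le _ _).trans ?_
        rw [Pool.Agent.Lib.GT.norm_e, norm_one]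
        norm_num
      calc _ ≤ δ / 2 * N * 2 := mul_le_mul hsmall h2 (norm_nonneg _) (by positivity)
        _ = δ * N := by ring
    · set j : ℕ := ⌊x * (L * N)⌋₊ with hj
      have hj1 : (j : ℝ) ≤ x * (L * N) := Nat.floor_le (by positivity)
      have hj2 : x * (L * N) < j + 1 := Nat.lt_floor_add_one _
      have hjx : |x - (j : ℝ) / (L * N)| ≤ 1 / (L * N) := by
        rw [abs_le]
        constructor
        · have : (j : ℝ) / (L * N) ≤ x := by rwa [div_le_iff₀ hLN]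
          have h3 : 0 < 1 / ((L : ℝ) * N) := by positivity
          linarith
        · have : x ≤ ((j : ℝ) + 1) / (L * N) := by
            rw [le_div_iff₀ hLN]; exact hj2.le
          rw [add_div] at this
          linarith
      have hjmem : j ∈ range (L * N) := by
        rw [Finset.mem_range]
        have : (j : ℝ) < ((L * N : ℕ) : ℝ) := by
          push_cast
          calc (j : ℝ) ≤ x * (L * N) := hj1
            _ < 1 * (L * N) := mul_lt_mul_of_pos_right hx1 hLN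
            _ = _ := one_mul _
        exact_mod_cast this
      have hjSp : j ∈ Sp := by
        rw [hSp, Finset.mem_filter]
        refine ⟨hjmem, ?_⟩
        have h3 := ft_lip (N := N) hF x ((j : ℝ) / (L * N))
        have h4 : 2 * Real.pi * |x - (j : ℝ) / (L * N)| * N * N ≤ δ / 4 * N := by
          calc 2 * Real.pi * |x - (j : ℝ) / (L * N)| * N * N
              ≤ 2 * Real.pi * (1 / (L * N)) * N * N := by gcongr
            _ = 2 * Real.pi / L * N := by field_simp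
            _ ≤ δ / 4 * N := mul_le_mul_of_nonneg_right hLδ hNpos.le
        linarith
      have hθ := ht₁e ((q₀ : ℝ) * ((j : ℝ) / (L * N))) (Finset.mem_image_of_mem _ hjSp)
      have h5 : (q₀ : ℝ) * ((j : ℝ) / (L * N)) * t₁ =
          (j : ℝ) / (L * N) * ((q₀ * t₁ : ℕ) : ℝ) := by push_cast; ring
      rw [h5] at hθ
      have h6 := norm_e_sub_e (x * ((q₀ * t₁ : ℕ) : ℝ)) ((j : ℝ) / (L * N) * ((q₀ * t₁ : ℕ) : ℝ))
      have h7 : |x * ((q₀ * t₁ : ℕ) : ℝ) - (j : ℝ) / (L * N) * ((q₀ * t₁ : ℕ) : ℝ)| ≤ 1 / L := by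
        rw [← sub_mul, abs_mul, abs_of_nonneg (Nat.cast_nonneg (q₀ * t₁) : (0 : ℝ) ≤ _)]
        calc |x - (j : ℝ) / (L * N)| * ((q₀ * t₁ : ℕ) : ℝ) ≤ 1 / (L * N) * N :=
              mul_le_mul hjx hbρ (Nat.cast_nonneg _) (by positivity)
          _ = 1 / L := by field_simp
      have h8 : ‖e (x * ((q₀ * t₁ : ℕ) : ℝ)) - 1‖ ≤ δ := by
        have h9 : ‖e (x * ((q₀ * t₁ : ℕ) : ℝ)) - 1‖ ≤
            ‖e (x * ((q₀ * t₁ : ℕ) : ℝ)) - e ((j : ℝ) / (L * N) * ((q₀ * t₁ : ℕ) : ℝ))‖ +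
              ‖e ((j : ℝ) / (L * N) * ((q₀ * t₁ : ℕ) : ℝ)) - 1‖ := norm_sub_le_norm_sub_add_norm_sub _ _ _
        have h10 : 2 * Real.pi * |x * ((q₀ * t₁ : ℕ) : ℝ) -
            (j : ℝ) / (L * N) * ((q₀ * t₁ : ℕ) : ℝ)| ≤ 2 * Real.pi * (1 / L) :=
          mul_le_mul_of_nonneg_left h7 (by positivity)
        have h11 : 2 * Real.pi * (1 / L) = 2 * Real.pi / L := by ring
        linarith
      calc _ ≤ (N : ℝ) * δ := mul_le_mul (ft_le hF x) h8 (norm_nonneg _) hNpos.le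
        _ = δ * N := mul_comm _ _

end Pool.Agent.Lib.KM
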