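import Pool.Agent.Lib.MP_7b7e48_nt.KM.Stmts
import Pool.Agent.Lib.MP_7b7e48_nt.GT.ExpTools

/-!
# KM project, module BOHR: Bohr sets are large
-/

open Finset

namespace Pool.Agent.Lib.KM

open Pool.Agent.Lib.GT (e e_add_int)

namespace Bohr

/-- the cell of `t` -/
noncomputable def cell (Θ : Finset ℝ) (K : ℕ) (hK : 0 < K) (t : ℕ) : Θ → Fin K := fun θ =>
  ⟨⌊(K : ℝ) * Int.fract ((θ : ℝ) * t)⌋₊, by
    have hK' : (0 : ℝ) < K := by exact_mod_cast hK
    rw [Nat.floor_lt (mul_nonneg hK'.le (Int.fract_nonneg _))]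
    exact mul_lt_of_lt_one_right hK' (Int.fract_lt_one _)⟩

theorem near_of_cell {Θ : Finset ℝ} {K : ℕ} {hK : 0 < K} {s t : ℕ} (hst : s ≤ t)
    (h : cell Θ K hK s = cell Θ K hK t) (θ : ℝ) (hθ : θ ∈ Θ) :
    ‖e (θ * ((t - s : ℕ) : ℝ)) - 1‖ ≤ 2 * Real.pi / K := by
  have hK' : (0 : ℝ) < K := by exact_mod_cast hK
  have h1 := congrFun h ⟨θ, hθ⟩
  have h2 : ⌊(K : ℝ) * Int.fract (θ * s)⌋₊ = ⌊(K : ℝ) * Int.fract (θ * t)⌋₊ :=
    congrArg Fin.val h1
  have a1 := Nat.floor_le (mul_nonneg hK'.le (Int.fract_nonneg (θ * s)))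
  have a2 := Nat.lt_floor_add_one ((K : ℝ) * Int.fract (θ * s))
  have b1 := Nat.floor_le (mul_nonneg hK'.le (Int.fract_nonneg (θ * t)))
  have b2 := Nat.lt_floor_add_one ((K : ℝ) * Int.fract (θ * t))
  rw [← h2] at b1 b2
  have e1 : θ * ((t - s : ℕ) : ℝ) = (Int.fract (θ * t) - Int.fract (θ * s)) +
      ((⌊θ * t⌋ - ⌊θ * s⌋ : ℤ) : ℝ) := by
    rw [Nat.cast_sub hst]
    have := Int.fract_add_floor (θ * t)
    have := Int.fract_add_floor (θ * s)
    push_cast
    linarith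
  rw [e1, e_add_int]
  refine (Pool.Agent.Lib.GT.RE.norm_e_sub_one_le _).trans ?_
  rw [mul_div_assoc, div_eq_mul_one_div Real.pi, ← mul_assoc]
  refine mul_le_mul_of_nonneg_left ?_ (by positivity)
  rw [le_div_iff₀ hK', ← abs_of_pos hK', ← abs_mul, abs_le]
  constructor <;> nlinarith

end Bohr

open Bohr in
theorem bohr_holds : BohrS := by
  intro Θ K M hK
  have hK' : (0 : ℝ) < K := by exact_mod_cast hK
  have hcard : Fintype.card (Θ → Fin K) = K ^ Θ.card := by
    rw [Fintype.card_fun, Fintype.card_fin, Fintype.card_coe]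
  obtain ⟨y, _, hy⟩ := exists_le_card_fiber_of_nsmul_le_card_of_maps_to (M := ℝ)
    (s := range (M + 1)) (t := (Finset.univ : Finset (Θ → Fin K))) (f := cell Θ K hK)
    (b := ((M : ℝ) + 1) / (K : ℝ) ^ Θ.card) (fun _ _ => mem_univ _)
    ⟨fun _ => ⟨0, hK⟩, mem_univ _⟩ (by
      rw [card_univ, hcard, nsmul_eq_mul, card_range]
      push_cast
      rw [mul_div_cancel₀]
      positivity)
  refine hy.trans ?_
  set S := (range (M + 1)).filter (fun x => cell Θ K hK x = y) with hS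
  have hSne : S.Nonempty := by
    rw [nonempty_iff_ne_empty]
    intro h0
    rw [h0, card_empty] at hy
    have : 0 < ((M : ℝ) + 1) / (K : ℝ) ^ Θ.card := by positivity
    simp only [Nat.cast_zero] at hy
    linarith
  set s := S.min' hSne with hs
  have hsS : s ∈ S := S.min'_mem hSne
  have hle : ∀ t ∈ S, s ≤ t := fun t ht => S.min'_le t ht
  norm_cast
  refine card_le_card_of_injOn (fun t => t - s) (fun t ht => ?_) (fun t ht t' ht' h => ?_)
  · have ht1 := mem_filter.1 (Finset.mem_coe.1 ht)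
    have hs1 := mem_filter.1 hsS
    have hst := hle t (Finset.mem_coe.1 ht)
    refine mem_coe.2 (mem_filter.2 ⟨mem_range.2 ?_, fun θ hθ => ?_⟩)
    · have := mem_range.1 ht1.1
      show t - s < M + 1
      omega
    · exact near_of_cell hst (hs1.2.trans ht1.2.symm) θ hθ
  · have h1 := hle t (Finset.mem_coe.1 ht)
    have h2 := hle t' (Finset.mem_coe.1 ht')
    have h3 : t - s = t' - s := h
    omega

end Pool.Agent.Lib.KM
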