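import Pool.Agent.Lib.MP_7b7e48_nt.KM.Stmts
import Pool.Agent.Lib.MP_7b7e48_nt.GT.ClassUniform
import Pool.Agent.Lib.MP_7b7e48_nt.GT.UniformFinal

/-!
# KM project, module C2: the primes in a class mod `W`
-/

open Finset

namespace Pool.Agent.Lib.KM

namespace ClsUnif

open Pool.Agent.Lib.GT

/-- indicator of a class -/
noncomputable def om (W b n : ℕ) : ℝ := if n % W = b then 1 else 0

theorem om_periodic (W b n : ℕ) : om W b (n + W) = om W b n := by
  unfold om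
  rw [Nat.add_mod_right]

theorem abs_om_le (W b n : ℕ) : |om W b n| ≤ 1 := by
  unfold om
  split_ifs <;> simp

/-- reindexing -/
theorem sum_class {W b M : ℕ} (hb0 : 0 < b) (hbW : b < W) (g : ℕ → ℝ) (θ : ℝ) :
    ∑ n ∈ Ioc 0 (W * M), ((om W b n * g n : ℝ) : ℂ) * e (θ / W * n) =
      e (θ / W * b) * ∑ m ∈ range M, (g (W * m + b) : ℂ) * e (θ * m) := by
  have hW : 0 < W := by omega
  have hWR : (W : ℝ) ≠ 0 := by exact_mod_cast hW.ne'
  set F : ℕ → ℂ := fun n => ((om W b n * g n : ℝ) : ℂ) * e (θ / W * n) with hF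
  have h0 : F 0 = 0 := by
    simp only [hF, om]
    rw [if_neg (by rw [Nat.zero_mod]; omega)]
    simp
  have hlast : F (W * M) = 0 := by
    simp only [hF, om]
    rw [if_neg (by rw [Nat.mul_mod_right]; omega)]
    simp
  have h1 : ∑ n ∈ Ioc 0 (W * M), F n = ∑ n ∈ range (W * M), F n := by
    have h2 : Ioc 0 (W * M) = Icc 1 (W * M) := by
      ext n
      simp only [mem_Ioc, mem_Icc]
      omega
    rw [h2, sum_Icc_eq_range h0, Finset.sum_range_succ, hlast, add_zero]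
  rw [h1, sum_range_mul_block, Finset.mul_sum]
  refine Finset.sum_congr rfl fun m _ => ?_
  rw [Finset.sum_eq_single b]
  · simp only [hF, om]
    rw [if_pos (by rw [Nat.mul_add_mod, Nat.mod_eq_of_lt hbW]), one_mul]
    rw [show θ / W * ((W * m + b : ℕ) : ℝ) = θ / W * b + θ * m by push_cast; field_simp; ring,
      e_add]
    ring
  · intro c hc hcb
    simp only [hF, om]
    rw [if_neg (by rw [Nat.mul_add_mod, Nat.mod_eq_of_lt (mem_range.mp hc)]; exact hcb)]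
    simp
  · intro h
    exact absurd (mem_range.mpr hbW) h

theorem exists_large (C : ℝ) (hC : 0 < C) (δ : ℝ) (hδ : 0 < δ) (w : ℕ) :
    ∃ w₃ : ℕ, w ≤ w₃ ∧ C * (w₃ : ℝ) ^ (-(1 / 3) : ℝ) ≤ δ := by
  have h1 := (tendsto_rpow_neg_atTop (y := (1 / 3 : ℝ)) (by norm_num)).comp
    (tendsto_natCast_atTop_atTop (R := ℝ))
  have h2 : ∀ᶠ n : ℕ in Filter.atTop, (n : ℝ) ^ (-(1 / 3) : ℝ) < δ / C := by
    have := h1.eventually (gt_mem_nhds (show (0 : ℝ) < δ / C by positivity))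
    exact this
  obtain ⟨n, hn1, hn2⟩ := (h2.and (Filter.eventually_ge_atTop w)).exists
  refine ⟨n, hn2, ?_⟩
  rw [lt_div_iff₀ hC] at hn1
  linarith

end ClsUnif

open ClsUnif Pool.Agent.Lib.GT in
/-- C2 -/
theorem clsUniform_of (hR : RoughClsS) : ClsUniformS := by
  intro τ hτ
  obtain ⟨C, hC, hU⟩ := uniform
  obtain ⟨w₀, hw₀⟩ := exists_nat_ge (16 / τ)
  refine ⟨max w₀ 2, fun w hw W hW => ?_⟩
  have hw2 : 2 ≤ w := (le_max_right _ _).trans hw
  have hwR : (0 : ℝ) < w := by exact_mod_cast (by omega : 0 < w)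
  have hwτ : 4 / (w : ℝ) ≤ τ / 4 := by
    have h1 : 16 / τ ≤ w := hw₀.trans (by exact_mod_cast (le_max_left _ _).trans hw)
    rw [div_le_iff₀ hτ] at h1
    rw [div_le_iff₀ hwR]
    linarith
  have hW0 : 0 < W := hW.1
  have hWR : (0 : ℝ) < W := by exact_mod_cast hW0
  have h2W : 2 ∣ W := (hW.2 2 Nat.prime_two).mpr hw2
  obtain ⟨w₃, hw₃, hsmall⟩ := exists_large C hC (τ / (8 * W ^ 2)) (by positivity) w
  obtain ⟨N₁, hN₁⟩ := hR w w₃ W hw2 hw₃ hW (τ / 4) (by positivity)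
  obtain ⟨X₀, hX₀⟩ := hU w₃ (hw2.trans hw₃) (τ / (8 * W ^ 2)) (by positivity)
  refine ⟨max N₁ X₀, fun N hN b hbW hb M hM θ => ?_⟩
  have hb0 : 0 < b := by
    rcases Nat.eq_zero_or_pos b with h | h
    · rw [h, Nat.coprime_zero_left] at hb
      rw [hb] at h2W
      omega
    · exact h
  have hXN : X₀ ≤ W * N :=
    ((le_max_right _ _).trans hN).trans (Nat.le_mul_of_pos_left N hW0)
  have hE := hX₀ (W * N) hXN
  have hcls := class_uniform (W := W) (X := W * N) (B := 1)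
    (E := (C * (w₃ : ℝ) ^ (-(1 / 3) : ℝ) + τ / (8 * W ^ 2)) * ((W * N : ℕ) : ℝ)) hW0
    (g := fun n => lam n - Lw w₃ n) hE (om := om W b) (om_periodic W b) (abs_om_le W b)
    (s := 0) (t := W * M) (Nat.zero_le _) (Nat.mul_le_mul_left W hM) (θ / W)
  rw [sum_class hb0 hbW, norm_mul, norm_e, one_mul] at hcls
  have hNR : (0 : ℝ) ≤ N := Nat.cast_nonneg N
  have hfirst : ‖∑ m ∈ range M, ((lam (W * m + b) - Lw w₃ (W * m + b) : ℝ) : ℂ) * e (θ * m)‖ ≤
      τ / 2 * N := by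
    refine hcls.trans ?_
    calc 2 * 1 * W * ((C * (w₃ : ℝ) ^ (-(1 / 3) : ℝ) + τ / (8 * W ^ 2)) * ((W * N : ℕ) : ℝ))
        ≤ 2 * 1 * W * ((τ / (8 * W ^ 2) + τ / (8 * W ^ 2)) * ((W * N : ℕ) : ℝ)) := by gcongr
      _ = τ / 2 * N := by
          push_cast
          field_simp
          ring
  have hsecond := hN₁ N ((le_max_left _ _).trans hN) b hbW hb M hM θ
  have hsplit : ∑ m ∈ range M, ((V w * lam (W * m + b) - 1 : ℝ) : ℂ) * e (θ * m) =
      (V w : ℂ) * ∑ m ∈ range M, ((lam (W * m + b) - Lw w₃ (W * m + b) : ℝ) : ℂ) * e (θ * m) +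
      ∑ m ∈ range M, ((V w * Lw w₃ (W * m + b) - 1 : ℝ) : ℂ) * e (θ * m) := by
    rw [Finset.mul_sum, ← Finset.sum_add_distrib]
    refine Finset.sum_congr rfl fun m _ => ?_
    push_cast
    ring
  have hV0 := V_pos w
  have hV1 : V w ≤ 1 := V_le_one w
  show ‖∑ m ∈ range M, ((V w * lam (W * m + b) - 1 : ℝ) : ℂ) * e (θ * m)‖ ≤ τ * N
  rw [hsplit]
  calc _ ≤ _ := norm_add_le _ _
    _ ≤ V w * (τ / 2 * N) + (4 / w + τ / 4) * N := by
        refine add_le_add ?_ hsecond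
        rw [norm_mul, Complex.norm_real, Real.norm_eq_abs, abs_of_pos hV0]
        exact mul_le_mul_of_nonneg_left hfirst hV0.le
    _ ≤ 1 * (τ / 2 * N) + (τ / 4 + τ / 4) * N := by
        gcongr
    _ = τ * N := by ring

end Pool.Agent.Lib.KM
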