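import Pool.Agent.Lib.MP_7b7e48_nt.KM.Stmts
import Pool.Agent.Lib.MP_7b7e48_nt.GT.ExpTools

/-!
# D2: the dense model theorem
-/

open Finset

namespace Pool.Agent.Lib.KM

open Pool.Agent.Lib.GT (e lam Lw V pr Tw Rough)

namespace DenseModel

theorem grid {M : ℕ} (hM : 0 < M) (θ : ℝ) : ∃ j ∈ range M, ∃ k : ℤ, ∃ ρ : ℝ, 0 ≤ ρ ∧
    ρ * M ≤ 1 ∧ θ = k + ((j : ℝ) / M + ρ) := by
  have hMR : (0 : ℝ) < M := by exact_mod_cast hM
  have h0 := Int.fract_nonneg θ
  have h1 := Int.fract_lt_one θ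
  have h2 : 0 ≤ Int.fract θ * M := by positivity
  refine ⟨⌊Int.fract θ * M⌋₊, ?_, ⌊θ⌋, Int.fract θ - (⌊Int.fract θ * M⌋₊ : ℝ) / M, ?_, ?_, ?_⟩
  · rw [Finset.mem_range, Nat.floor_lt h2]
    nlinarith
  · have h3 := Nat.floor_le h2
    rw [sub_nonneg, div_le_iff₀ hMR]
    exact h3
  · have h3 := Nat.lt_floor_add_one (Int.fract θ * M)
    rw [sub_mul, div_mul_cancel₀ _ hMR.ne']
    linarith
  · have h3 := Int.floor_add_fract θ
    linarith

theorem e_shift (k : ℤ) (y : ℝ) (n : ℕ) : e ((k + y) * n) = e (y * n) := by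
  rw [show (k + y) * (n : ℝ) = y * n + ((k * n : ℤ) : ℝ) by push_cast; ring,
    Pool.Agent.Lib.GT.e_add_int]

theorem e_diff (y ρ : ℝ) (hρ : 0 ≤ ρ) (n : ℕ) :
    ‖e ((y + ρ) * n) - e (y * n)‖ ≤ 2 * Real.pi * (ρ * n) := by
  rw [show (y + ρ) * (n : ℝ) = y * n + ρ * n by ring, Pool.Agent.Lib.GT.e_add,
    show e (y * n) * e (ρ * n) - e (y * n) = e (y * n) * (e (ρ * n) - 1) by ring, norm_mul,
    Pool.Agent.Lib.GT.norm_e, one_mul]
  have h := Pool.Agent.Lib.GT.RE.norm_e_sub_one_le (ρ * n)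
  rwa [abs_of_nonneg (by positivity)] at h

theorem mass {f ν : ℕ → ℝ} {N : ℕ} {τ : ℝ} (hf : ∀ n, 0 ≤ f n ∧ f n ≤ ν n)
    (hps : PsRand ν N τ) (hτ : τ ≤ 1) : ∑ n ∈ range N, f n ≤ 2 * N := by
  have h2 := hps N le_rfl 0
  have h3 : ∑ n ∈ range N, ((ν n - 1 : ℝ) : ℂ) * e (0 * n) =
      ((∑ n ∈ range N, (ν n - 1) : ℝ) : ℂ) := by
    rw [Complex.ofReal_sum]
    refine Finset.sum_congr rfl fun n _ => ?_
    rw [zero_mul, Pool.Agent.Lib.GT.e_zero, mul_one]
  rw [h3, Complex.norm_real, Real.norm_eq_abs, Finset.sum_sub_distrib] at h2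
  have h4 := (abs_le.1 h2).2
  simp only [Finset.sum_const, Finset.card_range, nsmul_eq_mul, mul_one] at h4
  have h5 : ∑ n ∈ range N, f n ≤ ∑ n ∈ range N, ν n := Finset.sum_le_sum fun n _ => (hf n).2
  have h6 : (0 : ℝ) ≤ N := Nat.cast_nonneg _
  nlinarith

theorem lip {f : ℕ → ℝ} (hf : ∀ n, 0 ≤ f n) {N : ℕ} (y ρ B : ℝ) (hρ : 0 ≤ ρ)
    (hB : ∀ n < N, 2 * Real.pi * (ρ * n) ≤ B) :
    ‖∑ n ∈ range N, (f n : ℂ) * e ((y + ρ) * n) - ∑ n ∈ range N, (f n : ℂ) * e (y * n)‖ ≤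
      (∑ n ∈ range N, f n) * B := by
  rw [← Finset.sum_sub_distrib, Finset.sum_mul]
  refine norm_sum_le_of_le _ fun n hn => ?_
  rw [← mul_sub, norm_mul, Complex.norm_real, Real.norm_eq_abs, abs_of_nonneg (hf n)]
  exact mul_le_mul_of_nonneg_left ((e_diff y ρ hρ n).trans (hB n (Finset.mem_range.1 hn))) (hf n)

end DenseModel

open DenseModel in
/-- D2 -/
theorem denseModel_of : SpecPRS → BohrS → SmoothS → DenseModelS := by
  classical
  intro hspec hbohr hsmooth η hη q₀ hq₀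
  set e₁ : ℝ := min η 1 / 16 with he₁
  have he₁0 : 0 < e₁ := by positivity
  have he₁η : 16 * e₁ ≤ η := by
    rw [he₁]
    have := min_le_left η 1
    linarith
  have he₁1 : e₁ ≤ 1 / 16 := by
    rw [he₁]
    have := min_le_right η 1
    linarith
  have hpi := Real.pi_pos
  set L : ℕ := ⌈16 * Real.pi / e₁⌉₊ + 1 with hL
  have hL0 : 0 < L := Nat.succ_pos _
  have hLR : 16 * Real.pi / e₁ ≤ L := by
    have := Nat.le_ceil (16 * Real.pi / e₁)
    rw [hL]
    push_cast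
    linarith
  have hLpos : (0 : ℝ) < L := by exact_mod_cast hL0
  have hLe : 2 * Real.pi / L ≤ e₁ / 8 := by
    rw [div_le_iff₀ hLpos]
    rw [div_le_iff₀ he₁0] at hLR
    linarith
  set D : ℕ := ⌊64 * (L : ℝ) / e₁ ^ 4⌋₊ with hD
  have hq₀R : (0 : ℝ) < q₀ := by exact_mod_cast hq₀
  set c₁ : ℝ := e₁ / (8 * q₀ * (L : ℝ) ^ D) with hc₁
  have hc₁0 : 0 < c₁ := by positivity
  set τ : ℝ := min (e₁ / 4) (min (e₁ ^ 2 / 4) (e₁ * c₁)) with hτ
  have hτ0 : 0 < τ := by positivity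
  have hτ1 : τ ≤ e₁ / 4 := min_le_left _ _
  have hτ2 : τ ≤ e₁ ^ 2 / 4 := (min_le_right _ _).trans (min_le_left _ _)
  have hτ3 : τ ≤ e₁ * c₁ := (min_le_right _ _).trans (min_le_right _ _)
  refine ⟨τ, hτ0, ⌈8 / e₁⌉₊, ?_⟩
  intro N hN f ν hf hps
  have hNe : 8 / e₁ ≤ N := (Nat.le_ceil _).trans (by exact_mod_cast hN)
  have hNe' : 8 ≤ e₁ * N := by
    rw [div_le_iff₀ he₁0] at hNe
    linarith
  have hNR : (0 : ℝ) < N := by
    by_contra hc
    have : (N : ℝ) ≤ 0 := not_lt.1 hc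
    nlinarith
  have hN0 : 0 < N := by exact_mod_cast hNR
  have hf0 : ∀ n, 0 ≤ f n := fun n => (hf n).1
  have hfmass : ∑ n ∈ range N, f n ≤ 2 * N := mass hf hps (by linarith)
  -- the spectrum
  set Sp := (range (L * N)).filter (fun j : ℕ =>
    e₁ * N ≤ ‖∑ n ∈ range N, (f n : ℂ) * e ((j : ℝ) / (L * N) * n)‖) with hSp
  have hSpc : (Sp.card : ℝ) ≤ 64 * L / e₁ ^ 4 :=
    hspec N L hN0 hL0 f ν hf e₁ τ he₁0 (by linarith) hτ0.le (by linarith) hps
  have hSpD : Sp.card ≤ D := Nat.le_floor hSpc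
  -- the range of the shifts
  set R : ℕ := ⌊e₁ * N / 4⌋₊ with hR
  have hRle : (R : ℝ) ≤ e₁ * N / 4 := Nat.floor_le (by positivity)
  have hRge : e₁ * N / 8 ≤ R := by
    have := Nat.lt_floor_add_one (e₁ * N / 4)
    rw [← hR] at this
    linarith
  have hR1 : 1 ≤ R := by
    have : (0 : ℝ) < R := by linarith
    exact_mod_cast this
  have hRN : R ≤ N := by
    have : (R : ℝ) ≤ N := by nlinarith
    exact_mod_cast this
  set M : ℕ := (R - 1) / q₀ with hM
  have hM1 : q₀ * M < R := by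
    have := Nat.mul_div_le (R - 1) q₀
    rw [← hM] at this
    omega
  have hM2 : R ≤ q₀ * (M + 1) := by
    have := Nat.lt_mul_div_succ (R - 1) hq₀
    rw [← hM] at this
    omega
  -- the Bohr set
  set Θ : Finset ℝ := Sp.image (fun j : ℕ => (j : ℝ) / (L * N) * q₀) with hΘ
  set Bo := (range (M + 1)).filter (fun t : ℕ => ∀ θ ∈ Θ, ‖e (θ * t) - 1‖ ≤ 2 * Real.pi / L)
    with hBo
  have hBoc : ((M : ℝ) + 1) / (L : ℝ) ^ Θ.card ≤ Bo.card := hbohr Θ L M hL0
  set Λ : Finset ℕ := Bo.image (fun t => q₀ * t) with hΛ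
  have hΛc : Λ.card = Bo.card := Finset.card_image_of_injective _ fun a b h =>
    Nat.eq_of_mul_eq_mul_left hq₀ h
  have hL1 : (1 : ℝ) ≤ L := by exact_mod_cast hL0
  have hΛge : c₁ * N ≤ Λ.card := by
    rw [hΛc]
    refine le_trans ?_ hBoc
    have h1 : Θ.card ≤ D := (Finset.card_image_le).trans hSpD
    have h2 : (L : ℝ) ^ Θ.card ≤ (L : ℝ) ^ D := pow_le_pow_right₀ hL1 h1
    have h3 : ((M : ℝ) + 1) / (L : ℝ) ^ D ≤ ((M : ℝ) + 1) / (L : ℝ) ^ Θ.card :=
      div_le_div_of_nonneg_left (by positivity) (by positivity) h2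
    refine le_trans ?_ h3
    have h4 : (R : ℝ) ≤ q₀ * ((M : ℝ) + 1) := by exact_mod_cast hM2
    rw [hc₁, le_div_iff₀ (by positivity), div_mul_eq_mul_div, div_mul_eq_mul_div,
      div_le_iff₀ (by positivity)]
    have h5 : (0 : ℝ) < (L : ℝ) ^ D := by positivity
    have h6 : e₁ * N ≤ 8 * (q₀ * ((M : ℝ) + 1)) := by linarith
    calc e₁ * N * (L : ℝ) ^ D ≤ 8 * (q₀ * ((M : ℝ) + 1)) * (L : ℝ) ^ D :=
          mul_le_mul_of_nonneg_right h6 h5.le
      _ = ((M : ℝ) + 1) * (8 * q₀ * (L : ℝ) ^ D) := by ring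
  have hΛpos : (0 : ℝ) < Λ.card := lt_of_lt_of_le (by positivity) hΛge
  have hΛne : Λ.Nonempty := by
    rw [← Finset.card_pos]
    exact_mod_cast hΛpos
  have hΛR : ∀ t ∈ Λ, t < R := by
    intro t ht
    rw [hΛ, Finset.mem_image] at ht
    obtain ⟨u, hu, rfl⟩ := ht
    rw [hBo, Finset.mem_filter, Finset.mem_range] at hu
    have : q₀ * u ≤ q₀ * M := Nat.mul_le_mul_left _ (by omega)
    omega
  have hΛq : ∀ t ∈ Λ, q₀ ∣ t := by
    intro t ht
    rw [hΛ, Finset.mem_image] at ht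
    obtain ⟨u, hu, rfl⟩ := ht
    exact dvd_mul_right _ _
  obtain ⟨hs0, hs1, hs2, hs3⟩ := hsmooth N Λ R hN0 hΛne hRN hΛR f ν hf τ hτ0.le hps
  set δ : ℝ := τ * N / Λ.card with hδ
  have hδ0 : 0 ≤ δ := by positivity
  have hδ1 : δ ≤ e₁ := by
    rw [hδ, div_le_iff₀ hΛpos]
    calc τ * N ≤ e₁ * c₁ * N := mul_le_mul_of_nonneg_right hτ3 hNR.le
      _ = e₁ * (c₁ * N) := by ring
      _ ≤ e₁ * Λ.card := mul_le_mul_of_nonneg_left hΛge he₁0.le
  set F : ℕ → ℝ := fun n => smooth Λ N f n / (1 + δ) with hF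
  have hF01 : ∀ n, 0 ≤ F n ∧ F n ≤ 1 := by
    intro n
    refine ⟨div_nonneg (hs0 n) (by positivity), ?_⟩
    show smooth Λ N f n / (1 + δ) ≤ 1
    rw [div_le_one (by positivity)]
    exact hs1 n
  have hFs : ∀ n, smooth Λ N f n - F n = δ * F n := by
    intro n
    show smooth Λ N f n - smooth Λ N f n / (1 + δ) = δ * (smooth Λ N f n / (1 + δ))
    field_simp
    ring
  have hFs' : ∀ n, |F n - smooth Λ N f n| ≤ e₁ := by
    intro n
    rw [abs_sub_comm, hFs, abs_of_nonneg (mul_nonneg hδ0 (hF01 n).1)]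
    calc δ * F n ≤ δ * 1 := mul_le_mul_of_nonneg_left (hF01 n).2 hδ0
      _ ≤ e₁ := by rw [mul_one]; exact hδ1
  have hτN : τ * N ≤ e₁ / 4 * N := mul_le_mul_of_nonneg_right hτ1 hNR.le
  refine ⟨F, hF01, ?_, ?_, ?_⟩
  · intro n hn
    show smooth Λ N f n / (1 + δ) = 0
    unfold smooth
    rw [if_neg (by omega), zero_div]
  · intro θ
    have h1 : ∑ n ∈ range N, ((f n - F n : ℝ) : ℂ) * e (θ * n) =
        ∑ n ∈ range N, ((f n - smooth Λ N f n : ℝ) : ℂ) * e (θ * n) +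
        ∑ n ∈ range N, ((smooth Λ N f n - F n : ℝ) : ℂ) * e (θ * n) := by
      rw [← Finset.sum_add_distrib]
      refine Finset.sum_congr rfl fun n _ => ?_
      push_cast
      ring
    have h2 : ‖∑ n ∈ range N, ((smooth Λ N f n - F n : ℝ) : ℂ) * e (θ * n)‖ ≤ e₁ * N := by
      calc ‖∑ n ∈ range N, ((smooth Λ N f n - F n : ℝ) : ℂ) * e (θ * n)‖
          ≤ ∑ n ∈ range N, e₁ := by
            refine norm_sum_le_of_le _ fun n _ => ?_
            rw [norm_mul, Pool.Agent.Lib.GT.norm_e, mul_one, Complex.norm_real, Real.norm_eq_abs,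
              abs_sub_comm]
            exact hFs' n
        _ = e₁ * N := by
            rw [Finset.sum_const, Finset.card_range, nsmul_eq_mul, mul_comm]
    have h3 : ‖∑ n ∈ range N, (f n : ℂ) * e (θ * n)‖ *
        (1 - ‖(∑ t ∈ Λ, e (θ * t)) / Λ.card‖ ^ 2) ≤ 2 * e₁ * N := by
      set fh := ‖∑ n ∈ range N, (f n : ℂ) * e (θ * n)‖ with hfh
      have hfh0 : 0 ≤ fh := norm_nonneg _
      have hμ0 : 0 ≤ ‖(∑ t ∈ Λ, e (θ * t)) / (Λ.card : ℂ)‖ := norm_nonneg _
      by_cases hsmall : fh ≤ 2 * e₁ * N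
      · calc fh * (1 - ‖(∑ t ∈ Λ, e (θ * t)) / Λ.card‖ ^ 2) ≤ fh * 1 := by
              refine mul_le_mul_of_nonneg_left ?_ hfh0
              have := sq_nonneg ‖(∑ t ∈ Λ, e (θ * t)) / (Λ.card : ℂ)‖
              linarith
          _ ≤ 2 * e₁ * N := by rw [mul_one]; exact hsmall
      · rw [not_le] at hsmall
        have hfh2 : fh ≤ 2 * N := by
          refine le_trans ?_ hfmass
          refine norm_sum_le_of_le _ fun n _ => ?_
          rw [norm_mul, Pool.Agent.Lib.GT.norm_e, mul_one, Complex.norm_real, Real.norm_eq_abs,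
            abs_of_nonneg (hf0 n)]
        obtain ⟨j, hj, k, ρ, hρ0, hρ1, hθ⟩ := grid (Nat.mul_pos hL0 hN0) θ
        have hLN : ((L * N : ℕ) : ℝ) = (L : ℝ) * N := by push_cast; ring
        rw [hLN] at hρ1 hθ
        have hρn : ∀ n : ℕ, n ≤ N → 2 * Real.pi * (ρ * n) ≤ 2 * Real.pi / L := by
          intro n hn
          rw [le_div_iff₀ hLpos]
          have h4 : (n : ℝ) ≤ N := by exact_mod_cast hn
          have h5 : ρ * n * L ≤ 1 := by
            calc ρ * n * L ≤ ρ * N * L := by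
                  refine mul_le_mul_of_nonneg_right ?_ hLpos.le
                  exact mul_le_mul_of_nonneg_left h4 hρ0
              _ = ρ * (L * N) := by ring
              _ ≤ 1 := hρ1
          nlinarith
        set y : ℝ := (j : ℝ) / (L * N) with hy
        have hsh : ∀ n : ℕ, e (θ * n) = e ((y + ρ) * n) := by
          intro n
          rw [hθ, e_shift]
        have hjSp : j ∈ Sp := by
          rw [hSp, Finset.mem_filter]
          refine ⟨hj, ?_⟩
          have h4 := lip hf0 (N := N) y ρ (2 * Real.pi / L) hρ0 (fun n hn => hρn n hn.le)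
          have h5 : fh = ‖∑ n ∈ range N, (f n : ℂ) * e ((y + ρ) * n)‖ := by
            rw [hfh]
            congr 1
            exact Finset.sum_congr rfl fun n _ => by rw [hsh]
          have h6 : fh ≤ ‖∑ n ∈ range N, (f n : ℂ) * e (y * n)‖ +
              (∑ n ∈ range N, f n) * (2 * Real.pi / L) := by
            rw [h5]
            have := norm_sub_norm_le (∑ n ∈ range N, (f n : ℂ) * e ((y + ρ) * n))
              (∑ n ∈ range N, (f n : ℂ) * e (y * n))
            linarith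
          have h7 : (∑ n ∈ range N, f n) * (2 * Real.pi / L) ≤ 2 * N * (e₁ / 8) :=
            mul_le_mul hfmass hLe (by positivity) (by positivity)
          have h8 : 0 ≤ e₁ * N := by positivity
          show e₁ * N ≤ ‖∑ n ∈ range N, (f n : ℂ) * e ((j : ℝ) / (L * N) * n)‖
          rw [← hy]
          linarith
        have hclose : ∀ t ∈ Λ, ‖e (θ * t) - 1‖ ≤ e₁ / 4 := by
          intro t ht
          have htR := hΛR t ht
          have h4 : ‖e (y * t) - 1‖ ≤ 2 * Real.pi / L := by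
            rw [hΛ, Finset.mem_image] at ht
            obtain ⟨u, hu, rfl⟩ := ht
            rw [hBo, Finset.mem_filter] at hu
            have h5 := hu.2 (y * q₀) (Finset.mem_image_of_mem _ hjSp)
            rw [show y * ((q₀ * u : ℕ) : ℝ) = y * q₀ * u by push_cast; ring]
            exact h5
          have h5 := e_diff y ρ hρ0 t
          have h6 := hρn t (by omega)
          have h7 : e (θ * t) - 1 = (e ((y + ρ) * t) - e (y * t)) + (e (y * t) - 1) := by
            rw [hsh]; ring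
          rw [h7]
          refine (norm_add_le _ _).trans ?_
          linarith
        have hμ : ‖(∑ t ∈ Λ, e (θ * t)) / (Λ.card : ℂ) - 1‖ ≤ e₁ / 4 := by
          have h4 : (∑ t ∈ Λ, e (θ * t)) / (Λ.card : ℂ) - 1 =
              (∑ t ∈ Λ, (e (θ * t) - 1)) / (Λ.card : ℂ) := by
            have : (Λ.card : ℂ) ≠ 0 := by exact_mod_cast hΛpos.ne'
            rw [Finset.sum_sub_distrib, Finset.sum_const, nsmul_eq_mul, mul_one]
            field_simp
          rw [h4, norm_div, Complex.norm_natCast, div_le_iff₀ hΛpos]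
          calc ‖∑ t ∈ Λ, (e (θ * t) - 1)‖ ≤ ∑ t ∈ Λ, e₁ / 4 := norm_sum_le_of_le _ hclose
            _ = e₁ / 4 * Λ.card := by
                rw [Finset.sum_const, nsmul_eq_mul, mul_comm]
        have hμge : 1 - e₁ / 4 ≤ ‖(∑ t ∈ Λ, e (θ * t)) / (Λ.card : ℂ)‖ := by
          have h4 := norm_sub_norm_le (1 : ℂ) ((∑ t ∈ Λ, e (θ * t)) / (Λ.card : ℂ))
          rw [norm_one, norm_sub_rev] at h4
          linarith
        set m := ‖(∑ t ∈ Λ, e (θ * t)) / (Λ.card : ℂ)‖ with hm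
        have h4 : 1 - m ^ 2 ≤ e₁ / 2 := by nlinarith
        calc fh * (1 - m ^ 2) ≤ fh * (e₁ / 2) := mul_le_mul_of_nonneg_left h4 hfh0
          _ ≤ 2 * N * (e₁ / 2) := mul_le_mul_of_nonneg_right hfh2 (by positivity)
          _ ≤ 2 * e₁ * N := by nlinarith
    rw [h1]
    refine (norm_add_le _ _).trans ?_
    have h4 := hs2 θ
    have h5 : 0 ≤ e₁ * N := by positivity
    have h6 : 16 * e₁ * N ≤ η * N := mul_le_mul_of_nonneg_right he₁η hNR.le
    nlinarith
  · intro s t r hst htN hr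
    have h1 := hs3 q₀ hq₀ hΛq s t r hst htN hr
    have h2 : |∑ n ∈ (Ico s t).filter (fun n => n % q₀ = r), (F n - smooth Λ N f n)| ≤
        e₁ * N := by
      calc |∑ n ∈ (Ico s t).filter (fun n => n % q₀ = r), (F n - smooth Λ N f n)|
          ≤ ∑ n ∈ (Ico s t).filter (fun n => n % q₀ = r), e₁ :=
            (Finset.abs_sum_le_sum_abs _ _).trans (Finset.sum_le_sum fun n _ => hFs' n)
        _ = ((Ico s t).filter (fun n => n % q₀ = r)).card * e₁ := by
            rw [Finset.sum_const, nsmul_eq_mul]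
        _ ≤ N * e₁ := by
            refine mul_le_mul_of_nonneg_right ?_ he₁0.le
            have : ((Ico s t).filter (fun n => n % q₀ = r)).card ≤ N := by
              refine (Finset.card_filter_le _ _).trans ?_
              rw [Nat.card_Ico]
              omega
            exact_mod_cast this
        _ = e₁ * N := by ring
    have h3 : ∑ n ∈ (Ico s t).filter (fun n => n % q₀ = r), (F n - f n) =
        ∑ n ∈ (Ico s t).filter (fun n => n % q₀ = r), (F n - smooth Λ N f n) +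
        ∑ n ∈ (Ico s t).filter (fun n => n % q₀ = r), (smooth Λ N f n - f n) := by
      rw [← Finset.sum_add_distrib]
      refine Finset.sum_congr rfl fun n _ => ?_
      ring
    rw [h3]
    refine (abs_add_le _ _).trans ?_
    have h5 : 0 ≤ e₁ * N := by positivity
    have h6 : 16 * e₁ * N ≤ η * N := mul_le_mul_of_nonneg_right he₁η hNR.le
    nlinarith

end Pool.Agent.Lib.KM
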