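import Pool.Agent.Lib.MP_7b7e48_nt.KM.Stmts

/-!
# KM project, module S2: equidistribution from Weyl sums
-/

open Finset MeasureTheory

namespace Pool.Agent.Lib.KM.Equi

open Pool.Agent.Lib.GT (e lam Lw V pr Tw Rough)

instance fact1 : Fact ((0 : ℝ) < 1) := ⟨one_pos⟩

/-- the circle -/
abbrev Circ := AddCircle (1 : ℝ)

theorem volume_univ : (volume : Measure Circ) Set.univ = 1 := by
  rw [AddCircle.measure_univ]; simp

instance : IsProbabilityMeasure (volume : Measure Circ) := ⟨volume_univ⟩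

theorem fourier_eq_e (k : ℤ) (x : ℝ) : fourier k ((x : ℝ) : Circ) = e (k * x) := by
  rw [fourier_coe_apply]
  unfold e
  congr 1
  push_cast
  ring

theorem integral_fourier {k : ℤ} (hk : k ≠ 0) : ∫ t : Circ, fourier k t = 0 := by
  have h := fourier_add_half_inv_index (T := (1 : ℝ)) hk one_pos
  exact integral_eq_zero_of_add_right_eq_neg h

/-- convergence of the weighted averages for a continuous function -/
def Conv (x : ℕ → ℝ) (ω : ℕ → ℕ → ℝ) (N : ℕ → ℕ) (g : C(Circ, ℂ)) : Prop :=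
  ∀ ε : ℝ, 0 < ε → ∃ X₀ : ℕ, ∀ X : ℕ, X₀ ≤ X →
    ‖∑ n ∈ range (N X), (ω X n : ℂ) * g (x n) - (∫ t, g t) * (∑ n ∈ range (N X), ω X n : ℝ)‖ ≤
      ε * ∑ n ∈ range (N X), ω X n

theorem conv_add {x : ℕ → ℝ} {ω : ℕ → ℕ → ℝ} {N : ℕ → ℕ} {g h : C(Circ, ℂ)}
    (hg : Conv x ω N g) (hh : Conv x ω N h) : Conv x ω N (g + h) := by
  intro ε hε
  obtain ⟨X₁, h1⟩ := hg (ε / 2) (by linarith)
  obtain ⟨X₂, h2⟩ := hh (ε / 2) (by linarith)
  refine ⟨max X₁ X₂, fun X hX => ?_⟩
  have a1 := h1 X ((le_max_left _ _).trans hX)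
  have a2 := h2 X ((le_max_right _ _).trans hX)
  have hint : ∫ t, (g + h) t = (∫ t, g t) + ∫ t, h t := by
    simp only [ContinuousMap.add_apply]
    exact integral_add (g.continuous.integrable_of_hasCompactSupport
      (HasCompactSupport.of_compactSpace _)) (h.continuous.integrable_of_hasCompactSupport
      (HasCompactSupport.of_compactSpace _))
  have heq : ∑ n ∈ range (N X), (ω X n : ℂ) * (g + h) (x n) -
      (∫ t, (g + h) t) * (∑ n ∈ range (N X), ω X n : ℝ) =
      (∑ n ∈ range (N X), (ω X n : ℂ) * g (x n) -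
        (∫ t, g t) * (∑ n ∈ range (N X), ω X n : ℝ)) +
      (∑ n ∈ range (N X), (ω X n : ℂ) * h (x n) -
        (∫ t, h t) * (∑ n ∈ range (N X), ω X n : ℝ)) := by
    rw [hint]
    simp only [ContinuousMap.add_apply, mul_add, sum_add_distrib]
    ring
  rw [heq]
  refine (norm_add_le _ _).trans ?_
  linarith

theorem conv_smul {x : ℕ → ℝ} {ω : ℕ → ℕ → ℝ} {N : ℕ → ℕ} (hω : ∀ X n, 0 ≤ ω X n)
    {g : C(Circ, ℂ)} (c : ℂ) (hg : Conv x ω N g) : Conv x ω N (c • g) := by
  intro ε hε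
  obtain ⟨X₁, h1⟩ := hg (ε / (‖c‖ + 1)) (by positivity)
  refine ⟨X₁, fun X hX => ?_⟩
  have a1 := h1 X hX
  have hint : ∫ t, (c • g) t = c * ∫ t, g t := by
    simp only [ContinuousMap.smul_apply, smul_eq_mul]
    exact integral_const_mul _ _
  have heq : ∑ n ∈ range (N X), (ω X n : ℂ) * (c • g) (x n) -
      (∫ t, (c • g) t) * (∑ n ∈ range (N X), ω X n : ℝ) =
      c * (∑ n ∈ range (N X), (ω X n : ℂ) * g (x n) -
        (∫ t, g t) * (∑ n ∈ range (N X), ω X n : ℝ)) := by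
    rw [hint, mul_sub, mul_sum]
    simp only [ContinuousMap.smul_apply, smul_eq_mul]
    congr 1
    · refine sum_congr rfl fun n _ => ?_
      ring
    · ring
  rw [heq, norm_mul]
  have hS : 0 ≤ ∑ n ∈ range (N X), ω X n := sum_nonneg fun n _ => hω X n
  calc ‖c‖ * _ ≤ ‖c‖ * (ε / (‖c‖ + 1) * ∑ n ∈ range (N X), ω X n) :=
        mul_le_mul_of_nonneg_left a1 (norm_nonneg _)
    _ = (‖c‖ / (‖c‖ + 1)) * (ε * ∑ n ∈ range (N X), ω X n) := by ring
    _ ≤ 1 * (ε * ∑ n ∈ range (N X), ω X n) := by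
        refine mul_le_mul_of_nonneg_right ?_ (by positivity)
        rw [div_le_one (by positivity)]
        linarith [norm_nonneg c]
    _ = _ := one_mul _

theorem conv_fourier {x : ℕ → ℝ} {ω : ℕ → ℕ → ℝ} {N : ℕ → ℕ} (hω : ∀ X n, 0 ≤ ω X n)
    (hW : ∀ k : ℤ, k ≠ 0 → ∀ ε : ℝ, 0 < ε → ∃ X₀ : ℕ, ∀ X : ℕ, X₀ ≤ X →
    ‖∑ n ∈ range (N X), (ω X n : ℂ) * e (k * x n)‖ ≤ ε * ∑ n ∈ range (N X), ω X n)
    (k : ℤ) : Conv x ω N (fourier k) := by
  intro ε hε
  by_cases hk : k = 0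
  · subst hk
    refine ⟨0, fun X _ => ?_⟩
    have hS : 0 ≤ ∑ n ∈ range (N X), ω X n := sum_nonneg fun n _ => hω X n
    have h0 : ∫ t : Circ, (fourier 0 t : ℂ) = 1 := by simp
    rw [h0]
    simp only [fourier_zero, mul_one, one_mul]
    push_cast
    rw [sub_self, norm_zero]
    positivity
  · obtain ⟨X₀, h⟩ := hW k hk ε hε
    refine ⟨X₀, fun X hX => ?_⟩
    rw [integral_fourier hk, zero_mul, sub_zero]
    simp only [fourier_eq_e]
    exact h X hX

theorem conv_all {x : ℕ → ℝ} {ω : ℕ → ℕ → ℝ} {N : ℕ → ℕ} (hω : ∀ X n, 0 ≤ ω X n)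
    (hW : ∀ k : ℤ, k ≠ 0 → ∀ ε : ℝ, 0 < ε → ∃ X₀ : ℕ, ∀ X : ℕ, X₀ ≤ X →
    ‖∑ n ∈ range (N X), (ω X n : ℂ) * e (k * x n)‖ ≤ ε * ∑ n ∈ range (N X), ω X n)
    (g : C(Circ, ℂ)) : Conv x ω N g := by
  have hspan : ∀ p ∈ Submodule.span ℂ (Set.range (@fourier (1 : ℝ))), Conv x ω N p := by
    intro p hp
    induction hp using Submodule.span_induction with
    | mem p hp =>
      obtain ⟨k, rfl⟩ := hp
      exact conv_fourier hω hW k
    | zero =>
      intro ε hε
      refine ⟨0, fun X _ => ?_⟩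
      have hS : 0 ≤ ∑ n ∈ range (N X), ω X n := sum_nonneg fun n _ => hω X n
      simp only [ContinuousMap.zero_apply, mul_zero, sum_const_zero, integral_zero, zero_mul,
        sub_zero, norm_zero]
      positivity
    | add p r _ _ hp hr => exact conv_add hp hr
    | smul c p _ hp => exact conv_smul hω c hp
  intro ε hε
  have hg : g ∈ (Submodule.span ℂ (Set.range (@fourier (1 : ℝ)))).topologicalClosure := by
    rw [span_fourier_closure_eq_top]; trivial
  rw [← SetLike.mem_coe, Submodule.topologicalClosure_coe, Metric.mem_closure_iff] at hg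
  obtain ⟨p, hp, hgp⟩ := hg (ε / 3) (by linarith)
  obtain ⟨X₀, h⟩ := hspan p hp (ε / 3) (by linarith)
  refine ⟨X₀, fun X hX => ?_⟩
  have hS : 0 ≤ ∑ n ∈ range (N X), ω X n := sum_nonneg fun n _ => hω X n
  have hsup : ∀ t, ‖g t - p t‖ ≤ ε / 3 := fun t => by
    rw [dist_eq_norm] at hgp
    exact ((g - p).norm_coe_le_norm t).trans hgp.le
  have h1 := h X hX
  have h2 : ‖∑ n ∈ range (N X), (ω X n : ℂ) * (g (x n) - p (x n))‖ ≤
      ε / 3 * ∑ n ∈ range (N X), ω X n := by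
    rw [mul_sum]
    refine norm_sum_le_of_le _ fun n _ => ?_
    rw [norm_mul, Complex.norm_real, Real.norm_of_nonneg (hω X n), mul_comm]
    exact mul_le_mul_of_nonneg_right (hsup _) (hω X n)
  have h3 : ‖((∫ t, p t) - (∫ t, g t)) * ((∑ n ∈ range (N X), ω X n : ℝ) : ℂ)‖ ≤
      ε / 3 * ∑ n ∈ range (N X), ω X n := by
    rw [norm_mul, Complex.norm_real, Real.norm_of_nonneg hS]
    refine mul_le_mul_of_nonneg_right ?_ hS
    rw [← integral_sub (p.continuous.integrable_of_hasCompactSupport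
      (HasCompactSupport.of_compactSpace _)) (g.continuous.integrable_of_hasCompactSupport
      (HasCompactSupport.of_compactSpace _))]
    have := norm_integral_le_of_norm_le_const (μ := (volume : Measure Circ))
      (f := fun t => p t - g t) (C := ε / 3) (Filter.Eventually.of_forall fun t => by
        rw [norm_sub_rev]; exact hsup t)
    simpa using this
  have heq : ∑ n ∈ range (N X), (ω X n : ℂ) * g (x n) -
      (∫ t, g t) * (∑ n ∈ range (N X), ω X n : ℝ) =
      (∑ n ∈ range (N X), (ω X n : ℂ) * (g (x n) - p (x n))) +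
      (∑ n ∈ range (N X), (ω X n : ℂ) * p (x n) -
        (∫ t, p t) * (∑ n ∈ range (N X), ω X n : ℝ)) +
      ((∫ t, p t) - (∫ t, g t)) * ((∑ n ∈ range (N X), ω X n : ℝ) : ℂ) := by
    simp only [mul_sub, sum_sub_distrib]
    ring
  rw [heq]
  refine (norm_add_le _ _).trans ?_
  have := norm_add_le (∑ n ∈ range (N X), (ω X n : ℂ) * (g (x n) - p (x n)))
    (∑ n ∈ range (N X), (ω X n : ℂ) * p (x n) -
        (∫ t, p t) * (∑ n ∈ range (N X), ω X n : ℝ))
  linarith

/-- convergence for a real function -/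
theorem conv_real {x : ℕ → ℝ} {ω : ℕ → ℕ → ℝ} {N : ℕ → ℕ} (hω : ∀ X n, 0 ≤ ω X n)
    (hW : ∀ k : ℤ, k ≠ 0 → ∀ ε : ℝ, 0 < ε → ∃ X₀ : ℕ, ∀ X : ℕ, X₀ ≤ X →
    ‖∑ n ∈ range (N X), (ω X n : ℂ) * e (k * x n)‖ ≤ ε * ∑ n ∈ range (N X), ω X n)
    (g : C(Circ, ℝ)) (ε : ℝ) (hε : 0 < ε) : ∃ X₀ : ℕ, ∀ X : ℕ, X₀ ≤ X →
    |∑ n ∈ range (N X), ω X n * g (x n) - (∫ t, g t) * (∑ n ∈ range (N X), ω X n)| ≤
      ε * ∑ n ∈ range (N X), ω X n := by
  let G : C(Circ, ℂ) := ⟨fun t => (g t : ℂ), Complex.continuous_ofReal.comp g.continuous⟩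
  obtain ⟨X₀, h⟩ := conv_all hω hW G ε hε
  refine ⟨X₀, fun X hX => ?_⟩
  have h1 := h X hX
  have hG : ∀ t, G t = (g t : ℂ) := fun t => rfl
  have hint : ∫ t, G t = ((∫ t, g t : ℝ) : ℂ) := by
    simp only [hG]
    exact integral_ofReal
  rw [hint] at h1
  simp only [hG] at h1
  rw [← Real.norm_eq_abs, ← Complex.norm_real]
  push_cast
  push_cast at h1
  exact h1

theorem norm_coe_le (y : ℝ) : ‖((y : ℝ) : Circ)‖ ≤ |y| := by
  rw [AddCircle.norm_eq]
  simp only [inv_one, one_mul, mul_one]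
  have := round_le y 0
  simpa using this

theorem coe_fract (y : ℝ) : ((y : ℝ) : Circ) = ((Int.fract y : ℝ) : Circ) := by
  have h : y = Int.fract y + (⌊y⌋ : ℤ) • (1 : ℝ) := by
    rw [zsmul_eq_mul, mul_one]; exact (Int.fract_add_floor y).symm
  conv_lhs => rw [h]
  rw [AddCircle.coe_add]
  have : (((⌊y⌋ : ℤ) • (1 : ℝ) : ℝ) : Circ) = 0 := by
    rw [AddCircle.coe_zsmul, AddCircle.coe_period, smul_zero]
  rw [this, add_zero]

theorem norm_le_of_lt {y a : ℝ} (h : Int.fract y < a) :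
    ‖((y : ℝ) : Circ) - ((a / 2 : ℝ) : Circ)‖ ≤ a / 2 := by
  rw [coe_fract, ← AddCircle.coe_sub]
  refine (norm_coe_le _).trans ?_
  have h0 := Int.fract_nonneg y
  rw [abs_le]
  constructor <;> linarith

theorem le_norm_of_le {y a : ℝ} (_ : 0 ≤ a) (h : a ≤ Int.fract y) :
    a / 2 ≤ ‖((y : ℝ) : Circ) - ((a / 2 : ℝ) : Circ)‖ := by
  rw [coe_fract, ← AddCircle.coe_sub, AddCircle.norm_eq]
  simp only [inv_one, one_mul, mul_one]
  have h1 := Int.fract_lt_one y
  set u := Int.fract y - a / 2 with hu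
  rcases le_or_gt (round u) 0 with hz | hz
  · have : ((round u : ℤ) : ℝ) ≤ 0 := by exact_mod_cast hz
    refine le_trans ?_ (le_abs_self _)
    linarith
  · have : (1 : ℝ) ≤ ((round u : ℤ) : ℝ) := by exact_mod_cast hz
    refine le_trans ?_ (neg_le_abs _)
    linarith

/-- trapezoid of radius `r` and slope `1/δ` around `c` -/
noncomputable def trap (c : Circ) (r δ : ℝ) : C(Circ, ℝ) :=
  ⟨fun t => max 0 (min 1 ((r - ‖t - c‖) / δ)), by fun_prop⟩

theorem trap_nonneg (c : Circ) (r δ : ℝ) (t : Circ) : 0 ≤ trap c r δ t := le_max_left _ _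

theorem trap_le_one (c : Circ) (r δ : ℝ) (t : Circ) : trap c r δ t ≤ 1 :=
  max_le zero_le_one (min_le_left _ _)

theorem trap_eq_zero {c : Circ} {r δ : ℝ} (hδ : 0 < δ) {t : Circ} (h : r ≤ ‖t - c‖) :
    trap c r δ t = 0 := by
  refine le_antisymm ?_ (trap_nonneg _ _ _ _)
  refine max_le le_rfl ((min_le_right _ _).trans ?_)
  exact div_nonpos_of_nonpos_of_nonneg (by linarith) hδ.le

theorem trap_eq_one {c : Circ} {r δ : ℝ} (hδ : 0 < δ) {t : Circ} (h : ‖t - c‖ ≤ r - δ) :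
    trap c r δ t = 1 := by
  refine le_antisymm (trap_le_one _ _ _ _) ?_
  refine le_max_of_le_right (le_min le_rfl ?_)
  rw [le_div_iff₀ hδ]
  linarith

theorem integrable_cont (g : C(Circ, ℝ)) : Integrable (fun t => g t) (volume : Measure Circ) :=
  g.continuous.integrable_of_hasCompactSupport (HasCompactSupport.of_compactSpace _)

theorem real_ball (c : Circ) (r : ℝ) (hr : 0 ≤ r) :
    (volume : Measure Circ).real (Metric.closedBall c r) = min 1 (2 * r) := by
  rw [Measure.real, AddCircle.volume_closedBall, ENNReal.toReal_ofReal]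
  exact le_min zero_le_one (by linarith)

theorem integral_trap_le (c : Circ) {r δ : ℝ} (hr : 0 ≤ r) (hδ : 0 < δ) :
    ∫ t, trap c r δ t ≤ 2 * r := by
  have h1 : ∫ t, trap c r δ t ≤ ∫ t, (Metric.closedBall c r).indicator (1 : Circ → ℝ) t := by
    refine integral_mono (integrable_cont _)
      ((integrable_const (1 : ℝ)).indicator measurableSet_closedBall) fun t => ?_
    by_cases ht : t ∈ Metric.closedBall c r
    · rw [Set.indicator_of_mem ht]
      exact trap_le_one _ _ _ _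
    · rw [Set.indicator_of_notMem ht]
      rw [Metric.mem_closedBall, dist_eq_norm, not_le] at ht
      exact (trap_eq_zero hδ ht.le).le
  rw [integral_indicator_one measurableSet_closedBall, real_ball c r hr] at h1
  exact h1.trans (min_le_right _ _)

theorem le_integral_trap (c : Circ) {r δ : ℝ} (hr : 2 * (r - δ) ≤ 1) (hδ : 0 < δ) :
    2 * (r - δ) ≤ ∫ t, trap c r δ t := by
  rcases lt_or_ge (r - δ) 0 with h0 | h0
  · have : 0 ≤ ∫ t, trap c r δ t := integral_nonneg fun t => trap_nonneg _ _ _ _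
    linarith
  · have h1 : ∫ t, (Metric.closedBall c (r - δ)).indicator (1 : Circ → ℝ) t ≤
        ∫ t, trap c r δ t := by
      refine integral_mono ((integrable_const (1 : ℝ)).indicator measurableSet_closedBall)
        (integrable_cont _) fun t => ?_
      by_cases ht : t ∈ Metric.closedBall c (r - δ)
      · rw [Set.indicator_of_mem ht]
        rw [Metric.mem_closedBall, dist_eq_norm] at ht
        exact (trap_eq_one hδ ht).ge
      · rw [Set.indicator_of_notMem ht]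
        exact trap_nonneg _ _ _ _
    rw [integral_indicator_one measurableSet_closedBall, real_ball c _ h0,
      min_eq_right hr] at h1
    exact h1

end Pool.Agent.Lib.KM.Equi

namespace Pool.Agent.Lib.KM

open Pool.Agent.Lib.GT (e lam Lw V pr Tw Rough)
open Equi

theorem equi_holds : EquiS := by
  intro x ω N hω hW a ha0 ha1 ε hε
  have hδ : 0 < ε / 8 := by linarith
  set c : Circ := ((a / 2 : ℝ) : Circ) with hc
  obtain ⟨X₁, h1⟩ := conv_real hω hW (trap c (a / 2 + ε / 8) (ε / 8)) (ε / 4) (by linarith)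
  obtain ⟨X₂, h2⟩ := conv_real hω hW (trap c (a / 2) (ε / 8)) (ε / 4) (by linarith)
  refine ⟨max X₁ X₂, fun X hX => ?_⟩
  have a1 := h1 X ((le_max_left _ _).trans hX)
  have a2 := h2 X ((le_max_right _ _).trans hX)
  set S := ∑ n ∈ range (N X), ω X n with hS
  have hS0 : 0 ≤ S := sum_nonneg fun n _ => hω X n
  have hi1 : ∫ t, trap c (a / 2 + ε / 8) (ε / 8) t ≤ 2 * (a / 2 + ε / 8) :=
    integral_trap_le c (by linarith) hδ
  have hi2 : 2 * (a / 2 - ε / 8) ≤ ∫ t, trap c (a / 2) (ε / 8) t :=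
    le_integral_trap c (by linarith) hδ
  have hup : ∑ n ∈ (range (N X)).filter (fun n => Int.fract (x n) < a), ω X n ≤
      ∑ n ∈ range (N X), ω X n * trap c (a / 2 + ε / 8) (ε / 8) (x n) := by
    rw [sum_filter]
    refine sum_le_sum fun n _ => ?_
    split_ifs with hn
    · rw [trap_eq_one hδ (by linarith [norm_le_of_lt hn]), mul_one]
    · exact mul_nonneg (hω X n) (trap_nonneg _ _ _ _)
  have hlow : ∑ n ∈ range (N X), ω X n * trap c (a / 2) (ε / 8) (x n) ≤
      ∑ n ∈ (range (N X)).filter (fun n => Int.fract (x n) < a), ω X n := by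
    rw [sum_filter]
    refine sum_le_sum fun n _ => ?_
    split_ifs with hn
    · exact mul_le_of_le_one_right (hω X n) (trap_le_one _ _ _ _)
    · rw [trap_eq_zero hδ (le_norm_of_le ha0 (not_lt.1 hn)), mul_zero]
  have b1 := mul_le_mul_of_nonneg_right hi1 hS0
  have b2 := mul_le_mul_of_nonneg_right hi2 hS0
  have hεS : 0 ≤ ε * S := mul_nonneg hε.le hS0
  rw [abs_le] at a1 a2 ⊢
  constructor
  · nlinarith [a2.1]
  · nlinarith [a1.2]

end Pool.Agent.Lib.KM
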