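import Pool.Agent.Lib.MP_7b7e48_nt.KM.Stmts

/-!
# KM project, module A2: the glued model is close to the primes of `A`
-/

open Finset

namespace Pool.Agent.Lib.KM

namespace Global

open Pool.Agent.Lib.GT (e lam Lw V pr Tw Rough)

theorem prod_pr_pos (w : ℕ) : 0 < ∏ p ∈ pr w, p :=
  Finset.prod_pos fun _ hp => (Finset.mem_filter.mp hp).2.pos

theorem Wq_pos {q : ℕ} (hq : 0 < q) (w : ℕ) : 0 < Wq q w :=
  Nat.mul_pos hq (prod_pr_pos w)

theorem mem_pr {w p : ℕ} : p ∈ pr w ↔ p ≤ w ∧ p.Prime := by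
  unfold pr
  rw [Finset.mem_filter, Finset.mem_range, Nat.lt_succ_iff]

theorem prime_dvd_Wq {q w p : ℕ} (hq : 0 < q) (hqw : q ≤ w) (hp : p.Prime) :
    p ∣ Wq q w ↔ p ≤ w := by
  unfold Wq
  rw [hp.dvd_mul, hp.prime.dvd_finsetProd_iff]
  constructor
  · rintro (h | ⟨r, hr, h⟩)
    · exact (Nat.le_of_dvd hq h).trans hqw
    · rw [mem_pr] at hr
      rw [(Nat.prime_dvd_prime_iff_eq hp hr.2).mp h]
      exact hr.1
  · intro h
    exact Or.inr ⟨p, mem_pr.mpr ⟨h, hp⟩, dvd_rfl⟩

theorem primeFactors_Wq {q w : ℕ} (hq : 0 < q) (hqw : q ≤ w) :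
    (Wq q w).primeFactors = pr w := by
  ext p
  rw [Nat.mem_primeFactors, mem_pr]
  constructor
  · rintro ⟨hp, hd, -⟩
    exact ⟨(prime_dvd_Wq hq hqw hp).mp hd, hp⟩
  · rintro ⟨hw, hp⟩
    exact ⟨hp, (prime_dvd_Wq hq hqw hp).mpr hw, (Wq_pos hq w).ne'⟩

theorem totient_Wq {q w : ℕ} (hq : 0 < q) (hqw : q ≤ w) :
    ((Wq q w).totient : ℝ) = Wq q w * V w := by
  have h := Nat.totient_eq_mul_prod_factors (Wq q w)
  rw [primeFactors_Wq hq hqw] at h
  have h2 : (((Wq q w).totient : ℚ) : ℝ) = (((Wq q w : ℚ) * ∏ p ∈ pr w, (1 - (p : ℚ)⁻¹) : ℚ) : ℝ) := by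
    rw [h]
  push_cast at h2
  rw [h2]
  unfold V
  simp only [one_div]

theorem rough_of_coprime {q w n : ℕ} (hq : 0 < q) (hqw : q ≤ w)
    (h : n.Coprime (Wq q w)) : Rough w n := by
  intro p hp hd
  by_contra hc
  have hpw : p ∣ Wq q w := (prime_dvd_Wq hq hqw hp).mpr (by omega)
  have := Nat.dvd_gcd hd hpw
  rw [h] at this
  exact hp.one_lt.ne' (Nat.dvd_one.mp this)

theorem sum_range_mul {M : Type*} [AddCommMonoid M] (f : ℕ → M) (W N : ℕ) :
    ∑ n ∈ range (W * N), f n = ∑ b ∈ range W, ∑ m ∈ range N, f (W * m + b) := by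
  rw [Finset.sum_comm]
  induction N with
  | zero => simp
  | succ N ih =>
    rw [Nat.mul_succ, Finset.sum_range_succ, ← ih, Finset.sum_range_add]

theorem coprime_add {W m b : ℕ} : (W * m + b).Coprime W ↔ b.Coprime W := by
  rw [Nat.coprime_mul_left_add_left]

end Global

open Pool.Agent.Lib.GT (e lam Lw V pr Tw Rough)

open Global in
/-- A2 -/
theorem global_holds : GlobalS := by
  intro A q a w N q₀ η κ F hq hqw hw hN hη hF
  obtain ⟨hF1, hF2, hF3, -⟩ := hF
  have hV : 0 < V w := GT.V_pos w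
  set W := Wq q w with hWdef
  have hW : 0 < W := Wq_pos hq w
  refine ⟨fun n => ?_, fun θ => ?_⟩
  · unfold glue
    split_ifs with h
    · refine ⟨mul_nonneg (inv_nonneg.mpr hV.le) (hF1 _ _).1, ?_⟩
      unfold Lw
      rw [if_pos (rough_of_coprime hq hqw h.1)]
      calc (V w)⁻¹ * F (n % W) (n / W) ≤ (V w)⁻¹ * 1 :=
            mul_le_mul_of_nonneg_left (hF1 _ _).2 (inv_nonneg.mpr hV.le)
        _ = (V w)⁻¹ := mul_one _
    · exact ⟨le_rfl, GT.Lw_nonneg w n⟩
  · rw [Finset.sum_range_succ]
    have hlast : ((fA A W N (W * N) - glue w W N F (W * N) : ℝ) : ℂ) * e (θ * (W * N : ℕ)) = 0 := by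
      unfold fA glue
      simp
    rw [hlast, add_zero, sum_range_mul]
    have hb : ∀ b ∈ range W, ‖∑ m ∈ range N,
        ((fA A W N (W * m + b) - glue w W N F (W * m + b) : ℝ) : ℂ) *
          e (θ * (W * m + b : ℕ))‖ ≤ if b.Coprime W then (V w)⁻¹ * (η * N) else 0 := by
      intro b hb
      rw [Finset.mem_range] at hb
      split_ifs with hc
      · have h3 := hF3 b hb hc (θ * W)
        have heq : ∑ m ∈ range N,
            ((fA A W N (W * m + b) - glue w W N F (W * m + b) : ℝ) : ℂ) *
              e (θ * (W * m + b : ℕ)) = (((V w)⁻¹ : ℝ) : ℂ) * e (θ * b) *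
            ∑ m ∈ range N, ((V w * fA A W N (W * m + b) - F b m : ℝ) : ℂ) *
              e (θ * W * m) := by
          rw [Finset.mul_sum]
          refine Finset.sum_congr rfl fun m hm => ?_
          rw [Finset.mem_range] at hm
          have hlt : W * m + b < W * N := by
            calc W * m + b < W * m + W := by omega
              _ = W * (m + 1) := by ring
              _ ≤ W * N := Nat.mul_le_mul_left _ hm
          have hg : glue w W N F (W * m + b) = (V w)⁻¹ * F b m := by
            unfold glue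
            rw [if_pos ⟨coprime_add.mpr hc, hlt⟩]
            congr 2
            · rw [Nat.mul_add_mod, Nat.mod_eq_of_lt hb]
            · rw [Nat.mul_add_div hW, Nat.div_eq_of_lt hb, add_zero]
          have he : e (θ * (W * m + b : ℕ)) = e (θ * b) * e (θ * W * m) := by
            rw [← GT.e_add]
            congr 1
            push_cast
            ring
          rw [hg, he]
          have hr : (fA A W N (W * m + b) - (V w)⁻¹ * F b m : ℝ) =
              (V w)⁻¹ * (V w * fA A W N (W * m + b) - F b m) := by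
            field_simp
          rw [hr]
          push_cast
          ring
        rw [heq, norm_mul, norm_mul, GT.norm_e, mul_one, Complex.norm_real, Real.norm_eq_abs,
          abs_of_pos (inv_pos.mpr hV)]
        exact mul_le_mul_of_nonneg_left h3 (inv_nonneg.mpr hV.le)
      · rw [Finset.sum_eq_zero, norm_zero]
        intro m hm
        unfold fA glue
        rw [if_neg, if_neg]
        · simp
        · exact fun h => hc (coprime_add.mp h.1)
        · exact fun h => hc (coprime_add.mp h.1)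
    refine (norm_sum_le _ _).trans ((Finset.sum_le_sum hb).trans (le_of_eq ?_))
    rw [← Finset.sum_filter, Finset.sum_const, nsmul_eq_mul]
    have hcard : ((range W).filter fun b => b.Coprime W).card = W.totient := by
      unfold Nat.totient
      congr 1
      ext b
      simp only [Finset.mem_filter, Finset.mem_range]
      exact ⟨fun h => ⟨h.1, h.2.symm⟩, fun h => ⟨h.1, h.2.symm⟩⟩
    rw [hcard, hWdef, totient_Wq hq hqw]
    field_simp

end Pool.Agent.Lib.KM
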