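import Pool.Agent.Lib.MP_7b7e48_nt.KM.Stmts
import Pool.Agent.Lib.MP_7b7e48_nt.GT.LocalAvg

/-!
# KM project, module L: the number of admissible pairs of residues mod `W`
-/

open Finset

namespace Pool.Agent.Lib.KM

namespace LocalPairs

open Pool.Agent.Lib.GT (e lam Lw V pr Tw Rough)

/-- the local condition at `p` -/
noncomputable def loc (z p a : ℕ) : ℝ := if a = 0 ∨ a = z % p then 0 else 1

/-- the comparison factor at `p` -/
noncomputable def tf (p : ℕ) : ℝ := if 2 < p then (1 - 1 / ((p : ℝ) - 1) ^ 2) else 1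

lemma mem_pr {w p : ℕ} : p ∈ pr w ↔ p ≤ w ∧ p.Prime := by
  unfold pr
  rw [Finset.mem_filter, Finset.mem_range, Nat.lt_succ_iff]

lemma tf_nonneg {p : ℕ} : 0 ≤ tf p := by
  unfold tf
  split_ifs with h
  · have h3 : (3 : ℝ) ≤ p := by exact_mod_cast h
    have : 1 / ((p : ℝ) - 1) ^ 2 ≤ 1 := by
      rw [div_le_one (by nlinarith)]
      nlinarith
    linarith
  · exact zero_le_one

lemma tf_le_one (p : ℕ) : tf p ≤ 1 := by
  unfold tf
  split_ifs
  · have : 0 ≤ 1 / ((p : ℝ) - 1) ^ 2 := by positivity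
    linarith
  · exact le_rfl

/-- lower bound for the local count -/
lemma loc_sum {z p : ℕ} (hz : Even z) (hp : p.Prime) :
    (p : ℝ) * (1 - 1 / (p : ℝ)) ^ 2 * tf p ≤ ∑ a ∈ range p, loc z p a := by
  rcases hp.eq_two_or_odd' with rfl | hodd
  · have hz2 : z % 2 = 0 := Nat.even_iff.mp hz
    have : ∑ a ∈ range 2, loc z 2 a = 1 := by
      rw [Finset.sum_range_succ, Finset.sum_range_succ, Finset.sum_range_zero]
      unfold loc
      rw [hz2]
      norm_num
    rw [this]
    unfold tf
    norm_num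
  · have hp3 : 3 ≤ p := by
      have := hp.two_le
      rcases hodd with ⟨k, hk⟩
      omega
    have hp3' : (3 : ℝ) ≤ p := by exact_mod_cast hp3
    have h1 : ∀ a ∈ range p, 1 - (if a = 0 then (1 : ℝ) else 0) - (if a = z % p then (1 : ℝ) else 0) ≤
        loc z p a := by
      intro a _
      unfold loc
      by_cases h0 : a = 0
      · simp only [h0, true_or, if_true]
        split_ifs <;> norm_num
      · by_cases h2 : a = z % p
        · simp only [h2, or_true, if_true]
          split_ifs <;> norm_num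
        · simp only [h0, h2, or_self, if_false]
          norm_num
    have h2 : ∑ a ∈ range p, (1 - (if a = 0 then (1 : ℝ) else 0) -
        (if a = z % p then (1 : ℝ) else 0)) = p - 2 := by
      rw [Finset.sum_sub_distrib, Finset.sum_sub_distrib, Finset.sum_ite_eq' (range p) 0,
        Finset.sum_ite_eq' (range p) (z % p), if_pos (Finset.mem_range.mpr (by omega)),
        if_pos (Finset.mem_range.mpr (Nat.mod_lt _ (by omega)))]
      simp only [Finset.sum_const, Finset.card_range, nsmul_eq_mul, mul_one]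
      ring
    refine le_trans (le_of_eq ?_) (h2 ▸ Finset.sum_le_sum h1)
    unfold tf
    rw [if_pos (by omega)]
    have hne : (p : ℝ) ≠ 0 := by linarith
    have hne1 : (p : ℝ) - 1 ≠ 0 := by linarith
    field_simp
    ring

lemma tf_prod {w : ℕ} (hw : 2 ≤ w) : (1 : ℝ) / 2 ≤ ∏ p ∈ pr w, tf p := by
  have := GT.LA.tail_lower (w₀ := 2) (w := w) le_rfl hw
  unfold tf
  norm_num at this ⊢
  exact this

lemma prod_subset_ge {S T : Finset ℕ} (hST : S ⊆ T) (f : ℕ → ℝ) (h0 : ∀ p ∈ T, 0 ≤ f p)
    (h1 : ∀ p ∈ T, f p ≤ 1) : ∏ p ∈ T, f p ≤ ∏ p ∈ S, f p := by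
  classical
  rw [← Finset.prod_sdiff hST]
  apply mul_le_of_le_one_left
  · exact Finset.prod_nonneg fun p hp => h0 p (hST hp)
  · exact Finset.prod_le_one (fun p hp => h0 p (Finset.mem_sdiff.mp hp).1)
      (fun p hp => h1 p (Finset.mem_sdiff.mp hp).1)

/-- number of `i < q R` in a given class mod `q` -/
lemma card_class {q R u : ℕ} (hq : 0 < q) :
    ∑ i ∈ range (q * R), (if i % q = u % q then (1 : ℝ) else 0) = R := by
  induction R with
  | zero => simp
  | succ R ih =>
    rw [Nat.mul_succ, Finset.sum_range_add, ih]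
    have : ∑ x ∈ range q, (if (q * R + x) % q = u % q then (1 : ℝ) else 0) = 1 := by
      have h1 : ∀ x ∈ range q, (if (q * R + x) % q = u % q then (1 : ℝ) else 0) =
          if x = u % q then 1 else 0 := by
        intro x hx
        rw [Finset.mem_range] at hx
        rw [Nat.mul_add_mod, Nat.mod_eq_of_lt hx]
      rw [Finset.sum_congr rfl h1, Finset.sum_ite_eq' (range q) (u % q),
        if_pos (Finset.mem_range.mpr (Nat.mod_lt _ hq))]
    rw [this]
    push_cast
    ring

end LocalPairs

open Pool.Agent.Lib.GT (e lam Lw V pr Tw Rough)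

open LocalPairs in
/-- L -/
theorem localPairs_holds : LocalPairsS := by
  classical
  intro q hq
  refine ⟨1 / (2 * q), by positivity, ?_⟩
  intro w hw hqw z u v hz hu hv huv
  set S := (pr w).filter (fun p => ¬ p ∣ q) with hS
  set S' := (pr w).filter (fun p => p ∣ q) with hS'
  set P1 := ∏ p ∈ S, p with hP1
  set R0 := ∏ p ∈ S', p with hR0
  have hSprime : ∀ p ∈ S, p.Prime := fun p hp => (mem_pr.mp (Finset.mem_filter.mp hp).1).2
  have hS'prime : ∀ p ∈ S', p.Prime := fun p hp => (mem_pr.mp (Finset.mem_filter.mp hp).1).2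
  have hP1pos : 0 < P1 := Finset.prod_pos fun p hp => (hSprime p hp).pos
  have hR0pos : 0 < R0 := Finset.prod_pos fun p hp => (hS'prime p hp).pos
  have hW : Wq q w = (q * R0) * P1 := by
    unfold Wq
    rw [hR0, hP1, mul_assoc, Finset.prod_filter_mul_prod_filter_not]
  have hcop : Nat.Coprime (q * R0) P1 := by
    apply Nat.Coprime.prod_right
    intro p hp
    have hpp := hSprime p hp
    have hpq : ¬ p ∣ q := (Finset.mem_filter.mp hp).2
    rw [Nat.coprime_comm, hpp.coprime_iff_not_dvd, hpp.dvd_mul]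
    rintro (h | h)
    · exact hpq h
    · rw [hR0, hpp.prime.dvd_finsetProd_iff] at h
      obtain ⟨r, hr, hd⟩ := h
      rw [(Nat.prime_dvd_prime_iff_eq hpp (hS'prime r hr)).mp hd] at hpq
      exact hpq (Finset.mem_filter.mp hr).2
  -- the pointwise lower bound
  have hpt : ∀ b ∈ range (Wq q w),
      (if (b % (q * R0)) % q = u % q then (1 : ℝ) else 0) * ∏ p ∈ S, loc z p ((b % P1) % p) ≤
      if (b.Coprime (Wq q w) ∧ (z + Wq q w - b).Coprime (Wq q w) ∧ b % q = u % q) then
        (1 : ℝ) else 0 := by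
    intro b hb
    rw [Finset.mem_range] at hb
    rw [Nat.mod_mod_of_dvd _ (Dvd.intro _ rfl)]
    have hloc : ∀ p ∈ S, loc z p ((b % P1) % p) = loc z p (b % p) := by
      intro p hp
      rw [Nat.mod_mod_of_dvd _ (Finset.dvd_prod_of_mem _ hp)]
    rw [Finset.prod_congr rfl hloc]
    by_cases hc : b % q = u % q ∧ ∀ p ∈ S, b % p ≠ 0 ∧ b % p ≠ z % p
    · obtain ⟨hc1, hc2⟩ := hc
      have key : ∀ p, p.Prime → p ∣ Wq q w → ¬ p ∣ b ∧ ¬ p ∣ (z + Wq q w - b) := by
        intro p hp hpW
        have hpW' : p ∣ q ∨ p ∈ S := by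
          rw [hW, hp.dvd_mul, hp.dvd_mul, hR0, hP1, hp.prime.dvd_finsetProd_iff,
            hp.prime.dvd_finsetProd_iff] at hpW
          rcases hpW with (h | ⟨r, hr, hd⟩) | ⟨r, hr, hd⟩
          · exact Or.inl h
          · left
            rw [(Nat.prime_dvd_prime_iff_eq hp (hS'prime r hr)).mp hd]
            exact (Finset.mem_filter.mp hr).2
          · right
            rw [(Nat.prime_dvd_prime_iff_eq hp (hSprime r hr)).mp hd]
            exact hr
        have hbz : p ∣ (z + Wq q w - b) → b % p = z % p := by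
          intro hd
          have h1 : z + Wq q w - b + b = z + Wq q w := by omega
          have h2 : (z + Wq q w - b + b) % p = b % p := by
            rw [Nat.add_mod, Nat.mod_eq_zero_of_dvd hd, zero_add, Nat.mod_mod]
          have h3 : (z + Wq q w) % p = z % p := by
            rw [Nat.add_mod, Nat.mod_eq_zero_of_dvd hpW, add_zero, Nat.mod_mod]
          rw [← h2, h1, h3]
        rcases hpW' with hpq | hpS
        · have hbu : b % p = u % p := by
            have := congrArg (· % p) hc1
            simpa only [Nat.mod_mod_of_dvd _ hpq] using this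
          have hzuv : z % p = (u + v) % p := by
            have := congrArg (· % p) huv
            simpa only [Nat.mod_mod_of_dvd _ hpq] using this.symm
          constructor
          · intro hd
            have : p ∣ u := by
              rw [Nat.dvd_iff_mod_eq_zero, ← hbu]
              exact Nat.mod_eq_zero_of_dvd hd
            exact Nat.Prime.not_coprime_iff_dvd.mpr ⟨p, hp, this, hpq⟩ hu
          · intro hd
            have h1 := hbz hd
            rw [hbu, hzuv] at h1
            have h2 : p ∣ v := by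
              have h3 : (u + 0) ≡ (u + v) [MOD p] := by
                rw [add_zero]; exact h1
              have h4 := Nat.ModEq.add_left_cancel' u h3
              exact (Nat.modEq_zero_iff_dvd.mp h4.symm)
            exact Nat.Prime.not_coprime_iff_dvd.mpr ⟨p, hp, h2, hpq⟩ hv
        · have := hc2 p hpS
          exact ⟨fun hd => this.1 (Nat.mod_eq_zero_of_dvd hd), fun hd => this.2 (hbz hd)⟩
      have hcop1 : b.Coprime (Wq q w) := by
        by_contra hcon
        obtain ⟨p, hp, h1, h2⟩ := Nat.Prime.not_coprime_iff_dvd.mp hcon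
        exact (key p hp h2).1 h1
      have hcop2 : (z + Wq q w - b).Coprime (Wq q w) := by
        by_contra hcon
        obtain ⟨p, hp, h1, h2⟩ := Nat.Prime.not_coprime_iff_dvd.mp hcon
        exact (key p hp h2).2 h1
      rw [if_pos hc1, one_mul, if_pos ⟨hcop1, hcop2, hc1⟩]
      refine le_of_eq (Finset.prod_eq_one fun p hp => ?_)
      unfold loc
      rw [if_neg]
      rintro (h | h)
      · exact (hc2 p hp).1 h
      · exact (hc2 p hp).2 h
    · have hzero : (if b % q = u % q then (1 : ℝ) else 0) * ∏ p ∈ S, loc z p (b % p) = 0 := by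
        by_cases hc1 : b % q = u % q
        · have : ∃ p ∈ S, ¬ (b % p ≠ 0 ∧ b % p ≠ z % p) := by
            by_contra hcon
            push Not at hcon
            exact hc ⟨hc1, fun p hp => hcon p hp⟩
          obtain ⟨p, hp, hnp⟩ := this
          rw [Finset.prod_eq_zero hp, mul_zero]
          unfold loc
          rw [if_pos]
          by_contra hcon
          push Not at hcon
          exact hnp hcon
        · rw [if_neg hc1, zero_mul]
      rw [hzero]
      split_ifs <;> norm_num
  have hsum := Finset.sum_le_sum hpt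
  have hcard : ∑ b ∈ range (Wq q w), (if (b.Coprime (Wq q w) ∧
      (z + Wq q w - b).Coprime (Wq q w) ∧ b % q = u % q) then (1 : ℝ) else 0) =
      (((range (Wq q w)).filter (fun b => b.Coprime (Wq q w) ∧
      (z + Wq q w - b).Coprime (Wq q w) ∧ b % q = u % q)).card : ℝ) := by
    rw [← Finset.sum_filter, Finset.sum_const, nsmul_eq_mul, mul_one]
  rw [hcard] at hsum
  refine le_trans ?_ hsum
  have hprod : ∑ b ∈ range (Wq q w),
      (if (b % (q * R0)) % q = u % q then (1 : ℝ) else 0) * ∏ p ∈ S, loc z p ((b % P1) % p) =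
      R0 * ∏ p ∈ S, ∑ a ∈ range p, loc z p a := by
    rw [hW, GT.LA.sum_range_mul_coprime (by positivity) hP1pos.ne' hcop
      (fun i j => (if i % q = u % q then (1 : ℝ) else 0) * ∏ p ∈ S, loc z p (j % p)),
      ← Finset.sum_mul_sum, card_class hq, GT.LA.sum_prod_period S hSprime (fun p a => loc z p a)]
  rw [hprod]
  have hV0 : ∀ p ∈ pr w, 0 ≤ (1 - 1 / (p : ℝ)) ∧ (1 - 1 / (p : ℝ)) ≤ 1 := by
    intro p hp
    have h2 : (2 : ℝ) ≤ p := by exact_mod_cast (mem_pr.mp hp).2.two_le
    constructor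
    · have : 1 / (p : ℝ) ≤ 1 / 2 := one_div_le_one_div_of_le (by norm_num) h2
      linarith
    · have : 0 ≤ 1 / (p : ℝ) := by positivity
      linarith
  have hSsub : S ⊆ pr w := Finset.filter_subset _ _
  have hVS : V w ^ 2 ≤ ∏ p ∈ S, (1 - 1 / (p : ℝ)) ^ 2 := by
    unfold V
    rw [← Finset.prod_pow]
    exact prod_subset_ge hSsub _ (fun p hp => by have := hV0 p hp; positivity)
      (fun p hp => by have := hV0 p hp; nlinarith)
  have hmain : (∏ p ∈ S, (p : ℝ)) * (∏ p ∈ S, (1 - 1 / (p : ℝ)) ^ 2) * ∏ p ∈ S, tf p ≤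
      ∏ p ∈ S, ∑ a ∈ range p, loc z p a := by
    rw [← Finset.prod_mul_distrib, ← Finset.prod_mul_distrib]
    refine Finset.prod_le_prod (fun p hp => ?_) (fun p hp => loc_sum hz (hSprime p hp))
    have := tf_nonneg (p := p)
    positivity
  have htf : (1 : ℝ) / 2 ≤ ∏ p ∈ S, tf p :=
    (tf_prod hw).trans (prod_subset_ge hSsub _
      (fun _ _ => tf_nonneg) (fun p _ => tf_le_one p))
  have hWr : ((Wq q w : ℕ) : ℝ) = q * R0 * ∏ p ∈ S, (p : ℝ) := by
    rw [hW, hP1]
    push_cast
    rfl
  rw [hWr]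
  have hq' : (0 : ℝ) < q := by exact_mod_cast hq
  have hR' : (0 : ℝ) < R0 := by exact_mod_cast hR0pos
  have hPr : 0 ≤ ∏ p ∈ S, (p : ℝ) := Finset.prod_nonneg fun p _ => by positivity
  have hPr2 : 0 ≤ ∏ p ∈ S, (1 - 1 / (p : ℝ)) ^ 2 := Finset.prod_nonneg fun p _ => by positivity
  calc 1 / (2 * (q : ℝ)) * (q * R0 * ∏ p ∈ S, (p : ℝ)) * V w ^ 2
      = R0 * ((∏ p ∈ S, (p : ℝ)) * V w ^ 2 * (1 / 2)) := by field_simp
    _ ≤ R0 * ((∏ p ∈ S, (p : ℝ)) * (∏ p ∈ S, (1 - 1 / (p : ℝ)) ^ 2) * ∏ p ∈ S, tf p) := by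
        apply mul_le_mul_of_nonneg_left _ hR'.le
        apply mul_le_mul _ htf (by norm_num) (mul_nonneg hPr hPr2)
        exact mul_le_mul_of_nonneg_left hVS hPr
    _ ≤ R0 * ∏ p ∈ S, ∑ a ∈ range p, loc z p a := mul_le_mul_of_nonneg_left hmain hR'.le

end Pool.Agent.Lib.KM
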