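import Pool.Agent.Lib.MP_7b7e48_nt.KM.Model

/-!
# KM project, module A4: the lower bound
-/

open Finset

namespace Pool.Agent.Lib.KM

open Pool.Agent.Lib.GT (e lam Lw V pr Tw Rough)

namespace Lower

theorem count_le {ι : Type*} (S : Finset ι) (f g : ι → ℝ) {t s : ℝ} (ht : 0 < t)
    (h : ∑ n ∈ S, |f n - g n| ≤ s) :
    ((S.filter (fun n => 2 * t ≤ g n)).card : ℝ) ≤
      (S.filter (fun n => t ≤ f n)).card + s / t := by
  classical
  have h1 : S.filter (fun n => 2 * t ≤ g n) ⊆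
      S.filter (fun n => t ≤ f n) ∪ S.filter (fun n => t ≤ |f n - g n|) := by
    intro n hn
    rw [mem_filter] at hn
    rw [mem_union, mem_filter, mem_filter]
    by_cases hf : t ≤ f n
    · exact Or.inl ⟨hn.1, hf⟩
    · refine Or.inr ⟨hn.1, ?_⟩
      rw [abs_sub_comm]
      refine le_trans ?_ (le_abs_self _)
      push Not at hf
      linarith [hn.2]
  have h2 : ((S.filter (fun n => t ≤ |f n - g n|)).card : ℝ) * t ≤ s := by
    have h3 : (S.filter (fun n => t ≤ |f n - g n|)).card • t ≤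
        ∑ n ∈ S.filter (fun n => t ≤ |f n - g n|), |f n - g n| :=
      card_nsmul_le_sum _ _ _ fun n hn => (mem_filter.1 hn).2
    rw [nsmul_eq_mul] at h3
    refine h3.trans (le_trans ?_ h)
    exact sum_le_sum_of_subset_of_nonneg (filter_subset _ _) fun n _ _ => abs_nonneg _
  have h4 : ((S.filter (fun n => t ≤ |f n - g n|)).card : ℝ) ≤ s / t := by
    rw [le_div_iff₀ ht]
    exact h2
  have h5 : ((S.filter (fun n => 2 * t ≤ g n)).card : ℝ) ≤
      (S.filter (fun n => t ≤ f n)).card + (S.filter (fun n => t ≤ |f n - g n|)).card := by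
    exact_mod_cast (card_le_card h1).trans (card_union_le _ _)
  linarith

theorem fA_le_log (A : Set ℕ) {W N : ℕ} (_h : 1 ≤ W * N) (n : ℕ) :
    fA A W N n ≤ Real.log ((W * N : ℕ) : ℝ) := by
  have h0 : 0 ≤ Real.log ((W * N : ℕ) : ℝ) := Real.log_natCast_nonneg _
  by_cases hn : n.Coprime W ∧ n < W * N
  · refine (Model.fA_le A W N n).trans ((Pool.Agent.Lib.GT.lam_le_log n).trans ?_)
    rcases Nat.eq_zero_or_pos n with rfl | hpos
    · simpa using h0
    · exact Real.log_le_log (by exact_mod_cast hpos) (by exact_mod_cast hn.2.le)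
  · unfold fA
    rw [if_neg hn]
    exact h0

theorem of_fA_ne_zero {A : Set ℕ} {W N n : ℕ} (h : fA A W N n ≠ 0) : n.Prime ∧ n ∈ A := by
  unfold fA at h
  split_ifs at h with h1
  · unfold lamA at h
    split_ifs at h with h2
    · unfold lam at h
      split_ifs at h with h3
      · exact ⟨h3, h2⟩
      · exact absurd rfl h
    · exact absurd rfl h
  · exact absurd rfl h

theorem fA_zero (A : Set ℕ) (W N : ℕ) : fA A W N 0 = 0 := by
  by_contra h
  exact Nat.not_prime_zero (of_fA_ne_zero h).1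

theorem fA_big (A : Set ℕ) (W N : ℕ) {n : ℕ} (h : W * N < n) : fA A W N n = 0 := by
  unfold fA
  rw [if_neg]
  rintro ⟨_, h2⟩
  omega

theorem rep_finite (A B : Set ℕ) (M : ℕ) : {p : ℕ × ℕ | p.1.Prime ∧ p.2.Prime ∧ p.1 ∈ A ∧
    p.2 ∈ B ∧ p.1 ≠ p.2 ∧ p.1 + p.2 = M}.Finite := by
  refine Set.Finite.subset ((range (M + 1) ×ˢ range (M + 1)).finite_toSet) ?_
  rintro ⟨x, y⟩ ⟨_, _, _, _, _, h⟩
  simp only [coe_product, coe_range, Set.mem_prod, Set.mem_Iio]
  change x + y = M at h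
  omega

theorem conv_le_rep (A B : Set ℕ) {W N n : ℕ} (h : 1 ≤ W * N) :
    ∑ x ∈ range (2 * n + 1), fA A W N x * fA B W N (2 * n - x) ≤
      ((rep A B (2 * n) : ℝ) + 1) * Real.log ((W * N : ℕ) : ℝ) ^ 2 := by
  classical
  set S := (range (2 * n + 1)).filter (fun x => fA A W N x * fA B W N (2 * n - x) ≠ 0) with hS
  have h1 : ∑ x ∈ range (2 * n + 1), fA A W N x * fA B W N (2 * n - x) =
      ∑ x ∈ S, fA A W N x * fA B W N (2 * n - x) := (sum_filter_ne_zero _).symm
  have h2 : ∑ x ∈ S, fA A W N x * fA B W N (2 * n - x) ≤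
      S.card • (Real.log ((W * N : ℕ) : ℝ) ^ 2) := by
    refine sum_le_card_nsmul _ _ _ fun x _ => ?_
    rw [sq]
    exact mul_le_mul (fA_le_log A h x) (fA_le_log B h _) (Model.fA_nonneg _ _ _ _)
      (Real.log_natCast_nonneg _)
  have h3 : S.card ≤ rep A B (2 * n) + 1 := by
    have h4 : (S.erase n).card ≤ rep A B (2 * n) := by
      have h5 : (S.erase n).card = ((S.erase n).image (fun x => (x, 2 * n - x))).card := by
        rw [card_image_of_injective]
        intro x y hxy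
        exact (Prod.mk.inj hxy).1
      rw [h5, ← Set.ncard_coe_finset]
      refine Set.ncard_le_ncard ?_ (rep_finite A B (2 * n))
      intro p hp
      rw [mem_coe, mem_image] at hp
      obtain ⟨x, hx, rfl⟩ := hp
      rw [mem_erase, hS, mem_filter, mem_range] at hx
      obtain ⟨hxn, hx1, hx2⟩ := hx
      have h6 := of_fA_ne_zero (left_ne_zero_of_mul hx2)
      have h7 := of_fA_ne_zero (right_ne_zero_of_mul hx2)
      refine ⟨h6.1, h7.1, h6.2, h7.2, ?_, ?_⟩
      · change x ≠ 2 * n - x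
        omega
      · change x + (2 * n - x) = 2 * n
        omega
    have h8 := pred_card_le_card_erase (s := S) (a := n)
    omega
  rw [h1]
  refine h2.trans ?_
  rw [nsmul_eq_mul]
  refine mul_le_mul_of_nonneg_right ?_ (by positivity)
  exact_mod_cast h3

theorem glue_big (w W N : ℕ) (F : ℕ → ℕ → ℝ) {n : ℕ} (h : W * N < n) :
    glue w W N F n = 0 := by
  unfold glue
  rw [if_neg]
  rintro ⟨_, h2⟩
  omega

/-- comparison of the convolutions in `L¹` -/
theorem l1_conv {X : ℕ} {fA fB gA gB : ℕ → ℝ} {s : ℝ}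
    (h1 : ∑ n ∈ range (2 * X + 1), |∑ x ∈ range (n + 1), fA x * (fB (n - x) - gB (n - x))| ≤ s)
    (h2 : ∑ n ∈ range (2 * X + 1), |∑ x ∈ range (n + 1), gB x * (fA (n - x) - gA (n - x))| ≤ s) :
    ∑ n ∈ range (2 * X + 1), |∑ x ∈ range (n + 1), fA x * fB (n - x) -
      ∑ x ∈ range (n + 1), gA x * gB (n - x)| ≤ 2 * s := by
  have h3 : ∀ n, |∑ x ∈ range (n + 1), fA x * fB (n - x) -
      ∑ x ∈ range (n + 1), gA x * gB (n - x)| ≤
      |∑ x ∈ range (n + 1), fA x * (fB (n - x) - gB (n - x))| +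
        |∑ x ∈ range (n + 1), gB x * (fA (n - x) - gA (n - x))| := by
    intro n
    have e1 : ∑ x ∈ range (n + 1), gB x * (fA (n - x) - gA (n - x)) =
        ∑ x ∈ range (n + 1), gB (n - x) * (fA x - gA x) := by
      rw [← sum_flip (fun x => gB x * (fA (n - x) - gA (n - x)))]
      refine sum_congr rfl fun x hx => ?_
      have : n - (n - x) = x := by
        have := mem_range.1 hx
        omega
      rw [this]
    rw [e1]
    refine le_trans (le_of_eq ?_) (abs_add_le _ _)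
    congr 1
    rw [← sum_sub_distrib, ← sum_add_distrib]
    exact sum_congr rfl fun x _ => by ring
  refine (sum_le_sum fun n _ => h3 n).trans ?_
  rw [sum_add_distrib]
  linarith

theorem sum_even_le {H N X : ℕ} (h : 2 * (H * N) ≤ 2 * X + 1) (f : ℕ → ℝ) (hf : ∀ n, 0 ≤ f n) :
    ∑ n ∈ range (H * N), f (2 * n) ≤ ∑ n ∈ range (2 * X + 1), f n := by
  rw [← sum_image (f := f) (g := fun n => 2 * n) (s := range (H * N)) (fun x _ y _ h => by
    simpa using h)]
  refine sum_le_sum_of_subset_of_nonneg ?_ fun n _ _ => hf n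
  intro m hm
  rw [mem_image] at hm
  obtain ⟨n, hn, rfl⟩ := hm
  rw [mem_range] at hn ⊢
  omega

end Lower

open Lower

theorem lower_of : ModelS → GlobalS → PopCountS → Transfer2S → LowerS := by
  intro hM hG hP hT q a b hq ha hb ε hε
  obtain ⟨c, κ, hc, hκ, q₀, hq₀, w₁, N₁, hP'⟩ := hP q a b hq ha hb (ε / 2) (by positivity)
  obtain ⟨η, hη, w₂, hT'⟩ := hT (c * ε / 64) (by positivity)
  obtain ⟨w₃, hA'⟩ := hM q a hq ha η κ hη hκ q₀ hq₀
  obtain ⟨w₄, hB'⟩ := hM q b hq hb η κ hη hκ q₀ hq₀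
  obtain ⟨w, hw1, hw2, hw3, hw4, hqw, h2w⟩ : ∃ w, w₁ ≤ w ∧ w₂ ≤ w ∧ w₃ ≤ w ∧ w₄ ≤ w ∧
      q ≤ w ∧ 2 ≤ w := ⟨w₁ + w₂ + w₃ + w₄ + q + 2, by omega, by omega, by omega, by omega,
        by omega, by omega⟩
  refine ⟨c / 16, by positivity, fun A B hA hB => ?_⟩
  obtain ⟨N₂, hN₂⟩ := hA' w hw3 A hA
  obtain ⟨N₃, hN₃⟩ := hB' w hw4 B hB
  obtain ⟨X₁, hX₁⟩ := hT' w hw2
  have hPw := hP' w hw1
  have hWW := Model.isW hq hqw
  obtain ⟨W, hW⟩ : ∃ W, W = Wq q w := ⟨_, rfl⟩
  rw [← hW] at hWW hPw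
  obtain ⟨H, hH⟩ : ∃ H, H = W / 2 := ⟨_, rfl⟩
  have h2W : 2 ∣ W := (hWW.2 2 Nat.prime_two).2 h2w
  have hWH : W = 2 * H := by omega
  have hHpos : 0 < H := by
    have := hWW.1
    omega
  have hHr : (0 : ℝ) < H := by exact_mod_cast hHpos
  -- large `X`
  have hlarge : ∀ᶠ X : ℕ in Filter.atTop, 1 ≤ X ∧
      H * (N₁ + N₂ + N₃ + X₁ + 2) ≤ X ∧ |K q a b| * H ≤ 3 * ε / 8 * X ∧
      Real.log X ^ 2 ≤ c / 16 * X ∧ 0 < Real.log X ∧ Real.log (2 * X) ≤ 2 * Real.log X := by
    have l1 : ∀ᶠ X : ℕ in Filter.atTop, 3 ≤ X := Filter.eventually_ge_atTop 3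
    have l2 : ∀ᶠ X : ℕ in Filter.atTop, H * (N₁ + N₂ + N₃ + X₁ + 2) ≤ X :=
      Filter.eventually_ge_atTop _
    have l3 : ∀ᶠ X : ℕ in Filter.atTop, |K q a b| * H / (3 * ε / 8) ≤ (X : ℝ) :=
      tendsto_natCast_atTop_atTop.eventually_ge_atTop _
    have l4 : ∀ᶠ X : ℕ in Filter.atTop, ‖Real.log X ^ 2‖ ≤ c / 16 * ‖(X : ℝ)‖ :=
      tendsto_natCast_atTop_atTop.eventually
        ((Real.isLittleO_pow_log_id_atTop (n := 2)).def (by positivity))
    filter_upwards [l1, l2, l3, l4] with X x1 x2 x3 x4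
    have x1' : (3 : ℝ) ≤ X := by exact_mod_cast x1
    have hlog : 0 < Real.log X := Real.log_pos (by linarith)
    refine ⟨by omega, x2, ?_, ?_, hlog, ?_⟩
    · rw [div_le_iff₀ (by positivity)] at x3
      linarith
    · rw [Real.norm_of_nonneg (by positivity), Real.norm_of_nonneg (by positivity)] at x4
      exact x4
    · rw [Real.log_mul (by norm_num) (by linarith)]
      have : Real.log 2 ≤ Real.log X := Real.log_le_log (by norm_num) (by linarith)
      linarith
  obtain ⟨X₀, hX₀⟩ := Filter.eventually_atTop.1 hlarge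
  refine ⟨X₀, fun X hX => ?_⟩
  obtain ⟨hX1, hX2, hX3, hX4, hlogpos, hlog2⟩ := hX₀ X hX
  obtain ⟨N, hN⟩ : ∃ N, N = X / H := ⟨_, rfl⟩
  have hNge : N₁ + N₂ + N₃ + X₁ + 2 ≤ N := by
    rw [hN]
    exact (Nat.le_div_iff_mul_le hHpos).2 (by rw [mul_comm]; exact hX2)
  have hHN1 : H * N ≤ X := by
    rw [hN]
    exact Nat.mul_div_le X H
  have hHN2 : X < H * N + H := by
    rw [hN]
    have := Nat.lt_mul_div_succ X hHpos
    rw [Nat.mul_succ] at this
    exact this
  have hNpos : 0 < N := by omega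
  obtain ⟨F, hF⟩ := hN₂ N (by omega)
  obtain ⟨G, hGm⟩ := hN₃ N (by omega)
  have hGA := hG A q a w N q₀ η κ F hq hqw h2w hNpos hη hF
  have hGB := hG B q b w N q₀ η κ G hq hqw h2w hNpos hη hGm
  have hpop := hPw N (by omega) A B η F G hF hGm
  rw [← hW] at hGA hGB
  rw [← hH] at hpop
  -- the number of sums
  have hWN1 : 1 ≤ W * N := Nat.mul_pos hWW.1 hNpos
  have hXWN : X₁ ≤ W * N := by
    have : N ≤ W * N := Nat.le_mul_of_pos_left _ hWW.1
    omega
  have hWN2H : W * N = 2 * (H * N) := by rw [hWH, mul_assoc]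
  have hfb : ∀ (A : Set ℕ) (n : ℕ), |fA A W N n| ≤ lam n + Lw w n := by
    intro A n
    rw [abs_of_nonneg (Model.fA_nonneg _ _ _ _)]
    have h1 := Model.fA_le A W N n
    have h2 := Pool.Agent.Lib.GT.Lw_nonneg w n
    linarith
  have hgb : ∀ n, |glue w W N G n| ≤ lam n + Lw w n := by
    intro n
    rw [abs_of_nonneg (hGB.1 n).1]
    have h1 := (hGB.1 n).2
    have h2 := Pool.Agent.Lib.GT.lam_nonneg n
    linarith
  have hdA : ∀ n, |fA A W N n - glue w W N F n| ≤ lam n + Lw w n := by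
    intro n
    have h1 := Model.fA_le A W N n
    have h2 := Model.fA_nonneg A W N n
    have h3 := (hGA.1 n).1
    have h4 := (hGA.1 n).2
    have h5 := Pool.Agent.Lib.GT.Lw_nonneg w n
    have h6 := Pool.Agent.Lib.GT.lam_nonneg n
    rw [abs_le]
    constructor <;> linarith
  have hdB : ∀ n, |fA B W N n - glue w W N G n| ≤ lam n + Lw w n := by
    intro n
    have h1 := Model.fA_le B W N n
    have h2 := Model.fA_nonneg B W N n
    have h3 := (hGB.1 n).1
    have h4 := (hGB.1 n).2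
    have h5 := Pool.Agent.Lib.GT.Lw_nonneg w n
    have h6 := Pool.Agent.Lib.GT.lam_nonneg n
    rw [abs_le]
    constructor <;> linarith
  have T1 := hX₁ (W * N) hXWN (fA A W N) (fun n => fA B W N n - glue w W N G n) (hfb A) hdB
    (fun n hn => ⟨fA_big A W N hn, by
      simp only [fA_big B W N hn, glue_big w W N G hn, sub_zero]⟩)
    (fun α => (hGB.2 α).trans (by push_cast; exact le_rfl))
  have T2 := hX₁ (W * N) hXWN (glue w W N G) (fun n => fA A W N n - glue w W N F n) hgb hdA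
    (fun n hn => ⟨glue_big w W N G hn, by
      simp only [fA_big A W N hn, glue_big w W N F hn, sub_zero]⟩)
    (fun α => (hGA.2 α).trans (by push_cast; exact le_rfl))
  have T3 := l1_conv T1 T2
  have T4 := (sum_even_le (H := H) (N := N) (X := W * N) (by omega)
    (fun n => |∑ x ∈ range (n + 1), fA A W N x * fA B W N (n - x) -
      ∑ x ∈ range (n + 1), glue w W N F x * glue w W N G (n - x)|)
    (fun n => abs_nonneg _)).trans T3
  have hWNr : (0 : ℝ) < ((W * N : ℕ) : ℝ) := by exact_mod_cast hWN1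
  have T5 := count_le (range (H * N)) (fun n => ∑ x ∈ range (2 * n + 1),
      fA A W N x * fA B W N (2 * n - x))
    (fun n => ∑ x ∈ range (2 * n + 1), glue w W N F x * glue w W N G (2 * n - x))
    (t := c / 2 * ((W * N : ℕ) : ℝ)) (by positivity) T4
  have e1 : 2 * (c / 2 * ((W * N : ℕ) : ℝ)) = c * ((W * N : ℕ) : ℝ) := by ring
  rw [e1] at T5
  have e2 : 2 * (c * ε / 64 * ((W * N : ℕ) : ℝ) ^ 2) / (c / 2 * ((W * N : ℕ) : ℝ)) =
      ε / 8 * (H * N) := by
    rw [hWN2H]
    have : (0 : ℝ) < N := by exact_mod_cast hNpos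
    push_cast
    field_simp
    ring
  rw [e2] at T5
  have hsub : (range (H * N)).filter (fun n => c / 2 * ((W * N : ℕ) : ℝ) ≤
      ∑ x ∈ range (2 * n + 1), fA A W N x * fA B W N (2 * n - x)) ⊆
      (Icc 1 X).filter (fun n => c / 16 * X / Real.log X ^ 2 ≤ (rep A B (2 * n) : ℝ)) := by
    intro n hn
    rw [mem_filter, mem_range] at hn
    obtain ⟨hn1, hn2⟩ := hn
    rw [mem_filter, mem_Icc]
    refine ⟨⟨?_, by omega⟩, ?_⟩
    · by_contra hn0
      have : n = 0 := by omega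
      subst this
      rw [mul_zero, zero_add, sum_range_one, fA_zero, zero_mul] at hn2
      have : 0 < c / 2 * ((W * N : ℕ) : ℝ) := by positivity
      linarith
    · have h1 := hn2.trans (conv_le_rep A B hWN1)
      have hXW : (X : ℝ) ≤ ((W * N : ℕ) : ℝ) := by
        have h3 : X ≤ W * N := by
          have h4 : H * 2 ≤ H * N := Nat.mul_le_mul_left H (by omega)
          omega
        exact_mod_cast h3
      have hXW2 : ((W * N : ℕ) : ℝ) ≤ 2 * X := by
        have h3 : W * N ≤ 2 * X := by omega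
        exact_mod_cast h3
      have hl0 : 0 ≤ Real.log ((W * N : ℕ) : ℝ) := Real.log_natCast_nonneg _
      have hl1 : Real.log ((W * N : ℕ) : ℝ) ≤ 2 * Real.log X :=
        (Real.log_le_log hWNr hXW2).trans hlog2
      have h2 : ((rep A B (2 * n) : ℝ) + 1) * Real.log ((W * N : ℕ) : ℝ) ^ 2 ≤
          ((rep A B (2 * n) : ℝ) + 1) * (2 * Real.log X) ^ 2 := by
        gcongr
      have h3 : c / 2 * (X : ℝ) ≤ c / 2 * ((W * N : ℕ) : ℝ) := by gcongr
      rw [div_le_iff₀ (by positivity)]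
      nlinarith
  have hcard := card_le_card hsub
  have hcard' : (((range (H * N)).filter (fun n => c / 2 * ((W * N : ℕ) : ℝ) ≤
      ∑ x ∈ range (2 * n + 1), fA A W N x * fA B W N (2 * n - x))).card : ℝ) ≤
      ((Icc 1 X).filter (fun n => c / 16 * X / Real.log X ^ 2 ≤ (rep A B (2 * n) : ℝ))).card := by
    exact_mod_cast hcard
  refine le_trans ?_ hcard'
  have h6 : (K q a b - ε / 2) * (H * N) ≤ _ := hpop
  have h7 : (K q a b - 5 * ε / 8) * (H * N) ≤ (((range (H * N)).filter (fun n =>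
      c / 2 * ((W * N : ℕ) : ℝ) ≤
      ∑ x ∈ range (2 * n + 1), fA A W N x * fA B W N (2 * n - x))).card : ℝ) := by
    have := h6.trans T5
    nlinarith
  refine le_trans ?_ h7
  have hb1 : (H : ℝ) * N ≤ X := by exact_mod_cast hHN1
  have hb2 : (X : ℝ) ≤ H * N + H := by exact_mod_cast hHN2.le
  have hb3 : K q a b ≤ |K q a b| := le_abs_self _
  have hb4 : -|K q a b| ≤ K q a b := neg_abs_le _
  have hb5 : (0 : ℝ) ≤ X := Nat.cast_nonneg _
  have hb6 : K q a b * (X - H * N) ≤ |K q a b| * H := by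
    have h8 : K q a b * (X - H * N) ≤ |K q a b| * (X - H * N) :=
      mul_le_mul_of_nonneg_right hb3 (by linarith)
    have h9 : |K q a b| * (X - H * N) ≤ |K q a b| * H :=
      mul_le_mul_of_nonneg_left (by linarith) (abs_nonneg _)
    linarith
  nlinarith

end Pool.Agent.Lib.KM
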