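import Pool.Agent.Lib.MP_7b7e48_nt.KM.Stmts
import Pool.Agent.Lib.MP_7b7e48_nt.GT.PNTAP

/-!
# KM project, module M: lower bound for the mass of a set of primes in an interval and a class
-/

open Finset Filter Topology

namespace Pool.Agent.Lib.KM

open Pool.Agent.Lib.GT (lam lam_nonneg lam_le_log)

namespace Mass

/-- the sum of the weights of the primes of a class -/
noncomputable def psi (m c N : ℕ) : ℝ := ∑ n ∈ Icc 1 N with n % m = c % m, lam n

theorem psi_zero (m c : ℕ) : psi m c 0 = 0 := by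
  unfold psi
  rw [Icc_eq_empty (by omega), filter_empty, sum_empty]

theorem tendsto_div (k J : ℕ) (hJ : 0 < J) :
    Tendsto (fun X : ℕ => ((k * X / J : ℕ) : ℝ) / X) atTop (𝓝 ((k : ℝ) / J)) := by
  have hJ' : (0 : ℝ) < J := by exact_mod_cast hJ
  have h0 : Tendsto (fun X : ℕ => (k : ℝ) / J - 1 / (X : ℝ)) atTop (𝓝 ((k : ℝ) / J)) := by
    have := (tendsto_const_nhds (x := (k : ℝ) / J)).sub (tendsto_one_div_atTop_nhds_zero_nat (𝕜 := ℝ))
    rwa [sub_zero] at this
  refine tendsto_of_tendsto_of_tendsto_of_le_of_le' h0 tendsto_const_nhds ?_ ?_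
  · filter_upwards [eventually_gt_atTop 0] with X hX
    have hX' : (0 : ℝ) < X := by exact_mod_cast hX
    rw [le_div_iff₀ hX', sub_mul, one_div_mul_cancel hX'.ne']
    have h1 : k * X < (k * X / J + 1) * J := by
      have := Nat.lt_div_mul_add hJ (a := k * X)
      rw [add_mul, one_mul]
      exact this
    have h2 : (k : ℝ) * X < (((k * X / J : ℕ) : ℝ) + 1) * J := by exact_mod_cast h1
    have h3 : (k : ℝ) / J * X = (k * X) / J := by ring
    rw [h3, sub_le_iff_le_add, div_le_iff₀ hJ']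
    exact h2.le
  · filter_upwards [eventually_gt_atTop 0] with X hX
    have hX' : (0 : ℝ) < X := by exact_mod_cast hX
    rw [div_le_div_iff₀ hX' hJ']
    exact_mod_cast Nat.div_mul_le_self (k * X) J

theorem tendsto_psi {m c : ℕ} (hm : 0 < m) (hc : c.Coprime m) (k J : ℕ) (hk : 0 < k)
    (hJ : 0 < J) :
    Tendsto (fun X : ℕ => psi m c (k * X / J) / X) atTop
      (𝓝 ((1 / (m.totient : ℝ)) * ((k : ℝ) / J))) := by
  have hN : Tendsto (fun X : ℕ => k * X / J) atTop atTop := by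
    refine tendsto_atTop.2 fun B => ?_
    filter_upwards [eventually_ge_atTop (B * J)] with X hX
    rw [Nat.le_div_iff_mul_le hJ]
    exact hX.trans (Nat.le_mul_of_pos_left X hk)
  have h1 := (Pool.Agent.Lib.GT.pnt_ap m c hm hc).comp hN
  have h2 := h1.mul (tendsto_div k J hJ)
  refine h2.congr fun X => ?_
  show psi m c (k * X / J) / ((k * X / J : ℕ) : ℝ) * (((k * X / J : ℕ) : ℝ) / X) = _
  by_cases h : k * X / J = 0
  · rw [h, psi_zero]
    simp
  · have h3 : ((k * X / J : ℕ) : ℝ) ≠ 0 := by exact_mod_cast h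
    field_simp

/-- the numbers of a class in a cell -/
def cell (m c J i X : ℕ) : Finset ℕ :=
  (range (X + 1)).filter (fun n => n % m = c % m ∧ i * X < n * J ∧ n * J ≤ (i + 1) * X)

theorem sum_cell (m c : ℕ) {J i : ℕ} (hJ : 0 < J) (hi : i + 1 ≤ J) (X : ℕ) :
    ∑ n ∈ cell m c J i X, lam n = psi m c ((i + 1) * X / J) - psi m c (i * X / J) := by
  unfold psi
  rw [eq_sub_iff_add_eq]
  have hd : Disjoint (cell m c J i X) ((Icc 1 (i * X / J)).filter (fun n => n % m = c % m)) := by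
    rw [disjoint_left]
    intro n hn hn'
    have h1 := (mem_filter.1 hn).2.2.1
    have h2 := (mem_Icc.1 (mem_filter.1 hn').1).2
    rw [Nat.le_div_iff_mul_le hJ] at h2
    omega
  rw [← sum_union hd]
  have hle : i * X / J ≤ (i + 1) * X / J :=
    Nat.div_le_div_right (Nat.mul_le_mul_right X (Nat.le_succ i))
  have hset : cell m c J i X ∪ (Icc 1 (i * X / J)).filter (fun n => n % m = c % m) =
      (Icc 1 ((i + 1) * X / J)).filter (fun n => n % m = c % m) := by
    ext n
    simp only [cell, mem_union, mem_filter, mem_Icc, mem_range, Nat.le_div_iff_mul_le hJ]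
    constructor
    · rintro (⟨h1, h2, h3, h4⟩ | ⟨⟨h1, h2⟩, h3⟩)
      · refine ⟨⟨?_, h4⟩, h2⟩
        by_contra hc
        have : n = 0 := by omega
        subst this
        omega
      · refine ⟨⟨h1, h2.trans ?_⟩, h3⟩
        exact Nat.mul_le_mul_right X (Nat.le_succ i)
    · rintro ⟨⟨h1, h2⟩, h3⟩
      by_cases h4 : n * J ≤ i * X
      · exact Or.inr ⟨⟨h1, h4⟩, h3⟩
      · refine Or.inl ⟨?_, h3, not_le.1 h4, h2⟩
        have h5 : n * J ≤ X * J := h2.trans (by
          rw [mul_comm X J]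
          exact Nat.mul_le_mul_right X hi)
        have h6 := Nat.le_of_mul_le_mul_right h5 hJ
        omega
  rw [hset]

theorem tendsto_cell {m c : ℕ} (hm : 0 < m) (hc : c.Coprime m) {J i : ℕ} (hJ : 0 < J)
    (hi0 : 0 < i) (hi : i + 1 ≤ J) :
    Tendsto (fun X : ℕ => (∑ n ∈ cell m c J i X, lam n) / X) atTop
      (𝓝 (1 / ((m.totient : ℝ) * J))) := by
  have h1 := (tendsto_psi hm hc (i + 1) J (Nat.succ_pos i) hJ).sub (tendsto_psi hm hc i J hi0 hJ)
  have h2 : 1 / (m.totient : ℝ) * (((i + 1 : ℕ) : ℝ) / J) - 1 / (m.totient : ℝ) * ((i : ℝ) / J) =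
      1 / ((m.totient : ℝ) * J) := by
    have h3 : (0 : ℝ) < m.totient := by exact_mod_cast Nat.totient_pos.2 hm
    have h4 : (0 : ℝ) < J := by exact_mod_cast hJ
    push_cast
    field_simp
    ring
  rw [h2] at h1
  refine h1.congr fun X => ?_
  rw [sum_cell m c hJ hi, sub_div]

/-- the primes of `A` in a cell -/
noncomputable def cellP (A : Set ℕ) (m c J i X : ℕ) : Finset ℕ :=
  @Finset.filter ℕ (fun n => n.Prime ∧ n ∈ A) (Classical.decPred _) (cell m c J i X)

theorem mem_cellP {A : Set ℕ} {m c J i X n : ℕ} :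
    n ∈ cellP A m c J i X ↔ n ∈ cell m c J i X ∧ n.Prime ∧ n ∈ A :=
  @Finset.mem_filter _ _ (Classical.decPred _) _ _

theorem cellP_subset (A : Set ℕ) (m c J i X : ℕ) : cellP A m c J i X ⊆ cell m c J i X :=
  fun _ hn => (mem_cellP.1 hn).1

theorem cnt_eq (A : Set ℕ) (m c : ℕ) {J i : ℕ} (hJ : 0 < J) (hi : i + 1 ≤ J) (X : ℕ) :
    cnt A m c ((i : ℝ) / J) (((i : ℝ) + 1) / J) X = (cellP A m c J i X).card := by
  have hJ' : (0 : ℝ) < J := by exact_mod_cast hJ
  unfold cnt
  rw [← Set.ncard_coe_finset]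
  congr 1
  ext p
  simp only [mem_coe, mem_cellP, cell, mem_filter, mem_range, Set.mem_ofPred_eq]
  have e1 : (i : ℝ) / J * X < p ↔ i * X < p * J := by
    rw [div_mul_eq_mul_div, div_lt_iff₀ hJ']
    exact_mod_cast Iff.rfl
  have e2 : (p : ℝ) ≤ ((i : ℝ) + 1) / J * X ↔ p * J ≤ (i + 1) * X := by
    rw [div_mul_eq_mul_div, le_div_iff₀ hJ']
    exact_mod_cast Iff.rfl
  rw [e1, e2]
  constructor
  · rintro ⟨h1, h2, h3, h4, h5⟩
    refine ⟨⟨?_, h3, h4, h5⟩, h1, h2⟩
    have h6 : p * J ≤ X * J := h5.trans (by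
      rw [mul_comm X J]
      exact Nat.mul_le_mul_right X hi)
    have h7 := Nat.le_of_mul_le_mul_right h6 hJ
    omega
  · rintro ⟨⟨_, h3, h4, h5⟩, h1, h2⟩
    exact ⟨h1, h2, h3, h4, h5⟩

theorem lamA_nonneg (A : Set ℕ) (n : ℕ) : 0 ≤ lamA A n := by
  unfold lamA
  split_ifs
  · exact lam_nonneg n
  · exact le_rfl

/-- mass of `A` in a cell, from below -/
theorem cell_lower (A : Set ℕ) (m c : ℕ) {J i : ℕ} (hJ : 0 < J) (hi0 : 0 < i) (X : ℕ)
    (hX : 0 < X) :
    (Real.log X - Real.log J) * (cellP A m c J i X).card ≤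
      ∑ n ∈ cell m c J i X, lamA A n := by
  have hJ' : (0 : ℝ) < J := by exact_mod_cast hJ
  have hX' : (0 : ℝ) < X := by exact_mod_cast hX
  calc (Real.log X - Real.log J) * (cellP A m c J i X).card =
        ∑ _n ∈ cellP A m c J i X, (Real.log X - Real.log J) := by
        rw [sum_const, nsmul_eq_mul, mul_comm]
    _ ≤ ∑ n ∈ cellP A m c J i X, lamA A n := by
        refine sum_le_sum fun n hn => ?_
        obtain ⟨h1, h2, h3⟩ := mem_cellP.1 hn
        have h4 := (mem_filter.1 h1).2.2.1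
        unfold lamA lam
        rw [if_pos h3, if_pos h2, ← Real.log_div hX'.ne' hJ'.ne']
        refine Real.log_le_log (by positivity) ?_
        rw [div_le_iff₀ hJ']
        have h5 : X ≤ i * X := Nat.le_mul_of_pos_left X hi0
        exact_mod_cast (h5.trans h4.le)
    _ ≤ _ := sum_le_sum_of_subset_of_nonneg (cellP_subset _ _ _ _ _ _) fun n _ _ =>
        lamA_nonneg A n

/-- mass of all the primes in a cell, from above -/
theorem cell_upper (m c : ℕ) {J i : ℕ} (X : ℕ) :
    ∑ n ∈ cell m c J i X, lam n ≤ Real.log X * (cellP Set.univ m c J i X).card := by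
  have h1 : ∑ n ∈ cell m c J i X, lam n = ∑ n ∈ cellP Set.univ m c J i X, lam n := by
    symm
    refine sum_subset (cellP_subset _ _ _ _ _ _) fun n hn hn' => ?_
    unfold lam
    rw [if_neg]
    intro hp
    exact hn' (mem_cellP.2 ⟨hn, hp, Set.mem_univ _⟩)
  rw [h1, mul_comm, ← nsmul_eq_mul]
  refine sum_le_card_nsmul _ _ _ fun n hn => ?_
  refine (lam_le_log n).trans ?_
  have h2 := mem_range.1 (mem_filter.1 (mem_cellP.1 hn).1).1
  rcases Nat.eq_zero_or_pos n with h0 | h0
  · subst h0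
    rw [Nat.cast_zero, Real.log_zero]
    exact Real.log_natCast_nonneg X
  · refine Real.log_le_log (by exact_mod_cast h0) ?_
    exact_mod_cast Nat.lt_succ_iff.1 h2

/-- the mass of `A` in a cell -/
theorem cell_mass {A : Set ℕ} {q : ℕ} {a : ℕ → ℝ} (ha : ∀ u, 0 ≤ a u ∧ a u ≤ 1)
    (hA : Dens A q a) {m c : ℕ} (hm : 0 < m) (hqm : q ∣ m) (hc : c.Coprime m) {J i : ℕ}
    (hJ : 0 < J) (hi0 : 0 < i) (hi : i + 1 ≤ J) {κ : ℝ} (hκ : 0 < κ) :
    ∀ᶠ X : ℕ in atTop, (a (c % q) / ((m.totient : ℝ) * J) - κ) * X ≤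
      ∑ n ∈ cell m c J i X, lamA A n := by
  set α := a (c % q) with hα
  have hφ : (0 : ℝ) < m.totient := by exact_mod_cast Nat.totient_pos.2 hm
  have hφ1 : (1 : ℝ) ≤ m.totient := by exact_mod_cast Nat.totient_pos.2 hm
  have hJ' : (0 : ℝ) < J := by exact_mod_cast hJ
  have hJ1 : (1 : ℝ) ≤ J := by exact_mod_cast hJ
  have hα0 : 0 ≤ α := (ha _).1
  rcases hα0.eq_or_lt with h0 | h0
  · refine Eventually.of_forall fun X => ?_
    rw [← h0, zero_div, zero_sub]
    have h1 : 0 ≤ ∑ n ∈ cell m c J i X, lamA A n := sum_nonneg fun n _ => lamA_nonneg A n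
    have h2 : (0 : ℝ) ≤ X := Nat.cast_nonneg X
    nlinarith
  set ε := min α (κ / 2) with hε
  have hε0 : 0 < ε := lt_min h0 (by positivity)
  have hεα : ε ≤ α := min_le_left _ _
  have hεκ : ε ≤ κ / 2 := min_le_right _ _
  obtain ⟨X0, hX0⟩ := hA m c hm hqm hc ((i : ℝ) / J) (((i : ℝ) + 1) / J)
    (by have : (0 : ℝ) < i := by exact_mod_cast hi0
        positivity)
    (div_lt_div_of_pos_right (by linarith) hJ') ε hε0
  have hlog : Tendsto (fun X : ℕ => Real.log (X : ℝ)) atTop atTop :=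
    Real.tendsto_log_atTop.comp tendsto_natCast_atTop_atTop
  have h1 : Tendsto (fun X : ℕ => 1 - Real.log J / Real.log (X : ℝ)) atTop (𝓝 1) := by
    have h2 := (tendsto_const_nhds (x := (1 : ℝ))).sub
      ((tendsto_const_nhds (x := Real.log J)).div_atTop hlog)
    rwa [sub_zero] at h2
  have h2 := (h1.mul (tendsto_cell hm hc hJ hi0 hi)).const_mul (α - ε)
  have h3 : α / ((m.totient : ℝ) * J) - κ < (α - ε) * (1 * (1 / ((m.totient : ℝ) * J))) := by
    have h4 : 1 / ((m.totient : ℝ) * J) ≤ 1 := by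
      rw [div_le_one (by positivity)]
      nlinarith
    have h5 : α / ((m.totient : ℝ) * J) = α * (1 / ((m.totient : ℝ) * J)) := by ring
    rw [h5]
    have h6 : 0 < 1 / ((m.totient : ℝ) * J) := by positivity
    nlinarith
  filter_upwards [h2.eventually (lt_mem_nhds h3), eventually_ge_atTop X0,
    eventually_gt_atTop 0, hlog.eventually_ge_atTop (Real.log J), hlog.eventually_gt_atTop 0]
    with X hX1 hX2 hX3 hX4 hX5
  have hXR : (0 : ℝ) < X := by exact_mod_cast hX3
  have c1 := hX0 X hX2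
  rw [cnt_eq _ m c hJ hi, cnt_eq _ m c hJ hi] at c1
  have c2 := cell_lower A m c hJ hi0 X hX3
  have c3 := cell_upper m c (J := J) (i := i) X
  set D := ∑ n ∈ cell m c J i X, lam n with hD
  have c4 : (Real.log X - Real.log J) * ((α - ε) * ((cellP Set.univ m c J i X).card : ℝ)) ≤
      ∑ n ∈ cell m c J i X, lamA A n :=
    le_trans (mul_le_mul_of_nonneg_left c1 (by linarith)) c2
  have c5 : (α - ε) * ((1 - Real.log J / Real.log X) * D) ≤
      (Real.log X - Real.log J) * ((α - ε) * ((cellP Set.univ m c J i X).card : ℝ)) := by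
    have e1 : (Real.log X - Real.log J) = (1 - Real.log J / Real.log X) * Real.log X := by
      field_simp
    have e2 : 0 ≤ 1 - Real.log J / Real.log X := by
      rw [sub_nonneg, div_le_one hX5]
      exact hX4
    rw [e1]
    have e3 := mul_le_mul_of_nonneg_left c3 (mul_nonneg (sub_nonneg.2 hεα) e2)
    calc (α - ε) * ((1 - Real.log J / Real.log X) * D) =
          (α - ε) * (1 - Real.log J / Real.log X) * D := by ring
      _ ≤ _ := e3
      _ = _ := by ring
  have c6 : (α / ((m.totient : ℝ) * J) - κ) * X ≤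
      (α - ε) * ((1 - Real.log J / Real.log X) * D) := by
    have e1 := mul_le_mul_of_nonneg_right hX1.le hXR.le
    calc (α / ((m.totient : ℝ) * J) - κ) * X ≤
          (α - ε) * ((1 - Real.log J / Real.log X) * (D / X)) * X := e1
      _ = _ := by field_simp
  exact c6.trans (c5.trans c4)

/-- the index of the cell of `n` -/
theorem cell_index {m c J X i n : ℕ} (hX : 0 < X) (hn : n ∈ cell m c J i X) :
    (n * J - 1) / X = i := by
  obtain ⟨_, _, h1, h2⟩ := mem_filter.1 hn
  rw [Nat.div_eq_iff hX]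
  rw [add_mul, one_mul] at h2
  constructor
  · omega
  · omega

end Mass

open Mass in
theorem mass_holds : MassS := by
  intro A q a hq ha hA m c hm hqm hc κ hκ
  have hφ : (0 : ℝ) < m.totient := by exact_mod_cast Nat.totient_pos.2 hm
  have hφ1 : (1 : ℝ) ≤ m.totient := by exact_mod_cast Nat.totient_pos.2 hm
  have hα0 : 0 ≤ a (c % q) := (ha _).1
  have hα1 : a (c % q) ≤ 1 := (ha _).2
  set J : ℕ := ⌈6 / κ⌉₊ + 2 with hJd
  have hJ : 0 < J := by omega
  have hJ' : (0 : ℝ) < J := by exact_mod_cast hJ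
  have hJκ : 6 / κ ≤ J := by
    rw [hJd]
    push_cast
    have := Nat.le_ceil (6 / κ)
    linarith
  have hev : ∀ᶠ X : ℕ in atTop, ∀ i ∈ Ico 1 J,
      (a (c % q) / ((m.totient : ℝ) * J) - κ / (2 * J)) * X ≤
        ∑ n ∈ cell m c J i X, lamA A n := by
    rw [Filter.eventually_all_finset]
    intro i hi
    obtain ⟨h1, h2⟩ := mem_Ico.1 hi
    exact cell_mass ha hA hm hqm hc hJ h1 h2 (by positivity)
  obtain ⟨X0, hX0⟩ := Filter.eventually_atTop.1 hev
  refine ⟨max X0 1, fun X hX s t hst ht => ?_⟩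
  have hXpos : 0 < X := lt_of_lt_of_le Nat.zero_lt_one ((le_max_right _ _).trans hX)
  have hXR : (0 : ℝ) < X := by exact_mod_cast hXpos
  have hXR1 : (1 : ℝ) ≤ X := by exact_mod_cast hXpos
  have hcells := hX0 X ((le_max_left _ _).trans hX)
  have hnn : 0 ≤ ∑ n ∈ (Ico s t).filter (fun n => n % m = c % m), lamA A n :=
    sum_nonneg fun n _ => lamA_nonneg A n
  have hstR : (s : ℝ) ≤ t := by exact_mod_cast hst
  have htR : (t : ℝ) ≤ X := by exact_mod_cast ht
  have hsR : (0 : ℝ) ≤ s := Nat.cast_nonneg s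
  have hαφ : a (c % q) * ((t : ℝ) - s) / m.totient = (a (c % q) / m.totient) * (t - s) := by ring
  rw [hαφ]
  set β := a (c % q) / m.totient with hβ
  have hβ0 : 0 ≤ β := by positivity
  have hβ1 : β ≤ 1 := by
    rw [hβ, div_le_one hφ]
    linarith
  rcases le_or_gt β (κ / 2) with hsmall | hbig
  · have : β * (t - s) ≤ κ * X := by nlinarith
    linarith
  rcases Nat.eq_zero_or_pos t with ht0 | ht0
  · subst ht0
    have : s = 0 := by omega
    subst this
    push_cast at *
    nlinarith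
  -- the cells inside the interval
  set i0 := s * J / X + 1 with hi0
  set i1 := (t * J - 1) / X with hi1
  have htJ : 1 ≤ t * J := Nat.mul_pos ht0 hJ
  have hin : ∀ i ∈ Ico i0 i1, i ∈ Ico 1 J ∧
      cell m c J i X ⊆ (Ico s t).filter (fun n => n % m = c % m) := by
    intro i hi
    obtain ⟨h1, h2⟩ := mem_Ico.1 hi
    have h3 : i1 * X ≤ t * J - 1 := Nat.div_mul_le_self _ _
    have h4 : s * J < i0 * X := by
      rw [hi0, add_mul, one_mul]
      exact Nat.lt_div_mul_add hXpos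
    have h5 : i0 * X ≤ i * X := Nat.mul_le_mul_right X h1
    have h6 : (i + 1) * X ≤ i1 * X := Nat.mul_le_mul_right X h2
    have h0 : 1 ≤ i0 := by
      rw [hi0]
      exact Nat.le_add_left 1 _
    refine ⟨mem_Ico.2 ⟨h0.trans h1, ?_⟩, fun n hn => ?_⟩
    · by_contra hc'
      have h7 : J * X ≤ i * X := Nat.mul_le_mul_right X (not_lt.1 hc')
      have h8 : t * J ≤ X * J := Nat.mul_le_mul_right J ht
      have h9 : i * X ≤ (i + 1) * X := Nat.mul_le_mul_right X (Nat.le_succ i)
      rw [mul_comm X J] at h8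
      omega
    · obtain ⟨_, g1, g2, g3⟩ := mem_filter.1 hn
      refine mem_filter.2 ⟨mem_Ico.2 ⟨?_, ?_⟩, g1⟩
      · have g4 : s * J < n * J := by omega
        exact (Nat.lt_of_mul_lt_mul_right g4).le
      · have g4 : n * J < t * J := by omega
        exact Nat.lt_of_mul_lt_mul_right g4
  -- sum over the cells
  have hsum : ∑ i ∈ Ico i0 i1, ∑ n ∈ cell m c J i X, lamA A n ≤
      ∑ n ∈ (Ico s t).filter (fun n => n % m = c % m), lamA A n := by
    rw [← sum_biUnion]
    · refine sum_le_sum_of_subset_of_nonneg ?_ fun n _ _ => lamA_nonneg A n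
      intro n hn
      obtain ⟨i, hi, hni⟩ := mem_biUnion.1 hn
      exact (hin i hi).2 hni
    · intro i _ j _ hij
      refine disjoint_left.2 fun n hn hn' => hij ?_
      rw [← cell_index hXpos hn, ← cell_index hXpos hn']
  have hlow : ∑ i ∈ Ico i0 i1, (β / J - κ / (2 * J)) * X ≤
      ∑ i ∈ Ico i0 i1, ∑ n ∈ cell m c J i X, lamA A n := by
    refine sum_le_sum fun i hi => ?_
    have h1 := hcells i (hin i hi).1
    have h2 : a (c % q) / ((m.totient : ℝ) * J) = β / J := by
      rw [hβ, div_div]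
    rwa [h2] at h1
  rw [sum_const, nsmul_eq_mul, Nat.card_Ico] at hlow
  have hcount : ((t : ℝ) - s) * J / X - 3 ≤ ((i1 - i0 : ℕ) : ℝ) := by
    have h1 : (i1 : ℝ) - i0 ≤ ((i1 - i0 : ℕ) : ℝ) := by
      rw [sub_le_iff_le_add]
      have h0 : i1 ≤ (i1 - i0) + i0 := by omega
      exact_mod_cast h0
    have h2 : ((t * J - 1 : ℕ) : ℝ) < (i1 + 1) * X := by
      have h3 : t * J - 1 < (i1 + 1) * X := by
        rw [add_mul, one_mul]
        exact Nat.lt_div_mul_add hXpos
      exact_mod_cast h3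
    rw [Nat.cast_sub htJ] at h2
    push_cast at h2
    have h4 : (((i0 : ℕ) : ℝ) - 1) * X ≤ s * J := by
      have h5 : (s * J / X) * X ≤ s * J := Nat.div_mul_le_self _ _
      have h6 : ((i0 : ℕ) : ℝ) - 1 = ((s * J / X : ℕ) : ℝ) := by
        rw [hi0]
        push_cast
        ring
      rw [h6]
      exact_mod_cast h5
    have h7 : ((t : ℝ) - s) * J / X ≤ (i1 : ℝ) - i0 + 3 := by
      rw [div_le_iff₀ hXR]
      nlinarith
    linarith
  have hpos : 0 ≤ (β / J - κ / (2 * J)) * X := by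
    have h1 : β / J - κ / (2 * J) = (β - κ / 2) / J := by
      field_simp
    rw [h1]
    have h2 : 0 ≤ β - κ / 2 := by linarith
    positivity
  have h1 := mul_le_mul_of_nonneg_right hcount hpos
  have h2 : (((t : ℝ) - s) * J / X - 3) * ((β / J - κ / (2 * J)) * X) =
      β * (t - s) - κ / 2 * (t - s) - 3 / J * ((β - κ / 2) * X) := by
    field_simp
  have h3 : 3 / (J : ℝ) ≤ κ / 2 := by
    rw [div_le_div_iff₀ hJ' (by norm_num)]
    rw [div_le_iff₀ hκ] at hJκ
    linarith
  have h4 : 3 / (J : ℝ) * ((β - κ / 2) * X) ≤ κ / 2 * X := by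
    have h5 : (β - κ / 2) * X ≤ X := by nlinarith
    have h6 : 0 ≤ (β - κ / 2) * X := mul_nonneg (by linarith) hXR.le
    calc 3 / (J : ℝ) * ((β - κ / 2) * X) ≤ κ / 2 * ((β - κ / 2) * X) :=
          mul_le_mul_of_nonneg_right h3 h6
      _ ≤ κ / 2 * X := mul_le_mul_of_nonneg_left h5 (by positivity)
  have h5 : κ / 2 * ((t : ℝ) - s) ≤ κ / 2 * X :=
    mul_le_mul_of_nonneg_left (by linarith) (by positivity)
  linarith

end Pool.Agent.Lib.KM
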