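import Pool.Agent.Lib.MP_7b7e48_nt.KM.Stmts

/-!
# KM project, module A1: models of sets of primes in the classes mod `W`
-/

open Finset

namespace Pool.Agent.Lib.KM

open Pool.Agent.Lib.GT (e lam Lw V pr Tw Rough)

namespace Model

theorem Wq_pos {q w : ℕ} (hq : 0 < q) : 0 < Wq q w :=
  Nat.mul_pos hq (Finset.prod_pos fun _ hp => (Finset.mem_filter.1 hp).2.pos)

theorem isW {q w : ℕ} (hq : 0 < q) (hqw : q ≤ w) : IsW w (Wq q w) := by
  refine ⟨Wq_pos hq, fun p hp => ⟨fun h => ?_, fun h => ?_⟩⟩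
  · rcases (hp.dvd_mul).1 h with h1 | h1
    · exact (Nat.le_of_dvd hq h1).trans hqw
    · obtain ⟨r, hr, h2⟩ := (hp.prime.dvd_finsetProd_iff _).1 h1
      have h3 := (Nat.prime_dvd_prime_iff_eq hp (mem_filter.1 hr).2).1 h2
      subst h3
      have := mem_range.1 (mem_filter.1 hr).1
      omega
  · exact Dvd.dvd.mul_left (Finset.dvd_prod_of_mem (fun p => p)
      (mem_filter.2 ⟨mem_range.2 (by omega), hp⟩ : p ∈ pr w)) _

theorem primeFactors_eq {w W q₀ : ℕ} (hW : IsW w W) (hq₀ : 0 < q₀) (hqw : q₀ ≤ w) :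
    (W * q₀).primeFactors = pr w := by
  ext p
  rw [Nat.mem_primeFactors]
  unfold pr
  rw [mem_filter, mem_range]
  constructor
  · rintro ⟨hp, hd, -⟩
    refine ⟨?_, hp⟩
    rcases (hp.dvd_mul).1 hd with h1 | h1
    · have := (hW.2 p hp).1 h1
      omega
    · have := Nat.le_of_dvd hq₀ h1
      omega
  · rintro ⟨hp1, hp⟩
    exact ⟨hp, Dvd.dvd.mul_right ((hW.2 p hp).2 (by omega)) _,
      (Nat.mul_pos hW.1 hq₀).ne'⟩

theorem totient_eq {w W q₀ : ℕ} (hW : IsW w W) (hq₀ : 0 < q₀) (hqw : q₀ ≤ w) :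
    ((W * q₀).totient : ℝ) = W * q₀ * V w := by
  have h := Nat.totient_eq_mul_prod_factors (W * q₀)
  rw [primeFactors_eq hW hq₀ hqw] at h
  have h2 : (((W * q₀).totient : ℚ) : ℝ) = W * q₀ * V w := by
    rw [h]
    unfold V
    push_cast
    congr 1
    refine prod_congr rfl fun p _ => ?_
    rw [one_div]
  rw [← h2]
  push_cast
  rfl

theorem V_le_one (w : ℕ) : V w ≤ 1 := by
  unfold V
  refine prod_le_one (fun p hp => ?_) fun p hp => ?_
  · have h2 : (1 : ℝ) ≤ p := by exact_mod_cast (Finset.mem_filter.mp hp).2.one_lt.le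
    have : 1 / (p : ℝ) ≤ 1 := by rw [div_le_one (by linarith)]; exact h2
    linarith
  · have : 0 ≤ 1 / (p : ℝ) := by positivity
    linarith

theorem coprime_add {W m b : ℕ} (hb : b.Coprime W) : (W * m + b).Coprime W := by
  rw [Nat.coprime_iff_gcd_eq_one, Nat.gcd_comm, mul_comm, Nat.gcd_mul_right_add_right,
    Nat.gcd_comm]
  exact hb

theorem lamA_nonneg (A : Set ℕ) (n : ℕ) : 0 ≤ lamA A n := by
  unfold lamA
  split_ifs
  · exact Pool.Agent.Lib.GT.lam_nonneg n
  · exact le_rfl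

theorem lamA_le (A : Set ℕ) (n : ℕ) : lamA A n ≤ lam n := by
  unfold lamA
  split_ifs
  · exact le_rfl
  · exact Pool.Agent.Lib.GT.lam_nonneg n

theorem fA_nonneg (A : Set ℕ) (W N n : ℕ) : 0 ≤ fA A W N n := by
  unfold fA
  split_ifs
  · exact lamA_nonneg A n
  · exact le_rfl

theorem fA_le (A : Set ℕ) (W N n : ℕ) : fA A W N n ≤ lam n := by
  unfold fA
  split_ifs
  · exact lamA_le A n
  · exact Pool.Agent.Lib.GT.lam_nonneg n

theorem sum_classes (A : Set ℕ) {W q₀ b s t r : ℕ} (hW : 0 < W) (hb : b < W)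
    (hr : r < q₀) :
    ∑ n ∈ (Ico (W * s + b) (W * t + b)).filter
        (fun n => n % (W * q₀) = (W * r + b) % (W * q₀)), lamA A n =
      ∑ m ∈ (Ico s t).filter (fun m => m % q₀ = r), lamA A (W * m + b) := by
  symm
  refine sum_nbij' (fun m => W * m + b) (fun n => n / W) ?_ ?_ ?_ ?_ ?_
  · intro m hm
    rw [mem_filter, mem_Ico] at hm ⊢
    obtain ⟨⟨h1, h2⟩, h3⟩ := hm
    refine ⟨⟨?_, ?_⟩, ?_⟩
    · have := Nat.mul_le_mul_left W h1
      omega
    · have := Nat.mul_lt_mul_of_pos_left h2 hW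
      omega
    · have h4 : m ≡ r [MOD q₀] := by
        unfold Nat.ModEq
        rw [h3, Nat.mod_eq_of_lt hr]
      exact (h4.mul_left' W).add_right b
  · intro n hn
    rw [mem_filter, mem_Ico] at hn ⊢
    obtain ⟨⟨h1, h2⟩, h3⟩ := hn
    have h4 : n ≡ W * r + b [MOD W * q₀] := h3
    have h5 : n ≡ b [MOD W] := by
      have := h4.of_mul_right q₀
      refine this.trans ?_
      unfold Nat.ModEq
      rw [Nat.mul_add_mod]
    have h6 : n % W = b := by
      have : n % W = b % W := h5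
      rw [this, Nat.mod_eq_of_lt hb]
    have h7 := Nat.div_add_mod n W
    rw [h6] at h7
    set m := n / W with hm
    rw [← h7] at h1 h2 h4
    refine ⟨⟨?_, ?_⟩, ?_⟩
    · exact Nat.le_of_mul_le_mul_left (by omega : W * s ≤ W * m) hW
    · exact Nat.lt_of_mul_lt_mul_left (a := W) (by omega)
    · have h8 := h4.add_right_cancel'
      have h9 : m ≡ r [MOD q₀] := Nat.ModEq.mul_left_cancel' hW.ne' h8
      have : m % q₀ = r % q₀ := h9
      rw [this, Nat.mod_eq_of_lt hr]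
  · intro m hm
    rw [Nat.mul_add_div hW, Nat.div_eq_of_lt hb, add_zero]
  · intro n hn
    rw [mem_filter, mem_Ico] at hn
    obtain ⟨⟨h1, h2⟩, h3⟩ := hn
    have h4 : n ≡ W * r + b [MOD W * q₀] := h3
    have h5 : n ≡ b [MOD W] := by
      have := h4.of_mul_right q₀
      refine this.trans ?_
      unfold Nat.ModEq
      rw [Nat.mul_add_mod]
    have h6 : n % W = b := by
      have : n % W = b % W := h5
      rw [this, Nat.mod_eq_of_lt hb]
    have h7 := Nat.div_add_mod n W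
    rw [h6] at h7
    exact h7
  · intro m _
    rfl

end Model

open Model

theorem model_of : DenseModelS → ClsUniformS → MassS → ModelS := by
  intro hD hC hM q a hq ha η κ hη hκ q₀ hq₀
  obtain ⟨τ, hτ, N₁, hN₁⟩ := hD (min η (κ / 2)) (by positivity) q₀ hq₀
  obtain ⟨w₁, hw₁⟩ := hC τ hτ
  refine ⟨max (max w₁ q) (max q₀ 2), fun w hw A hA => ?_⟩
  have hww₁ : w₁ ≤ w := by omega
  have hqw : q ≤ w := by omega
  have hq₀w : q₀ ≤ w := by omega
  set W := Wq q w with hWdef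
  have hW : IsW w W := isW hq hqw
  have hWpos : 0 < W := hW.1
  have hqW : q ∣ W := Dvd.intro _ rfl
  obtain ⟨N₂, hN₂⟩ := hw₁ w hww₁ W hW
  have hκ' : 0 < κ / (4 * W) := by positivity
  have hM' : ∀ c : ℕ, ∃ X₀ : ℕ, ∀ X : ℕ, X₀ ≤ X → c.Coprime (W * q₀) → ∀ s t : ℕ, s ≤ t →
      t ≤ X → a (c % q) * ((t : ℝ) - s) / (W * q₀).totient - κ / (4 * W) * X ≤
        ∑ n ∈ (Ico s t).filter (fun n => n % (W * q₀) = c % (W * q₀)), lamA A n := by
    intro c
    by_cases hc : c.Coprime (W * q₀)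
    · obtain ⟨X₀, hX₀⟩ := hM A q a hq ha hA (W * q₀) c (Nat.mul_pos hWpos hq₀)
        (Dvd.dvd.mul_right hqW _) hc (κ / (4 * W)) hκ'
      exact ⟨X₀, fun X hX _ => hX₀ X hX⟩
    · exact ⟨0, fun X _ h => absurd h hc⟩
  choose X₀ hX₀ using hM'
  refine ⟨max (max N₁ N₂) (max 1 ((range (W * q₀)).sup X₀)), fun N hN => ?_⟩
  have hNN₁ : N₁ ≤ N := by omega
  have hNN₂ : N₂ ≤ N := by omega
  have hN1 : 1 ≤ N := by omega
  have hNX : (range (W * q₀)).sup X₀ ≤ N := by omega
  have hfν : ∀ b : ℕ, ∀ n : ℕ, 0 ≤ V w * fA A W N (W * n + b) ∧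
      V w * fA A W N (W * n + b) ≤ V w * lam (W * n + b) := fun b n =>
    ⟨mul_nonneg (Pool.Agent.Lib.GT.V_pos w).le (fA_nonneg _ _ _ _),
      mul_le_mul_of_nonneg_left (fA_le _ _ _ _) (Pool.Agent.Lib.GT.V_pos w).le⟩
  have hF : ∀ b : ℕ, ∃ F : ℕ → ℝ, (∀ n, 0 ≤ F n ∧ F n ≤ 1) ∧ (∀ n, N ≤ n → F n = 0) ∧
      (b < W → b.Coprime W →
        (∀ θ : ℝ, ‖∑ n ∈ range N, ((V w * fA A W N (W * n + b) - F n : ℝ) : ℂ) * e (θ * n)‖ ≤
          min η (κ / 2) * N) ∧
        (∀ s t r : ℕ, s ≤ t → t ≤ N → r < q₀ →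
          |∑ n ∈ (Ico s t).filter (fun n => n % q₀ = r), (F n - V w * fA A W N (W * n + b))| ≤
            min η (κ / 2) * N)) := by
    intro b
    by_cases hb : b < W ∧ b.Coprime W
    · obtain ⟨F, h1, h2, h3, h4⟩ := hN₁ N hNN₁ (fun n => V w * fA A W N (W * n + b))
        (fun n => V w * lam (W * n + b)) (hfν b) (hN₂ N hNN₂ b hb.1 hb.2)
      exact ⟨F, h1, h2, fun _ _ => ⟨h3, h4⟩⟩
    · exact ⟨fun _ => 0, fun _ => ⟨le_rfl, zero_le_one⟩, fun _ _ => rfl,
        fun h1 h2 => absurd ⟨h1, h2⟩ hb⟩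
  choose F hF1 hF2 hF3 using hF
  refine ⟨F, fun b m => hF1 b m, fun b m => hF2 b m, fun b hb hbW θ => ?_,
    fun b hb hbW s t r hst htN hr => ?_⟩
  · refine ((hF3 b hb hbW).1 θ).trans ?_
    exact mul_le_mul_of_nonneg_right (min_le_left _ _) (Nat.cast_nonneg _)
  · have h4 := (hF3 b hb hbW).2 s t r hst htN hr
    have h5 : min η (κ / 2) * N ≤ κ / 2 * N :=
      mul_le_mul_of_nonneg_right (min_le_right _ _) (Nat.cast_nonneg _)
    rw [sum_sub_distrib] at h4
    have h6 := (abs_le.1 h4).1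
    -- the mass of `f`
    have hcW : (W * r + b).Coprime (W * q₀) := by
      refine Nat.Coprime.mul_right (coprime_add hbW) ?_
      refine Nat.coprime_of_dvd fun p hp hp1 hp2 => ?_
      have hpw : p ≤ w := (Nat.le_of_dvd hq₀ hp2).trans hq₀w
      have hpW : p ∣ W := (hW.2 p hp).2 hpw
      have := (coprime_add (m := r) hbW)
      exact Nat.not_coprime_of_dvd_of_dvd hp.one_lt hp1 hpW this
    have hclt : W * r + b < W * q₀ := by
      have := Nat.mul_le_mul_left W (Nat.succ_le_of_lt hr)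
      rw [Nat.mul_succ] at this
      omega
    have hXle : X₀ (W * r + b) ≤ W * (N + 1) := by
      have h1 : X₀ (W * r + b) ≤ (range (W * q₀)).sup X₀ :=
        le_sup (f := X₀) (mem_range.2 hclt)
      have h2 : N + 1 ≤ W * (N + 1) := Nat.le_mul_of_pos_left _ hWpos
      omega
    have h7 := hX₀ (W * r + b) (W * (N + 1)) hXle hcW (W * s + b) (W * t + b)
      (by have := Nat.mul_le_mul_left W hst; omega)
      (by have := Nat.mul_le_mul_left W htN; rw [Nat.mul_succ]; omega)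
    rw [sum_classes A hWpos hb hr, totient_eq hW hq₀ hq₀w] at h7
    have h8 : (W * r + b) % q = b % q := by
      obtain ⟨k, hk⟩ := hqW
      rw [hk, mul_assoc, Nat.mul_add_mod]
    rw [h8] at h7
    have h9 : ∑ m ∈ (Ico s t).filter (fun m => m % q₀ = r), V w * fA A W N (W * m + b) =
        V w * ∑ m ∈ (Ico s t).filter (fun m => m % q₀ = r), lamA A (W * m + b) := by
      rw [mul_sum]
      refine sum_congr rfl fun m hm => ?_
      rw [mem_filter, mem_Ico] at hm
      congr 1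
      unfold fA
      rw [if_pos]
      refine ⟨coprime_add hbW, ?_⟩
      have : m + 1 ≤ N := by omega
      have := Nat.mul_le_mul_left W this
      rw [Nat.mul_succ] at this
      omega
    have hV := Pool.Agent.Lib.GT.V_pos w
    have hWr : (0 : ℝ) < W := by exact_mod_cast hWpos
    have hq₀r : (0 : ℝ) < q₀ := by exact_mod_cast hq₀
    have h10 : a (b % q) * ((t : ℝ) - s) / q₀ - κ / 2 * N ≤
        V w * ∑ m ∈ (Ico s t).filter (fun m => m % q₀ = r), lamA A (W * m + b) := by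
      have h11 := mul_le_mul_of_nonneg_left h7 hV.le
      refine le_trans ?_ h11
      have e1 : V w * (a (b % q) * (((W * t + b : ℕ) : ℝ) - ((W * s + b : ℕ) : ℝ)) /
          (W * q₀ * V w) - κ / (4 * W) * ((W * (N + 1) : ℕ) : ℝ)) =
          a (b % q) * ((t : ℝ) - s) / q₀ - V w * (κ / 4 * (N + 1)) := by
        push_cast
        field_simp
        ring
      rw [e1]
      have e2 : V w * (κ / 4 * (N + 1)) ≤ 1 * (κ / 4 * (N + 1)) :=
        mul_le_mul_of_nonneg_right (V_le_one w) (by positivity)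
      have e3 : (1 : ℝ) ≤ N := by exact_mod_cast hN1
      nlinarith
    linarith

end Pool.Agent.Lib.KM
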