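import Pool.Agent.Lib.MP_7b7e48_nt.KM.Stmts

/-!
# KM project, module K3b: popular sums for functions on a cyclic interval
-/

open Finset

namespace Pool.Agent.Lib.KM

namespace PopCyc

theorem card_class {q b : ℕ} (hqb : q ∣ b) (hq : 0 < q) (r : ℕ) :
    (((range b).filter (fun x => x % q = r)).card : ℝ) ≤ (b : ℝ) / q := by
  obtain ⟨m, rfl⟩ := hqb
  have hq' : (0 : ℝ) < q := by exact_mod_cast hq
  have h1 : ((range (q * m)).filter (fun x => x % q = r)).card ≤ (range m).card := by
    refine card_le_card_of_injOn (fun x => x / q) ?_ ?_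
    · intro x hx
      have hx1 := mem_range.1 (mem_filter.1 (mem_coe.1 hx)).1
      exact mem_coe.2 (mem_range.2 ((Nat.div_lt_iff_lt_mul hq).2 (by rwa [mul_comm])))
    · intro x hx y hy hxy
      have hx1 := (mem_filter.1 (mem_coe.1 hx)).2
      have hy1 := (mem_filter.1 (mem_coe.1 hy)).2
      have h2 : x / q = y / q := hxy
      have h3 := Nat.div_add_mod x q
      have h4 := Nat.div_add_mod y q
      rw [hx1, h2] at h3
      rw [hy1] at h4
      omega
  rw [card_range] at h1
  rw [Nat.cast_mul, mul_div_cancel_left₀ _ hq'.ne']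
  exact_mod_cast h1

theorem class_le {q b : ℕ} (hqb : q ∣ b) (hq : 0 < q) {F : ℕ → ℝ}
    (hF : ∀ n, 0 ≤ F n ∧ F n ≤ 1) {α κ : ℝ} (hκ : 0 ≤ κ) {r : ℕ}
    (h : (α - κ) * b / q ≤ ∑ x ∈ (range b).filter (fun x => x % q = r), F x) :
    (α - 2 * κ) * b / q ≤
      ((((range b).filter (fun x => κ ≤ F x)).filter (fun x => x % q = r)).card : ℝ) := by
  have h1 : ∑ x ∈ (range b).filter (fun x => x % q = r), F x ≤
      ∑ x ∈ (range b).filter (fun x => x % q = r), ((if κ ≤ F x then (1 : ℝ) else 0) + κ) := by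
    refine sum_le_sum fun x _ => ?_
    split_ifs with hx
    · linarith [(hF x).2]
    · linarith [not_le.1 hx]
  rw [sum_add_distrib, sum_const, nsmul_eq_mul, ← sum_filter, sum_const, nsmul_eq_mul,
    mul_one, filter_filter] at h1
  have h2 := mul_le_mul_of_nonneg_right (card_class hqb hq r) hκ
  have h3 : ((range b).filter (fun x => κ ≤ F x)).filter (fun x => x % q = r) =
      (range b).filter (fun x => x % q = r ∧ κ ≤ F x) := by
    rw [filter_filter]
    congr 1
    funext x
    rw [and_comm]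
  rw [h3]
  have h4 : (α - 2 * κ) * b / q = (α - κ) * b / q - (b : ℝ) / q * κ := by ring
  rw [h4]
  linarith

theorem total_le {q b : ℕ} (hq : 0 < q) {S : Finset ℕ} {t : ℝ}
    (h : ∀ r, r < q → t * b / q ≤ ((S.filter (fun x => x % q = r)).card : ℝ)) :
    t * b ≤ S.card := by
  have hq' : (0 : ℝ) < q := by exact_mod_cast hq
  have hfib := card_eq_sum_card_fiberwise (s := S) (t := range q) (f := fun x => x % q)
    (fun x _ => mem_coe.2 (mem_range.2 (Nat.mod_lt x hq)))
  rw [hfib]
  push_cast
  calc t * b = ∑ _r ∈ range q, t * b / q := by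
        rw [sum_const, card_range, nsmul_eq_mul]
        field_simp
    _ ≤ _ := sum_le_sum fun r hr => h r (mem_range.1 hr)

end PopCyc

open PopCyc in
theorem popCyc_of : PopSetS → PopCycS := by
  intro hP ε hε
  obtain ⟨q, hq, hP⟩ := hP (ε / 4) (by positivity)
  have hq' : (0 : ℝ) < q := by exact_mod_cast hq
  obtain ⟨c, hc, hP⟩ := hP (ε / (2 * q)) (by positivity)
  set κ : ℝ := ε / 16 with hκ
  have hκ0 : 0 < κ := by positivity
  refine ⟨κ ^ 2 * c, κ, by positivity, hκ0, q, hq, ?_⟩
  intro b hb hqb α β hα hβ hα1 hβ1 F G hF hG hFs hGs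
  have hbR : (0 : ℝ) < b := by exact_mod_cast hb
  set A := (range b).filter (fun x => κ ≤ F x) with hA
  set B := (range b).filter (fun x => κ ≤ G x) with hB
  have cA : ∀ r, r < q → (α - 2 * κ) * b / q ≤ ((A.filter (fun x => x % q = r)).card : ℝ) :=
    fun r hr => class_le hqb hq hF hκ0.le (hFs r hr)
  have cB : ∀ r, r < q → (β - 2 * κ) * b / q ≤ ((B.filter (fun x => x % q = r)).card : ℝ) :=
    fun r hr => class_le hqb hq hG hκ0.le (hGs r hr)
  have hγ : ∀ t : ℝ, ε ≤ t → ε / (2 * q) * b ≤ (t - 2 * κ) * b / q := by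
    intro t ht
    have h1 : ε / (2 * q) * b = (ε / 2) * (b / q) := by ring
    have h2 : (t - 2 * κ) * b / q = (t - 2 * κ) * (b / q) := by ring
    rw [h1, h2]
    refine mul_le_mul_of_nonneg_right ?_ (by positivity)
    rw [hκ]
    linarith
  have tA := total_le hq cA
  have tB := total_le hq cB
  have hmain := hP b hb hqb A B (filter_subset _ _) (filter_subset _ _)
    (fun r hr => (hγ α hα).trans (cA r hr)) (fun r hr => (hγ β hβ).trans (cB r hr))
  have hmin : (min 1 (α + β) - ε / 4) * b ≤ min (b : ℝ) (A.card + B.card) := by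
    refine le_min ?_ ?_
    · have := min_le_left 1 (α + β)
      nlinarith
    · have h1 := min_le_right 1 (α + β)
      have h2 : (min 1 (α + β) - ε / 4) * b ≤ (α + β - ε / 4) * b :=
        mul_le_mul_of_nonneg_right (by linarith) hbR.le
      have h3 : (α + β - ε / 4) * b = (α - 2 * κ) * b + (β - 2 * κ) * b := by
        rw [hκ]
        ring
      linarith
  have hsub : (range b).filter (fun z => c * b ≤
      ((A.filter (fun x => (z + b - x) % b ∈ B)).card : ℝ)) ⊆
      (range b).filter (fun z => κ ^ 2 * c * b ≤ ∑ x ∈ range b, F x * G ((z + b - x) % b)) := by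
    intro z hz
    obtain ⟨hz1, hz2⟩ := mem_filter.1 hz
    refine mem_filter.2 ⟨hz1, ?_⟩
    have h1 : ∑ x ∈ A.filter (fun x => (z + b - x) % b ∈ B), κ ^ 2 ≤
        ∑ x ∈ range b, F x * G ((z + b - x) % b) := by
      refine le_trans (sum_le_sum (g := fun x => F x * G ((z + b - x) % b)) fun x hx => ?_)
        (sum_le_sum_of_subset_of_nonneg ((filter_subset _ _).trans (filter_subset _ _))
          fun x _ _ => mul_nonneg (hF x).1 (hG _).1)
      obtain ⟨hx1, hx2⟩ := mem_filter.1 hx
      have h2 := (mem_filter.1 hx1).2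
      have h3 := (mem_filter.1 hx2).2
      rw [sq]
      exact mul_le_mul h2 h3 hκ0.le (hF x).1
    rw [sum_const, nsmul_eq_mul] at h1
    have h4 := mul_le_mul_of_nonneg_left hz2 (sq_nonneg κ)
    linarith
  have hcard : (((range b).filter (fun z => c * b ≤
      ((A.filter (fun x => (z + b - x) % b ∈ B)).card : ℝ))).card : ℝ) ≤
      ((range b).filter (fun z => κ ^ 2 * c * b ≤
        ∑ x ∈ range b, F x * G ((z + b - x) % b))).card := by
    exact_mod_cast card_le_card hsub
  have h5 : (min 1 (α + β) - ε) * b ≤ (min 1 (α + β) - ε / 4) * b - ε / 4 * b := by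
    nlinarith
  linarith

end Pool.Agent.Lib.KM
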