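import Pool.Agent.Lib.MP_7b7e48_nt.KM.Stmts
import Pool.Agent.Lib.MP_7b7e48_nt.GT.ConvL2

/-!
# Popular sums in the integers
-/

open Finset

namespace Pool.Agent.Lib.KM

open Pool.Agent.Lib.GT (e lam Lw V pr Tw Rough)

namespace PopInt

/-- the convolution -/
noncomputable def H (F G : ℕ → ℝ) (k : ℕ) : ℝ := ∑ x ∈ range (k + 1), F x * G (k - x)

theorem H_nonneg {F G : ℕ → ℝ} (hF : ∀ n, 0 ≤ F n ∧ F n ≤ 1) (hG : ∀ n, 0 ≤ G n ∧ G n ≤ 1)
    (k : ℕ) : 0 ≤ H F G k :=
  sum_nonneg fun x _ => mul_nonneg (hF x).1 (hG _).1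

/-- the `L²` bound -/
theorem shift_l2 {N b : ℕ} (hb : 0 < b) (hbN : b ≤ N) {F G : ℕ → ℝ}
    (hG : ∀ n, 0 ≤ G n ∧ G n ≤ 1)
    (hF0 : ∀ n, N ≤ n → F n = 0) (hG0 : ∀ n, N ≤ n → G n = 0) {δ : ℝ}
    (h : ∀ α : ℝ, ‖∑ n ∈ range N, (F n : ℂ) * e (α * n)‖ * ‖e (α * b) - 1‖ ≤ δ * N) :
    ∑ k ∈ range N, (H F G (k + b) - H F G k) ^ 2 ≤ (δ * N) ^ 2 * N := by
  set u : ℕ → ℝ := fun n => (if b ≤ n then F (n - b) else 0) - F n with hu
  have hu0 : ∀ n, 2 * N < n → u n = 0 := by
    intro n hn
    simp only [hu]
    rw [if_pos (by omega), hF0 _ (by omega), hF0 _ (by omega)]; ring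
  have hv0 : ∀ n, 2 * N < n → G n = 0 := fun n hn => hG0 n (by omega)
  have hft : ∀ α : ℝ, ∑ n ∈ range (2 * N + 1), (u n : ℂ) * e (α * n) =
      (∑ n ∈ range N, (F n : ℂ) * e (α * n)) * (e (α * b) - 1) := by
    intro α
    have h1 : ∑ n ∈ range (2 * N + 1), (F n : ℂ) * e (α * n) =
        ∑ n ∈ range N, (F n : ℂ) * e (α * n) := by
      symm
      apply sum_subset (by intro x; simp only [mem_range]; omega)
      intro n _ hn
      rw [mem_range] at hn
      rw [hF0 n (by omega)]; simp
    have h2 : ∑ n ∈ range (2 * N + 1), ((if b ≤ n then F (n - b) else 0 : ℝ) : ℂ) * e (α * n) =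
        (∑ n ∈ range N, (F n : ℂ) * e (α * n)) * e (α * b) := by
      have h3 : ∑ n ∈ range (2 * N + 1), ((if b ≤ n then F (n - b) else 0 : ℝ) : ℂ) * e (α * n) =
          ∑ n ∈ Ico b (b + N), (F (n - b) : ℂ) * e (α * n) := by
        symm
        have h4 : ∀ n ∈ Ico b (b + N), (F (n - b) : ℂ) * e (α * n) =
            ((if b ≤ n then F (n - b) else 0 : ℝ) : ℂ) * e (α * n) := by
          intro n hn
          rw [mem_Ico] at hn
          rw [if_pos hn.1]
        rw [sum_congr rfl h4]
        apply sum_subset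
        · intro n hn
          rw [mem_Ico] at hn
          rw [mem_range]; omega
        · intro n _ hn
          rw [mem_Ico] at hn
          by_cases hbn : b ≤ n
          · rw [if_pos hbn, hF0 _ (by omega)]; simp
          · rw [if_neg hbn]; simp
      rw [h3, Finset.sum_Ico_eq_sum_range, show b + N - b = N by omega, sum_mul]
      refine sum_congr rfl fun n _ => ?_
      rw [show b + n - b = n by omega, mul_assoc, ← GT.e_add]
      congr 2
      push_cast; ring
    simp only [hu]
    have h5 : ∀ n : ℕ, (((if b ≤ n then F (n - b) else 0) - F n : ℝ) : ℂ) * e (α * n) =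
        ((if b ≤ n then F (n - b) else 0 : ℝ) : ℂ) * e (α * n) - (F n : ℂ) * e (α * n) := by
      intro n; push_cast; ring
    rw [sum_congr rfl fun n _ => h5 n, sum_sub_distrib, h1, h2]
    ring
  have hS : ∀ α : ℝ, ‖∑ n ∈ range (2 * N + 1), (u n : ℂ) * e (α * n)‖ ≤ δ * N := by
    intro α
    rw [hft, norm_mul]
    exact h α
  have hconv := GT.Transfer.conv_l2 hu0 hv0 hS
  have hval : ∀ k, ∑ x ∈ range (k + b + 1), u x * G (k + b - x) = H F G k - H F G (k + b) := by
    intro k
    simp only [hu, sub_mul]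
    rw [sum_sub_distrib]
    congr 1
    have h6 : ∑ x ∈ range (k + b + 1), (if b ≤ x then F (x - b) else 0) * G (k + b - x) =
        ∑ x ∈ Ico b (b + (k + 1)), F (x - b) * G (k + b - x) := by
      symm
      have h4 : ∀ n ∈ Ico b (b + (k + 1)), F (n - b) * G (k + b - n) =
          (if b ≤ n then F (n - b) else 0) * G (k + b - n) := by
        intro n hn
        rw [mem_Ico] at hn
        rw [if_pos hn.1]
      rw [sum_congr rfl h4]
      apply sum_subset
      · intro n hn
        rw [mem_Ico] at hn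
        rw [mem_range]; omega
      · intro n hn1 hn
        rw [mem_range] at hn1
        rw [mem_Ico] at hn
        rw [if_neg (by omega)]; simp
    rw [h6, Finset.sum_Ico_eq_sum_range, show b + (k + 1) - b = k + 1 by omega]
    unfold H
    refine sum_congr rfl fun n hn => ?_
    rw [mem_range] at hn
    rw [show b + n - b = n by omega, show k + b - (b + n) = k - n by omega]
  calc ∑ k ∈ range N, (H F G (k + b) - H F G k) ^ 2
      = ∑ k ∈ range N, (∑ x ∈ range (k + b + 1), u x * G (k + b - x)) ^ 2 := by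
        refine sum_congr rfl fun k _ => ?_
        rw [hval]; ring
    _ = ∑ k ∈ Ico b (b + N), (∑ x ∈ range (k + 1), u x * G (k - x)) ^ 2 := by
        rw [Finset.sum_Ico_eq_sum_range, show b + N - b = N by omega]
        refine sum_congr rfl fun k _ => ?_
        rw [add_comm k b]
    _ ≤ ∑ k ∈ range (2 * (2 * N) + 1), (∑ x ∈ range (k + 1), u x * G (k - x)) ^ 2 := by
        refine sum_le_sum_of_subset_of_nonneg ?_ fun _ _ _ => sq_nonneg _
        intro k hk
        rw [mem_Ico] at hk
        rw [mem_range]; omega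
    _ ≤ (δ * N) ^ 2 * ∑ n ∈ range (2 * N + 1), (G n) ^ 2 := hconv
    _ ≤ (δ * N) ^ 2 * N := by
        refine mul_le_mul_of_nonneg_left ?_ (sq_nonneg _)
        calc ∑ n ∈ range (2 * N + 1), (G n) ^ 2 = ∑ n ∈ range N, (G n) ^ 2 := by
              symm
              apply sum_subset (by intro x; simp only [mem_range]; omega)
              intro n _ hn
              rw [mem_range] at hn
              rw [hG0 n (by omega)]; simp
          _ ≤ ∑ n ∈ range N, (1 : ℝ) := sum_le_sum fun n _ => by
              nlinarith [(hG n).1, (hG n).2]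
          _ = N := by simp

theorem reindex (b : ℕ) (f : ℕ → ℝ) (J : ℕ) :
    ∑ i ∈ range J, ∑ x ∈ range b, f (i * b + x) = ∑ y ∈ range (J * b), f y := by
  induction J with
  | zero => simp
  | succ J ih => rw [sum_range_succ, ih, show (J + 1) * b = J * b + b by ring, sum_range_add]

/-- the block sum is at most `H k + H (k + b)` -/
theorem block_le {b : ℕ} (hb : 0 < b) {F G : ℕ → ℝ} (hF : ∀ n, 0 ≤ F n ∧ F n ≤ 1)
    (hG : ∀ n, 0 ≤ G n ∧ G n ≤ 1) (j z : ℕ) (hz : z < b) :
    ∑ i ∈ range (j + 1), ∑ x ∈ range b, F (i * b + x) * G ((j - i) * b + (z + b - x) % b) ≤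
      H F G (j * b + z) + H F G (j * b + z + b) := by
  have hnn : ∀ x y, 0 ≤ F x * G y := fun x y => mul_nonneg (hF x).1 (hG y).1
  set k := j * b + z with hk
  -- split each inner sum
  have hterm : ∀ i ∈ range (j + 1), ∀ x ∈ range b,
      F (i * b + x) * G ((j - i) * b + (z + b - x) % b) ≤
      (if x ≤ z then F (i * b + x) * G (k - (i * b + x)) else 0) +
        F (i * b + x) * G (k + b - (i * b + x)) := by
    intro i hi x hx
    rw [mem_range] at hi hx
    have hji : (j - i) * b + i * b = j * b := by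
      rw [← add_mul]; congr 1; omega
    split_ifs with hxz
    · have h1 : (z + b - x) % b = z - x := by
        rw [show z + b - x = (z - x) + b by omega, Nat.add_mod_right, Nat.mod_eq_of_lt (by omega)]
      have h2 : (j - i) * b + (z - x) = k - (i * b + x) := by omega
      rw [h1, h2]
      have := hnn (i * b + x) (k + b - (i * b + x))
      linarith
    · have h1 : (z + b - x) % b = z + b - x := Nat.mod_eq_of_lt (by omega)
      have h2 : (j - i) * b + (z + b - x) = k + b - (i * b + x) := by omega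
      rw [h1, h2]
      linarith
  have hmod : ∀ i x, x < b → (i * b + x) % b = x := by
    intro i x hx
    rw [add_comm, Nat.add_mul_mod_self_right, Nat.mod_eq_of_lt hx]
  calc ∑ i ∈ range (j + 1), ∑ x ∈ range b, F (i * b + x) * G ((j - i) * b + (z + b - x) % b)
      ≤ ∑ i ∈ range (j + 1), ∑ x ∈ range b,
        ((if x ≤ z then F (i * b + x) * G (k - (i * b + x)) else 0) +
        F (i * b + x) * G (k + b - (i * b + x))) :=
        sum_le_sum fun i hi => sum_le_sum fun x hx => hterm i hi x hx
    _ = (∑ y ∈ range ((j + 1) * b), if y % b ≤ z then F y * G (k - y) else 0) +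
        ∑ y ∈ range ((j + 1) * b), F y * G (k + b - y) := by
        rw [← reindex, ← reindex, ← sum_add_distrib]
        refine sum_congr rfl fun i _ => ?_
        rw [← sum_add_distrib]
        refine sum_congr rfl fun x hx => ?_
        rw [hmod i x (mem_range.1 hx)]
    _ ≤ H F G k + H F G (k + b) := by
        refine add_le_add ?_ ?_
        · rw [← sum_filter]
          refine sum_le_sum_of_subset_of_nonneg ?_ fun _ _ _ => hnn _ _
          intro y hy
          rw [mem_filter, mem_range] at hy
          rw [mem_range]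
          have h1 : y / b ≤ j := by
            have := (Nat.div_lt_iff_lt_mul hb).2 hy.1
            omega
          have h2 : b * (y / b) + y % b = y := Nat.div_add_mod y b
          have h3 : b * (y / b) ≤ b * j := Nat.mul_le_mul_left b h1
          rw [mul_comm b j] at h3
          omega
        · refine sum_le_sum_of_subset_of_nonneg ?_ fun _ _ _ => hnn _ _
          intro y hy
          rw [mem_range] at hy ⊢
          have : (j + 1) * b = j * b + b := by ring
          omega

/-- averaging over the blocks -/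
theorem avg {J b : ℕ} (hJ : 0 < J) (hb : 0 < b) {inn : ℕ → ℕ → ℝ} (hinn : ∀ i z, 0 ≤ inn i z)
    {c m e1 : ℝ} (hc : 0 < c) (he : 0 ≤ e1)
    (hgood : ∀ i < J, m * b ≤ (((range b).filter (fun z => c * b ≤ inn i z)).card : ℝ)) :
    (m - e1) * b ≤
      (((range b).filter (fun z => e1 * J * (c * b) ≤ ∑ i ∈ range J, inn i z)).card : ℝ) := by
  classical
  set Z := (range b).filter (fun z => e1 * J * (c * b) ≤ ∑ i ∈ range J, inn i z) with hZ
  have hb' : (0 : ℝ) < b := by exact_mod_cast hb
  have hJ' : (0 : ℝ) < J := by exact_mod_cast hJ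
  let P : ℕ → ℕ → ℝ := fun i z => if c * b ≤ inn i z then 1 else 0
  have hP1 : ∀ i z, P i z ≤ 1 := fun i z => by simp only [P]; split_ifs <;> norm_num
  have hP0 : ∀ i z, 0 ≤ P i z := fun i z => by simp only [P]; split_ifs <;> norm_num
  have hPi : ∀ i z, P i z * (c * b) ≤ inn i z := fun i z => by
    simp only [P]; split_ifs with h
    · rw [one_mul]; exact h
    · rw [zero_mul]; exact hinn i z
  have h1 : ∑ i ∈ range J, (m * b) ≤ ∑ i ∈ range J, ∑ z ∈ range b, P i z := by
    refine sum_le_sum fun i hi => ?_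
    have := hgood i (mem_range.1 hi)
    rw [card_filter] at this
    push_cast at this
    exact this
  rw [sum_const, card_range, nsmul_eq_mul, sum_comm] at h1
  have h2 : ∀ z ∈ range b, ∑ i ∈ range J, P i z ≤ (if z ∈ Z then (J : ℝ) else 0) + e1 * J := by
    intro z hz
    split_ifs with hzZ
    · have : ∑ i ∈ range J, P i z ≤ ∑ i ∈ range J, (1 : ℝ) := sum_le_sum fun i _ => hP1 i z
      rw [sum_const, card_range, nsmul_eq_mul, mul_one] at this
      have := mul_nonneg he hJ'.le
      linarith
    · have h3 : ∑ i ∈ range J, inn i z < e1 * J * (c * b) := by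
        by_contra hcon
        exact hzZ (by rw [hZ, mem_filter]; exact ⟨hz, not_lt.1 hcon⟩)
      have h4 : (∑ i ∈ range J, P i z) * (c * b) ≤ ∑ i ∈ range J, inn i z := by
        rw [sum_mul]; exact sum_le_sum fun i _ => hPi i z
      have h5 : (∑ i ∈ range J, P i z) * (c * b) < e1 * J * (c * b) := lt_of_le_of_lt h4 h3
      have := lt_of_mul_lt_mul_right h5 (by positivity)
      linarith
  have h6 := sum_le_sum h2
  rw [sum_add_distrib, sum_const, card_range, nsmul_eq_mul, ← sum_filter, sum_const,
    nsmul_eq_mul] at h6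
  have h7 : ((range b).filter (fun z => z ∈ Z)).card = Z.card := by
    congr 1
    ext z
    rw [mem_filter, hZ, mem_filter]
    tauto
  rw [h7] at h6
  have h8 : (J : ℝ) * (m * b) ≤ Z.card * J + b * (e1 * J) := h1.trans h6
  have h9 : (m - e1) * b * J ≤ Z.card * J := by nlinarith
  exact le_of_mul_le_mul_right h9 hJ'

/-- the set of large `j` -/
theorem count_small {J0 b N : ℕ} (hb : 0 < b) {e1 : ℝ} (he : 0 ≤ e1) :
    (((range J0).filter (fun j : ℕ => ((j : ℝ) + 1) * b < e1 * N)).card : ℝ) ≤ e1 * N / b := by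
  have hb' : (0 : ℝ) < b := by exact_mod_cast hb
  have h1 : (range J0).filter (fun j : ℕ => ((j : ℝ) + 1) * b < e1 * N) ⊆
      range ⌊e1 * N / b⌋₊ := by
    intro j hj
    rw [mem_filter] at hj
    rw [mem_range]
    have h2 : ((j + 1 : ℕ) : ℝ) ≤ e1 * N / b := by
      rw [le_div_iff₀ hb']; push_cast; exact hj.2.le
    have := Nat.le_floor h2
    omega
  have h2 := card_le_card h1
  rw [card_range] at h2
  calc (((range J0).filter (fun j : ℕ => ((j : ℝ) + 1) * b < e1 * N)).card : ℝ)
      ≤ (⌊e1 * N / b⌋₊ : ℝ) := by exact_mod_cast h2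
    _ ≤ e1 * N / b := Nat.floor_le (by positivity)

end PopInt

open PopInt in
/-- PK -/
theorem popInt_of (h1 : PopCycS) (h2 : AlmostPeriodS) : PopIntS := by
  intro ε hε
  by_cases hε1 : ε ≤ 1
  swap
  · refine ⟨1, 1, one_pos, one_pos, 1, 0, one_pos, ?_⟩
    intro N _ α β hα _ hα1
    exfalso; linarith
  obtain ⟨c3, κ3, hc3, hκ3, q₀, hq₀, hcyc⟩ := h1 (ε / 8) (by positivity)
  set e1 : ℝ := ε / 16 with he1
  have he : 0 < e1 := by positivity
  have hεe : ε = 16 * e1 := by rw [he1]; ring
  obtain ⟨c0, hc0, N0, hap⟩ := h2 (e1 ^ 3 * c3 / 2) e1 (by positivity) he q₀ hq₀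
  have hq' : (0 : ℝ) < q₀ := by exact_mod_cast hq₀
  refine ⟨e1 ^ 2 * c3 / 4, κ3 * c0 / q₀, by positivity, by positivity, q₀, max N0 1, hq₀, ?_⟩
  intro N hN α β hα hβ hα1 hβ1 F G hF hG hF0 hG0 hFs hGs
  have hN1 : 1 ≤ N := (le_max_right _ _).trans hN
  have hNpos : (0 : ℝ) < N := by exact_mod_cast hN1
  obtain ⟨b, hb, hqb, hcb, hbρ, hft⟩ := hap N ((le_max_left _ _).trans hN) F
    (fun n => by rw [abs_of_nonneg (hF n).1]; exact (hF n).2)
  have hb' : (0 : ℝ) < b := by exact_mod_cast hb
  have he1' : e1 ≤ 1 / 16 := by rw [he1]; linarith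
  have hbN : b ≤ N := by
    have : (b : ℝ) ≤ N := hbρ.trans (by nlinarith)
    exact_mod_cast this
  set M0 := min 1 (α + β) with hM0
  have hM0le : M0 ≤ 1 := min_le_left _ _
  have hM0ge : 16 * e1 ≤ M0 := le_min (by linarith) (by linarith)
  -- the class sums in blocks
  have hclass : ∀ (F : ℕ → ℝ) (α : ℝ), (∀ s t r : ℕ, s ≤ t → t ≤ N → r < q₀ →
      α * ((t : ℝ) - s) / q₀ - κ3 * c0 / q₀ * N ≤
      ∑ x ∈ (Ico s t).filter (fun x => x % q₀ = r), F x) → ∀ i, (i + 1) * b ≤ N →
      ∀ r : ℕ, r < q₀ → (α - κ3) * b / q₀ ≤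
        ∑ x ∈ (range b).filter (fun x => x % q₀ = r), F (i * b + x) := by
    intro F α h i hi r hr
    have h3 := h (i * b) ((i + 1) * b) r (Nat.mul_le_mul_right _ (Nat.le_succ i)) hi hr
    have h4 : ∑ x ∈ (Ico (i * b) ((i + 1) * b)).filter (fun x => x % q₀ = r), F x =
        ∑ x ∈ (range b).filter (fun x => x % q₀ = r), F (i * b + x) := by
      rw [sum_filter, sum_filter, Finset.sum_Ico_eq_sum_range,
        show (i + 1) * b - i * b = b by rw [← Nat.sub_mul]; simp]
      refine sum_congr rfl fun x _ => ?_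
      obtain ⟨d, hd⟩ := hqb
      have h5 : (i * b + x) % q₀ = x % q₀ := by
        rw [hd, show i * (q₀ * d) + x = x + q₀ * (i * d) by ring, Nat.add_mul_mod_self_left]
      rw [h5]
    rw [h4] at h3
    refine le_trans ?_ h3
    push_cast
    have h6 : κ3 * c0 / q₀ * N ≤ κ3 * b / q₀ := by
      rw [div_mul_eq_mul_div]
      refine div_le_div_of_nonneg_right ?_ hq'.le
      rw [mul_assoc]
      exact mul_le_mul_of_nonneg_left hcb hκ3.le
    have h7 : α * (((i : ℝ) + 1) * b - i * b) / q₀ = α * b / q₀ := by ring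
    rw [h7]
    have h8 : (α - κ3) * b / q₀ = α * b / q₀ - κ3 * b / q₀ := by ring
    rw [h8]
    linarith
  -- good z in a block
  have hblock : ∀ j, (j + 1) * b ≤ N → (M0 - 3 * e1) * b ≤
      (((range b).filter (fun z => e1 * ((j + 1 : ℕ) : ℝ) * (c3 * b) ≤
        ∑ i ∈ range (j + 1), ∑ x ∈ range b,
          F (i * b + x) * G ((j - i) * b + (z + b - x) % b))).card : ℝ) := by
    intro j hj
    have h3 := avg (J := j + 1) (b := b) (Nat.succ_pos j) hb
      (inn := fun i z => ∑ x ∈ range b, F (i * b + x) * G ((j - i) * b + (z + b - x) % b))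
      (fun i z => sum_nonneg fun x _ => mul_nonneg (hF _).1 (hG _).1) (c := c3)
      (m := M0 - ε / 8) (e1 := e1) hc3 he.le ?_
    · refine le_trans (le_of_eq ?_) h3
      rw [hεe]; ring
    · intro i hi
      have hi' : i ≤ j := by omega
      refine hcyc b hb hqb α β (by linarith) (by linarith) hα1 hβ1 (fun x => F (i * b + x))
        (fun y => G ((j - i) * b + y)) (fun n => hF _) (fun n => hG _) ?_ ?_
      · exact hclass F α hFs i ((Nat.mul_le_mul_right _ (by omega)).trans hj)
      · exact hclass G β hGs (j - i) ((Nat.mul_le_mul_right _ (by omega)).trans hj)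
  -- the set of k with large H k + H (k + b)
  set thr : ℝ := e1 ^ 2 * c3 * N with hthr
  have hJ0 : (N / b) * b ≤ N := Nat.div_mul_le_self N b
  have hgood2 : (M0 - 5 * e1) * N ≤
      (((range N).filter (fun k => thr ≤ H F G k + H F G (k + b))).card : ℝ) := by
    have h3 : ∑ j ∈ range (N / b), (if e1 * N ≤ ((j : ℝ) + 1) * b then (M0 - 3 * e1) * b else 0) ≤
        (((range N).filter (fun k => thr ≤ H F G k + H F G (k + b))).card : ℝ) := by
      rw [card_filter]
      push_cast
      calc ∑ j ∈ range (N / b), (if e1 * N ≤ ((j : ℝ) + 1) * b then (M0 - 3 * e1) * b else 0)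
          ≤ ∑ j ∈ range (N / b), ∑ z ∈ range b,
            (if thr ≤ H F G (j * b + z) + H F G (j * b + z + b) then (1 : ℝ) else 0) := by
            refine sum_le_sum fun j hj => ?_
            rw [mem_range] at hj
            have hj' : (j + 1) * b ≤ N := (Nat.mul_le_mul_right _ hj).trans hJ0
            split_ifs with hbig
            · refine (hblock j hj').trans ?_
              rw [card_filter]
              push_cast
              refine sum_le_sum fun z hz => ?_
              rw [mem_range] at hz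
              have h4 := block_le hb hF hG j z hz
              split_ifs with h5 h6 h6
              · exact le_rfl
              · exfalso
                apply h6
                refine le_trans ?_ h4
                refine le_trans ?_ h5
                rw [hthr]
                have h7 : e1 * (c3 * (e1 * N)) ≤ e1 * (c3 * (((j : ℝ) + 1) * b)) :=
                  mul_le_mul_of_nonneg_left (mul_le_mul_of_nonneg_left hbig hc3.le) he.le
                nlinarith
              · exact zero_le_one
              · exact le_rfl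
            · exact sum_nonneg fun z _ => by split_ifs <;> norm_num
        _ = ∑ k ∈ range (N / b * b),
            (if thr ≤ H F G k + H F G (k + b) then (1 : ℝ) else 0) := by
            rw [← reindex]
        _ ≤ ∑ k ∈ range N, (if thr ≤ H F G k + H F G (k + b) then (1 : ℝ) else 0) := by
            refine sum_le_sum_of_subset_of_nonneg ?_ fun _ _ _ => by split_ifs <;> norm_num
            intro k hk
            rw [mem_range] at hk ⊢
            omega
    refine le_trans ?_ h3
    have h4 : ∑ j ∈ range (N / b), (if e1 * N ≤ ((j : ℝ) + 1) * b then (M0 - 3 * e1) * b else 0) =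
        ((N / b : ℕ) : ℝ) * ((M0 - 3 * e1) * b) -
          (((range (N / b)).filter (fun j : ℕ => ((j : ℝ) + 1) * b < e1 * N)).card : ℝ) *
            ((M0 - 3 * e1) * b) := by
      rw [card_filter]
      push_cast
      rw [sum_mul]
      have h5 : ((N / b : ℕ) : ℝ) * ((M0 - 3 * e1) * b) =
          ∑ j ∈ range (N / b), ((M0 - 3 * e1) * b) := by
        rw [sum_const, card_range, nsmul_eq_mul]
      rw [h5, ← sum_sub_distrib]
      refine sum_congr rfl fun j _ => ?_
      split_ifs with h6 h7 h7
      · exact absurd h7 (not_lt.2 h6)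
      · ring
      · ring
      · exact absurd (not_le.1 h6) h7
    rw [h4]
    have h5 := count_small (J0 := N / b) (N := N) hb he.le
    have hm : 0 ≤ (M0 - 3 * e1) * b := mul_nonneg (by linarith) hb'.le
    have h6 := mul_le_mul_of_nonneg_right h5 hm
    have h7 : e1 * N / b * ((M0 - 3 * e1) * b) = e1 * N * (M0 - 3 * e1) := by
      field_simp
    have h8 : (N : ℝ) - b ≤ ((N / b : ℕ) : ℝ) * b := by
      have h9 : N < (N / b + 1) * b := by
        have := Nat.lt_div_mul_add hb (a := N)
        rw [add_mul, one_mul]; exact this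
      have h10 : (N : ℝ) < (((N / b : ℕ) : ℝ) + 1) * b := by exact_mod_cast h9
      linarith
    have h11 : ((N : ℝ) - e1 * N) * (M0 - 3 * e1) ≤ ((N / b : ℕ) : ℝ) * ((M0 - 3 * e1) * b) := by
      have : ((N : ℝ) - e1 * N) ≤ ((N / b : ℕ) : ℝ) * b := by linarith
      have := mul_le_mul_of_nonneg_right this (show 0 ≤ M0 - 3 * e1 by linarith)
      linarith
    rw [h7] at h6
    have h12 : (M0 - 5 * e1) * N ≤ ((N : ℝ) - e1 * N) * (M0 - 3 * e1) - e1 * N * (M0 - 3 * e1) := by
      have h13 : ((N : ℝ) - e1 * N) * (M0 - 3 * e1) - e1 * N * (M0 - 3 * e1) =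
          N * ((1 - 2 * e1) * (M0 - 3 * e1)) := by ring
      rw [h13, mul_comm _ (N : ℝ)]
      refine mul_le_mul_of_nonneg_left ?_ hNpos.le
      nlinarith
    linarith
  -- the bad set
  have hbad : (((range N).filter (fun k => thr / 2 < |H F G (k + b) - H F G k|)).card : ℝ) ≤
      e1 * N := by
    have h3 := shift_l2 hb hbN hG hF0 hG0 hft
    have h4 : (((range N).filter (fun k => thr / 2 < |H F G (k + b) - H F G k|)).card : ℝ) *
        (thr / 2) ^ 2 ≤ ∑ k ∈ range N, (H F G (k + b) - H F G k) ^ 2 := by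
      rw [card_filter]
      push_cast
      rw [sum_mul]
      refine sum_le_sum fun k _ => ?_
      split_ifs with h5
      · rw [one_mul, ← sq_abs (H F G (k + b) - H F G k)]
        exact pow_le_pow_left₀ (by positivity) h5.le 2
      · rw [zero_mul]; exact sq_nonneg _
    have h5 := h4.trans h3
    have hthrpos : 0 < (thr / 2) ^ 2 := by positivity
    rw [← mul_le_mul_iff_left₀ hthrpos]
    refine h5.trans ?_
    rw [hthr]
    have h6 : (e1 ^ 3 * c3 / 2 * N) ^ 2 * N = (e1 * (e1 * N)) * (e1 ^ 2 * c3 * N / 2) ^ 2 := by ring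
    rw [h6]
    refine mul_le_mul_of_nonneg_right ?_ (by positivity)
    have : e1 * (e1 * N) ≤ 1 * (e1 * N) :=
      mul_le_mul_of_nonneg_right (by linarith) (by positivity)
    linarith
  -- conclusion
  have hsub : (range N).filter (fun k => thr ≤ H F G k + H F G (k + b)) ⊆
      ((range N).filter (fun k => e1 ^ 2 * c3 / 4 * N ≤ H F G k)) ∪
      ((range N).filter (fun k => thr / 2 < |H F G (k + b) - H F G k|)) := by
    intro k hk
    rw [mem_filter] at hk
    rw [mem_union, mem_filter, mem_filter]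
    by_cases hc : thr / 2 < |H F G (k + b) - H F G k|
    · exact Or.inr ⟨hk.1, hc⟩
    · refine Or.inl ⟨hk.1, ?_⟩
      have h3 := (abs_le.1 (not_lt.1 hc)).2
      have h4 := hk.2
      have : e1 ^ 2 * c3 / 4 * N = thr / 4 := by rw [hthr]; ring
      rw [this]
      linarith
  have h3 := (card_le_card hsub).trans (card_union_le _ _)
  have h4 : (((range N).filter (fun k => thr ≤ H F G k + H F G (k + b))).card : ℝ) ≤
      (((range N).filter (fun k => e1 ^ 2 * c3 / 4 * N ≤ H F G k)).card : ℝ) +
      (((range N).filter (fun k => thr / 2 < |H F G (k + b) - H F G k|)).card : ℝ) := by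
    exact_mod_cast h3
  have h5 : (M0 - ε) * N ≤ (((range N).filter (fun k => e1 ^ 2 * c3 / 4 * N ≤ H F G k)).card : ℝ) := by
    have h6 : (M0 - ε) * N ≤ (M0 - 5 * e1) * N - e1 * N := by
      rw [hεe]
      have : (M0 - 5 * e1) * N - e1 * N = (M0 - 6 * e1) * N := by ring
      rw [this]
      exact mul_le_mul_of_nonneg_right (by linarith) hNpos.le
    linarith
  exact h5

end Pool.Agent.Lib.KM
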