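import Pool.Agent.Lib.MP_7b7e48_nt.KM.Stmts

/-!
# KM project, module K3a: popular sums of two subsets of `ℤ/b`
-/

open Finset

open scoped Pointwise

namespace Pool.Agent.Lib.KM

namespace PopSet

variable {b : ℕ} [NeZero b]

/-- the set of the residues whose representatives are in `A` -/
def lift (b : ℕ) [NeZero b] (A : Finset ℕ) : Finset (ZMod b) :=
  univ.filter (fun x : ZMod b => x.val ∈ A)

theorem mem_lift {A : Finset ℕ} {x : ZMod b} : x ∈ lift b A ↔ x.val ∈ A := by
  simp [lift]

theorem map_lift {A : Finset ℕ} (hA : A ⊆ range b) :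
    (lift b A).map ⟨ZMod.val, ZMod.val_injective b⟩ = A := by
  ext n
  simp only [mem_map, mem_lift, Function.Embedding.coeFn_mk]
  constructor
  · rintro ⟨x, hx, rfl⟩
    exact hx
  · intro hn
    have hlt := mem_range.1 (hA hn)
    exact ⟨(n : ZMod b), by rwa [ZMod.val_natCast_of_lt hlt], ZMod.val_natCast_of_lt hlt⟩

theorem card_lift {A : Finset ℕ} (hA : A ⊆ range b) : (lift b A).card = A.card := by
  conv_rhs => rw [← map_lift hA]
  rw [card_map]

theorem val_sub' (z x : ZMod b) : (z - x).val = (z.val + b - x.val) % b := by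
  have h : z - x = ((z.val + b - x.val : ℕ) : ZMod b) := by
    have h1 : x.val ≤ z.val + b := (ZMod.val_lt x).le.trans (Nat.le_add_left _ _)
    rw [Nat.cast_sub h1]
    push_cast
    rw [ZMod.natCast_zmod_val, ZMod.natCast_zmod_val, ZMod.natCast_self, add_zero]
  rw [h, ZMod.val_natCast]

theorem card_rep {A B : Finset ℕ} (hA : A ⊆ range b) (z : ZMod b) :
    (A.filter (fun x => (z.val + b - x) % b ∈ B)).card =
      ((lift b A).filter (fun x => z - x ∈ lift b B)).card := by
  rw [← card_lift ((filter_subset (fun x => (z.val + b - x) % b ∈ B) A).trans hA)]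
  congr 1
  ext x
  rw [mem_lift, mem_filter, mem_filter, mem_lift, mem_lift, val_sub']

omit [NeZero b] in
theorem card_pairs (A B E : Finset (ZMod b)) (C : ℝ)
    (h : ∀ z ∈ E, ((A.filter (fun x => z - x ∈ B)).card : ℝ) ≤ C) :
    (((A ×ˢ B).filter (fun p => p.1 + p.2 ∈ E)).card : ℝ) ≤ E.card * C := by
  have hfib := card_eq_sum_card_fiberwise (s := (A ×ˢ B).filter (fun p => p.1 + p.2 ∈ E))
    (t := E) (f := fun p : ZMod b × ZMod b => p.1 + p.2)
    (fun p hp => (mem_filter.1 (mem_coe.1 hp)).2)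
  rw [hfib]
  push_cast
  rw [← nsmul_eq_mul]
  refine sum_le_card_nsmul _ _ _ fun z hz => ?_
  refine le_trans ?_ (h z hz)
  norm_cast
  refine card_le_card_of_injOn (fun p => p.1) ?_ ?_
  · rintro ⟨x, y⟩ hp
    obtain ⟨hp1, hp2⟩ := mem_filter.1 (mem_coe.1 hp)
    obtain ⟨hp3, _⟩ := mem_filter.1 hp1
    obtain ⟨hx, hy⟩ := mem_product.1 hp3
    refine mem_coe.2 (mem_filter.2 ⟨hx, ?_⟩)
    have h1 : x + y = z := hp2
    rw [← h1]
    show x + y - x ∈ B
    rwa [show x + y - x = y by abel]
  · rintro ⟨x, y⟩ hp ⟨x', y'⟩ hp' hxx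
    have h1 : x + y = z := (mem_filter.1 (mem_coe.1 hp)).2
    have h2 : x' + y' = z := (mem_filter.1 (mem_coe.1 hp')).2
    have h3 : x = x' := hxx
    subst h3
    have h4 : y = y' := by
      rw [← h2] at h1
      exact add_left_cancel h1
    rw [h4]

theorem sub_mem_of_mod {H : AddSubgroup (ZMod b)} {q : ℕ} (hq : H.index ∣ q) {u v : ZMod b}
    (h : u.val % q = v.val % q) : u - v ∈ H := by
  obtain ⟨k, hk⟩ := hq
  have h1 : (q : ℤ) ∣ (u.val : ℤ) - v.val := by
    have h2 : v.val ≡ u.val [MOD q] := h.symm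
    exact (Nat.modEq_iff_dvd.1 h2)
  obtain ⟨m, hm⟩ := h1
  have h3 : u - v = H.index • (((k : ℤ) * m : ℤ) : ZMod b) := by
    have h4 : ((((u.val : ℤ) - v.val : ℤ)) : ZMod b) = u - v := by
      push_cast
      rw [ZMod.natCast_zmod_val, ZMod.natCast_zmod_val]
    rw [← h4, hm, hk, nsmul_eq_mul]
    push_cast
    ring
  rw [h3]
  exact AddSubgroup.nsmul_index_mem H _

theorem exists_class {A : Finset ℕ} (hA : A ⊆ range b) {A' : Finset (ZMod b)} {q r : ℕ}
    {γ δ : ℝ} (hδ : δ < γ)
    (h : γ * b ≤ (A.filter (fun x => x % q = r)).card)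
    (hA' : ((lift b A \ A').card : ℝ) ≤ δ * b) : ∃ x ∈ A', x.val % q = r := by
  by_contra hc
  push Not at hc
  have hb : (0 : ℝ) < b := by exact_mod_cast Nat.pos_of_ne_zero (NeZero.ne b)
  have h1 : lift b (A.filter (fun x => x % q = r)) ⊆ lift b A \ A' := by
    intro x hx
    rw [mem_lift, mem_filter] at hx
    exact mem_sdiff.2 ⟨mem_lift.2 hx.1, fun hx' => hc x hx' hx.2⟩
  have h2 := card_le_card h1
  rw [card_lift ((filter_subset _ A).trans hA)] at h2
  have h3 : ((A.filter (fun x => x % q = r)).card : ℝ) ≤ (lift b A \ A').card := by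
    exact_mod_cast h2
  have h4 : δ * b < γ * b := mul_lt_mul_of_pos_right hδ hb
  linarith

end PopSet

open PopSet in
theorem popSet_of : KneserS → RemovalS → PopSetS := by
  intro hK hR ε hε
  set Q : ℕ := ⌈4 / ε⌉₊ + 1 with hQ
  have hQ1 : 4 / ε ≤ Q := by
    rw [hQ]
    push_cast
    have := Nat.le_ceil (4 / ε)
    linarith
  have hQ0 : (0 : ℝ) < Q := by positivity
  refine ⟨Q.factorial, Nat.factorial_pos Q, fun γ hγ => ?_⟩
  set δ : ℝ := min (γ / 2) (ε / 8) with hδ
  have hδ0 : 0 < δ := lt_min (by positivity) (by positivity)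
  have hδγ : δ < γ := lt_of_le_of_lt (min_le_left _ _) (by linarith)
  have hδε : δ ≤ ε / 8 := min_le_right _ _
  obtain ⟨c, hc, hrem⟩ := hR δ hδ0
  refine ⟨c, hc, fun b hb hqb A B hA hB hcA hcB => ?_⟩
  have : NeZero b := ⟨hb.ne'⟩
  have hbR : (0 : ℝ) < b := by exact_mod_cast hb
  have hcard : Fintype.card (ZMod b) = b := ZMod.card b
  set P := (range b).filter (fun z => c * b ≤
    ((A.filter (fun x => (z + b - x) % b ∈ B)).card : ℝ)) with hP
  have hPb : P ⊆ range b := filter_subset _ _
  set E : Finset (ZMod b) := univ \ lift b P with hE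
  have hrep : ∀ z ∈ E, (((lift b A).filter (fun x => z - x ∈ lift b B)).card : ℝ) ≤ c * b := by
    intro z hz
    have h1 : z ∉ lift b P := (mem_sdiff.1 hz).2
    rw [mem_lift, hP, mem_filter, not_and, not_le] at h1
    rw [← card_rep hA]
    exact (h1 (mem_range.2 (ZMod.val_lt z))).le
  have hEb : (E.card : ℝ) ≤ b := by
    have := card_le_univ E
    rw [hcard] at this
    exact_mod_cast this
  obtain ⟨A', B', E', hA1, hB1, hE1, hA2, hB2, hE2, hdisj⟩ := hrem (ZMod b) (lift b A) (lift b B) E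
    (by
      refine (card_pairs _ _ E (c * b) hrep).trans ?_
      rw [hcard]
      have : 0 ≤ c * b := by positivity
      nlinarith)
  rw [hcard] at hA2 hB2 hE2
  have q0pos : 0 < Q.factorial := Nat.factorial_pos Q
  obtain ⟨x0, hx0, _⟩ := exists_class hA hδγ (hcA 0 q0pos) hA2
  obtain ⟨y0, hy0, _⟩ := exists_class hB hδγ (hcB 0 q0pos) hB2
  obtain ⟨H, hH1, hH2⟩ := hK (ZMod b) A' B' ⟨x0, hx0⟩ ⟨y0, hy0⟩
  -- popular elements
  have hpop : ((A' + B').card : ℝ) ≤ P.card + δ * b := by
    have h1 : A' + B' ⊆ lift b P ∪ (E \ E') := by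
      intro z hz
      obtain ⟨x, hx, y, hy, rfl⟩ := mem_add.1 hz
      by_cases hzP : x + y ∈ lift b P
      · exact mem_union_left _ hzP
      · exact mem_union_right _ (mem_sdiff.2 ⟨mem_sdiff.2 ⟨mem_univ _, hzP⟩, hdisj x hx y hy⟩)
    have h2 := (card_le_card h1).trans (card_union_le _ _)
    rw [card_lift hPb] at h2
    have h3 : ((A' + B').card : ℝ) ≤ P.card + (E \ E').card := by exact_mod_cast h2
    linarith
  have hAc : (A.card : ℝ) ≤ A'.card + δ * b := by
    have h1 : lift b A ⊆ A' ∪ (lift b A \ A') := by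
      intro x hx
      by_cases h : x ∈ A'
      · exact mem_union_left _ h
      · exact mem_union_right _ (mem_sdiff.2 ⟨hx, h⟩)
    have h2 := (card_le_card h1).trans (card_union_le _ _)
    rw [card_lift hA] at h2
    have h3 : (A.card : ℝ) ≤ A'.card + (lift b A \ A').card := by exact_mod_cast h2
    linarith
  have hBc : (B.card : ℝ) ≤ B'.card + δ * b := by
    have h1 : lift b B ⊆ B' ∪ (lift b B \ B') := by
      intro x hx
      by_cases h : x ∈ B'
      · exact mem_union_left _ h
      · exact mem_union_right _ (mem_sdiff.2 ⟨hx, h⟩)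
    have h2 := (card_le_card h1).trans (card_union_le _ _)
    rw [card_lift hB] at h2
    have h3 : (B.card : ℝ) ≤ B'.card + (lift b B \ B').card := by exact_mod_cast h2
    linarith
  have hδb : δ * b ≤ ε / 8 * b := mul_le_mul_of_nonneg_right hδε hbR.le
  have hεb : 0 < ε * b := by positivity
  rcases le_or_gt H.index Q with hi | hi
  · -- small index: all sums
    have hi0 : 0 < H.index := Nat.pos_of_ne_zero (AddSubgroup.index_ne_zero_of_finite)
    have hdvd : H.index ∣ Q.factorial := Nat.dvd_factorial hi0 hi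
    have hall : (A' + B') = univ := by
      refine eq_univ_of_forall fun z => ?_
      have hr : (z - y0).val % Q.factorial < Q.factorial := Nat.mod_lt _ q0pos
      obtain ⟨x, hx, hxr⟩ := exists_class hA hδγ (hcA _ hr) hA2
      have h1 : z - y0 - x ∈ H := sub_mem_of_mod hdvd hxr.symm
      have h2 := hH1 (x + y0) (add_mem_add hx hy0) _ h1
      rwa [show x + y0 + (z - y0 - x) = z by abel] at h2
    have h1 : ((A' + B').card : ℝ) = b := by
      rw [hall, card_univ, hcard]
    have h2 := min_le_left (b : ℝ) (A.card + B.card)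
    linarith
  · -- large index: Kneser
    have h1 : Nat.card H * H.index = b := by
      rw [AddSubgroup.card_mul_index, Nat.card_eq_fintype_card, hcard]
    have h2 : (Nat.card H : ℝ) * Q ≤ b := by
      have h3 : Nat.card H * Q ≤ Nat.card H * H.index := Nat.mul_le_mul_left _ hi.le
      rw [h1] at h3
      exact_mod_cast h3
    have h4 : (Nat.card H : ℝ) ≤ ε / 4 * b := by
      have h5 : (4 / ε) * Nat.card H ≤ b := by
        have : (0 : ℝ) ≤ Nat.card H := Nat.cast_nonneg _
        nlinarith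
      have h6 : (Nat.card H : ℝ) = ε / 4 * ((4 / ε) * Nat.card H) := by
        field_simp
      rw [h6]
      exact mul_le_mul_of_nonneg_left h5 (by positivity)
    have h7 : (A'.card : ℝ) + B'.card ≤ (A' + B').card + Nat.card H := by exact_mod_cast hH2
    have h8 := min_le_right (b : ℝ) (A.card + B.card)
    linarith

end Pool.Agent.Lib.KM
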