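import Pool.Agent.Lib.MP_7b7e48_nt.KM.Stmts

/-!
# KM project, module K2: removal lemma for sums in finite abelian groups
-/

open Finset

namespace Pool.Agent.Lib.KM

namespace Removal

open SimpleGraph SimpleGraph.TripartiteFromTriangles Sum3

section general

variable {G V : Type} [AddCommGroup G] [Fintype G] [Fintype V] [DecidableEq V]

/-- the translates by `a` of missing edges -/
def miss (H H' : SimpleGraph V) [DecidableRel H.Adj] [DecidableRel H'.Adj] (i j : G → V) (a : G) :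
    Finset G :=
  univ.filter (fun x => H.Adj (i x) (j (x + a)) ∧ ¬ H'.Adj (i x) (j (x + a)))

theorem bad_card (H H' : SimpleGraph V) [DecidableRel H.Adj] [DecidableRel H'.Adj]
    (hle : H' ≤ H) (i j : G → V)
    (hinj : ∀ x y x' y', s(i x, j y) = s(i x', j y') → x = x' ∧ y = y') (S : Finset G)
    (hS : ∀ a ∈ S, Fintype.card G ≤ 3 * (miss H H' i j a).card) :
    (S.card : ℝ) * Fintype.card G ≤ 3 * ((H.edgeFinset.card : ℝ) - H'.edgeFinset.card) := by
  have h1 : S.card * Fintype.card G ≤ 3 * (S.sigma (miss H H' i j)).card := by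
    rw [card_sigma, mul_sum, ← smul_eq_mul, ← sum_const]
    exact sum_le_sum hS
  have h2 : (S.sigma (miss H H' i j)).card ≤ (H.edgeFinset \ H'.edgeFinset).card := by
    refine card_le_card_of_injOn (fun p => s(i p.2, j (p.2 + p.1))) ?_ ?_
    · rintro ⟨a, x⟩ hp
      have hp' := (mem_sigma.1 (mem_coe.1 hp)).2
      have hp2 := (mem_filter.1 hp').2
      refine mem_coe.2 (mem_sdiff.2 ⟨?_, ?_⟩)
      · rw [SimpleGraph.mem_edgeFinset, SimpleGraph.mem_edgeSet]
        exact hp2.1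
      · rw [SimpleGraph.mem_edgeFinset, SimpleGraph.mem_edgeSet]
        exact hp2.2
    · rintro ⟨a, x⟩ _ ⟨a', x'⟩ _ h
      have h3 := hinj x (x + a) x' (x' + a') h
      obtain ⟨h4, h5⟩ := h3
      have h6 : a = a' := by
        rw [h4] at h5
        exact add_left_cancel h5
      subst h4
      subst h6
      rfl
  have h3 : H'.edgeFinset ⊆ H.edgeFinset := SimpleGraph.edgeFinset_mono hle
  have h4 : (H.edgeFinset \ H'.edgeFinset).card = H.edgeFinset.card - H'.edgeFinset.card :=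
    card_sdiff_of_subset h3
  have h5 := card_le_card h3
  have h6 : ((H.edgeFinset.card - H'.edgeFinset.card : ℕ) : ℝ) =
      (H.edgeFinset.card : ℝ) - H'.edgeFinset.card := Nat.cast_sub h5
  have h7 : S.card * Fintype.card G ≤ 3 * (H.edgeFinset.card - H'.edgeFinset.card) := by
    rw [h4] at h2
    omega
  rw [← h6]
  exact_mod_cast h7

end general

variable {G : Type} [AddCommGroup G] [Fintype G] [DecidableEq G]

/-- the triangles -/
def tri (A B E : Finset G) : Finset (G × G × G) :=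
  univ.filter (fun p => p.2.1 - p.1 ∈ A ∧ p.2.2 - p.2.1 ∈ B ∧ p.2.2 - p.1 ∈ E)

theorem mem_tri {A B E : Finset G} {x y z : G} :
    (x, y, z) ∈ tri A B E ↔ y - x ∈ A ∧ z - y ∈ B ∧ z - x ∈ E := by
  simp [tri]

theorem card_tri (A B E : Finset G) : (tri A B E).card ≤
    Fintype.card G * ((A ×ˢ B).filter (fun p => p.1 + p.2 ∈ E)).card := by
  rw [← card_univ, ← card_product]
  refine card_le_card_of_injOn (fun p => (p.1, (p.2.1 - p.1, p.2.2 - p.2.1))) ?_ ?_
  · rintro ⟨x, y, z⟩ h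
    obtain ⟨h1, h2, h3⟩ := mem_tri.1 (mem_coe.1 h)
    refine mem_coe.2 (mem_product.2 ⟨mem_univ _, mem_filter.2 ⟨mem_product.2 ⟨h1, h2⟩, ?_⟩⟩)
    show y - x + (z - y) ∈ E
    rwa [show y - x + (z - y) = z - x by abel]
  · rintro ⟨x, y, z⟩ _ ⟨x', y', z'⟩ _ h
    obtain ⟨h1, h2⟩ := Prod.mk.inj h
    obtain ⟨h3, h4⟩ := Prod.mk.inj h2
    have h1' : x = x' := h1
    subst h1'
    have h3' : y = y' := sub_left_injective h3
    subst h3'
    have h4' : z = z' := sub_left_injective h4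
    subst h4'
    rfl

theorem card_clique (A B E : Finset G) :
    ((graph (tri A B E)).cliqueFinset 3).card ≤ (tri A B E).card := by
  refine le_trans (card_le_card (t := (tri A B E).image toTriangle) ?_) card_image_le
  intro s hs
  rw [SimpleGraph.mem_cliqueFinset_iff, SimpleGraph.is3Clique_iff] at hs
  obtain ⟨u, v, w, huv, huw, hvw, rfl⟩ := hs
  obtain ⟨a, b, c, habc, hab, hac, hbc⟩ := graph_triple huv huw hvw
  refine mem_image.2 ⟨(a, b, c), ?_, habc⟩
  obtain ⟨c', hc'⟩ := Graph.in₀₁_iff.1 hab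
  obtain ⟨b', hb'⟩ := Graph.in₀₂_iff.1 hac
  obtain ⟨a', ha'⟩ := Graph.in₁₂_iff.1 hbc
  exact mem_tri.2 ⟨(mem_tri.1 hc').1, (mem_tri.1 ha').2.1, (mem_tri.1 hb').2.2⟩

end Removal

open Removal SimpleGraph SimpleGraph.TripartiteFromTriangles Sum3 in
theorem removal_holds : RemovalS := by
  intro δ hδ
  have hε : 0 < δ / 27 := by positivity
  refine ⟨triangleRemovalBound (δ / 27), triangleRemovalBound_pos hε, ?_⟩
  intro G _ _ _ A B E hT
  have hG : 0 < Fintype.card G := Fintype.card_pos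
  have hG' : (0 : ℝ) < Fintype.card G := by exact_mod_cast hG
  set Γ := graph (tri A B E) with hΓ
  have hcard : Fintype.card (G ⊕ G ⊕ G) = 3 * Fintype.card G := by
    rw [Fintype.card_sum, Fintype.card_sum]
    ring
  have hb := triangleRemovalBound_pos hε
  have h1 : ((Γ.cliqueFinset 3).card : ℝ) <
      triangleRemovalBound (δ / 27) * (Fintype.card (G ⊕ G ⊕ G) : ℝ) ^ 3 := by
    have h2 : ((Γ.cliqueFinset 3).card : ℝ) ≤
        Fintype.card G * (((A ×ˢ B).filter (fun p => p.1 + p.2 ∈ E)).card : ℝ) := by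
      exact_mod_cast (card_clique A B E).trans (card_tri A B E)
    have h3 := mul_le_mul_of_nonneg_left hT hG'.le
    rw [hcard]
    push_cast
    have h4 : 0 < triangleRemovalBound (δ / 27) * (Fintype.card G : ℝ) ^ 3 := by positivity
    nlinarith
  obtain ⟨H, hH, _, hE, hfree⟩ := triangle_removal h1
  rw [hcard] at hE
  push_cast at hE
  have hE' : ((Γ.edgeFinset.card : ℝ) - H.edgeFinset.card) < δ / 3 * (Fintype.card G : ℝ) ^ 2 := by
    refine hE.trans_eq ?_
    ring
  have i01 : ∀ x y x' y' : G, s((in₀ x : G ⊕ G ⊕ G), in₁ y) = s(in₀ x', in₁ y') →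
      x = x' ∧ y = y' := by
    intro x y x' y' h
    rw [Sym2.eq_iff] at h
    rcases h with ⟨h1, h2⟩ | ⟨h1, h2⟩
    · exact ⟨Sum.inl.inj h1, Sum.inl.inj (Sum.inr.inj h2)⟩
    · cases h1
  have i02 : ∀ x y x' y' : G, s((in₀ x : G ⊕ G ⊕ G), in₂ y) = s(in₀ x', in₂ y') →
      x = x' ∧ y = y' := by
    intro x y x' y' h
    rw [Sym2.eq_iff] at h
    rcases h with ⟨h1, h2⟩ | ⟨h1, h2⟩
    · exact ⟨Sum.inl.inj h1, Sum.inr.inj (Sum.inr.inj h2)⟩
    · cases h1
  have i12 : ∀ x y x' y' : G, s((in₁ x : G ⊕ G ⊕ G), in₂ y) = s(in₁ x', in₂ y') →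
      x = x' ∧ y = y' := by
    intro x y x' y' h
    rw [Sym2.eq_iff] at h
    rcases h with ⟨h1, h2⟩ | ⟨h1, h2⟩
    · exact ⟨Sum.inl.inj (Sum.inr.inj h1), Sum.inr.inj (Sum.inr.inj h2)⟩
    · cases h1
  have key : ∀ (i j : G → G ⊕ G ⊕ G),
      (∀ x y x' y', s(i x, j y) = s(i x', j y') → x = x' ∧ y = y') → ∀ S : Finset G,
      ((S \ (S.filter (fun a => 3 * (miss Γ H i j a).card < Fintype.card G))).card : ℝ) ≤
        δ * Fintype.card G := by
    intro i j hij S
    have h2 := bad_card Γ H hH i j hij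
      (S \ (S.filter (fun a => 3 * (miss Γ H i j a).card < Fintype.card G))) (fun a ha => by
        obtain ⟨ha1, ha2⟩ := mem_sdiff.1 ha
        by_contra hc
        exact ha2 (mem_filter.2 ⟨ha1, not_le.1 hc⟩))
    have h3 : ((S \ (S.filter (fun a => 3 * (miss Γ H i j a).card < Fintype.card G))).card : ℝ) *
        Fintype.card G ≤ (δ * Fintype.card G) * Fintype.card G := by
      nlinarith
    exact le_of_mul_le_mul_right h3 hG'
  refine ⟨A.filter (fun a => 3 * (miss Γ H in₀ in₁ a).card < Fintype.card G),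
    B.filter (fun a => 3 * (miss Γ H in₁ in₂ a).card < Fintype.card G),
    E.filter (fun a => 3 * (miss Γ H in₀ in₂ a).card < Fintype.card G), filter_subset _ _,
    filter_subset _ _, filter_subset _ _, key _ _ i01 A, key _ _ i12 B, key _ _ i02 E, ?_⟩
  intro a ha b hb' he
  obtain ⟨ha1, ha2⟩ := mem_filter.1 ha
  obtain ⟨hb1, hb2⟩ := mem_filter.1 hb'
  obtain ⟨he1, he2⟩ := mem_filter.1 he
  set U := miss Γ H in₀ in₁ a ∪ (miss Γ H in₁ in₂ b).image (fun x => x - a) ∪
    miss Γ H in₀ in₂ (a + b) with hU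
  have hUc : U.card < Fintype.card G := by
    have c1 := card_union_le (miss Γ H in₀ in₁ a ∪ (miss Γ H in₁ in₂ b).image (fun x => x - a))
      (miss Γ H in₀ in₂ (a + b))
    have c2 := card_union_le (miss Γ H in₀ in₁ a) ((miss Γ H in₁ in₂ b).image (fun x => x - a))
    have c3 := card_image_le (s := miss Γ H in₁ in₂ b) (f := fun x => x - a)
    rw [← hU] at c1
    omega
  obtain ⟨x, hx⟩ : ∃ x, x ∉ U := by
    by_contra hc
    push Not at hc
    have : U = univ := eq_univ_of_forall hc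
    rw [this, card_univ] at hUc
    exact lt_irrefl _ hUc
  have hx1 : x ∉ miss Γ H in₀ in₁ a := fun h => hx (mem_union_left _ (mem_union_left _ h))
  have hx2 : x + a ∉ miss Γ H in₁ in₂ b := fun h => hx (mem_union_left _ (mem_union_right _
    (mem_image.2 ⟨x + a, h, by abel⟩)))
  have hx3 : x ∉ miss Γ H in₀ in₂ (a + b) := fun h => hx (mem_union_right _ h)
  have ht : (x, x + a, x + a + b) ∈ tri A B E := mem_tri.2 ⟨by
    rwa [show x + a - x = a by abel], by rwa [show x + a + b - (x + a) = b by abel], by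
    rwa [show x + a + b - x = a + b by abel]⟩
  have e1 : H.Adj (in₀ x) (in₁ (x + a)) := by
    by_contra hc
    exact hx1 (mem_filter.2 ⟨mem_univ _, Graph.in₀₁_iff.2 ⟨_, ht⟩, hc⟩)
  have e2 : H.Adj (in₁ (x + a)) (in₂ (x + a + b)) := by
    by_contra hc
    exact hx2 (mem_filter.2 ⟨mem_univ _, Graph.in₁₂_iff.2 ⟨_, ht⟩, hc⟩)
  have e3 : H.Adj (in₀ x) (in₂ (x + a + b)) := by
    by_contra hc
    rw [add_assoc] at hc ht
    exact hx3 (mem_filter.2 ⟨mem_univ _, Graph.in₀₂_iff.2 ⟨_, ht⟩, hc⟩)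
  exact hfree _ (is3Clique_triple_iff.2 ⟨e1, e3, e2⟩)

end Pool.Agent.Lib.KM
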