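import Pool.Agent.Lib.MP_7b7e48_nt.KM.Stmts
import Pool.Agent.Lib.MP_7b7e48_nt.GT.PNTAP

/-!
# KM, module S3: density of the rotation example
-/

open Finset Filter

namespace Pool.Agent.Lib.KM

open Pool.Agent.Lib.GT (e lam Lw V pr Tw Rough)

namespace RotDens

/-- the primes in the class and the interval -/
noncomputable def PX (m c : ℕ) (s t : ℝ) (X : ℕ) : Finset ℕ :=
  (range (⌊t * X⌋₊ + 1)).filter (fun n => n.Prime ∧ n % m = c % m ∧ s * X < n)

theorem mem_PX {m c : ℕ} {s t : ℝ} (ht : 0 ≤ t) {X n : ℕ} :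
    n ∈ PX m c s t X ↔ n.Prime ∧ n % m = c % m ∧ s * X < n ∧ (n : ℝ) ≤ t * X := by
  unfold PX
  rw [mem_filter, mem_range, Nat.lt_succ_iff, Nat.le_floor_iff (by positivity)]
  tauto

theorem cnt_univ {m c : ℕ} {s t : ℝ} (ht : 0 ≤ t) (X : ℕ) :
    cnt Set.univ m c s t X = (PX m c s t X).card := by
  unfold cnt
  rw [← Set.ncard_coe_finset]
  congr 1
  ext n
  rw [Finset.mem_coe, mem_PX ht]
  simp

theorem cnt_rot {m c q : ℕ} {s t : ℝ} (a : ℕ → ℝ) (hqm : q ∣ m) (ht : 0 ≤ t) (X : ℕ) :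
    cnt (rotSet q a) m c s t X =
      ((PX m c s t X).filter (fun n : ℕ => Int.fract (Real.sqrt 2 * n) < a (c % q))).card := by
  unfold cnt
  rw [← Set.ncard_coe_finset]
  congr 1
  ext n
  rw [Finset.mem_coe, mem_filter, mem_PX ht]
  simp only [Set.mem_ofPred_eq, rotSet]
  constructor
  · rintro ⟨h1, h2, h3, h4, h5⟩
    have h6 : n % q = c % q := by
      have := congrArg (· % q) h3
      simpa [Nat.mod_mod_of_dvd _ hqm] using this
    rw [h6] at h2
    exact ⟨⟨h1, h3, h4, h5⟩, h2⟩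
  · rintro ⟨⟨h1, h3, h4, h5⟩, h2⟩
    have h6 : n % q = c % q := by
      have := congrArg (· % q) h3
      simpa [Nat.mod_mod_of_dvd _ hqm] using this
    rw [← h6] at h2
    exact ⟨h1, h2, h3, h4, h5⟩

/-- theta function in a class -/
noncomputable def th (m c Y : ℕ) : ℝ := ∑ n ∈ (range (Y + 1)).filter (fun n => n % m = c % m), lam n

theorem th_eq (m c Y : ℕ) : th m c Y = ∑ n ∈ Finset.Icc 1 Y with n % m = c % m, lam n := by
  unfold th
  rw [sum_filter, sum_filter, range_eq_Ico]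
  have h1 : Finset.Icc 1 Y = Finset.Ico 1 (Y + 1) := by
    ext n; simp
  rw [h1, Finset.sum_eq_sum_Ico_succ_bot (by omega)]
  have h2 : lam 0 = 0 := by
    unfold lam
    rw [if_neg Nat.not_prime_zero]
  simp [h2]

/-- sum over the interval as a difference -/
theorem sum_PX {m c : ℕ} {s t : ℝ} (hs : 0 < s) (hst : s < t) (X : ℕ) (g : ℕ → ℂ) :
    ∑ n ∈ PX m c s t X, (Real.log n : ℂ) * g n =
      (∑ n ∈ (range (⌊t * X⌋₊ + 1)).filter (fun n => n % m = c % m), (lam n : ℂ) * g n) -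
      ∑ n ∈ (range (⌊s * X⌋₊ + 1)).filter (fun n => n % m = c % m), (lam n : ℂ) * g n := by
  have hX : (0 : ℝ) ≤ X := Nat.cast_nonneg X
  have hle : ⌊s * X⌋₊ ≤ ⌊t * X⌋₊ := Nat.floor_le_floor (by nlinarith)
  have hsub : (range (⌊s * X⌋₊ + 1)).filter (fun n => n % m = c % m) ⊆
      (range (⌊t * X⌋₊ + 1)).filter (fun n => n % m = c % m) := by
    intro n hn
    rw [mem_filter, mem_range] at hn ⊢
    exact ⟨by omega, hn.2⟩
  rw [eq_sub_iff_add_eq, ← Finset.sum_sdiff hsub]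
  congr 1
  have h1 : ∀ n ∈ PX m c s t X, (Real.log n : ℂ) * g n = (lam n : ℂ) * g n := by
    intro n hn
    have hp : n.Prime := (mem_filter.1 hn).2.1
    unfold lam
    rw [if_pos hp]
  rw [sum_congr rfl h1]
  apply Finset.sum_subset
  · intro n hn
    unfold PX at hn
    rw [mem_filter, mem_range] at hn
    rw [Finset.mem_sdiff, mem_filter, mem_filter, mem_range, mem_range]
    refine ⟨⟨hn.1, hn.2.2.1⟩, ?_⟩
    rintro ⟨h2, _⟩
    have h3 : ⌊s * X⌋₊ < n := (Nat.floor_lt (by positivity)).2 hn.2.2.2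
    omega
  · intro n hn hn'
    rw [Finset.mem_sdiff, mem_filter, mem_filter, mem_range, mem_range] at hn
    have hnp : ¬ n.Prime := by
      intro hp
      apply hn'
      unfold PX
      rw [mem_filter, mem_range]
      refine ⟨hn.1.1, hp, hn.1.2, ?_⟩
      have h3 : ¬ n < ⌊s * X⌋₊ + 1 := fun h => hn.2 ⟨h, hn.1.2⟩
      exact (Nat.floor_lt (by positivity)).1 (by omega)
    unfold lam
    rw [if_neg hnp]
    simp

theorem th_PX {m c : ℕ} {s t : ℝ} (hs : 0 < s) (hst : s < t) (X : ℕ) :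
    ∑ n ∈ PX m c s t X, Real.log n = th m c ⌊t * X⌋₊ - th m c ⌊s * X⌋₊ := by
  have h := sum_PX (m := m) (c := c) hs hst X (fun _ => 1)
  simp only [mul_one] at h
  unfold th
  exact_mod_cast h

theorem tendsto_th {m c : ℕ} (hm : 0 < m) (hc : c.Coprime m) {t : ℝ} (ht : 0 < t) :
    Tendsto (fun X : ℕ => th m c ⌊t * X⌋₊ / X) atTop (nhds (1 / (m.totient : ℝ) * t)) := by
  have h1 := Pool.Agent.Lib.GT.pnt_ap m c hm hc
  have h2 : Tendsto (fun X : ℕ => ⌊t * X⌋₊) atTop atTop := by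
    refine tendsto_nat_floor_atTop.comp ?_
    exact Tendsto.const_mul_atTop ht tendsto_natCast_atTop_atTop
  have h3 := h1.comp h2
  have h4 : Tendsto (fun X : ℕ => (⌊t * X⌋₊ : ℝ) / X) atTop (nhds t) :=
    (tendsto_nat_floor_mul_div_atTop ht.le).comp tendsto_natCast_atTop_atTop
  refine (h3.mul h4).congr' ?_
  have h5 : ∀ᶠ X : ℕ in atTop, 1 ≤ ⌊t * X⌋₊ := h2.eventually_ge_atTop 1
  filter_upwards [h5] with X hX
  simp only [Function.comp]
  rw [← th_eq]
  have : (⌊t * X⌋₊ : ℝ) ≠ 0 := by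
    have : (1 : ℝ) ≤ (⌊t * X⌋₊ : ℝ) := by exact_mod_cast hX
    linarith
  field_simp

theorem card_lower {m c : ℕ} (hm : 0 < m) (hc : c.Coprime m) {s t : ℝ} (hs : 0 < s)
    (hst : s < t) : ∃ X₀ : ℕ, ∀ X : ℕ, X₀ ≤ X →
      (t - s) / (2 * m.totient) * X ≤ ∑ n ∈ PX m c s t X, Real.log n := by
  have ht : 0 < t := hs.trans hst
  have hφ : (0 : ℝ) < m.totient := by exact_mod_cast Nat.totient_pos.2 hm
  have h1 := (tendsto_th hm hc ht).sub (tendsto_th hm hc hs)
  have h2 : (t - s) / (2 * m.totient) < 1 / (m.totient : ℝ) * t - 1 / (m.totient : ℝ) * s := by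
    have : 1 / (m.totient : ℝ) * t - 1 / (m.totient : ℝ) * s = 2 * ((t - s) / (2 * m.totient)) := by
      field_simp
    rw [this]
    have : 0 < (t - s) / (2 * m.totient) := div_pos (by linarith) (by positivity)
    linarith
  have h3 := (h1.eventually_const_le h2).and (eventually_ge_atTop 1)
  rw [eventually_atTop] at h3
  obtain ⟨X₀, hX₀⟩ := h3
  refine ⟨X₀, fun X hX => ?_⟩
  obtain ⟨h4, h5⟩ := hX₀ X hX
  have hX1 : (0 : ℝ) < X := by
    have : (1 : ℝ) ≤ X := by exact_mod_cast h5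
    linarith
  rw [th_PX hs hst, ← sub_div, le_div_iff₀ hX1] at *
  exact h4

theorem log_close {s t : ℝ} (hs : 0 < s) (hst : s < t) {X n : ℕ} (hX : 1 ≤ X)
    (h1 : s * X < n) (h2 : (n : ℝ) ≤ t * X) :
    |Real.log X - Real.log n| ≤ |Real.log s| + |Real.log t| := by
  have ht : 0 < t := hs.trans hst
  have hX0 : (0 : ℝ) < X := by exact_mod_cast hX
  have hn : (0 : ℝ) < n := lt_trans (by positivity) h1
  have h3 : Real.log (s * X) ≤ Real.log n := Real.log_le_log (by positivity) h1.le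
  have h4 : Real.log n ≤ Real.log (t * X) := Real.log_le_log hn h2
  rw [Real.log_mul hs.ne' hX0.ne'] at h3
  rw [Real.log_mul ht.ne' hX0.ne'] at h4
  rw [abs_le]
  constructor
  · have := le_abs_self (Real.log t)
    have := abs_nonneg (Real.log s)
    linarith
  · have := neg_abs_le (Real.log s)
    have := abs_nonneg (Real.log t)
    linarith

theorem weyl_hyp (hW : WeylS) {m c : ℕ} (hm : 0 < m) (hc : c.Coprime m) {s t : ℝ} (hs : 0 < s)
    (hst : s < t) (k : ℤ) (hk : k ≠ 0) (ε : ℝ) (hε : 0 < ε) : ∃ X₀ : ℕ, ∀ X : ℕ, X₀ ≤ X →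
      ‖∑ n ∈ PX m c s t X, e (k * (Real.sqrt 2 * n))‖ ≤ ε * (PX m c s t X).card := by
  have ht : 0 < t := hs.trans hst
  have hφ : (0 : ℝ) < m.totient := by exact_mod_cast Nat.totient_pos.2 hm
  set c₁ : ℝ := (t - s) / (2 * m.totient) with hc₁
  have hc₁0 : 0 < c₁ := div_pos (by linarith) (by positivity)
  set C : ℝ := |Real.log s| + |Real.log t| with hC
  have hC0 : 0 ≤ C := by positivity
  obtain ⟨X₁, hX₁⟩ := card_lower hm hc hs hst
  set δ : ℝ := ε * c₁ / (8 * t) with hδ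
  have hδ0 : 0 < δ := by positivity
  obtain ⟨Y₀, hY₀⟩ := hW m c hm k hk δ hδ0
  have hev : ∀ᶠ X : ℕ in atTop, Y₀ ≤ ⌊s * X⌋₊ ∧ Y₀ ≤ ⌊t * X⌋₊ ∧ C + 1 ≤ Real.log X ∧
      2 * C / ε ≤ Real.log X ∧ 1 ≤ X ∧ X₁ ≤ X := by
    have h2 : ∀ u : ℝ, 0 < u → Tendsto (fun X : ℕ => ⌊u * X⌋₊) atTop atTop := fun u hu =>
      tendsto_nat_floor_atTop.comp (Tendsto.const_mul_atTop hu tendsto_natCast_atTop_atTop)
    have h3 : Tendsto (fun X : ℕ => Real.log X) atTop atTop :=
      Real.tendsto_log_atTop.comp tendsto_natCast_atTop_atTop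
    filter_upwards [(h2 s hs).eventually_ge_atTop Y₀, (h2 t ht).eventually_ge_atTop Y₀,
      h3.eventually_ge_atTop (C + 1), h3.eventually_ge_atTop (2 * C / ε),
      eventually_ge_atTop 1, eventually_ge_atTop X₁] with X a1 a2 a3 a4 a5 a6
    exact ⟨a1, a2, a3, a4, a5, a6⟩
  rw [eventually_atTop] at hev
  obtain ⟨X₀, hX₀⟩ := hev
  refine ⟨X₀, fun X hX => ?_⟩
  obtain ⟨a1, a2, a3, a4, a5, a6⟩ := hX₀ X hX
  set T : ℝ := ((PX m c s t X).card : ℝ) with hT
  have hT0 : 0 ≤ T := Nat.cast_nonneg _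
  set L : ℝ := Real.log X with hL
  have hL0 : 0 < L := by linarith
  have hXr : (0 : ℝ) ≤ X := Nat.cast_nonneg X
  have hlow := hX₁ X a6
  have hmem : ∀ n ∈ PX m c s t X, |L - Real.log n| ≤ C := fun n hn => by
    have := (mem_PX ht.le).1 hn
    exact log_close hs hst a5 this.2.2.1 this.2.2.2
  -- lower bound for T
  have hTlow : c₁ * X ≤ 2 * L * T := by
    refine hlow.trans ?_
    have h1 : ∑ n ∈ PX m c s t X, Real.log n ≤ ∑ n ∈ PX m c s t X, (L + C) :=
      sum_le_sum fun n hn => by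
        have := (abs_le.1 (hmem n hn)).1
        linarith
    rw [sum_const, nsmul_eq_mul] at h1
    have h2 : T * (L + C) ≤ T * (2 * L) := mul_le_mul_of_nonneg_left (by linarith) hT0
    calc _ ≤ T * (L + C) := h1
      _ ≤ T * (2 * L) := h2
      _ = _ := by ring
  -- the identity
  have hid : (L : ℂ) * ∑ n ∈ PX m c s t X, e (k * (Real.sqrt 2 * n)) =
      ∑ n ∈ PX m c s t X, ((L - Real.log n : ℝ) : ℂ) * e (k * (Real.sqrt 2 * n)) +
      ∑ n ∈ PX m c s t X, (Real.log n : ℂ) * e (k * (Real.sqrt 2 * n)) := by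
    rw [mul_sum, ← sum_add_distrib]
    refine sum_congr rfl fun n _ => ?_
    push_cast
    ring
  have hb1 : ‖∑ n ∈ PX m c s t X, ((L - Real.log n : ℝ) : ℂ) * e (k * (Real.sqrt 2 * n))‖ ≤
      C * T := by
    refine (norm_sum_le _ _).trans ?_
    have : ∑ n ∈ PX m c s t X, ‖((L - Real.log n : ℝ) : ℂ) * e (k * (Real.sqrt 2 * n))‖ ≤
        ∑ n ∈ PX m c s t X, C := sum_le_sum fun n hn => by
      rw [norm_mul, Pool.Agent.Lib.GT.norm_e, mul_one, Complex.norm_real, Real.norm_eq_abs]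
      exact hmem n hn
    rw [sum_const, nsmul_eq_mul] at this
    linarith [mul_comm T C]
  have hb2 : ‖∑ n ∈ PX m c s t X, (Real.log n : ℂ) * e (k * (Real.sqrt 2 * n))‖ ≤
      2 * δ * t * X := by
    rw [sum_PX hs hst X (fun n => e (k * (Real.sqrt 2 * n)))]
    have hw : ∀ u : ℝ, 0 < u → u ≤ t → Y₀ ≤ ⌊u * X⌋₊ →
        ‖∑ n ∈ (range (⌊u * X⌋₊ + 1)).filter (fun n => n % m = c % m),
          (lam n : ℂ) * e (k * (Real.sqrt 2 * n))‖ ≤ δ * t * X := by
      intro u hu hut hY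
      have h1 := hY₀ _ hY
      have h2 : ∀ n : ℕ, e (k * Real.sqrt 2 * n) = e (k * (Real.sqrt 2 * n)) := fun n => by
        rw [mul_assoc]
      simp only [h2] at h1
      refine h1.trans ?_
      have h3 : (⌊u * X⌋₊ : ℝ) ≤ u * X := Nat.floor_le (by positivity)
      have h4 : u * X ≤ t * X := mul_le_mul_of_nonneg_right hut hXr
      calc δ * (⌊u * X⌋₊ : ℝ) ≤ δ * (t * X) := mul_le_mul_of_nonneg_left (h3.trans h4) hδ0.le
        _ = _ := by ring
    calc _ ≤ _ := norm_sub_le _ _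
      _ ≤ δ * t * X + δ * t * X := add_le_add (hw t ht le_rfl a2) (hw s hs hst.le a1)
      _ = _ := by ring
  have hmain : L * ‖∑ n ∈ PX m c s t X, e (k * (Real.sqrt 2 * n))‖ ≤ C * T + 2 * δ * t * X := by
    have h1 : ‖(L : ℂ) * ∑ n ∈ PX m c s t X, e (k * (Real.sqrt 2 * n))‖ =
        L * ‖∑ n ∈ PX m c s t X, e (k * (Real.sqrt 2 * n))‖ := by
      rw [norm_mul, Complex.norm_real, Real.norm_eq_abs, abs_of_pos hL0]
    rw [← h1, hid]
    exact (norm_add_le _ _).trans (add_le_add hb1 hb2)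
  have hfin : C * T + 2 * δ * t * X ≤ L * (ε * T) := by
    have h1 : 2 * δ * t * X = ε / 4 * (c₁ * X) := by
      rw [hδ]; field_simp; ring
    rw [h1]
    have h2 : ε / 4 * (c₁ * X) ≤ ε / 4 * (2 * L * T) :=
      mul_le_mul_of_nonneg_left hTlow (by positivity)
    have h3 : C * T ≤ ε / 2 * L * T := by
      have : C ≤ ε / 2 * L := by
        rw [div_le_iff₀ hε] at a4
        linarith
      exact mul_le_mul_of_nonneg_right this hT0
    linarith
  exact le_of_mul_le_mul_left (hmain.trans hfin) hL0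

end RotDens

theorem rotDens_of (hW : WeylS) (hE : EquiS) : RotDensS := by
  intro q a hq ha m c hm hqm hc s t hs hst ε hε
  have ht : 0 < t := hs.trans hst
  classical
  set ω : ℕ → ℕ → ℝ := fun X n => if n.Prime ∧ n % m = c % m ∧ s * X < n then 1 else 0 with hω
  have hsum : ∀ (X : ℕ) (z : ℕ → ℂ), ∑ n ∈ range (⌊t * X⌋₊ + 1), (ω X n : ℂ) * z n =
      ∑ n ∈ RotDens.PX m c s t X, z n := by
    intro X z
    unfold RotDens.PX
    rw [sum_filter]
    refine sum_congr rfl fun n _ => ?_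
    simp only [hω]
    split_ifs <;> simp
  have hsumr : ∀ (X : ℕ), ∑ n ∈ range (⌊t * X⌋₊ + 1), ω X n =
      ((RotDens.PX m c s t X).card : ℝ) := by
    intro X
    unfold RotDens.PX
    simp only [hω]
    rw [Finset.sum_boole]
  have hsumf : ∀ (X : ℕ), ∑ n ∈ (range (⌊t * X⌋₊ + 1)).filter
      (fun n : ℕ => Int.fract (Real.sqrt 2 * n) < a (c % q)), ω X n =
      (((RotDens.PX m c s t X).filter
        (fun n : ℕ => Int.fract (Real.sqrt 2 * n) < a (c % q))).card : ℝ) := by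
    intro X
    unfold RotDens.PX
    simp only [hω]
    rw [Finset.sum_boole, filter_filter, filter_filter]
    congr 2
    ext n
    simp only [mem_filter]
    tauto
  obtain ⟨X₀, hX₀⟩ := hE (fun n : ℕ => Real.sqrt 2 * n) ω (fun X => ⌊t * X⌋₊ + 1)
    (fun X n => by simp only [hω]; split_ifs <;> norm_num)
    (fun k hk δ hδ => by
      obtain ⟨X₀, hX₀⟩ := RotDens.weyl_hyp hW hm hc hs hst k hk δ hδ
      refine ⟨X₀, fun X hX => ?_⟩
      rw [hsum X (fun n => e (k * (Real.sqrt 2 * n))), hsumr]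
      exact hX₀ X hX)
    (a (c % q)) (ha _).1 (ha _).2 ε hε
  refine ⟨X₀, fun X hX => ?_⟩
  have h := hX₀ X hX
  rw [hsumr, hsumf] at h
  rw [RotDens.cnt_univ ht.le, RotDens.cnt_rot a hqm ht.le]
  have := (abs_le.1 h).1
  linarith

end Pool.Agent.Lib.KM
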