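import Pool.Agent.Lib.MP_7b7e48_nt.KM.Stmts
import Pool.Agent.Lib.MP_7b7e48_nt.GT.ClassUniform
import Pool.Agent.Lib.MP_7b7e48_nt.GT.UniformArith
import Pool.Agent.Lib.MP_7b7e48_nt.GT.FL1

/-!
# KM project, module C1: the rough numbers in a class mod `W`
-/

open Finset

namespace Pool.Agent.Lib.KM

namespace RoughCls

open Pool.Agent.Lib.GT

/-- the primes in `(w, w₃]` -/
def S (w w₃ : ℕ) : Finset ℕ := pr w₃ \ pr w

theorem mem_S {w w₃ p : ℕ} : p ∈ S w w₃ ↔ p.Prime ∧ w < p ∧ p ≤ w₃ := by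
  unfold S
  rw [mem_sdiff, mem_prU, mem_prU]
  constructor
  · rintro ⟨⟨h1, h2⟩, h3⟩
    refine ⟨h2, ?_, h1⟩
    by_contra h
    exact h3 ⟨by omega, h2⟩
  · rintro ⟨h1, h2, h3⟩
    exact ⟨⟨h3, h1⟩, fun h => by omega⟩

/-- allowed residues -/
def Sc (W b r : ℕ) : Finset ℕ := (range r).filter (fun c => ¬ r ∣ W * c + b)

/-- the forbidden residue -/
def Bc (W b r : ℕ) : Finset ℕ := (range r).filter (fun c => r ∣ W * c + b)

theorem card_Bc {W b r : ℕ} (hr : r.Prime) (hW : ¬ r ∣ W) : (Bc W b r).card = 1 := by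
  haveI : Fact r.Prime := ⟨hr⟩
  have hW' : (W : ZMod r) ≠ 0 := by
    intro h
    exact hW ((ZMod.natCast_eq_zero_iff W r).mp h)
  rw [Finset.card_eq_one]
  refine ⟨((-(b : ZMod r)) * (W : ZMod r)⁻¹).val, ?_⟩
  ext c
  rw [Bc, mem_filter, mem_range, mem_singleton, ← ZMod.natCast_eq_zero_iff]
  push_cast
  constructor
  · rintro ⟨h1, h2⟩
    have h3 : (c : ZMod r) = (-(b : ZMod r)) * (W : ZMod r)⁻¹ := by
      field_simp
      linear_combination h2
    rw [← h3, ZMod.val_natCast, Nat.mod_eq_of_lt h1]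
  · rintro rfl
    refine ⟨ZMod.val_lt _, ?_⟩
    rw [ZMod.natCast_zmod_val]
    field_simp
    ring

theorem card_Sc {W b r : ℕ} (hr : r.Prime) (hW : ¬ r ∣ W) : (Sc W b r).card = r - 1 := by
  have h := Finset.card_filter_add_card_filter_not (s := range r) (fun c => r ∣ W * c + b)
  have h1 := card_Bc (b := b) hr hW
  unfold Bc at h1
  unfold Sc
  rw [h1, card_range] at h
  omega

theorem mod_mem_Sc {W b r n : ℕ} (hr : 0 < r) : n % r ∈ Sc W b r ↔ ¬ r ∣ W * n + b := by
  rw [Sc, mem_filter, mem_range]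
  have h1 : n % r < r := Nat.mod_lt _ hr
  have h2 : r ∣ W * (n % r) + b ↔ r ∣ W * n + b := by
    have : W * (n % r) + b ≡ W * n + b [MOD r] :=
      (Nat.ModEq.mul_left W (Nat.mod_modEq n r)).add_right b
    exact this.dvd_iff (dvd_refl r)
  rw [h2]
  exact ⟨fun h => h.2, fun h => ⟨h1, h⟩⟩

theorem mod_mem_Bc {W b r n : ℕ} (hr : 0 < r) : n % r ∈ Bc W b r ↔ r ∣ W * n + b := by
  rw [Bc, mem_filter, mem_range]
  have h1 : n % r < r := Nat.mod_lt _ hr
  have h2 : r ∣ W * (n % r) + b ↔ r ∣ W * n + b := by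
    have : W * (n % r) + b ≡ W * n + b [MOD r] :=
      (Nat.ModEq.mul_left W (Nat.mod_modEq n r)).add_right b
    exact this.dvd_iff (dvd_refl r)
  rw [h2]
  exact ⟨fun h => h.2, fun h => ⟨h1, h⟩⟩

theorem rough_iff_S {w w₃ W b m : ℕ} (hw : w ≤ w₃) (hW : IsW w W) (hb : b.Coprime W) :
    Rough w₃ (W * m + b) ↔ ∀ r ∈ S w w₃, ¬ r ∣ W * m + b := by
  rw [rough_iff]
  constructor
  · intro h r hr
    rw [mem_S] at hr
    exact h r (mem_prU.mpr ⟨hr.2.2, hr.1⟩)
  · intro h r hr
    rw [mem_prU] at hr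
    by_cases hrw : r ≤ w
    · intro hd
      have h1 : r ∣ W := (hW.2 r hr.2).mpr hrw
      have h2 : r ∣ b := (Nat.dvd_add_right (h1.mul_right m)).mp hd
      have h3 : r ∣ Nat.gcd b W := Nat.dvd_gcd h2 h1
      rw [hb] at h3
      exact hr.2.one_lt.ne' (Nat.dvd_one.mp h3)
    · exact h r (mem_S.mpr ⟨hr.2, by omega, hr.1⟩)

/-- the product of the primes in `(w, w₃]` -/
def PP (w w₃ : ℕ) : ℕ := ∏ r ∈ S w w₃, r

theorem PP_pos (w w₃ : ℕ) : 0 < PP w w₃ :=
  Finset.prod_pos fun _ hr => (mem_S.mp hr).1.pos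

theorem dvd_PP {w w₃ r : ℕ} (hr : r ∈ S w w₃) : r ∣ PP w w₃ := Finset.dvd_prod_of_mem _ hr

theorem V_split {w w₃ : ℕ} (hw : w ≤ w₃) :
    V w₃ = V w * ∏ r ∈ S w w₃, (1 - 1 / (r : ℝ)) := by
  unfold V S
  rw [mul_comm, Finset.prod_sdiff]
  intro p hp
  rw [mem_prU] at hp ⊢
  exact ⟨hp.1.trans hw, hp.2⟩

theorem not_dvd_of_mem_S {w w₃ W r : ℕ} (hW : IsW w W) (hr : r ∈ S w w₃) : ¬ r ∣ W := by
  rw [mem_S] at hr
  intro h
  have := (hW.2 r hr.1).mp h
  omega

/-- `V w / V w₃` times the number of good residues is the period -/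
theorem ratio_mul {w w₃ : ℕ} (hw : w ≤ w₃) (T : Finset ℕ) (hT : T ⊆ S w w₃) :
    V w * (V w₃)⁻¹ * ∏ r ∈ T, ((r - 1 : ℕ) : ℝ) =
      (∏ r ∈ T, (r : ℝ)) * ∏ r ∈ S w w₃ \ T, (1 - 1 / (r : ℝ))⁻¹ := by
  rw [V_split hw]
  have hV := V_pos w
  have h1 : ∀ r ∈ S w w₃, (1 - 1 / (r : ℝ)) ≠ 0 ∧ ((r - 1 : ℕ) : ℝ) = r * (1 - 1 / (r : ℝ)) := by
    intro r hr
    have hp := (mem_S.mp hr).1
    have h2 : (2 : ℝ) ≤ r := by exact_mod_cast hp.two_le
    have h0 : (r : ℝ) ≠ 0 := by positivity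
    constructor
    · have : 1 / (r : ℝ) ≤ 1 / 2 := one_div_le_one_div_of_le (by norm_num) h2
      linarith
    · rw [Nat.cast_sub hp.one_le]
      field_simp
      push_cast
      ring
  have h2 : ∏ r ∈ T, ((r - 1 : ℕ) : ℝ) = (∏ r ∈ T, (r : ℝ)) * ∏ r ∈ T, (1 - 1 / (r : ℝ)) := by
    rw [← Finset.prod_mul_distrib]
    exact Finset.prod_congr rfl fun r hr => (h1 r (hT hr)).2
  rw [h2, ← Finset.prod_sdiff hT, Finset.prod_inv_distrib]
  have h3 : ∏ r ∈ T, (1 - 1 / (r : ℝ)) ≠ 0 :=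
    Finset.prod_ne_zero_iff.mpr fun r hr => (h1 r (hT hr)).1
  have h4 : ∏ r ∈ S w w₃ \ T, (1 - 1 / (r : ℝ)) ≠ 0 :=
    Finset.prod_ne_zero_iff.mpr fun r hr => (h1 r (mem_sdiff.mp hr).1).1
  field_simp

/-- number of good residues -/
theorem card_good {w w₃ W b : ℕ} (hW : IsW w W) :
    ((range (PP w w₃)).filter (fun n => ∀ r ∈ S w w₃, ¬ r ∣ W * n + b)).card =
      ∏ r ∈ S w w₃, (r - 1) := by
  have h := card_crt (S w w₃) (fun r hr => (mem_S.mp hr).1) (Sc W b)
    (fun r _ x hx => mem_range.mp (mem_filter.mp hx).1)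
  rw [Finset.prod_congr rfl fun r hr => card_Sc (mem_S.mp hr).1 (not_dvd_of_mem_S hW hr)] at h
  rw [← h]
  unfold PP
  congr 1
  refine Finset.filter_congr fun n _ => ?_
  exact forall₂_congr fun r hr => (mod_mem_Sc (mem_S.mp hr).1.pos).symm

/-- number of residues which are bad at `p` and good at the other primes -/
theorem card_bad {w w₃ W b p : ℕ} (hW : IsW w W) (hp : p ∈ S w w₃) :
    ((range (PP w w₃)).filter (fun n => (∀ r ∈ (S w w₃).erase p, ¬ r ∣ W * n + b) ∧
      p ∣ W * n + b)).card = ∏ r ∈ (S w w₃).erase p, (r - 1) := by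
  classical
  have h := card_crt (S w w₃) (fun r hr => (mem_S.mp hr).1)
    (fun r => if r = p then Bc W b r else Sc W b r)
    (fun r _ x hx => by
      split_ifs at hx
      · exact mem_range.mp (mem_filter.mp hx).1
      · exact mem_range.mp (mem_filter.mp hx).1)
  have h2 : ∏ r ∈ S w w₃, (if r = p then Bc W b r else Sc W b r).card =
      ∏ r ∈ (S w w₃).erase p, (r - 1) := by
    rw [← Finset.mul_prod_erase _ _ hp, if_pos rfl,
      card_Bc (mem_S.mp hp).1 (not_dvd_of_mem_S hW hp), one_mul]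
    refine Finset.prod_congr rfl fun r hr => ?_
    rw [if_neg (Finset.ne_of_mem_erase hr)]
    have hr' := Finset.mem_of_mem_erase hr
    exact card_Sc (mem_S.mp hr').1 (not_dvd_of_mem_S hW hr')
  rw [h2] at h
  rw [← h]
  unfold PP
  congr 1
  refine Finset.filter_congr fun n _ => ?_
  constructor
  · rintro ⟨h3, h4⟩ r hr
    split_ifs with hrp
    · rw [mod_mem_Bc (mem_S.mp hr).1.pos, hrp]
      exact h4
    · rw [mod_mem_Sc (mem_S.mp hr).1.pos]
      exact h3 r (Finset.mem_erase.mpr ⟨hrp, hr⟩)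
  · intro h3
    constructor
    · intro r hr
      have := h3 r (Finset.mem_of_mem_erase hr)
      rw [if_neg (Finset.ne_of_mem_erase hr), mod_mem_Sc (mem_S.mp (Finset.mem_of_mem_erase hr)).1.pos]
        at this
      exact this
    · have := h3 p hp
      rw [if_pos rfl, mod_mem_Bc (mem_S.mp hp).1.pos] at this
      exact this

/-- the function -/
noncomputable def g (w w₃ W b m : ℕ) : ℝ := V w * Lw w₃ (W * m + b) - 1

theorem g_eq {w w₃ W b m : ℕ} (hw : w ≤ w₃) (hW : IsW w W) (hb : b.Coprime W) :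
    g w w₃ W b m = V w * (V w₃)⁻¹ * (if ∀ r ∈ S w w₃, ¬ r ∣ W * m + b then 1 else 0) - 1 := by
  unfold g Lw
  by_cases h : Rough w₃ (W * m + b)
  · rw [if_pos h, if_pos ((rough_iff_S hw hW hb).mp h)]
    ring
  · rw [if_neg h, if_neg (fun h' => h ((rough_iff_S hw hW hb).mpr h')), mul_zero, mul_zero]

theorem good_periodic {W b T r m : ℕ} (hT : r ∣ T) : r ∣ W * (m + T) + b ↔ r ∣ W * m + b := by
  rw [show W * (m + T) + b = (W * m + b) + W * T by ring]
  exact (Nat.dvd_add_left (hT.mul_left W))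

theorem g_periodic {w w₃ W b : ℕ} (hw : w ≤ w₃) (hW : IsW w W) (hb : b.Coprime W) (m : ℕ) :
    g w w₃ W b (m + PP w w₃) = g w w₃ W b m := by
  rw [g_eq hw hW hb, g_eq hw hW hb]
  have : (∀ r ∈ S w w₃, ¬ r ∣ W * (m + PP w w₃) + b) ↔ (∀ r ∈ S w w₃, ¬ r ∣ W * m + b) :=
    forall₂_congr fun r hr => not_congr (good_periodic (dvd_PP hr))
  simp only [this]

theorem ratio_nonneg (w w₃ : ℕ) : 0 ≤ V w * (V w₃)⁻¹ :=
  mul_nonneg (V_pos w).le (inv_nonneg.mpr (V_pos w₃).le)

theorem abs_g_le {w w₃ W b : ℕ} (hw : w ≤ w₃) (hW : IsW w W) (hb : b.Coprime W) (m : ℕ) :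
    |g w w₃ W b m| ≤ V w * (V w₃)⁻¹ + 1 := by
  rw [g_eq hw hW hb]
  have h0 := ratio_nonneg w w₃
  split_ifs
  · rw [mul_one, abs_le]
    constructor <;> linarith
  · rw [mul_zero, zero_sub, abs_neg, abs_one]
    linarith

/-- Fourier coefficients -/
theorem fourier_le {w w₃ W b : ℕ} (h2 : 2 ≤ w) (hw : w ≤ w₃) (hW : IsW w W) (hb : b.Coprime W)
    (k : ℤ) :
    ‖∑ c ∈ range (PP w w₃), (g w w₃ W b c : ℂ) * e ((k : ℝ) / PP w w₃ * c)‖ ≤
      (PP w w₃ : ℝ) / w := by
  classical
  set P := PP w w₃ with hP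
  have hP0 : 0 < P := PP_pos w w₃
  have hPR : (P : ℝ) ≠ 0 := by exact_mod_cast hP0.ne'
  have hw0 : (0 : ℝ) < w := by exact_mod_cast (by omega : 0 < w)
  have hPprod : (P : ℝ) = ∏ r ∈ S w w₃, (r : ℝ) := by
    rw [hP, PP]
    push_cast
    rfl
  -- expansion
  have hexp : ∑ c ∈ range P, (g w w₃ W b c : ℂ) * e ((k : ℝ) / P * c) =
      ((V w * (V w₃)⁻¹ : ℝ) : ℂ) *
        ∑ c ∈ (range P).filter (fun n => ∀ r ∈ S w w₃, ¬ r ∣ W * n + b), e ((k : ℝ) / P * c) -
      ∑ c ∈ range P, e ((k : ℝ) / P * c) := by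
    rw [Finset.sum_filter, Finset.mul_sum, ← Finset.sum_sub_distrib]
    refine Finset.sum_congr rfl fun c _ => ?_
    rw [g_eq hw hW hb]
    split_ifs
    · push_cast; ring
    · push_cast; ring
  rw [hexp]
  by_cases hk : (P : ℤ) ∣ k
  · -- trivial character
    obtain ⟨d, hd⟩ := hk
    have h1 : ∀ c : ℕ, e ((k : ℝ) / P * c) = 1 := by
      intro c
      have : (k : ℝ) / P * c = ((d * c : ℤ) : ℝ) := by
        rw [hd]
        push_cast
        field_simp
      rw [this, e_int]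
    have h3 : ((V w * (V w₃)⁻¹ : ℝ) : ℂ) *
        ∑ c ∈ (range P).filter (fun n => ∀ r ∈ S w w₃, ¬ r ∣ W * n + b), e ((k : ℝ) / P * c) -
        ∑ c ∈ range P, e ((k : ℝ) / P * c) = 0 := by
      rw [Finset.sum_congr rfl fun c _ => h1 c, Finset.sum_congr rfl fun c _ => h1 c]
      rw [Finset.sum_const, Finset.sum_const, card_range, card_good hW]
      have h4 := ratio_mul hw (S w w₃) (subset_refl _)
      rw [sdiff_self, ← hPprod] at h4
      simp only [Finset.bot_eq_empty, Finset.prod_empty, mul_one] at h4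
      rw [nsmul_eq_mul, nsmul_eq_mul, mul_one, mul_one, sub_eq_zero]
      have h5 : (((V w * (V w₃)⁻¹ : ℝ) * ∏ r ∈ S w w₃, ((r - 1 : ℕ) : ℝ) : ℝ) : ℂ) =
        ((P : ℝ) : ℂ) := by rw [h4]
      push_cast at h5 ⊢
      exact h5
    rw [h3, norm_zero]
    positivity
  · -- nontrivial
    have hz : ∑ c ∈ range P, e ((k : ℝ) / P * c) = 0 := by
      have h1 := sum_e_mod hP0 k
      rw [if_neg hk] at h1
      rw [← h1]
      refine Finset.sum_congr rfl fun c _ => ?_
      congr 1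
      ring
    rw [hz, sub_zero, norm_mul, Complex.norm_real, Real.norm_eq_abs,
      abs_of_nonneg (ratio_nonneg w w₃)]
    obtain ⟨p, hpS, hpk⟩ : ∃ p ∈ S w w₃, ¬ (p : ℤ) ∣ k := by
      by_contra hcon
      push Not at hcon
      apply hk
      rw [hP, PP]
      push_cast
      refine Finset.prod_dvd_of_coprime ?_ hcon
      intro r hr s hs hrs
      rw [Function.onFun, Nat.isCoprime_iff_coprime]
      exact (Nat.coprime_primes (mem_S.mp hr).1 (mem_S.mp hs).1).mpr hrs
    have hpp := (mem_S.mp hpS).1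
    have hpw := (mem_S.mp hpS).2.1
    have hpR : (p : ℝ) ≠ 0 := by exact_mod_cast hpp.ne_zero
    set P' := ∏ r ∈ (S w w₃).erase p, r with hP'
    have hPP' : P = p * P' := by
      rw [hP, PP, hP']
      exact (Finset.mul_prod_erase (S w w₃) (fun r => r) hpS).symm
    have hP'R : (P' : ℝ) ≠ 0 := by
      intro h
      apply hPR
      rw [hPP']
      push_cast
      rw [h, mul_zero]
    -- the sum over the residues good at the primes other than p vanishes
    set G : ℕ → ℂ := fun c => (if ∀ r ∈ (S w w₃).erase p, ¬ r ∣ W * c + b then 1 else 0) *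
      e ((k : ℝ) / P * c) with hG
    have hGper : ∀ n, G (n + P) = G n := by
      intro n
      have h1 : (∀ r ∈ (S w w₃).erase p, ¬ r ∣ W * (n + P) + b) ↔
          (∀ r ∈ (S w w₃).erase p, ¬ r ∣ W * n + b) :=
        forall₂_congr fun r hr => not_congr
          (good_periodic (dvd_PP (Finset.mem_of_mem_erase hr)))
      have h3 : e ((k : ℝ) / P * ((n + P : ℕ) : ℝ)) = e ((k : ℝ) / P * n) := by
        have : (k : ℝ) / P * ((n + P : ℕ) : ℝ) = (k : ℝ) / P * n + (k : ℤ) := by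
          push_cast
          field_simp
        rw [this, e_add_int]
      simp only [hG, h1, h3]
    have hω : e ((k : ℝ) / p) ≠ 1 := by
      intro h
      obtain ⟨n, hn⟩ := e_eq_one_iff.mp h
      apply hpk
      refine ⟨n, ?_⟩
      rw [div_eq_iff hpR] at hn
      have : (k : ℝ) = ((p * n : ℤ) : ℝ) := by
        push_cast
        linarith
      exact_mod_cast this
    have hshift : ∀ n, G (n + P') = e ((k : ℝ) / p) * G n := by
      intro n
      have h1 : (∀ r ∈ (S w w₃).erase p, ¬ r ∣ W * (n + P') + b) ↔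
          (∀ r ∈ (S w w₃).erase p, ¬ r ∣ W * n + b) :=
        forall₂_congr fun r hr => not_congr (good_periodic (Finset.dvd_prod_of_mem _ hr))
      have h3 : e ((k : ℝ) / P * ((n + P' : ℕ) : ℝ)) = e ((k : ℝ) / p) * e ((k : ℝ) / P * n) := by
        rw [← e_add]
        congr 1
        rw [hPP']
        push_cast
        field_simp
        ring
      simp only [hG, h1, h3]
      ring
    have hGsum := sum_eq_zero_of_shift hGper hω hshift
    -- split
    have hsplit : ∑ c ∈ (range P).filter (fun n => ∀ r ∈ S w w₃, ¬ r ∣ W * n + b),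
        e ((k : ℝ) / P * c) = - ∑ c ∈ (range P).filter (fun n =>
          (∀ r ∈ (S w w₃).erase p, ¬ r ∣ W * n + b) ∧ p ∣ W * n + b), e ((k : ℝ) / P * c) := by
      rw [eq_neg_iff_add_eq_zero, ← hGsum, Finset.sum_filter, Finset.sum_filter,
        ← Finset.sum_add_distrib]
      refine Finset.sum_congr rfl fun c _ => ?_
      simp only [hG]
      have h1 : (∀ r ∈ S w w₃, ¬ r ∣ W * c + b) ↔
          ((∀ r ∈ (S w w₃).erase p, ¬ r ∣ W * c + b) ∧ ¬ p ∣ W * c + b) := by
        constructor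
        · intro h
          exact ⟨fun r hr => h r (Finset.mem_of_mem_erase hr), h p hpS⟩
        · rintro ⟨h3, h4⟩ r hr
          by_cases hrp : r = p
          · rw [hrp]; exact h4
          · exact h3 r (Finset.mem_erase.mpr ⟨hrp, hr⟩)
      by_cases ha : (∀ r ∈ (S w w₃).erase p, ¬ r ∣ W * c + b)
      · by_cases hb' : p ∣ W * c + b
        · rw [if_neg (fun h => (h1.mp h).2 hb'), if_pos ⟨ha, hb'⟩, if_pos ha]
          ring
        · rw [if_pos (h1.mpr ⟨ha, hb'⟩), if_neg (fun h => hb' h.2), if_pos ha]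
          ring
      · rw [if_neg (fun h => ha (h1.mp h).1), if_neg (fun h => ha h.1), if_neg ha]
        ring
    rw [hsplit, norm_neg]
    have hbd : ‖∑ c ∈ (range P).filter (fun n =>
          (∀ r ∈ (S w w₃).erase p, ¬ r ∣ W * n + b) ∧ p ∣ W * n + b), e ((k : ℝ) / P * c)‖ ≤
        ∏ r ∈ (S w w₃).erase p, ((r - 1 : ℕ) : ℝ) := by
      refine (norm_sum_le _ _).trans ?_
      rw [Finset.sum_congr rfl fun c _ => norm_e _, Finset.sum_const, nsmul_eq_mul, mul_one,
        card_bad hW hpS]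
      push_cast
      exact le_rfl
    have h4 := ratio_mul hw ((S w w₃).erase p) (Finset.erase_subset _ _)
    have h5 : S w w₃ \ (S w w₃).erase p = {p} := by
      rw [Finset.sdiff_erase_self hpS]
    rw [h5, Finset.prod_singleton] at h4
    have hp2 : (2 : ℝ) ≤ p := by exact_mod_cast hpp.two_le
    have hpw' : (w : ℝ) ≤ p - 1 := by
      have : ((w + 1 : ℕ) : ℝ) ≤ p := by exact_mod_cast hpw
      push_cast at this
      linarith
    calc V w * (V w₃)⁻¹ * ‖_‖ ≤ V w * (V w₃)⁻¹ * ∏ r ∈ (S w w₃).erase p, ((r - 1 : ℕ) : ℝ) :=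
          mul_le_mul_of_nonneg_left hbd (ratio_nonneg w w₃)
      _ = (P' : ℝ) * (1 - 1 / (p : ℝ))⁻¹ := by
          rw [h4, hP']
          push_cast
          rfl
      _ = (P : ℝ) / (p - 1) := by
          rw [hPP']
          push_cast
          have : (p : ℝ) - 1 ≠ 0 := by linarith
          field_simp
      _ ≤ (P : ℝ) / w := by
          apply div_le_div_of_nonneg_left (by positivity) hw0 hpw'

/-- exponential sum of a periodic function with small Fourier coefficients -/
theorem norm_sum_le_of_fourier {T : ℕ} (hT : 0 < T) {G : ℕ → ℂ} (hG : ∀ n, G (n + T) = G n)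
    {B F κ : ℝ} (hB : ∀ n, ‖G n‖ ≤ B) (hκ : 0 < κ)
    (hF : ∀ k : ℤ, ‖∑ c ∈ range T, G c * e ((k : ℝ) / T * c)‖ ≤ F) (M : ℕ) (θ : ℝ) :
    ‖∑ n ∈ range M, G n * e (θ * n)‖ ≤
      M * ((F + T * B * (2 * Real.pi * κ)) / T) + T * B * (1 / (2 * κ) + 1) := by
  have hB0 : 0 ≤ B := (norm_nonneg _).trans (hB 0)
  have hF0 : 0 ≤ F := (norm_nonneg _).trans (hF 0)
  have hTR : (0 : ℝ) < T := by exact_mod_cast hT
  have hsum : ∑ c ∈ range T, ‖G c‖ ≤ T * B := by
    calc ∑ c ∈ range T, ‖G c‖ ≤ ∑ _c ∈ range T, B := Finset.sum_le_sum fun c _ => hB c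
      _ = T * B := by rw [Finset.sum_const, card_range, nsmul_eq_mul]
  set k : ℤ := round (θ * T) with hk
  set δ : ℝ := θ * T - k with hδ
  by_cases hcase : |δ| ≤ κ
  · -- near a rational
    have hfac : ∀ j c : ℕ, G (T * j + c) * e (θ * ((T * j + c : ℕ) : ℝ)) =
        e (θ * T) ^ j * (G c * e (θ * c)) := by
      intro j c
      rw [periodic_mul hG, ← e_mul_nat]
      rw [show θ * ((T * j + c : ℕ) : ℝ) = θ * T * j + θ * c by push_cast; ring, e_add]
      ring
    have hblock : ‖∑ c ∈ range T, G c * e (θ * c)‖ ≤ F + T * B * (2 * Real.pi * κ) := by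
      have h1 : ∑ c ∈ range T, G c * e (θ * c) = ∑ c ∈ range T, G c * e ((k : ℝ) / T * c) +
          ∑ c ∈ range T, G c * (e (θ * c) - e ((k : ℝ) / T * c)) := by
        rw [← Finset.sum_add_distrib]
        refine Finset.sum_congr rfl fun c _ => ?_
        ring
      rw [h1]
      refine (norm_add_le _ _).trans (add_le_add (hF k) ?_)
      refine (norm_sum_le _ _).trans ?_
      calc ∑ c ∈ range T, ‖G c * (e (θ * c) - e ((k : ℝ) / T * c))‖
          ≤ ∑ _c ∈ range T, B * (2 * Real.pi * κ) := by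
            refine Finset.sum_le_sum fun c hc => ?_
            rw [norm_mul]
            have hc' : (c : ℝ) ≤ T := by exact_mod_cast (mem_range.mp hc).le
            refine mul_le_mul (hB c) ?_ (norm_nonneg _) hB0
            have h3 : e (θ * c) - e ((k : ℝ) / T * c) =
                e ((k : ℝ) / T * c) * (e (δ / T * c) - 1) := by
              rw [mul_sub, mul_one, ← e_add]
              congr 2
              rw [hδ]
              field_simp
              ring
            rw [h3, norm_mul, norm_e, one_mul]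
            refine (norm_e_sub_one_le _).trans ?_
            have h4 : |δ / T * c| ≤ κ := by
              rw [abs_mul, abs_div, abs_of_pos hTR, Nat.abs_cast]
              calc |δ| / T * c ≤ |δ| / T * T := by gcongr
                _ = |δ| := by field_simp
                _ ≤ κ := hcase
            have := Real.pi_pos
            gcongr
        _ = T * B * (2 * Real.pi * κ) := by
            rw [Finset.sum_const, card_range, nsmul_eq_mul]
            ring
    have hM : M = T * (M / T) + M % T := (Nat.div_add_mod M T).symm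
    set q := M / T with hq
    set r := M % T with hr
    have hrT : r < T := Nat.mod_lt _ hT
    have hqM : (q : ℝ) ≤ M / T := Nat.cast_div_le
    have h1 : ‖∑ j ∈ range q, ∑ c ∈ range T, G (T * j + c) * e (θ * ((T * j + c : ℕ) : ℝ))‖ ≤
        q * (F + T * B * (2 * Real.pi * κ)) := by
      refine (norm_sum_le _ _).trans ?_
      calc ∑ j ∈ range q, ‖∑ c ∈ range T, G (T * j + c) * e (θ * ((T * j + c : ℕ) : ℝ))‖
          ≤ ∑ _j ∈ range q, (F + T * B * (2 * Real.pi * κ)) := by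
            refine Finset.sum_le_sum fun j _ => ?_
            rw [Finset.sum_congr rfl fun c _ => hfac j c, ← Finset.mul_sum, norm_mul, norm_pow,
              norm_e, one_pow, one_mul]
            exact hblock
        _ = _ := by rw [Finset.sum_const, card_range, nsmul_eq_mul]
    have h2 : ‖∑ x ∈ range r, G (T * q + x) * e (θ * ((T * q + x : ℕ) : ℝ))‖ ≤ T * B := by
      refine (norm_sum_le _ _).trans ?_
      calc ∑ x ∈ range r, ‖G (T * q + x) * e (θ * ((T * q + x : ℕ) : ℝ))‖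
          ≤ ∑ _x ∈ range r, B := by
            refine Finset.sum_le_sum fun x _ => ?_
            rw [norm_mul, norm_e, mul_one]
            exact hB _
        _ = r * B := by rw [Finset.sum_const, card_range, nsmul_eq_mul]
        _ ≤ T * B := by
            have : (r : ℝ) ≤ T := by exact_mod_cast hrT.le
            gcongr
    have hE0 : 0 ≤ F + T * B * (2 * Real.pi * κ) := by
      have := Real.pi_pos
      positivity
    have hlast : T * B ≤ T * B * (1 / (2 * κ) + 1) := by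
      have : 0 ≤ 1 / (2 * κ) := by positivity
      nlinarith [mul_nonneg hTR.le hB0, mul_nonneg (mul_nonneg hTR.le hB0) this]
    have hsplit : ∑ n ∈ range M, G n * e (θ * n) =
        (∑ j ∈ range q, ∑ c ∈ range T, G (T * j + c) * e (θ * ((T * j + c : ℕ) : ℝ))) +
        ∑ x ∈ range r, G (T * q + x) * e (θ * ((T * q + x : ℕ) : ℝ)) := by
      conv_lhs => rw [hM]
      rw [Finset.sum_range_add, sum_range_mul_block]
    rw [hsplit]
    calc _ ≤ _ := norm_add_le _ _
      _ ≤ q * (F + T * B * (2 * Real.pi * κ)) + T * B := add_le_add h1 h2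
      _ ≤ (M / T) * (F + T * B * (2 * Real.pi * κ)) + T * B * (1 / (2 * κ) + 1) := by
          gcongr
      _ = _ := by ring
  · -- far from the rationals
    push Not at hcase
    have hfar : ∀ a : ℤ, κ ≤ |θ * T - a| := by
      intro a
      exact hcase.le.trans (round_le (θ * T) a)
    have h4 := four_mul_le_norm_e_sub_one hfar
    have hne : e (θ * T) ≠ 1 := by
      intro h
      rw [h, sub_self, norm_zero] at h4
      linarith
    refine (norm_sum_periodic_e hT hG hne M).trans ?_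
    have h5 : 2 / ‖e (θ * T) - 1‖ ≤ 1 / (2 * κ) := by
      calc 2 / ‖e (θ * T) - 1‖ ≤ 2 / (4 * κ) := by gcongr
        _ = 1 / (2 * κ) := by field_simp; norm_num
    have h6 : 0 ≤ 2 / ‖e (θ * T) - 1‖ := by positivity
    have hfirst : 0 ≤ M * ((F + T * B * (2 * Real.pi * κ)) / T) := by
      have := Real.pi_pos
      positivity
    calc (∑ c ∈ range T, ‖G c‖) * (2 / ‖e (θ * T) - 1‖ + 1)
        ≤ T * B * (1 / (2 * κ) + 1) := by
          refine mul_le_mul hsum (by linarith) (by linarith) (by positivity)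
      _ ≤ _ := by linarith

end RoughCls

open RoughCls Pool.Agent.Lib.GT in
/-- C1 -/
theorem roughCls_holds : RoughClsS := by
  intro w w₃ W h2 hw hW κ hκ
  set P := PP w w₃ with hP
  have hP0 : 0 < P := PP_pos w w₃
  have hPR : (0 : ℝ) < P := by exact_mod_cast hP0
  set B : ℝ := V w * (V w₃)⁻¹ + 1 with hB
  have hBpos : 0 < B := by
    have := ratio_nonneg w w₃
    rw [hB]
    linarith
  have hpi := Real.pi_pos
  set κ' : ℝ := κ / (4 * Real.pi * B) with hκ'
  have hκ'0 : 0 < κ' := by positivity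
  set C : ℝ := P * B * (1 / (2 * κ') + 1) with hC
  have hC0 : 0 ≤ C := by positivity
  obtain ⟨N₀, hN₀⟩ := exists_nat_ge (2 * C / κ)
  refine ⟨N₀, fun N hN b hbW hb M hM θ => ?_⟩
  have hw0 : (0 : ℝ) < w := by exact_mod_cast (by omega : 0 < w)
  have hmain := norm_sum_le_of_fourier (T := P) hP0 (G := fun m => ((g w w₃ W b m : ℝ) : ℂ))
    (fun n => by simp only [hP, g_periodic hw hW hb]) (B := B) (F := P / w) (κ := κ')
    (fun n => by
      rw [Complex.norm_real, Real.norm_eq_abs]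
      exact abs_g_le hw hW hb n) hκ'0
    (fun k => fourier_le h2 hw hW hb k) M θ
  have hMN : (M : ℝ) ≤ N := by exact_mod_cast hM
  have hNR : 2 * C / κ ≤ N := hN₀.trans (by exact_mod_cast hN)
  have hCN : C ≤ κ / 2 * N := by
    rw [div_le_iff₀ hκ] at hNR
    linarith
  have h3 : (P / w + P * B * (2 * Real.pi * κ')) / P = 1 / w + κ / 2 := by
    rw [hκ']
    field_simp
    ring
  rw [h3] at hmain
  have h4 : (0 : ℝ) ≤ 1 / w + κ / 2 := by positivity
  calc ‖∑ m ∈ range M, ((V w * Lw w₃ (W * m + b) - 1 : ℝ) : ℂ) * e (θ * m)‖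
      ≤ M * (1 / w + κ / 2) + C := hmain
    _ ≤ N * (1 / w + κ / 2) + κ / 2 * N := by gcongr
    _ = (1 / w + κ) * N := by ring
    _ ≤ (4 / w + κ) * N := by
        gcongr
        norm_num

end Pool.Agent.Lib.KM
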