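import Pool.Agent.Lib.MP_7b7e48_nt.KM.Stmts
import Pool.Agent.Lib.MP_7b7e48_nt.GT.ConvL2

/-!
# KM project, module SPEC: size of the large spectrum on a grid
-/

open Finset

namespace Pool.Agent.Lib.KM

open Pool.Agent.Lib.GT (e)

open Pool.Agent.Lib.GT.Transfer

namespace Spec

theorem sum_zmod {M : ℕ} [NeZero M] (g : ℕ → ℝ) :
    ∑ ξ : ZMod M, g ξ.val = ∑ j ∈ range M, g j := by
  apply Finset.sum_nbij (fun a : ZMod M => a.val)
  · intro a _
    exact Finset.mem_range.mpr (ZMod.val_lt a)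
  · intro a _ b _ h
    exact ZMod.val_injective M h
  · intro n hn
    simp only [Finset.coe_range, Set.mem_Iio] at hn
    exact ⟨(n : ZMod M), by simp, ZMod.val_cast_of_lt hn⟩
  · intro a _
    rfl

/-- Parseval on the grid. -/
theorem grid_parseval {N L : ℕ} (hN : 0 < N) (hL : 0 < L) (F : ℕ → ℝ) :
    ∑ j ∈ range (L * N), ‖∑ n ∈ range N, (F n : ℂ) * e ((j : ℝ) / (L * N) * n)‖ ^ 2 =
      (L * N : ℝ) * ∑ n ∈ range N, (F n) ^ 2 := by
  have hM : 0 < L * N := Nat.mul_pos hL hN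
  have : NeZero (L * N) := ⟨hM.ne'⟩
  set u : ℕ → ℝ := fun n => if n < N then F n else 0 with hu
  have hu0 : ∀ n, N - 1 < n → u n = 0 := fun n hn => if_neg (by omega)
  have hXM : N - 1 < L * N := lt_of_lt_of_le (by omega : N - 1 < N) (Nat.le_mul_of_pos_left N hL)
  have h1 : ∀ ξ : ZMod (L * N), ft (lift u) ξ =
      ∑ n ∈ range N, (F n : ℂ) * e ((ξ.val : ℝ) / (L * N) * n) := by
    intro ξ
    rw [ft_lift' hXM hu0 ξ, Nat.sub_add_cancel hN]
    refine sum_congr rfl fun n hn => ?_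
    rw [hu]
    simp only [if_pos (mem_range.1 hn)]
    push_cast
    rfl
  have h2 := parseval (lift (N := L * N) u)
  have h3 : ∑ ξ : ZMod (L * N), ‖ft (lift u) ξ‖ ^ 2 =
      ∑ j ∈ range (L * N), ‖∑ n ∈ range N, (F n : ℂ) * e ((j : ℝ) / (L * N) * n)‖ ^ 2 := by
    rw [← sum_zmod (M := L * N) (fun j => ‖∑ n ∈ range N, (F n : ℂ) *
      e ((j : ℝ) / (L * N) * n)‖ ^ 2)]
    exact sum_congr rfl fun ξ _ => by rw [h1]
  have h4 : ∑ x : ZMod (L * N), (lift u x) ^ 2 = ∑ n ∈ range N, (F n) ^ 2 := by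
    have h5 : ∑ x : ZMod (L * N), (lift u x) ^ 2 = ∑ n ∈ range (L * N), (u n) ^ 2 :=
      sum_zmod (M := L * N) (fun n => (u n) ^ 2)
    rw [h5]
    symm
    refine sum_subset_zero_on_sdiff (fun n hn => mem_range.2 (lt_of_lt_of_le (mem_range.1 hn)
      (Nat.le_mul_of_pos_left N hL))) (fun n hn => ?_) (fun n hn => ?_)
    · have : ¬ n < N := fun h => (mem_sdiff.1 hn).2 (mem_range.2 h)
      rw [hu]
      simp only [if_neg this]
      norm_num
    · rw [hu]
      simp only [if_pos (mem_range.1 hn)]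
  rw [← h3, h2, h4]
  push_cast
  rfl

end Spec

open Spec in
theorem spec_holds : SpecS := by
  intro N L hN hL F hF t ht
  have hN' : (0 : ℝ) < N := by exact_mod_cast hN
  have hL' : (0 : ℝ) < L := by exact_mod_cast hL
  set S := (range (L * N)).filter (fun j : ℕ =>
    t * N ≤ ‖∑ n ∈ range N, (F n : ℂ) * e ((j : ℝ) / (L * N) * n)‖) with hS
  have h1 : (S.card : ℝ) * (t * N) ^ 2 ≤ (L * N : ℝ) * N := by
    calc (S.card : ℝ) * (t * N) ^ 2 = ∑ _j ∈ S, (t * N) ^ 2 := by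
          rw [sum_const, nsmul_eq_mul]
      _ ≤ ∑ j ∈ S, ‖∑ n ∈ range N, (F n : ℂ) * e ((j : ℝ) / (L * N) * n)‖ ^ 2 :=
          sum_le_sum fun j hj => pow_le_pow_left₀ (by positivity) (mem_filter.1 hj).2 2
      _ ≤ ∑ j ∈ range (L * N), ‖∑ n ∈ range N, (F n : ℂ) * e ((j : ℝ) / (L * N) * n)‖ ^ 2 :=
          sum_le_sum_of_subset_of_nonneg (filter_subset _ _) fun _ _ _ => by positivity
      _ = (L * N : ℝ) * ∑ n ∈ range N, (F n) ^ 2 := grid_parseval hN hL F
      _ ≤ (L * N : ℝ) * N := by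
          refine mul_le_mul_of_nonneg_left ?_ (by positivity)
          calc ∑ n ∈ range N, (F n) ^ 2 ≤ ∑ _n ∈ range N, (1 : ℝ) :=
                sum_le_sum fun n _ => by
                  rw [← sq_abs]
                  exact pow_le_one₀ (abs_nonneg _) (hF n)
            _ = N := by rw [sum_const, card_range, nsmul_eq_mul, mul_one]
  rw [le_div_iff₀ (by positivity)]
  have h2 : ((S.card : ℝ) * t ^ 2) * (N * N) ≤ L * (N * N) := by
    calc ((S.card : ℝ) * t ^ 2) * (N * N) = (S.card : ℝ) * (t * N) ^ 2 := by ring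
      _ ≤ (L * N : ℝ) * N := h1
      _ = L * (N * N) := by ring
  exact le_of_mul_le_mul_right h2 (by positivity)

end Pool.Agent.Lib.KM
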