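import Pool.Agent.Lib.MP_7b7e48_nt.KM.Stmts
import Pool.Agent.Lib.MP_7b7e48_nt.GT.ClassUniform

/-!
# D0: the large spectrum of a function with a pseudorandom majorant
-/

open Finset

namespace Pool.Agent.Lib.KM

open Pool.Agent.Lib.GT (e lam Lw V pr Tw Rough)

namespace SpecPR

theorem conj_e (x : ℝ) : (starRingEnd ℂ) (e x) = e (-x) := by
  unfold e
  rw [← Complex.exp_conj]
  congr 1
  simp only [map_mul, Complex.conj_I, Complex.conj_ofReal, map_ofNat]
  push_cast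
  ring

/-- the square of the norm of a trigonometric polynomial -/
theorem norm_sq_eq (J : Finset ℕ) (c : ℕ → ℂ) (θ : ℕ → ℝ) (n : ℕ) :
    ((‖∑ j ∈ J, c j * e (θ j * n)‖ ^ 2 : ℝ) : ℂ) =
      ∑ i ∈ J, ∑ j ∈ J, c i * (starRingEnd ℂ) (c j) * e ((θ i - θ j) * n) := by
  rw [← Complex.normSq_eq_norm_sq, ← Complex.mul_conj, map_sum, Finset.sum_mul_sum]
  refine Finset.sum_congr rfl fun i _ => Finset.sum_congr rfl fun j _ => ?_
  rw [map_mul, conj_e, show (θ i - θ j) * (n : ℝ) = θ i * n + -(θ j * n) by ring,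
    Pool.Agent.Lib.GT.e_add]
  ring

theorem weighted (J : Finset ℕ) (c : ℕ → ℂ) (hc : ∀ j, ‖c j‖ ≤ 1) (θ : ℕ → ℝ) (N : ℕ)
    (ω : ℕ → ℝ) (B : ℝ) (hω : ∀ α : ℝ, ‖∑ n ∈ range N, (ω n : ℂ) * e (α * n)‖ ≤ B) :
    |∑ n ∈ range N, ω n * ‖∑ j ∈ J, c j * e (θ j * n)‖ ^ 2| ≤ (J.card : ℝ) ^ 2 * B := by
  have h1 : ((∑ n ∈ range N, ω n * ‖∑ j ∈ J, c j * e (θ j * n)‖ ^ 2 : ℝ) : ℂ) =
      ∑ i ∈ J, ∑ j ∈ J, c i * (starRingEnd ℂ) (c j) *
        ∑ n ∈ range N, (ω n : ℂ) * e ((θ i - θ j) * n) := by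
    rw [Complex.ofReal_sum]
    have h2 : ∀ n, ((ω n * ‖∑ j ∈ J, c j * e (θ j * n)‖ ^ 2 : ℝ) : ℂ) =
        ∑ i ∈ J, ∑ j ∈ J, c i * (starRingEnd ℂ) (c j) * ((ω n : ℂ) * e ((θ i - θ j) * n)) := by
      intro n
      rw [Complex.ofReal_mul, norm_sq_eq, Finset.mul_sum]
      refine Finset.sum_congr rfl fun i _ => ?_
      rw [Finset.mul_sum]
      refine Finset.sum_congr rfl fun j _ => ?_
      ring
    rw [Finset.sum_congr rfl fun n _ => h2 n, Finset.sum_comm]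
    refine Finset.sum_congr rfl fun i _ => ?_
    rw [Finset.sum_comm]
    refine Finset.sum_congr rfl fun j _ => ?_
    rw [Finset.mul_sum]
  have hB : 0 ≤ B := (norm_nonneg _).trans (hω 0)
  rw [← Real.norm_eq_abs, ← Complex.norm_real, h1]
  calc ‖∑ i ∈ J, ∑ j ∈ J, c i * (starRingEnd ℂ) (c j) *
        ∑ n ∈ range N, (ω n : ℂ) * e ((θ i - θ j) * n)‖
      ≤ ∑ i ∈ J, ∑ j ∈ J, B := by
        refine norm_sum_le_of_le _ fun i _ => norm_sum_le_of_le _ fun j _ => ?_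
        rw [norm_mul, norm_mul, RCLike.norm_conj]
        calc ‖c i‖ * ‖c j‖ * ‖∑ n ∈ range N, (ω n : ℂ) * e ((θ i - θ j) * n)‖
            ≤ 1 * 1 * B := by
              refine mul_le_mul (mul_le_mul (hc i) (hc j) (norm_nonneg _) zero_le_one) (hω _)
                (norm_nonneg _) (by norm_num)
          _ = B := by ring
    _ = (J.card : ℝ) ^ 2 * B := by
        rw [Finset.sum_const, Finset.sum_const, nsmul_eq_mul, nsmul_eq_mul]
        ring

/-- orthogonality on the full grid -/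
theorem ortho {M : ℕ} (hM : 0 < M) (J : Finset ℕ) (hJ : J ⊆ range M) (c : ℕ → ℂ)
    (hc : ∀ j, ‖c j‖ ≤ 1) :
    ∑ n ∈ range M, ‖∑ j ∈ J, c j * e ((j : ℝ) / M * n)‖ ^ 2 ≤ M * J.card := by
  have h1 : ((∑ n ∈ range M, ‖∑ j ∈ J, c j * e ((j : ℝ) / M * n)‖ ^ 2 : ℝ) : ℂ) =
      ((∑ i ∈ J, M * ‖c i‖ ^ 2 : ℝ) : ℂ) := by
    rw [Complex.ofReal_sum]
    have h2 : ∀ n : ℕ, ((‖∑ j ∈ J, c j * e ((j : ℝ) / M * n)‖ ^ 2 : ℝ) : ℂ) =
        ∑ i ∈ J, ∑ j ∈ J, c i * (starRingEnd ℂ) (c j) *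
          e (((n : ℕ) : ℝ) * (((i : ℤ) - (j : ℤ) : ℤ) : ℝ) / M) := by
      intro n
      rw [norm_sq_eq J c (fun j => (j : ℝ) / M) n]
      refine Finset.sum_congr rfl fun i _ => Finset.sum_congr rfl fun j _ => ?_
      congr 2
      push_cast
      ring
    rw [Finset.sum_congr rfl fun n _ => h2 n, Finset.sum_comm, Complex.ofReal_sum]
    refine Finset.sum_congr rfl fun i hi => ?_
    rw [Finset.sum_comm, Finset.sum_eq_single i]
    · rw [← Finset.mul_sum, Pool.Agent.Lib.GT.sum_e_mod hM, if_pos (by simp)]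
      rw [Complex.mul_conj, Complex.normSq_eq_norm_sq]
      push_cast
      ring
    · intro j hj hji
      rw [← Finset.mul_sum, Pool.Agent.Lib.GT.sum_e_mod hM, if_neg, mul_zero]
      intro hd
      apply hji
      have hiM := Finset.mem_range.1 (hJ hi)
      have hjM := Finset.mem_range.1 (hJ hj)
      have h3 : ((i : ℤ) - j) = 0 := by
        apply Int.eq_zero_of_abs_lt_dvd hd
        rw [abs_lt]
        constructor <;> omega
      omega
    · intro h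
      exact absurd hi h
  have h2 := Complex.ofReal_injective h1
  rw [h2]
  calc ∑ i ∈ J, (M : ℝ) * ‖c i‖ ^ 2 ≤ ∑ i ∈ J, (M : ℝ) := by
        refine Finset.sum_le_sum fun i _ => ?_
        have h3 : ‖c i‖ ^ 2 ≤ 1 := pow_le_one₀ (norm_nonneg _) (hc i)
        have h4 : (0 : ℝ) ≤ M := Nat.cast_nonneg _
        nlinarith
    _ = M * J.card := by
        rw [Finset.sum_const, nsmul_eq_mul, mul_comm]

end SpecPR

open SpecPR in
/-- D0 -/
theorem specPR_holds : SpecPRS := by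
  intro N L hN hL f ν hf t τ ht ht1 hτ hτt hps
  set J := (range (L * N)).filter (fun j : ℕ =>
    t * N ≤ ‖∑ n ∈ range N, (f n : ℂ) * e ((j : ℝ) / (L * N) * n)‖) with hJ
  have hNR : (0 : ℝ) < N := by exact_mod_cast hN
  have hLR : (0 : ℝ) < L := by exact_mod_cast hL
  let S : ℕ → ℂ := fun j => ∑ n ∈ range N, (f n : ℂ) * e ((j : ℝ) / (L * N) * n)
  let c : ℕ → ℂ := fun j => (starRingEnd ℂ) (S j) / ‖S j‖
  have hc : ∀ j, ‖c j‖ ≤ 1 := by
    intro j
    show ‖(starRingEnd ℂ) (S j) / ‖S j‖‖ ≤ 1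
    rw [norm_div, RCLike.norm_conj, Complex.norm_real, norm_norm]
    exact div_self_le_one _
  have hcS : ∀ j, c j * S j = (‖S j‖ : ℂ) := by
    intro j
    show (starRingEnd ℂ) (S j) / ‖S j‖ * S j = _
    by_cases h : S j = 0
    · simp [h]
    · have h0 : (‖S j‖ : ℂ) ≠ 0 := by
        rw [Ne, Complex.ofReal_eq_zero, norm_eq_zero]; exact h
      rw [div_mul_eq_mul_div, div_eq_iff h0, mul_comm, Complex.mul_conj,
        Complex.normSq_eq_norm_sq]
      push_cast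
      ring
  let D : ℕ → ℂ := fun n => ∑ j ∈ J, c j * e ((j : ℝ) / (L * N) * n)
  have hf0 : ∀ n, 0 ≤ f n := fun n => (hf n).1
  -- first moment
  have h1 : t * N * J.card ≤ ∑ n ∈ range N, f n * ‖D n‖ := by
    have h2 : (((∑ j ∈ J, ‖S j‖ : ℝ)) : ℂ) = ∑ n ∈ range N, (f n : ℂ) * D n := by
      rw [Complex.ofReal_sum]
      have h3 : ∀ n, (f n : ℂ) * D n = ∑ j ∈ J, c j * ((f n : ℂ) * e ((j : ℝ) / (L * N) * n)) := by
        intro n
        show (f n : ℂ) * ∑ j ∈ J, c j * e ((j : ℝ) / (L * N) * n) = _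
        rw [Finset.mul_sum]
        refine Finset.sum_congr rfl fun j _ => ?_
        ring
      rw [Finset.sum_congr rfl fun n _ => h3 n, Finset.sum_comm]
      refine Finset.sum_congr rfl fun j _ => ?_
      rw [← Finset.mul_sum, ← hcS j]
    have h4 : ∑ j ∈ J, ‖S j‖ = ‖∑ n ∈ range N, (f n : ℂ) * D n‖ := by
      rw [← h2, Complex.norm_real, Real.norm_eq_abs,
        abs_of_nonneg (Finset.sum_nonneg fun j _ => norm_nonneg _)]
    calc t * N * J.card = ∑ j ∈ J, t * N := by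
          rw [Finset.sum_const, nsmul_eq_mul]; ring
      _ ≤ ∑ j ∈ J, ‖S j‖ := Finset.sum_le_sum fun j hj => (Finset.mem_filter.1 hj).2
      _ = ‖∑ n ∈ range N, (f n : ℂ) * D n‖ := h4
      _ ≤ ∑ n ∈ range N, f n * ‖D n‖ := by
          refine norm_sum_le_of_le _ fun n _ => ?_
          rw [norm_mul, Complex.norm_real, Real.norm_eq_abs, abs_of_nonneg (hf0 n)]
  -- mass of `ν`
  have hmass : ∑ n ∈ range N, ν n ≤ 2 * N := by
    have h2 := hps N le_rfl 0
    have h3 : ∑ n ∈ range N, ((ν n - 1 : ℝ) : ℂ) * e (0 * n) =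
        ((∑ n ∈ range N, (ν n - 1) : ℝ) : ℂ) := by
      rw [Complex.ofReal_sum]
      refine Finset.sum_congr rfl fun n _ => ?_
      rw [zero_mul, Pool.Agent.Lib.GT.e_zero, mul_one]
    rw [h3, Complex.norm_real, Real.norm_eq_abs, Finset.sum_sub_distrib] at h2
    have h4 := (abs_le.1 h2).2
    simp only [Finset.sum_const, Finset.card_range, nsmul_eq_mul, mul_one] at h4
    have h5 : t ^ 2 ≤ 1 := pow_le_one₀ ht.le ht1
    nlinarith
  -- second moment
  have hsec : ∑ n ∈ range N, ν n * ‖D n‖ ^ 2 ≤ L * N * J.card + (J.card : ℝ) ^ 2 * (τ * N) := by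
    have h2 : ∑ n ∈ range N, ν n * ‖D n‖ ^ 2 =
        ∑ n ∈ range N, ‖D n‖ ^ 2 + ∑ n ∈ range N, (ν n - 1) * ‖D n‖ ^ 2 := by
      rw [← Finset.sum_add_distrib]
      refine Finset.sum_congr rfl fun n _ => ?_
      ring
    have h3 : ∑ n ∈ range N, ‖D n‖ ^ 2 ≤ L * N * J.card := by
      have h4 := ortho (M := L * N) (Nat.mul_pos hL hN) J (Finset.filter_subset _ _) c hc
      calc ∑ n ∈ range N, ‖D n‖ ^ 2 ≤ ∑ n ∈ range (L * N), ‖D n‖ ^ 2 := by
            refine Finset.sum_le_sum_of_subset_of_nonneg ?_ fun _ _ _ => by positivity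
            intro n hn
            rw [Finset.mem_range] at hn ⊢
            exact lt_of_lt_of_le hn (Nat.le_mul_of_pos_left N hL)
        _ = ∑ n ∈ range (L * N), ‖∑ j ∈ J, c j * e ((j : ℝ) / ((L * N : ℕ) : ℝ) * n)‖ ^ 2 := by
            refine Finset.sum_congr rfl fun n _ => ?_
            push_cast
            rfl
        _ ≤ _ := by
            refine h4.trans (le_of_eq ?_)
            push_cast
            ring
    have h5 := weighted J c hc (fun j => (j : ℝ) / (L * N)) N (fun n => ν n - 1) (τ * N)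
      (fun α => hps N le_rfl α)
    have h6 := (abs_le.1 h5).2
    rw [h2]
    exact add_le_add h3 h6
  -- Cauchy-Schwarz
  have hCS : (∑ n ∈ range N, f n * ‖D n‖) ^ 2 ≤
      (∑ n ∈ range N, ν n) * ∑ n ∈ range N, ν n * ‖D n‖ ^ 2 := by
    have h2 := Finset.sum_mul_sq_le_sq_mul_sq (range N) (fun n => Real.sqrt (f n))
      (fun n => Real.sqrt (f n) * ‖D n‖)
    have h3 : ∀ n, Real.sqrt (f n) * (Real.sqrt (f n) * ‖D n‖) = f n * ‖D n‖ := by
      intro n
      rw [← mul_assoc, Real.mul_self_sqrt (hf0 n)]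
    have h4 : ∀ n, Real.sqrt (f n) ^ 2 = f n := fun n => Real.sq_sqrt (hf0 n)
    have h5 : ∀ n, (Real.sqrt (f n) * ‖D n‖) ^ 2 = f n * ‖D n‖ ^ 2 := by
      intro n
      rw [mul_pow, h4]
    simp only [h3, h4, h5] at h2
    refine h2.trans (mul_le_mul ?_ ?_ ?_ ?_)
    · exact Finset.sum_le_sum fun n _ => (hf n).2
    · exact Finset.sum_le_sum fun n _ => mul_le_mul_of_nonneg_right (hf n).2 (by positivity)
    · exact Finset.sum_nonneg fun n _ => mul_nonneg (hf0 n) (by positivity)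
    · exact Finset.sum_nonneg fun n _ => (hf0 n).trans (hf n).2
  -- conclusion
  set j : ℝ := (J.card : ℝ) with hj
  have hj0 : 0 ≤ j := Nat.cast_nonneg _
  have hDpos : 0 ≤ L * N * j + j ^ 2 * (τ * N) := by positivity
  have hfin : (t * N * j) ^ 2 ≤ 2 * N * (L * N * j + j ^ 2 * (τ * N)) := by
    have h2 : (t * N * j) ^ 2 ≤ (∑ n ∈ range N, f n * ‖D n‖) ^ 2 :=
      pow_le_pow_left₀ (by positivity) h1 2
    refine h2.trans (hCS.trans (mul_le_mul hmass hsec ?_ (by positivity)))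
    exact Finset.sum_nonneg fun n _ => mul_nonneg ((hf0 n).trans (hf n).2) (by positivity)
  have hfin2 : t ^ 2 * j ^ 2 ≤ 2 * L * j + 2 * j ^ 2 * τ := by
    have h2 : (N : ℝ) ^ 2 * (t ^ 2 * j ^ 2) ≤ (N : ℝ) ^ 2 * (2 * L * j + 2 * j ^ 2 * τ) := by
      nlinarith
    exact le_of_mul_le_mul_left h2 (by positivity)
  have hfin3 : t ^ 2 * j ^ 2 ≤ 4 * L * j := by nlinarith [mul_nonneg hj0 hj0]
  rcases hj0.eq_or_lt with h0 | h0
  · rw [← h0]; positivity
  · have h2 : t ^ 2 * j ≤ 4 * L := by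
      have h3 : j * (t ^ 2 * j) ≤ j * (4 * L) := by nlinarith
      exact le_of_mul_le_mul_left h3 h0
    rw [le_div_iff₀ (by positivity)]
    have h3 : t ^ 4 ≤ t ^ 2 := pow_le_pow_of_le_one ht.le ht1 (by norm_num)
    nlinarith

end Pool.Agent.Lib.KM
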