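import Pool.Agent.Lib.MP_7b7e48_nt.KM.Stmts
import Pool.Agent.Lib.MP_7b7e48_nt.GT.Transfer

/-!
# KM project, module T2: the transference theorem with independent levels
-/

open Finset

namespace Pool.Agent.Lib.KM.Transfer2

open Pool.Agent.Lib.GT (e lam Lw V pr Tw Rough V_pos lam_nonneg Lw_nonneg V_inv_le rough_count corr)
open Pool.Agent.Lib.GT.Transfer
open Pool.Agent.Lib.GT.Corr (one_le_Tw)

/-- The bound for the square root term. -/
lemma Q_bound2 {X w z b K : ℕ} {h : ℕ → ℝ} {C₁ M₁ M₂ : ℝ} (hX3 : 3 ≤ X) (hw : 2 ≤ w)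
    (hwz : w ≤ z) (hwX : w ≤ X) (hK : 1 ≤ K) (hC₁ : 1 ≤ C₁)
    (hcorr : ∀ d : ℕ, 1 ≤ d → d ≤ X →
      |∑ x ∈ Finset.Icc 1 (X - d), (Lw z x - Lw w x) * (Lw z (x + d) - Lw w (x + d))| ≤
      X * Tw 0 d * (K * (1 / 2) ^ b * Tw w d + (Tw w d - 1) + 2 / w) + (z : ℝ) ^ (K * b))
    (hpow : ((1 : ℝ) / 2) ^ b ≤ 1 / w) (hz1 : (z : ℝ) ^ (K * b) ≤ Real.sqrt X)
    (hah : ∀ D : ℕ, 1 ≤ D → D ≤ X → |acor X h D| ≤ C₁ * Tw 0 D * X)
    (hM₁ : ∀ n, n ≤ X → |h n| ≤ M₁) (hM₂ : ∀ n, n ≤ X → |Lw z n - Lw w n| ≤ M₂)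
    (hE1 : 8 * M₁ ^ 4 * M₂ ^ 2 * Real.sqrt w ≤ X) :
    Real.sqrt ((acor X h 0) ^ 2 * |acor X (fun n => if n ≤ X then Lw z n - Lw w n else 0) 0| +
      2 * ∑ D ∈ Icc 1 X, (acor X h D) ^ 2 *
        |acor X (fun n => if n ≤ X then Lw z n - Lw w n else 0) D|) ≤
      Real.sqrt (1 + 2 * C₁ ^ 2 * Real.exp 256 * (K + 7)) * X ^ 2 /
        Real.sqrt (Real.sqrt w) := by
  have hz : 2 ≤ z := hw.trans hwz
  have hXr : (3 : ℝ) ≤ X := by exact_mod_cast hX3
  have hX0 : (0 : ℝ) < X := by linarith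
  have hwr : (2 : ℝ) ≤ w := by exact_mod_cast hw
  have hKr : (1 : ℝ) ≤ K := by exact_mod_cast hK
  have hsX : Real.sqrt X * Real.sqrt X = X := Real.mul_self_sqrt hX0.le
  have hsX0 : 0 ≤ Real.sqrt X := Real.sqrt_nonneg _
  set r := Real.sqrt (Real.sqrt w) with hr
  have hsw1 : 1 ≤ Real.sqrt w := by rw [Real.one_le_sqrt]; linarith
  have hr1 : 1 ≤ r := by rw [hr, Real.one_le_sqrt]; exact hsw1
  have hr0 : 0 < r := by linarith
  have hr2 : r ^ 2 = Real.sqrt w := Real.sq_sqrt (Real.sqrt_nonneg _)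
  set ν : ℕ → ℝ := fun n => if n ≤ X then Lw z n - Lw w n else 0 with hν
  rw [Real.sqrt_le_iff]
  refine ⟨by positivity, ?_⟩
  have hC2 : 0 ≤ 1 + 2 * C₁ ^ 2 * Real.exp 256 * (K + 7) := by
    have := Real.exp_pos 256
    positivity
  have hy : (Real.sqrt (1 + 2 * C₁ ^ 2 * Real.exp 256 * (K + 7)) * X ^ 2 / r) ^ 2 =
      (1 + 2 * C₁ ^ 2 * Real.exp 256 * (K + 7)) * X ^ 4 / Real.sqrt w := by
    rw [div_pow, hr2, mul_pow, Real.sq_sqrt hC2]
    ring
  rw [hy]
  have t1 : (acor X h 0) ^ 2 * |acor X ν 0| ≤ X ^ 4 / Real.sqrt w := by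
    have a1 : |acor X h 0| ≤ (X + 1) * M₁ ^ 2 := acor_zero_le hM₁
    have a2 : |acor X ν 0| ≤ (X + 1) * M₂ ^ 2 := by
      apply acor_zero_le
      intro n hn
      simp only [hν]
      rw [if_pos hn]
      exact hM₂ n hn
    rw [le_div_iff₀ (by linarith)]
    calc (acor X h 0) ^ 2 * |acor X ν 0| * Real.sqrt w
        ≤ ((X + 1) * M₁ ^ 2) ^ 2 * ((X + 1) * M₂ ^ 2) * Real.sqrt w := by
          apply mul_le_mul_of_nonneg_right _ (Real.sqrt_nonneg _)
          apply mul_le_mul _ a2 (abs_nonneg _) (by positivity)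
          rw [← sq_abs (acor X h 0)]
          exact pow_le_pow_left₀ (abs_nonneg _) a1 2
      _ = (X + 1) ^ 3 * (M₁ ^ 4 * M₂ ^ 2 * Real.sqrt w) := by ring
      _ ≤ (2 * X) ^ 3 * (M₁ ^ 4 * M₂ ^ 2 * Real.sqrt w) := by
          apply mul_le_mul_of_nonneg_right _ (by positivity)
          apply pow_le_pow_left₀ (by positivity)
          linarith
      _ = X ^ 3 * (8 * M₁ ^ 4 * M₂ ^ 2 * Real.sqrt w) := by ring
      _ ≤ X ^ 3 * X := mul_le_mul_of_nonneg_left hE1 (by positivity)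
      _ = X ^ 4 := by ring
  have t2 : ∑ D ∈ Icc 1 X, (acor X h D) ^ 2 * |acor X ν D| ≤
      C₁ ^ 2 * Real.exp 256 * X ^ 4 * (K + 7) / Real.sqrt w := by
    have hsum := sum_corr_le (X := X) (w := w) (h := h) (ν := ν) (C₁ := C₁) (W := 1)
      (A := K / w) (B := 2 / w) (by omega) (by positivity) (by positivity)
      (fun D hD => by
        rw [Finset.mem_Icc] at hD
        rw [one_pow, mul_one]
        exact hah D hD.1 hD.2)
      (fun D hD => by
        rw [Finset.mem_Icc] at hD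
        rw [hν, acor_nu_eq hw hz hD.1 hD.2]
        refine (hcorr D hD.1 hD.2).trans (add_le_add ?_ hz1)
        apply mul_le_mul_of_nonneg_left
        · have h1 := one_le_Tw w D
          have h2 : (K : ℝ) * (1 / 2) ^ b ≤ K / w := by
            calc (K : ℝ) * (1 / 2) ^ b ≤ K * (1 / w) :=
                  mul_le_mul_of_nonneg_left hpow (by linarith)
              _ = K / w := by ring
          have h3 : (K : ℝ) * (1 / 2) ^ b * Tw w D ≤ K / w * Tw w D :=
            mul_le_mul_of_nonneg_right h2 (by linarith)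
          linarith
        · have := one_le_Tw 0 D
          positivity)
    refine hsum.trans ?_
    have hsw0 : 0 < Real.sqrt w := by linarith
    have hww : Real.sqrt w * Real.sqrt w = w := Real.mul_self_sqrt (by linarith)
    have h1 : 1 / (w : ℝ) ≤ 1 / Real.sqrt w := by
      apply one_div_le_one_div_of_le hsw0
      nlinarith
    have h2 : (K : ℝ) / w + 2 / w + 4 / Real.sqrt w ≤ (K + 6) / Real.sqrt w := by
      calc (K : ℝ) / w + 2 / w + 4 / Real.sqrt w = (K + 2) * (1 / w) + 4 / Real.sqrt w := by ring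
        _ ≤ (K + 2) * (1 / Real.sqrt w) + 4 / Real.sqrt w :=
            add_le_add (mul_le_mul_of_nonneg_left h1 (by positivity)) le_rfl
        _ = (K + 6) / Real.sqrt w := by ring
    have h3 : Real.sqrt X ≤ X / Real.sqrt w := by
      rw [le_div_iff₀ hsw0]
      calc Real.sqrt X * Real.sqrt w ≤ Real.sqrt X * Real.sqrt X := by
            apply mul_le_mul_of_nonneg_left _ hsX0
            apply Real.sqrt_le_sqrt
            exact_mod_cast hwX
        _ = X := hsX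
    have h4 : (X : ℝ) * ((K : ℝ) / w + 2 / w + 4 / Real.sqrt w) + Real.sqrt X ≤
        X * ((K + 7) / Real.sqrt w) := by
      calc (X : ℝ) * ((K : ℝ) / w + 2 / w + 4 / Real.sqrt w) + Real.sqrt X
          ≤ X * ((K + 6) / Real.sqrt w) + X / Real.sqrt w :=
            add_le_add (mul_le_mul_of_nonneg_left h2 hX0.le) h3
        _ = _ := by ring
    have h5 : 0 ≤ C₁ ^ 2 * (1 : ℝ) ^ 4 * Real.exp 256 * (X : ℝ) ^ 3 := by
      have := Real.exp_pos 256
      positivity
    refine (mul_le_mul_of_nonneg_left h4 h5).trans (le_of_eq ?_)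
    ring
  calc (acor X h 0) ^ 2 * |acor X ν 0| +
        2 * ∑ D ∈ Icc 1 X, (acor X h D) ^ 2 * |acor X ν D|
      ≤ X ^ 4 / Real.sqrt w +
        2 * (C₁ ^ 2 * Real.exp 256 * X ^ 4 * (K + 7) / Real.sqrt w) := by linarith
    _ = _ := by ring

/-- numerical step -/
lemma num2 {S2 F c W B2 X Q RH r K b k1 q CF : ℝ}
    (hS : S2 ≤ F * (c * (W * (B2 * (2 * X + 1)) + (2 * X + 1) * Q) + RH))
    (hF : F ≤ CF * X) (hc : c ≤ 4 * K * b) (hc0 : 0 ≤ c) (hW : 1 ≤ W)
    (hB2 : B2 ≤ k1 * X ^ 2) (hB20 : 0 ≤ B2) (hQ : Q ≤ q * X ^ 2 / r) (hQ0 : 0 ≤ Q)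
    (hRH : RH ≤ X ^ 3 / r) (hRH0 : 0 ≤ RH) (hX : 1 ≤ X) (hr : 1 ≤ r) (hCF : 0 ≤ CF)
    (hk1 : 0 ≤ k1) :
    S2 ≤ CF * (12 * K * b * (W * k1 + q / r) + 1 / r) * X ^ 4 := by
  have hX0 : 0 ≤ X := by linarith
  have hr0 : 0 < r := by linarith
  have hW0 : 0 ≤ W := by linarith
  have h1 : W * (B2 * (2 * X + 1)) ≤ 3 * k1 * W * X ^ 3 := by
    calc W * (B2 * (2 * X + 1)) ≤ W * ((k1 * X ^ 2) * (3 * X)) := by
          apply mul_le_mul_of_nonneg_left _ hW0
          exact mul_le_mul hB2 (by linarith) (by positivity) (by positivity)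
      _ = _ := by ring
  have h2 : (2 * X + 1) * Q ≤ 3 * q * X ^ 3 / r := by
    calc (2 * X + 1) * Q ≤ (3 * X) * (q * X ^ 2 / r) :=
          mul_le_mul (by linarith) hQ hQ0 (by positivity)
      _ = _ := by ring
  have h3 : c * (W * (B2 * (2 * X + 1)) + (2 * X + 1) * Q) ≤
      (4 * K * b) * (3 * k1 * W * X ^ 3 + 3 * q * X ^ 3 / r) :=
    mul_le_mul hc (add_le_add h1 h2) (by positivity) (by linarith)
  have h5 : F * (c * (W * (B2 * (2 * X + 1)) + (2 * X + 1) * Q) + RH) ≤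
      (CF * X) * ((4 * K * b) * (3 * k1 * W * X ^ 3 + 3 * q * X ^ 3 / r) + X ^ 3 / r) := by
    apply mul_le_mul hF (add_le_add h3 hRH) _ (by positivity)
    have : 0 ≤ W * (B2 * (2 * X + 1)) + (2 * X + 1) * Q := by positivity
    have := mul_nonneg hc0 this
    linarith
  refine (hS.trans h5).trans (le_of_eq ?_)
  ring

/-- The transference inequality for a general majorant. -/
lemma core2 {X w z b K : ℕ} {f h ρ : ℕ → ℝ} {C₁ M₁ M₂ c η CF : ℝ} (hX3 : 3 ≤ X) (hw : 2 ≤ w)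
    (hwz : w ≤ z) (hwX : w ≤ X) (hK : 1 ≤ K) (hC₁ : 1 ≤ C₁) (hc0 : 0 ≤ c)
    (hc : c ≤ 4 * K * b) (hCF : 0 ≤ CF)
    (hf : ∀ n, X < n → f n = 0) (hh : ∀ n, X < n → h n = 0) (hh0 : h 0 = 0)
    (hρ : ∀ n, 0 ≤ ρ n)
    (hmaj : ∀ n, n ≤ X → |f n| ≤ c * Lw z n + ρ n)
    (hexp : ∀ α : ℝ, ‖∑ n ∈ Finset.Icc 1 X, (h n : ℂ) * e (α * n)‖ ≤ η * X)
    (hcorr : ∀ d : ℕ, 1 ≤ d → d ≤ X →
      |∑ x ∈ Finset.Icc 1 (X - d), (Lw z x - Lw w x) * (Lw z (x + d) - Lw w (x + d))| ≤
      X * Tw 0 d * (K * (1 / 2) ^ b * Tw w d + (Tw w d - 1) + 2 / w) + (z : ℝ) ^ (K * b))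
    (hpow : ((1 : ℝ) / 2) ^ b ≤ 1 / w) (hz1 : (z : ℝ) ^ (K * b) ≤ Real.sqrt X)
    (hah : ∀ D : ℕ, 1 ≤ D → D ≤ X → |acor X h D| ≤ C₁ * Tw 0 D * X)
    (hM₁ : ∀ n, n ≤ X → |h n| ≤ M₁) (hM₂ : ∀ n, n ≤ X → |Lw z n - Lw w n| ≤ M₂)
    (hE1 : 8 * M₁ ^ 4 * M₂ ^ 2 * Real.sqrt w ≤ X)
    (hF : ∑ n ∈ range (X + 1), |f n| ≤ CF * X)
    (hRH : (∑ n ∈ range (X + 1), ρ n) * (∑ n ∈ range (X + 1), |h n|) ^ 2 ≤
      X ^ 3 / Real.sqrt (Real.sqrt w)) :
    (∑ n ∈ Finset.range (2 * X + 1), |∑ x ∈ Finset.range (n + 1), f x * h (n - x)|) ^ 2 ≤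
      CF * (12 * K * b * ((V w)⁻¹ * η ^ 2 +
        Real.sqrt (1 + 2 * C₁ ^ 2 * Real.exp 256 * (K + 7)) / Real.sqrt (Real.sqrt w)) +
          1 / Real.sqrt (Real.sqrt w)) * X ^ 4 := by
  have hz : 2 ≤ z := hw.trans hwz
  have hXr : (3 : ℝ) ≤ X := by exact_mod_cast hX3
  have hX0 : (0 : ℝ) < X := by linarith
  have hwr : (2 : ℝ) ≤ w := by exact_mod_cast hw
  have hsw1 : 1 ≤ Real.sqrt w := by rw [Real.one_le_sqrt]; linarith
  have hr1 : 1 ≤ Real.sqrt (Real.sqrt w) := by rw [Real.one_le_sqrt]; exact hsw1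
  set ν : ℕ → ℝ := fun n => if n ≤ X then Lw z n - Lw w n else 0 with hν
  have hmain := main_ineq (X := X) (f := f) (h := h) (ν₁ := ν) (μ := Lw w) (ρ := ρ) (c := c)
    (W := (V w)⁻¹) (B := η * X) hc0 hf hh hh0
    (fun n hn => by simp only [hν]; rw [if_neg (by omega)]) (Lw_nonneg w) (Lw_le w)
    hρ (fun n hn => by
      have h1 : Lw w n + ν n = Lw z n := by
        simp only [hν]
        rw [if_pos hn]; ring
      rw [h1]
      exact hmaj n hn) hexp
  have hQ := Q_bound2 (X := X) (w := w) (z := z) (b := b) (K := K) (h := h) hX3 hw hwz hwX hK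
    hC₁ hcorr hpow hz1 hah hM₁ hM₂ hE1
  exact num2 (X := (X : ℝ)) (r := Real.sqrt (Real.sqrt w)) (K := (K : ℝ)) (b := (b : ℝ))
    (k1 := η ^ 2) hmain hF hc hc0 (one_le_V_inv w)
    (le_of_eq (by ring)) (sq_nonneg _) hQ (Real.sqrt_nonneg _) hRH
    (mul_nonneg (Finset.sum_nonneg fun n _ => hρ n) (sq_nonneg _)) (by linarith) hr1 hCF
    (sq_nonneg _)

lemma lam_major {X z : ℕ} (hX3 : 3 ≤ X) (n : ℕ) (hn : n ≤ X) :
    lam n ≤ Real.log X * V z * Lw z n + (if n ≤ z then Real.log X else 0) := by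
  have hXr : (3 : ℝ) ≤ X := by exact_mod_cast hX3
  have hlog0 : 0 ≤ Real.log X := Real.log_natCast_nonneg X
  have hc0 : 0 ≤ Real.log X * V z := mul_nonneg hlog0 (V_pos z).le
  have hlamX : lam n ≤ Real.log X := by
    unfold lam
    split_ifs with hp
    · exact Real.log_le_log (by exact_mod_cast hp.pos) (by exact_mod_cast hn)
    · exact hlog0
  have hLz := Lw_nonneg z n
  by_cases hnz : n ≤ z
  · rw [if_pos hnz]
    have := mul_nonneg hc0 hLz
    linarith
  · rw [if_neg hnz, add_zero]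
    by_cases hp : n.Prime
    · have h3 : Lw z n = (V z)⁻¹ := by
        unfold Lw
        rw [if_pos]
        intro p hp' hd
        rw [(Nat.prime_dvd_prime_iff_eq hp' hp).mp hd]
        omega
      rw [h3, mul_assoc, mul_inv_cancel₀ (V_pos z).ne', mul_one]
      exact hlamX
    · have h3 : lam n = 0 := by unfold lam; rw [if_neg hp]
      rw [h3]
      exact mul_nonneg hc0 hLz

lemma Lw_zero' {w : ℕ} (hw : 2 ≤ w) : Lw w 0 = 0 := by
  unfold Lw
  rw [if_neg]
  intro h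
  have := h 2 Nat.prime_two (dvd_zero 2)
  omega

lemma lam_zero' : lam 0 = 0 := by
  unfold lam
  rw [if_neg Nat.not_prime_zero]

lemma sum_Lw_le {CV CR : ℝ} (hCV : 0 < CV) (hCR : 0 < CR)
    (hV : ∀ z : ℕ, 2 ≤ z → (V z)⁻¹ ≤ CV * Real.log z)
    (hR : ∀ z : ℕ, 2 ≤ z → ∀ A L : ℕ, z ≤ L →
      (((Finset.Ioc A (A + L)).filter (Rough z)).card : ℝ) ≤ CR * L / Real.log z)
    {w X : ℕ} (hw : 2 ≤ w) (hX : w ≤ X) :
    ∑ n ∈ range (X + 1), Lw w n ≤ CR * CV * X := by
  have hwr : (2 : ℝ) ≤ w := by exact_mod_cast hw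
  have hlw : 0 < Real.log w := Real.log_pos (by linarith)
  have h1 : ∑ n ∈ range (X + 1), Lw w n = ∑ n ∈ Ioc 0 (0 + X), Lw w n := by
    symm
    apply Finset.sum_subset
    · intro n hn
      rw [Finset.mem_Ioc] at hn
      rw [Finset.mem_range]
      omega
    · intro n hn hn'
      rw [Finset.mem_range] at hn
      rw [Finset.mem_Ioc] at hn'
      have : n = 0 := by omega
      rw [this, Lw_zero' hw]
  have h2 : ∑ n ∈ Ioc 0 (0 + X), Lw w n =
      (((Finset.Ioc 0 (0 + X)).filter (Rough w)).card : ℝ) * (V w)⁻¹ := by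
    unfold Lw
    rw [← Finset.sum_filter, Finset.sum_const, nsmul_eq_mul]
  rw [h1, h2]
  have h3 := hR w hw 0 X hX
  calc (((Finset.Ioc 0 (0 + X)).filter (Rough w)).card : ℝ) * (V w)⁻¹
      ≤ (CR * X / Real.log w) * (CV * Real.log w) :=
        mul_le_mul h3 (hV w hw) (inv_nonneg.mpr (V_pos w).le) (by positivity)
    _ = CR * CV * X := by field_simp

end Pool.Agent.Lib.KM.Transfer2

namespace Pool.Agent.Lib.KM

open Pool.Agent.Lib.GT (e lam Lw V pr Tw Rough V_pos lam_nonneg Lw_nonneg V_inv_le rough_count corr)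
open Pool.Agent.Lib.GT.Transfer Transfer2

theorem transfer2_of (hA : AcorS) : Transfer2S := by
  intro ε hε
  obtain ⟨K, hK, hcorr⟩ := corr
  obtain ⟨C₁, hC₁, hac⟩ := hA
  obtain ⟨CV, hCV, hV⟩ := V_inv_le
  obtain ⟨CR, hCR, hR⟩ := rough_count
  have hE := Real.exp_pos 256
  set q : ℝ := Real.sqrt (1 + 2 * C₁ ^ 2 * Real.exp 256 * (K + 7)) with hq
  have hq0 : 0 ≤ q := Real.sqrt_nonneg _
  set CF : ℝ := 2 + CR * CV with hCF
  have hCF0 : 0 < CF := by positivity
  have hKr : (1 : ℝ) ≤ K := by exact_mod_cast hK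
  obtain ⟨w₂, hw₂⟩ := Filter.eventually_atTop.mp
    (ev_w (CF * (36 * K * q + 1)) (by positivity) (ε ^ 2 / 8) (by positivity))
  set w₁ := max w₂ 3 with hw₁
  have hw3 : 3 ≤ w₁ := le_max_right _ _
  have hw2 : 2 ≤ w₁ := by omega
  have hwmain := hw₂ w₁ (le_max_left _ _)
  have hwr : (3 : ℝ) ≤ w₁ := by exact_mod_cast hw3
  have hlw1 : (1 : ℝ) ≤ Real.log w₁ := by
    rw [Real.le_log_iff_exp_le (by linarith)]
    exact Real.exp_one_lt_three.le.trans hwr
  set W₁ := (V w₁)⁻¹ with hW₁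
  have hW1 : 1 ≤ W₁ := one_le_V_inv w₁
  set r := Real.sqrt (Real.sqrt w₁) with hr
  have hsw1 : 1 ≤ Real.sqrt w₁ := by rw [Real.one_le_sqrt]; linarith
  have hr1 : 1 ≤ r := by rw [hr, Real.one_le_sqrt]; exact hsw1
  have hr0 : 0 < r := by linarith
  set b := Nat.log 2 w₁ + 1 with hb
  have hb1 : 1 ≤ b := by omega
  have hbr : (1 : ℝ) ≤ b := by exact_mod_cast hb1
  have hpow : ((1 : ℝ) / 2) ^ b ≤ 1 / w₁ := by
    have h1 : w₁ < 2 ^ b := Nat.lt_pow_succ_log_self (by norm_num) w₁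
    have h2 : (w₁ : ℝ) ≤ 2 ^ b := by exact_mod_cast h1.le
    rw [div_pow, one_pow]
    exact one_div_le_one_div_of_le (by linarith) h2
  have hb3 : (b : ℝ) ≤ 3 * Real.log w₁ := by
    have h1 : 2 ^ (Nat.log 2 w₁) ≤ w₁ := Nat.pow_log_le_self 2 (by omega)
    have h2 : (Nat.log 2 w₁ : ℝ) * Real.log 2 ≤ Real.log w₁ := by
      rw [← Real.log_pow]
      apply Real.log_le_log (by positivity)
      exact_mod_cast h1
    have h3 := Real.log_two_gt_d9
    rw [hb]
    push_cast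
    nlinarith [Nat.cast_nonneg (α := ℝ) (Nat.log 2 w₁)]
  have hK4b : (1 : ℝ) ≤ 4 * K * b := by nlinarith
  -- the first part of the final bound
  have hpart1 : CF * (12 * K * b * (q / r) + 1 / r) ≤ ε ^ 2 / 8 := by
    have hl3 : Real.log w₁ ≤ Real.log w₁ ^ 3 := by
      calc Real.log w₁ = Real.log w₁ ^ 1 := (pow_one _).symm
        _ ≤ Real.log w₁ ^ 3 := pow_le_pow_right₀ hlw1 (by norm_num)
    have h1 : 12 * K * b * q + 1 ≤ (36 * K * q + 1) * Real.log w₁ ^ 3 := by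
      have a1 : (b : ℝ) ≤ 3 * Real.log w₁ ^ 3 := by linarith
      have a2 : 12 * K * q * b ≤ 12 * K * q * (3 * Real.log w₁ ^ 3) :=
        mul_le_mul_of_nonneg_left a1 (by positivity)
      nlinarith
    have h2 : CF * (12 * K * b * (q / r) + 1 / r) = CF * (12 * K * b * q + 1) / r := by
      field_simp
    rw [h2, div_le_iff₀ hr0]
    calc CF * (12 * K * b * q + 1) ≤ CF * ((36 * K * q + 1) * Real.log w₁ ^ 3) :=
          mul_le_mul_of_nonneg_left h1 hCF0.le
      _ = CF * (36 * K * q + 1) * Real.log w₁ ^ 3 := by ring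
      _ ≤ ε ^ 2 / 8 * r := hwmain
  -- the choice of `η`
  set D₁ : ℝ := CF * (12 * K * b * W₁) with hD₁
  have hD₁0 : 0 < D₁ := by
    have : (0 : ℝ) < K := by linarith
    have : (0 : ℝ) < b := by linarith
    have : (0 : ℝ) < W₁ := by linarith
    positivity
  set η : ℝ := min 1 (ε ^ 2 / 8 / D₁) with hη
  have hη0 : 0 < η := lt_min one_pos (by positivity)
  have hη1 : η ≤ 1 := min_le_left _ _
  have hpart2 : CF * (12 * K * b * (W₁ * η ^ 2)) ≤ ε ^ 2 / 8 := by
    have h1 : η ^ 2 ≤ ε ^ 2 / 8 / D₁ := by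
      calc η ^ 2 = η * η := by ring
        _ ≤ η * 1 := mul_le_mul_of_nonneg_left hη1 hη0.le
        _ = η := mul_one _
        _ ≤ _ := min_le_right _ _
    calc CF * (12 * K * b * (W₁ * η ^ 2)) = D₁ * η ^ 2 := by rw [hD₁]; ring
      _ ≤ D₁ * (ε ^ 2 / 8 / D₁) := mul_le_mul_of_nonneg_left h1 hD₁0.le
      _ = ε ^ 2 / 8 := by field_simp
  have hpart : CF * (12 * K * b * (W₁ * η ^ 2 + q / r) + 1 / r) ≤ (ε / 2) ^ 2 := by
    have h0 : CF * (12 * K * b * (W₁ * η ^ 2 + q / r) + 1 / r) =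
      CF * (12 * K * b * (W₁ * η ^ 2)) + CF * (12 * K * b * (q / r) + 1 / r) := by ring
    rw [h0]
    exact (add_le_add hpart2 hpart1).trans (le_of_eq (by ring))
  refine ⟨η, hη0, w₁, fun w hw => ?_⟩
  have hw2' : 2 ≤ w := hw2.trans hw
  obtain ⟨X₂, hX₂⟩ := hac w hw2'
  set Wo := (V w)⁻¹ with hWo
  have hWo1 : 1 ≤ Wo := one_le_V_inv w
  -- the conditions on `X`
  have hη₁ : 0 < 1 / (8 * (2 * Wo) ^ 4 * (CV + W₁ + Wo) ^ 2 * Real.sqrt w₁) := by
    have : 0 < Real.sqrt w₁ := by linarith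
    positivity
  have hη₂ : 0 < 1 / (32 * Wo ^ 2 * r) ^ 2 := by positivity
  obtain ⟨X₁, hX₁⟩ := Filter.eventually_atTop.mp
    ((ev_log_pow 6 _ hη₁).and (ev_log_pow 2 _ hη₂))
  refine ⟨max (max X₁ X₂) (max 3 (w ^ (2 * K * b))), fun X hX f h hf hh hsupp hexp => ?_⟩
  have hX3 : 3 ≤ X := le_trans (le_trans (le_max_left _ _) (le_max_right _ _)) hX
  have hXw : w ^ (2 * K * b) ≤ X := le_trans (le_trans (le_max_right _ _) (le_max_right _ _)) hX
  have hXX₂ : X₂ ≤ X := le_trans (le_trans (le_max_right _ _) (le_max_left _ _)) hX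
  obtain ⟨hXa, hXb⟩ := hX₁ X (le_trans (le_trans (le_max_left _ _) (le_max_left _ _)) hX)
  have hKb1 : 1 ≤ K * b := Nat.mul_pos hK hb1
  have hwX : w ≤ X := by
    refine le_trans ?_ hXw
    calc w = w ^ 1 := (pow_one w).symm
      _ ≤ w ^ (2 * K * b) := Nat.pow_le_pow_right (by omega) (by nlinarith)
  have hw₁X : w₁ ≤ X := hw.trans hwX
  have hXw₁ : w₁ ^ (2 * K * b) ≤ X := (Nat.pow_le_pow_left hw _).trans hXw
  have hXr : (3 : ℝ) ≤ X := by exact_mod_cast hX3
  have hX0 : (0 : ℝ) < X := by linarith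
  have hlog1 : 1 ≤ Real.log X := by
    rw [Real.le_log_iff_exp_le hX0]
    exact Real.exp_one_lt_three.le.trans hXr
  have hlX0 : 0 ≤ Real.log X := by linarith
  have hE1 : 8 * (2 * Wo * Real.log X) ^ 4 * ((CV + W₁ + Wo) * Real.log X) ^ 2 *
      Real.sqrt w₁ ≤ X := by
    have hM : 0 < 8 * (2 * Wo) ^ 4 * (CV + W₁ + Wo) ^ 2 * Real.sqrt w₁ := by
      have : 0 < Real.sqrt w₁ := by linarith
      positivity
    have h1 := mul_le_mul_of_nonneg_left hXa hM.le
    rw [← mul_assoc, mul_one_div_cancel hM.ne', one_mul] at h1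
    refine le_trans (le_of_eq ?_) h1
    ring
  have hE2 : 32 * Wo ^ 2 * r * Real.log X ≤ Real.sqrt X := by
    apply Real.le_sqrt_of_sq_le
    rw [mul_pow]
    have hM : 0 < (32 * Wo ^ 2 * r) ^ 2 := by positivity
    have h1 := mul_le_mul_of_nonneg_left hXb hM.le
    rw [← mul_assoc, mul_one_div_cancel hM.ne', one_mul] at h1
    exact h1
  have hsX : Real.sqrt X * Real.sqrt X = X := Real.mul_self_sqrt hX0.le
  have hsX0 : 0 ≤ Real.sqrt X := Real.sqrt_nonneg _
  -- properties of `h`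
  have hh0 : h 0 = 0 := by
    have := hh 0
    rw [Lw_zero' hw2', lam_zero', add_zero] at this
    exact abs_nonpos_iff.mp this
  have hlamX : ∀ n, n ≤ X → lam n ≤ Real.log X := by
    intro n hn
    unfold lam
    split_ifs with hp
    · exact Real.log_le_log (by exact_mod_cast hp.pos) (by exact_mod_cast hn)
    · exact hlX0
  have hM₁ : ∀ n, n ≤ X → |h n| ≤ 2 * Wo * Real.log X := by
    intro n hn
    have h1 := hlamX n hn
    have h2 := hh n
    have h3 := Lw_le w n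
    have e1 : Real.log X ≤ Wo * Real.log X := le_mul_of_one_le_left hlX0 hWo1
    have e2 : Wo ≤ Wo * Real.log X := le_mul_of_one_le_right (by linarith) hlog1
    linarith
  have hah : ∀ D : ℕ, 1 ≤ D → D ≤ X → |acor X h D| ≤ C₁ * Tw 0 D * X := by
    intro D hD hDX
    refine le_trans ?_ (hX₂ X hXX₂ D hD hDX)
    unfold acor
    refine (Finset.abs_sum_le_sum_abs _ _).trans (Finset.sum_le_sum fun y _ => ?_)
    rw [abs_mul]
    exact mul_le_mul (hh y) (hh (y + D)) (abs_nonneg _)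
      (add_nonneg (lam_nonneg y) (Lw_nonneg w y))
  have hexp' : ∀ α : ℝ, ‖∑ n ∈ Finset.Icc 1 X, (h n : ℂ) * e (α * n)‖ ≤ η * X := by
    intro α
    refine le_trans (le_of_eq ?_) (hexp α)
    congr 1
    apply Finset.sum_subset
    · intro n hn
      rw [Finset.mem_Icc] at hn
      rw [Finset.mem_range]
      omega
    · intro n hn hn'
      rw [Finset.mem_range] at hn
      rw [Finset.mem_Icc] at hn'
      have : n = 0 := by omega
      rw [this, hh0]
      simp
  have hH : ∑ n ∈ range (X + 1), |h n| ≤ 4 * Wo * X := by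
    have h1 : ∑ n ∈ range (X + 1), |h n| ≤ ∑ n ∈ range (X + 1), (lam n + Wo) :=
      Finset.sum_le_sum fun n _ => (hh n).trans (by linarith [Lw_le w n])
    rw [Finset.sum_add_distrib, Finset.sum_const, Finset.card_range, nsmul_eq_mul] at h1
    have h2 := sum_lam_le X
    push_cast at h1
    have h3 : (X : ℝ) * 1 ≤ X * Wo := mul_le_mul_of_nonneg_left hWo1 hX0.le
    have h4 : ((X : ℝ) + 1) * Wo ≤ (2 * X) * Wo :=
      mul_le_mul_of_nonneg_right (by linarith) (by linarith)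
    calc _ ≤ ∑ n ∈ range (X + 1), lam n + ((X : ℝ) + 1) * Wo := h1
      _ ≤ 2 * X + (2 * X) * Wo := add_le_add h2 h4
      _ ≤ 2 * (X * Wo) + (2 * X) * Wo := by
          apply add_le_add_left
          rw [mul_one] at h3
          exact mul_le_mul_of_nonneg_left h3 (by norm_num)
      _ = 4 * Wo * X := by ring
  have hH0 : 0 ≤ ∑ n ∈ range (X + 1), |h n| := Finset.sum_nonneg fun _ _ => abs_nonneg _
  -- the splitting
  set f₁ : ℕ → ℝ := fun n => max (-lam n) (min (lam n) (f n)) with hf₁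
  set f₂ : ℕ → ℝ := fun n => f n - f₁ n with hf₂
  have hf₁le : ∀ n, |f₁ n| ≤ lam n := by
    intro n
    have h0 := lam_nonneg n
    simp only [hf₁]
    rw [abs_le]
    exact ⟨le_max_left _ _, max_le (by linarith) (min_le_left _ _)⟩
  have hf₂le : ∀ n, |f₂ n| ≤ Lw w n := by
    intro n
    have h0 := lam_nonneg n
    have hL := Lw_nonneg w n
    have h1 := abs_le.mp (hf n)
    simp only [hf₂, hf₁]
    rw [abs_le]
    rcases le_total (f n) (lam n) with h2 | h2
    · rw [min_eq_right h2]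
      rcases le_total (-lam n) (f n) with h3 | h3
      · rw [max_eq_right h3]
        constructor <;> linarith
      · rw [max_eq_left h3]
        constructor <;> linarith
    · rw [min_eq_left h2, max_eq_right (by linarith)]
      constructor <;> linarith
  have hf₁s : ∀ n, X < n → f₁ n = 0 := by
    intro n hn
    have h0 := lam_nonneg n
    simp only [hf₁]
    rw [(hsupp n hn).1, min_eq_right h0, max_eq_right (by linarith)]
  have hf₂s : ∀ n, X < n → f₂ n = 0 := by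
    intro n hn
    simp only [hf₂]
    rw [hf₁s n hn, (hsupp n hn).1, sub_zero]
  have hhs : ∀ n, X < n → h n = 0 := fun n hn => (hsupp n hn).2
  -- first part
  have hfin1 : ∑ n ∈ Finset.range (2 * X + 1), |∑ x ∈ Finset.range (n + 1), f₁ x * h (n - x)| ≤
      ε / 2 * X ^ 2 := by
    obtain ⟨z, hwz, hz1, hz2, hzc⟩ := exists_z hK hb1 hw2 hXw₁
    have hz2' : 2 ≤ z := hw2.trans hwz
    have hzr : (2 : ℝ) ≤ z := by exact_mod_cast hz2'
    have hzX : (z : ℝ) ≤ X := by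
      refine hz2.trans ?_
      rw [Real.sqrt_le_left hX0.le]
      nlinarith
    have hVz : (V z)⁻¹ ≤ CV * Real.log X :=
      (hV z hz2').trans (mul_le_mul_of_nonneg_left (Real.log_le_log (by linarith) hzX) hCV.le)
    set ρ : ℕ → ℝ := fun n => if n ≤ z then Real.log X else 0 with hρ
    have hR' : ∑ n ∈ range (X + 1), ρ n ≤ (z + 1) * Real.log X := by
      rw [hρ, ← Finset.sum_filter, Finset.sum_const, nsmul_eq_mul]
      apply mul_le_mul_of_nonneg_right _ hlX0
      have h1 : ((range (X + 1)).filter (fun n => n ≤ z)).card ≤ z + 1 := by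
        calc ((range (X + 1)).filter (fun n => n ≤ z)).card ≤ (range (z + 1)).card := by
              apply Finset.card_le_card
              intro n hn
              rw [Finset.mem_filter] at hn
              rw [Finset.mem_range]
              omega
          _ = z + 1 := Finset.card_range _
      exact_mod_cast h1
    have hRH : (∑ n ∈ range (X + 1), ρ n) * (∑ n ∈ range (X + 1), |h n|) ^ 2 ≤ X ^ 3 / r := by
      rw [le_div_iff₀ hr0]
      have h1 : (z : ℝ) + 1 ≤ 2 * Real.sqrt X := by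
        have : 1 ≤ Real.sqrt X := by rw [Real.one_le_sqrt]; linarith
        linarith
      calc (∑ n ∈ range (X + 1), ρ n) * (∑ n ∈ range (X + 1), |h n|) ^ 2 * r
          ≤ ((2 * Real.sqrt X) * Real.log X) * (4 * Wo * X) ^ 2 * r := by
            apply mul_le_mul_of_nonneg_right _ hr0.le
            apply mul_le_mul _ (pow_le_pow_left₀ hH0 hH 2) (by positivity) (by positivity)
            exact hR'.trans (mul_le_mul_of_nonneg_right h1 hlX0)
        _ = (Real.sqrt X * X ^ 2) * (32 * Wo ^ 2 * r * Real.log X) := by ring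
        _ ≤ (Real.sqrt X * X ^ 2) * Real.sqrt X := by
            apply mul_le_mul_of_nonneg_left hE2 (by positivity)
        _ = X ^ 3 := by
            rw [show Real.sqrt X * (X : ℝ) ^ 2 * Real.sqrt X =
              (Real.sqrt X * Real.sqrt X) * X ^ 2 by ring, hsX]
            ring
    have hcore := core2 (X := X) (w := w₁) (z := z) (b := b) (K := K) (f := f₁) (h := h)
      (ρ := ρ) (C₁ := C₁) (M₁ := 2 * Wo * Real.log X) (M₂ := (CV + W₁ + Wo) * Real.log X)
      (c := Real.log X * V z) (η := η) (CF := CF) hX3 hw2 hwz hw₁X hK hC₁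
      (mul_nonneg hlX0 (V_pos z).le) hzc hCF0.le hf₁s hhs hh0
      (fun n => by simp only [hρ]; split_ifs; exacts [hlX0, le_rfl])
      (fun n hn => (hf₁le n).trans (lam_major hX3 n hn)) hexp'
      (fun d hd hdX => hcorr b hb1 w₁ z hw2 hwz X d hd hdX) hpow hz1 hah hM₁
      (fun n _ => by
        have h1 := Lw_nonneg z n
        have h2 := Lw_nonneg w₁ n
        have h3 := Lw_le z n
        have h4 := Lw_le w₁ n
        have e2 : W₁ ≤ W₁ * Real.log X := le_mul_of_one_le_right (by linarith) hlog1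
        have e3 : 0 ≤ Wo * Real.log X := by positivity
        rw [abs_le]
        constructor <;> linarith)
      hE1
      ((Finset.sum_le_sum fun n _ => hf₁le n).trans ((sum_lam_le X).trans (by
        have : 0 ≤ CR * CV * X := by positivity
        rw [hCF]; linarith)))
      hRH
    rw [← hq, ← hr, ← hW₁] at hcore
    have h2 : (∑ n ∈ Finset.range (2 * X + 1),
        |∑ x ∈ Finset.range (n + 1), f₁ x * h (n - x)|) ^ 2 ≤ (ε / 2 * X ^ 2) ^ 2 := by
      refine hcore.trans ?_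
      calc _ ≤ (ε / 2) ^ 2 * X ^ 4 := mul_le_mul_of_nonneg_right hpart (by positivity)
        _ = (ε / 2 * X ^ 2) ^ 2 := by ring
    exact (abs_le_of_sq_le_sq' h2 (by positivity)).2
  -- second part
  have hfin2 : ∑ n ∈ Finset.range (2 * X + 1), |∑ x ∈ Finset.range (n + 1), f₂ x * h (n - x)| ≤
      ε / 2 * X ^ 2 := by
    have hz1 : (w : ℝ) ^ (K * b) ≤ Real.sqrt X := by
      apply Real.le_sqrt_of_sq_le
      rw [← pow_mul]
      have : K * b * 2 = 2 * K * b := by ring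
      rw [this]
      exact_mod_cast hXw
    have hcore := core2 (X := X) (w := w₁) (z := w) (b := b) (K := K) (f := f₂) (h := h)
      (ρ := fun _ => 0) (C₁ := C₁) (M₁ := 2 * Wo * Real.log X)
      (M₂ := (CV + W₁ + Wo) * Real.log X)
      (c := 1) (η := η) (CF := CF) hX3 hw2 hw hw₁X hK hC₁
      zero_le_one hK4b hCF0.le hf₂s hhs hh0
      (fun n => le_rfl)
      (fun n _ => by rw [one_mul, add_zero]; exact hf₂le n) hexp'
      (fun d hd hdX => hcorr b hb1 w₁ w hw2 hw X d hd hdX) hpow hz1 hah hM₁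
      (fun n _ => by
        have h1 := Lw_nonneg w n
        have h2 := Lw_nonneg w₁ n
        have h3 := Lw_le w n
        have h4 := Lw_le w₁ n
        have e2 : W₁ ≤ W₁ * Real.log X := le_mul_of_one_le_right (by linarith) hlog1
        have e3 : Wo ≤ Wo * Real.log X := le_mul_of_one_le_right (by linarith) hlog1
        have e4 : 0 ≤ CV * Real.log X := by positivity
        rw [abs_le]
        constructor <;> linarith)
      hE1
      ((Finset.sum_le_sum fun n _ => hf₂le n).trans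
        ((sum_Lw_le hCV hCR hV hR hw2' hwX).trans (by
          have : 0 ≤ 2 * (X : ℝ) := by positivity
          rw [hCF]; linarith)))
      (by
        rw [Finset.sum_const_zero, zero_mul]
        positivity)
    rw [← hq, ← hr, ← hW₁] at hcore
    have h2 : (∑ n ∈ Finset.range (2 * X + 1),
        |∑ x ∈ Finset.range (n + 1), f₂ x * h (n - x)|) ^ 2 ≤ (ε / 2 * X ^ 2) ^ 2 := by
      refine hcore.trans ?_
      calc _ ≤ (ε / 2) ^ 2 * X ^ 4 := mul_le_mul_of_nonneg_right hpart (by positivity)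
        _ = (ε / 2 * X ^ 2) ^ 2 := by ring
    exact (abs_le_of_sq_le_sq' h2 (by positivity)).2
  calc ∑ n ∈ range (2 * X + 1), |∑ x ∈ range (n + 1), f x * h (n - x)|
      ≤ ∑ n ∈ range (2 * X + 1), (|∑ x ∈ range (n + 1), f₁ x * h (n - x)| +
          |∑ x ∈ range (n + 1), f₂ x * h (n - x)|) := by
        apply Finset.sum_le_sum
        intro n _
        have : ∑ x ∈ range (n + 1), f x * h (n - x) =
            ∑ x ∈ range (n + 1), f₁ x * h (n - x) + ∑ x ∈ range (n + 1), f₂ x * h (n - x) := by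
          rw [← Finset.sum_add_distrib]
          apply Finset.sum_congr rfl
          intro x _
          simp only [hf₂]
          ring
        rw [this]
        exact abs_add_le _ _
    _ ≤ ε * X ^ 2 := by
        rw [Finset.sum_add_distrib]
        exact (add_le_add hfin1 hfin2).trans (le_of_eq (by ring))

end Pool.Agent.Lib.KM
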