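import Pool.Agent.Lib.MP_7b7e48_nt.KM.Stmts
import Pool.Agent.Lib.MP_7b7e48_nt.GT.UniformArith
import Pool.Agent.Lib.MP_7b7e48_nt.GT.FL1

/-!
# KM project, module S4: the upper bound for the example
-/

open Finset

namespace Pool.Agent.Lib.KM

namespace Upper

open Pool.Agent.Lib.GT

theorem pi_small (ε : ℝ) (hε : 0 < ε) : ∃ X₀ : ℕ, ∀ X : ℕ, X₀ ≤ X →
    (Nat.primeCounting (2 * X) : ℝ) ≤ ε * X := by
  have h1 := Chebyshev.eventually_primeCounting_le one_pos
  have h2 : ∀ᶠ x : ℝ in Filter.atTop, 2 * (Real.log 4 + 1) / ε ≤ Real.log x :=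
    Real.tendsto_log_atTop.eventually_ge_atTop _
  have h3 : Filter.Tendsto (fun n : ℕ => ((2 * n : ℕ) : ℝ)) Filter.atTop Filter.atTop :=
    tendsto_natCast_atTop_atTop.comp (Filter.tendsto_id.const_mul_atTop' (by norm_num))
  have h4 := h3.eventually ((h1.and h2).and (Filter.eventually_ge_atTop 3))
  obtain ⟨X₀, hX₀⟩ := Filter.eventually_atTop.mp h4
  refine ⟨X₀, fun X hX => ?_⟩
  obtain ⟨⟨h5, h6⟩, h7⟩ := hX₀ X hX
  rw [Nat.floor_natCast] at h5
  have hlog : 0 < Real.log ((2 * X : ℕ) : ℝ) := Real.log_pos (by linarith)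
  refine h5.trans ?_
  rw [div_le_iff₀ hlog]
  rw [div_le_iff₀ hε] at h6
  push_cast at h6 ⊢
  have hX0 : (0 : ℝ) ≤ X := Nat.cast_nonneg X
  nlinarith [mul_le_mul_of_nonneg_right h6 hX0]

/-- the terms of `kz` -/
noncomputable def term (q : ℕ) (a b : ℕ → ℝ) (z : ℕ) (p : Fin q × Fin q) : ℝ :=
  if (p.1 : ℕ).Coprime q ∧ (p.2 : ℕ).Coprime q ∧
    ((p.1 : ℕ) + p.2) % q = (2 * z) % q ∧ 0 < a p.1 ∧ 0 < b p.2 then min 1 (a p.1 + b p.2) else 0

theorem kz_eq (q : ℕ) (a b : ℕ → ℝ) (z : ℕ) : kz q a b z = ⨆ p, term q a b z p := rfl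

theorem term_le_kz (q : ℕ) (a b : ℕ → ℝ) (z : ℕ) (p : Fin q × Fin q) :
    term q a b z p ≤ kz q a b z := by
  rw [kz_eq]
  exact le_ciSup (Set.finite_range _).bddAbove p

theorem term_nonneg {q : ℕ} {a b : ℕ → ℝ} (z : ℕ) (p : Fin q × Fin q) :
    0 ≤ term q a b z p := by
  unfold term
  split_ifs with h
  · exact le_min zero_le_one (by linarith [h.2.2.2.1, h.2.2.2.2])
  · exact le_rfl

theorem kz_nonneg {q : ℕ} (hq : 0 < q) (a b : ℕ → ℝ) (z : ℕ) : 0 ≤ kz q a b z :=
  (term_nonneg z (⟨0, hq⟩, ⟨0, hq⟩)).trans (term_le_kz q a b z _)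

theorem kz_le_one {q : ℕ} (hq : 0 < q) (a b : ℕ → ℝ) (z : ℕ) : kz q a b z ≤ 1 := by
  haveI : Nonempty (Fin q × Fin q) := ⟨(⟨0, hq⟩, ⟨0, hq⟩)⟩
  rw [kz_eq]
  refine ciSup_le fun p => ?_
  unfold term
  split_ifs
  · exact min_le_left _ _
  · exact zero_le_one

theorem K_le_one {q : ℕ} (hq : 0 < q) (a b : ℕ → ℝ) : K q a b ≤ 1 := by
  have hqR : (0 : ℝ) < q := by exact_mod_cast hq
  unfold K
  rw [div_le_one hqR]
  calc ∑ z ∈ range q, kz q a b z ≤ ∑ _z ∈ range q, (1 : ℝ) :=
        Finset.sum_le_sum fun z _ => kz_le_one hq a b z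
    _ = q := by simp

theorem coprime_of_not_dvd {p q : ℕ} (hp : p.Prime) (h : ¬ p ∣ q) : (p % q).Coprime q := by
  have h1 : p.Coprime q := (Nat.Prime.coprime_iff_not_dvd hp).mpr h
  rw [Nat.Coprime, ← Nat.gcd_rec q p, Nat.gcd_comm]
  exact h1

/-- the local condition for a sum of the example -/
theorem fract_lt {q : ℕ} (hq : 0 < q) {a b : ℕ → ℝ} {n p p' : ℕ} (hp : p.Prime) (hp' : p'.Prime)
    (hpA : p ∈ rotSet q a) (hpB : p' ∈ rotSet q b) (hsum : p + p' = 2 * n)
    (hpq : ¬ p ∣ q) (hpq' : ¬ p' ∣ q) :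
    Int.fract (2 * Real.sqrt 2 * n) < kz q a b (n % q) := by
  have hu : p % q < q := Nat.mod_lt _ hq
  have hv : p' % q < q := Nat.mod_lt _ hq
  have hA : Int.fract (Real.sqrt 2 * p) < a (p % q) := hpA
  have hB : Int.fract (Real.sqrt 2 * p') < b (p' % q) := hpB
  have ha0 : 0 < a (p % q) := (Int.fract_nonneg _).trans_lt hA
  have hb0 : 0 < b (p' % q) := (Int.fract_nonneg _).trans_lt hB
  have hcond : (p % q + p' % q) % q = (2 * (n % q)) % q := by
    rw [← Nat.add_mod, hsum]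
    exact ((Nat.mod_modEq n q).mul_left 2).symm
  have hterm : min 1 (a (p % q) + b (p' % q)) ≤ kz q a b (n % q) := by
    have h1 := term_le_kz q a b (n % q) (⟨p % q, hu⟩, ⟨p' % q, hv⟩)
    unfold term at h1
    rw [if_pos ⟨coprime_of_not_dvd hp hpq, coprime_of_not_dvd hp' hpq', hcond, ha0, hb0⟩] at h1
    exact h1
  have hx : 2 * Real.sqrt 2 * n = Real.sqrt 2 * p + Real.sqrt 2 * p' := by
    have : (p : ℝ) + p' = 2 * n := by exact_mod_cast hsum
    linear_combination (-Real.sqrt 2) * this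
  refine lt_of_lt_of_le ?_ hterm
  rw [lt_min_iff]
  refine ⟨Int.fract_lt_one _, ?_⟩
  rw [hx]
  exact (Int.fract_add_le _ _).trans_lt (by linarith)

/-- few `n` have a representation with a prime dividing `q` -/
theorem card_exceptional (q X : ℕ) (hq : 0 < q) (E : Finset ℕ)
    (hE : ∀ n ∈ E, n ≤ X ∧ ∃ p p' : ℕ, p ∣ q ∧ p'.Prime ∧ p + p' = 2 * n) :
    (E.card : ℝ) ≤ (q + 1) * Nat.primeCounting (2 * X) := by
  classical
  have h1 : E ⊆ ((range (q + 1)) ×ˢ (Nat.primesLE (2 * X))).image (fun y => (y.1 + y.2) / 2) := by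
    intro n hn
    obtain ⟨h2, p, p', h3, h4, h5⟩ := hE n hn
    rw [mem_image]
    refine ⟨(p, p'), ?_, ?_⟩
    · rw [mem_product, mem_range, Nat.mem_primesLE]
      exact ⟨by have := Nat.le_of_dvd hq h3; omega, by omega, h4⟩
    · simp only
      omega
  have h2 := (Finset.card_le_card h1).trans Finset.card_image_le
  rw [Finset.card_product, card_range, Nat.primesLE_card_eq_primeCounting] at h2
  exact_mod_cast h2

theorem irr {k : ℤ} (hk : k ≠ 0) {q : ℕ} (hq : 0 < q) : e ((k : ℝ) * (2 * Real.sqrt 2) * q) ≠ 1 := by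
  intro h
  obtain ⟨n, hn⟩ := e_eq_one_iff.mp h
  have h1 := irrational_sqrt_two
  apply h1
  refine ⟨(n : ℚ) / (k * 2 * q), ?_⟩
  have hk' : (k : ℝ) ≠ 0 := by exact_mod_cast hk
  have hq' : (q : ℝ) ≠ 0 := by exact_mod_cast hq.ne'
  push_cast
  rw [div_eq_iff (by positivity)]
  linarith

/-- the number of elements of a class -/
theorem card_cls (q z X : ℕ) (hq : 0 < q) (hz : z < q) :
    |((∑ n ∈ range (X + 1), (if n % q = z then (1 : ℝ) else 0))) - (X + 1) / q| ≤ 1 := by
  have h := abs_card_class q hq z hz 0 (X + 1)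
  rw [zero_add, ← Finset.range_eq_Ico] at h
  rw [Finset.sum_ite, Finset.sum_const_zero, add_zero, Finset.sum_const, nsmul_eq_mul, mul_one]
  push_cast at h
  exact h

end Upper

open Upper Pool.Agent.Lib.GT in
/-- S4 -/
theorem upper_of (hEq : EquiS) : UpperS := by
  classical
  intro q a b hq ha hb ε hε
  have hqR : (0 : ℝ) < q := by exact_mod_cast hq
  set ε' : ℝ := min (ε / 3) 1 with hε'
  have hε'0 : 0 < ε' := lt_min (by positivity) one_pos
  have hε'1 : ε' ≤ 1 := min_le_right _ _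
  have hε'3 : ε' ≤ ε / 3 := min_le_left _ _
  -- equidistribution in each class
  have hcls : ∀ z ∈ range q, ∃ X₀ : ℕ, ∀ X : ℕ, X₀ ≤ X →
      (((range (X + 1)).filter (fun n => n % q = z ∧
        Int.fract (2 * Real.sqrt 2 * n) < kz q a b z)).card : ℝ) ≤
        (kz q a b z + ε') * ((X + 1) / q + 1) := by
    intro z hz
    rw [mem_range] at hz
    obtain ⟨X₀, hX₀⟩ := hEq (fun n => 2 * Real.sqrt 2 * n)
      (fun _ n => if n % q = z then 1 else 0) (fun X => X + 1)
      (fun X n => by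
        show (0 : ℝ) ≤ if n % q = z then 1 else 0
        split_ifs <;> norm_num)
      (by
        intro k hk δ hδ
        have hne := irr hk hq
        set G : ℕ → ℂ := fun n => if n % q = z then 1 else 0 with hG
        have hGper : ∀ n, G (n + q) = G n := by
          intro n
          simp only [hG, Nat.add_mod_right]
        set C : ℝ := (∑ c ∈ range q, ‖G c‖) *
          (2 / ‖e ((k : ℝ) * (2 * Real.sqrt 2) * q) - 1‖ + 1) with hC
        obtain ⟨X₀, hX₀⟩ := exists_nat_ge (q * (C / δ + 1))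
        refine ⟨X₀, fun X hX => ?_⟩
        have h1 := norm_sum_periodic_e hq hGper hne (X + 1)
        have h2 := (abs_le.mp (card_cls q z X hq hz)).1
        have h3 : q * (C / δ + 1) ≤ (X : ℝ) := hX₀.trans (by exact_mod_cast hX)
        have h4 : C / δ ≤ ∑ n ∈ range (X + 1), (if n % q = z then (1 : ℝ) else 0) := by
          have h5 : C / δ + 1 ≤ (X + 1 : ℝ) / q := by
            rw [le_div_iff₀ hqR]
            linarith
          linarith
        rw [div_le_iff₀ hδ] at h4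
        calc ‖∑ n ∈ range (X + 1), (((if n % q = z then (1 : ℝ) else 0) : ℝ) : ℂ) *
              e ((k : ℝ) * (2 * Real.sqrt 2 * n))‖
            = ‖∑ n ∈ range (X + 1), G n * e ((k : ℝ) * (2 * Real.sqrt 2) * n)‖ := by
              congr 1
              refine Finset.sum_congr rfl fun n _ => ?_
              simp only [hG]
              rw [show (k : ℝ) * (2 * Real.sqrt 2 * n) = (k : ℝ) * (2 * Real.sqrt 2) * n by ring]
              split_ifs <;> simp
          _ ≤ C := h1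
          _ ≤ _ := by rw [mul_comm δ]; exact h4)
      (kz q a b z) (kz_nonneg hq a b z) (kz_le_one hq a b z) ε' hε'0
    refine ⟨X₀, fun X hX => ?_⟩
    have h1 := hX₀ X hX
    have h2 := (abs_le.mp (card_cls q z X hq hz)).2
    set S : ℝ := ∑ n ∈ range (X + 1), (if n % q = z then (1 : ℝ) else 0) with hS
    have h3 : ∑ n ∈ (range (X + 1)).filter (fun n : ℕ => Int.fract (2 * Real.sqrt 2 * n) <
        kz q a b z), (if n % q = z then (1 : ℝ) else 0) =
        (((range (X + 1)).filter (fun n => n % q = z ∧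
        Int.fract (2 * Real.sqrt 2 * n) < kz q a b z)).card : ℝ) := by
      rw [← Finset.sum_filter, Finset.sum_const, nsmul_eq_mul, mul_one, Finset.filter_filter]
      congr 2
      refine Finset.filter_congr fun n _ => ?_
      exact and_comm
    have h4 : |(((range (X + 1)).filter (fun n => n % q = z ∧
        Int.fract (2 * Real.sqrt 2 * n) < kz q a b z)).card : ℝ) - kz q a b z * S| ≤ ε' * S := by
      rw [← h3]
      exact h1
    have h5 := (abs_le.mp h4).2
    have h6 := kz_nonneg hq a b z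
    calc _ ≤ (kz q a b z + ε') * S := by linarith
      _ ≤ _ := by
          refine mul_le_mul_of_nonneg_left ?_ (by linarith)
          linarith
  choose! X₁ hX₁ using hcls
  obtain ⟨X₂, hX₂⟩ := pi_small (ε / 3 / (q + 1) / 2) (by positivity)
  obtain ⟨X₃, hX₃⟩ := exists_nat_ge (2 * (1 + q) / (ε / 3))
  refine ⟨max (max ((range q).sup X₁) X₂) X₃, fun X hX => ?_⟩
  have hXa : ∀ z ∈ range q, X₁ z ≤ X := fun z hz =>
    (Finset.le_sup hz).trans (((le_max_left _ _).trans (le_max_left _ _)).trans hX)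
  have hXb : X₂ ≤ X := ((le_max_right _ _).trans (le_max_left _ _)).trans hX
  have hXc : (X₃ : ℝ) ≤ X := by exact_mod_cast (le_max_right _ _).trans hX
  -- the two parts
  set D := (Icc 1 X).filter (fun n => rep (rotSet q a) (rotSet q b) (2 * n) ≠ 0) with hD
  set E := D.filter (fun n => ∃ p p' : ℕ, p ∣ q ∧ p'.Prime ∧ p + p' = 2 * n) with hE
  set F := (range (X + 1)).filter
    (fun n : ℕ => Int.fract (2 * Real.sqrt 2 * n) < kz q a b (n % q)) with hF
  have hsub : D ⊆ E ∪ F := by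
    intro n hn
    rw [mem_union]
    by_cases hex : ∃ p p' : ℕ, p ∣ q ∧ p'.Prime ∧ p + p' = 2 * n
    · left
      exact mem_filter.mpr ⟨hn, hex⟩
    · right
      rw [hD, mem_filter, mem_Icc] at hn
      obtain ⟨⟨hn1, hnX⟩, hrep⟩ := hn
      obtain ⟨y, hy⟩ := Set.nonempty_of_ncard_ne_zero hrep
      obtain ⟨h1, h2, h3, h4, _, h6⟩ := hy
      have hq1 : ¬ y.1 ∣ q := fun h => hex ⟨y.1, y.2, h, h2, h6⟩
      have hq2 : ¬ y.2 ∣ q := fun h => hex ⟨y.2, y.1, h, h1, by omega⟩
      rw [hF, mem_filter, mem_range]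
      exact ⟨by omega, fract_lt hq h1 h2 h3 h4 h6 hq1 hq2⟩
  have hEc : (E.card : ℝ) ≤ ε / 3 * X := by
    have h1 := card_exceptional q X hq E (fun n hn => by
      rw [hE, mem_filter, hD, mem_filter, mem_Icc] at hn
      exact ⟨hn.1.1.2, hn.2⟩)
    have h2 := hX₂ X hXb
    have h3 : (0 : ℝ) ≤ X := Nat.cast_nonneg X
    calc (E.card : ℝ) ≤ (q + 1) * Nat.primeCounting (2 * X) := h1
      _ ≤ (q + 1) * (ε / 3 / (q + 1) / 2 * X) := by gcongr
      _ = ε / 3 / 2 * X := by field_simp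
      _ ≤ ε / 3 * X := by nlinarith [mul_nonneg (show (0 : ℝ) ≤ ε / 3 by positivity) h3]
  have hFc : (F.card : ℝ) ≤ (K q a b + ε') * (X + 1 + q) := by
    have h1 : F.card = ∑ z ∈ range q, (F.filter (fun n => n % q = z)).card :=
      Finset.card_eq_sum_card_fiberwise fun n _ => mem_range.mpr (Nat.mod_lt _ hq)
    have h2 : ∀ z ∈ range q, ((F.filter (fun n => n % q = z)).card : ℝ) ≤
        (kz q a b z + ε') * ((X + 1) / q + 1) := by
      intro z hz
      refine le_trans ?_ (hX₁ z hz X (hXa z hz))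
      exact_mod_cast Finset.card_le_card (fun n hn => by
        rw [mem_filter, hF, mem_filter] at hn
        rw [mem_filter]
        refine ⟨hn.1.1, hn.2, ?_⟩
        have := hn.1.2
        rw [hn.2] at this
        exact this)
    rw [h1]
    push_cast
    refine (Finset.sum_le_sum h2).trans (le_of_eq ?_)
    rw [← Finset.sum_mul, Finset.sum_add_distrib, Finset.sum_const, card_range, nsmul_eq_mul]
    unfold K
    field_simp
  have hcard : (D.card : ℝ) ≤ E.card + F.card := by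
    exact_mod_cast (Finset.card_le_card hsub).trans (Finset.card_union_le _ _)
  have hK1 := K_le_one hq a b
  have hX3 : 2 * (1 + (q : ℝ)) ≤ ε / 3 * X := by
    have h1 : 2 * (1 + (q : ℝ)) / (ε / 3) ≤ X := hX₃.trans hXc
    rw [div_le_iff₀ (by positivity)] at h1
    linarith
  have hX0 : (0 : ℝ) ≤ X := Nat.cast_nonneg X
  calc (D.card : ℝ) ≤ ε / 3 * X + (K q a b + ε') * (X + 1 + q) := by linarith
    _ = ε / 3 * X + K q a b * X + ε' * X + (K q a b + ε') * (1 + q) := by ring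
    _ ≤ ε / 3 * X + K q a b * X + ε / 3 * X + (1 + 1) * (1 + q) := by gcongr
    _ ≤ (K q a b + ε) * X := by linarith

end Pool.Agent.Lib.KM
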