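import Pool.Agent.Lib.MP_7b7e48_nt.KM.Stmts
import Pool.Agent.Lib.MP_7b7e48_nt.GT.UniformFinal
import Pool.Agent.Lib.MP_7b7e48_nt.GT.ClassUniform

/-!
# KM project, module S1: Weyl sums over primes in a class
-/

open Finset

namespace Pool.Agent.Lib.KM.Weyl

open Pool.Agent.Lib.GT (e lam Lw V pr Tw Rough Major)

theorem far_from_rationals {α : ℝ} (hα : Irrational α) (Q : ℕ) : ∃ c : ℝ, 0 < c ∧
    ∀ q : ℕ, 1 ≤ q → q ≤ Q → ∀ a : ℤ, c ≤ |α - (a : ℝ) / (q : ℝ)| := by
  induction Q with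
  | zero => exact ⟨1, one_pos, fun q h1 h2 => by omega⟩
  | succ Q ih =>
    obtain ⟨c, hc, h⟩ := ih
    have hQ : (0 : ℝ) < (Q : ℝ) + 1 := by positivity
    have hirr : Irrational (((Q + 1 : ℕ) : ℝ) * α) := hα.natCast_mul (Nat.succ_ne_zero Q)
    set y : ℝ := ((Q + 1 : ℕ) : ℝ) * α with hy
    have hpos : 0 < |y - round y| := abs_pos.2 (sub_ne_zero.2 (hirr.ne_int _))
    refine ⟨min c (|y - round y| / (Q + 1)), lt_min hc (div_pos hpos hQ), ?_⟩
    intro q h1 h2 a
    rcases Nat.lt_or_ge Q q with h3 | h3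
    · have hq : q = Q + 1 := by omega
      subst hq
      refine (min_le_right _ _).trans ?_
      have h4 := round_le y a
      rw [div_le_iff₀ hQ]
      have h5 : |α - (a : ℝ) / ((Q + 1 : ℕ) : ℝ)| * ((Q : ℝ) + 1) = |y - a| := by
        rw [hy]
        push_cast
        rw [← abs_of_pos hQ, ← abs_mul, abs_of_pos hQ]
        congr 1
        field_simp
      rw [h5]
      exact h4
    · exact (min_le_left _ _).trans (h q h1 h3 a)

theorem not_major {α : ℝ} (hα : Irrational α) (Q : ℕ) : ∃ X₀ : ℕ, ∀ X : ℕ, X₀ ≤ X →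
    ¬ Major Q X α := by
  obtain ⟨c, hc, h⟩ := far_from_rationals hα Q
  refine ⟨⌊(Q : ℝ) / c⌋₊ + 1, fun X hX hM => ?_⟩
  obtain ⟨q, h1, h2, a, h3⟩ := hM
  have h4 := (h q h1 h2 a).trans h3
  have h5 : (Q : ℝ) / c < X := by
    have := Nat.lt_floor_add_one ((Q : ℝ) / c)
    have h6 : ((⌊(Q : ℝ) / c⌋₊ + 1 : ℕ) : ℝ) ≤ X := by exact_mod_cast hX
    push_cast at h6
    linarith
  have hX0 : (0 : ℝ) < X := lt_of_le_of_lt (by positivity) h5
  rw [div_lt_iff₀ hc] at h5
  rw [le_div_iff₀ hX0] at h4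
  linarith

theorem shift_irr {k : ℤ} (hk : k ≠ 0) (m j : ℕ) : Irrational (k * Real.sqrt 2 + (j : ℝ) / m) := by
  have h1 : Irrational ((k : ℝ) * Real.sqrt 2) := irrational_sqrt_two.intCast_mul hk
  have h2 := h1.add_ratCast ((j : ℚ) / m)
  push_cast at h2
  exact h2

end Pool.Agent.Lib.KM.Weyl

namespace Pool.Agent.Lib.KM

open Pool.Agent.Lib.GT (e lam Lw V pr Tw Rough Major)
open Weyl

theorem weyl_holds : WeylS := by
  intro m c hm k hk ε hε
  have hm' : (0 : ℝ) < m := by exact_mod_cast hm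
  have hmC : (m : ℂ) ≠ 0 := by exact_mod_cast hm.ne'
  obtain ⟨Q, X₁, hMA⟩ := Pool.Agent.Lib.GT.minor_arcs (ε / m) (by positivity)
  have hj : ∀ j : ℕ, ∃ X₀ : ℕ, ∀ X : ℕ, X₀ ≤ X → ¬ Major Q X (k * Real.sqrt 2 + (j : ℝ) / m) :=
    fun j => not_major (shift_irr hk m j) Q
  choose X₂ hX₂ using hj
  refine ⟨max X₁ ((range m).sup X₂), fun X hX => ?_⟩
  have hXa : X₁ ≤ X := (le_max_left _ _).trans hX
  have hXb : ∀ j ∈ range m, X₂ j ≤ X := fun j hj =>
    (le_sup (f := X₂) hj).trans ((le_max_right _ _).trans hX)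
  set om : ℕ → ℝ := fun n => if n % m = c % m then 1 else 0 with hom
  have hper : ∀ n, om (n + m) = om n := by
    intro n
    simp only [hom, Nat.add_mod_right]
  set cf : ℕ → ℂ := fun k =>
    (m : ℂ)⁻¹ * ∑ j ∈ range m, (om j : ℂ) * e (-((k : ℝ) * j / m)) with hcf
  have hcB : ∀ k, ‖cf k‖ ≤ 1 := by
    intro k
    simp only [hcf]
    rw [norm_mul, norm_inv, Complex.norm_natCast, inv_mul_le_iff₀ hm']
    calc ‖∑ j ∈ range m, (om j : ℂ) * e (-((k : ℝ) * j / m))‖
        ≤ ∑ j ∈ range m, ‖(om j : ℂ) * e (-((k : ℝ) * j / m))‖ := norm_sum_le _ _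
      _ ≤ ∑ _j ∈ range m, (1 : ℝ) := by
          refine sum_le_sum fun j _ => ?_
          rw [norm_mul, Pool.Agent.Lib.GT.norm_e, mul_one, Complex.norm_real]
          simp only [hom]
          split_ifs <;> simp
      _ = m * 1 := by simp
  have h1 : ∑ n ∈ (range (X + 1)).filter (fun n => n % m = c % m),
      (lam n : ℂ) * e (k * Real.sqrt 2 * n) =
      ∑ n ∈ Icc 1 X, (om n : ℂ) * ((lam n : ℂ) * e (k * Real.sqrt 2 * n)) := by
    rw [sum_filter]
    have hsub : Icc 1 X ⊆ range (X + 1) := by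
      intro n hn
      rw [mem_Icc] at hn
      exact mem_range.2 (by omega)
    rw [← sum_subset hsub]
    · refine sum_congr rfl fun n _ => ?_
      simp only [hom]
      split_ifs <;> simp
    · intro n hn hn'
      have : n = 0 := by
        rw [mem_range] at hn
        rw [mem_Icc] at hn'
        omega
      subst this
      have h0 : lam 0 = 0 := by
        unfold lam
        rw [if_neg Nat.not_prime_zero]
      rw [h0]
      simp
  have h2 : ∑ n ∈ Icc 1 X, (om n : ℂ) * ((lam n : ℂ) * e (k * Real.sqrt 2 * n)) =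
      ∑ j ∈ range m, cf j * ∑ n ∈ Icc 1 X, (lam n : ℂ) * e ((k * Real.sqrt 2 + j / m) * n) := by
    simp_rw [mul_sum]
    rw [sum_comm]
    refine sum_congr rfl fun n _ => ?_
    rw [Pool.Agent.Lib.GT.periodic_expand hm hper n, sum_mul]
    refine sum_congr rfl fun j _ => ?_
    have h3 : e ((k * Real.sqrt 2 + j / m) * n) =
        e ((j : ℝ) * n / m) * e (k * Real.sqrt 2 * n) := by
      rw [← Pool.Agent.Lib.GT.e_add]
      congr 1
      ring
    rw [h3, hcf]
    ring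
  rw [h1, h2]
  calc ‖∑ j ∈ range m, cf j * ∑ n ∈ Icc 1 X, (lam n : ℂ) * e ((k * Real.sqrt 2 + j / m) * n)‖
      ≤ ∑ j ∈ range m, ‖cf j * ∑ n ∈ Icc 1 X, (lam n : ℂ) *
          e ((k * Real.sqrt 2 + j / m) * n)‖ := norm_sum_le _ _
    _ ≤ ∑ _j ∈ range m, ε / m * X := by
        refine sum_le_sum fun j hj => ?_
        rw [norm_mul]
        have h4 := hMA X hXa _ (hX₂ j X (hXb j hj))
        calc _ ≤ 1 * (ε / m * X) :=
              mul_le_mul (hcB j) h4 (norm_nonneg _) zero_le_one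
          _ = _ := one_mul _
    _ = ε * X := by
        rw [sum_const, card_range, nsmul_eq_mul]
        field_simp

end Pool.Agent.Lib.KM
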