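import Pool.Agent.Lib.MP_7b7e48_nt.KM.Stmts

/-!
# Kneser theorem (weak form) for finite abelian groups
-/

open Finset

open scoped Pointwise

namespace Pool.Agent.Lib.KM

namespace KneserMod

variable {G : Type} [AddCommGroup G] [Fintype G] [DecidableEq G]

/-- `C` is periodic for a subgroup `H` with `t ≤ |C| + |H|` -/
def Q (t : ℕ) (C : Finset G) : Prop :=
  ∃ H : AddSubgroup G, (∀ x ∈ C, ∀ h ∈ H, x + h ∈ C) ∧ t ≤ C.card + Nat.card H

open Classical in
/-- the finset of a subgroup -/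
noncomputable def fs (H : AddSubgroup G) : Finset G := univ.filter (fun x => x ∈ H)

theorem mem_fs {H : AddSubgroup G} {x : G} : x ∈ fs H ↔ x ∈ H := by
  simp [fs]

theorem card_fs (H : AddSubgroup G) : (fs H).card = Nat.card H := by
  classical
  rw [fs, Nat.card_eq_fintype_card, Fintype.card_subtype]

theorem fibre_le (H₁ H₂ : AddSubgroup G) (S T D : Finset G) (c : G) (hS : S ⊆ fs H₁)
    (hT : T ⊆ fs H₂) (hD : ∀ x ∈ S, ∀ y ∈ T, c + x + y ∈ D) :
    S.card * T.card ≤ (fs (H₁ ⊓ H₂)).card * D.card := by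
  rw [← card_product]
  refine card_le_mul_card_image_of_maps_to (f := fun p : G × G => c + p.1 + p.2) (t := D) ?_ _ ?_
  · intro p hp
    rw [mem_product] at hp
    exact hD p.1 hp.1 p.2 hp.2
  · intro g hg
    rcases (filter (fun a : G × G => c + a.1 + a.2 = g) (S ×ˢ T)).eq_empty_or_nonempty with h | h
    · simp [h]
    · obtain ⟨p₀, hp₀⟩ := h
      rw [mem_filter, mem_product] at hp₀
      refine card_le_card_of_injOn (fun p => p.1 - p₀.1) ?_ ?_
      · intro p hp
        rw [mem_coe, mem_filter, mem_product] at hp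
        have e1 : p.1 - p₀.1 = p₀.2 - p.2 := by
          have := hp.2.trans hp₀.2.symm
          have h2 : p.1 + p.2 = p₀.1 + p₀.2 := by
            have h3 : c + (p.1 + p.2) = c + (p₀.1 + p₀.2) := by
              rw [← add_assoc, ← add_assoc]; exact this
            exact add_left_cancel h3
          rw [sub_eq_sub_iff_add_eq_add, h2, add_comm]
        rw [mem_coe, mem_fs, AddSubgroup.mem_inf]
        constructor
        · exact H₁.sub_mem (mem_fs.1 (hS hp.1.1)) (mem_fs.1 (hS hp₀.1.1))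
        · show p.1 - p₀.1 ∈ H₂
          rw [e1]
          exact H₂.sub_mem (mem_fs.1 (hT hp₀.1.2)) (mem_fs.1 (hT hp.1.2))
      · intro p hp p' hp' hpp
        rw [mem_coe, mem_filter, mem_product] at hp hp'
        have h1 : p.1 = p'.1 := by
          have := hpp
          simp only at this
          exact sub_left_injective this
        have h2 := hp.2.trans hp'.2.symm
        rw [h1] at h2
        exact Prod.ext h1 (add_left_cancel h2)

theorem card_ge (H : AddSubgroup G) (S : Finset G) (hS : ∀ x ∈ S, ∀ h ∈ H, x + h ∈ S)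
    (hne : S.Nonempty) : (fs H).card ≤ S.card := by
  obtain ⟨x, hx⟩ := hne
  refine card_le_card_of_injOn (fun h => x + h) ?_ ?_
  · intro h hh
    exact hS x hx h (mem_fs.1 hh)
  · intro a _ b _ hab
    exact add_left_cancel hab

theorem numeric (p s r k h d e m n : ℕ) (hh : 0 < h) (hs : h ≤ s) (hk : h ≤ k)
    (hm : m = s + r) (hn : n = p + k) (h1 : s * k ≤ h * d) (h2 : p * r ≤ h * e)
    (hd : d + h < m) (he : e + h < n) (hp : p = 0 ∨ h ≤ p) : n < m := by
  rcases hp with hp | hp
  · subst hp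
    have h3 : h * k ≤ h * d := (Nat.mul_le_mul_right k hs).trans h1
    have h4 : k ≤ d := Nat.le_of_mul_le_mul_left h3 hh
    omega
  · exfalso
    have a1 : (s : ℤ) * k < h * (m - h) := by
      have : (s : ℤ) * k ≤ h * d := by exact_mod_cast h1
      have h3 : (d : ℤ) < m - h := by omega
      have h4 : (0 : ℤ) < h := by exact_mod_cast hh
      nlinarith
    have a2 : (p : ℤ) * r < h * (n - h) := by
      have : (p : ℤ) * r ≤ h * e := by exact_mod_cast h2
      have h3 : (e : ℤ) < n - h := by omega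
      have h4 : (0 : ℤ) < h := by exact_mod_cast hh
      nlinarith
    have hm' : (m : ℤ) = s + r := by exact_mod_cast hm
    have hn' : (n : ℤ) = p + k := by exact_mod_cast hn
    rw [hm'] at a1
    rw [hn'] at a2
    have b1 : (s : ℤ) * (k - h) < h * (r - h) := by nlinarith
    have b2 : (p : ℤ) * (r - h) < h * (k - h) := by nlinarith
    have c1 : (0 : ℤ) < h := by exact_mod_cast hh
    have c2 : (h : ℤ) ≤ s := by exact_mod_cast hs
    have c3 : (h : ℤ) ≤ k := by exact_mod_cast hk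
    have c4 : (h : ℤ) ≤ p := by exact_mod_cast hp
    have d1 : (h : ℤ) * (k - h) ≤ s * (k - h) := mul_le_mul_of_nonneg_right c2 (by linarith)
    have d2 : (k : ℤ) - h < r - h := lt_of_mul_lt_mul_left (d1.trans_lt b1) c1.le
    have d3 : (h : ℤ) * (r - h) ≤ p * (r - h) := mul_le_mul_of_nonneg_right c4 (by linarith)
    have d4 : (r : ℤ) - h < k - h := lt_of_mul_lt_mul_left (d3.trans_lt b2) c1.le
    linarith

theorem lt_of_mem (H₁ H₂ : AddSubgroup G) (C₁ C₂ : Finset G)
    (p₁ : ∀ x ∈ C₁, ∀ h ∈ H₁, x + h ∈ C₁) (p₂ : ∀ x ∈ C₂, ∀ h ∈ H₂, x + h ∈ C₂)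
    (h1 : (C₂ \ C₁).card + (fs (H₁ ⊓ H₂)).card < (fs H₁).card)
    (h2 : (C₁ \ C₂).card + (fs (H₁ ⊓ H₂)).card < (fs H₂).card) (c : G) (hc : c ∈ C₂ \ C₁) :
    (fs H₂).card < (fs H₁).card := by
  rw [mem_sdiff] at hc
  have m₁ : ∀ x : G, ∀ h ∈ H₁, (x + h ∈ C₁ ↔ x ∈ C₁) := fun x h hh =>
    ⟨fun hx => by simpa using p₁ _ hx (-h) (H₁.neg_mem hh), fun hx => p₁ x hx h hh⟩
  have m₂ : ∀ x : G, ∀ h ∈ H₂, (x + h ∈ C₂ ↔ x ∈ C₂) := fun x h hh =>
    ⟨fun hx => by simpa using p₂ _ hx (-h) (H₂.neg_mem hh), fun hx => p₂ x hx h hh⟩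
  set U := (fs H₂).filter (fun y => c + y ∈ C₁) with hU
  set U' := (fs H₂).filter (fun y => ¬ c + y ∈ C₁) with hU'
  set S := (fs H₁).filter (fun x => c + x ∈ C₂) with hS
  set S' := (fs H₁).filter (fun x => ¬ c + x ∈ C₂) with hS'
  have cU : U.card + U'.card = (fs H₂).card := card_filter_add_card_filter_not _
  have cS : S.card + S'.card = (fs H₁).card := card_filter_add_card_filter_not _
  have hpos : 0 < (fs (H₁ ⊓ H₂)).card := card_pos.2 ⟨0, mem_fs.2 (AddSubgroup.zero_mem _)⟩
  have f1 : S.card * U'.card ≤ (fs (H₁ ⊓ H₂)).card * (C₂ \ C₁).card := by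
    refine fibre_le H₁ H₂ S U' _ c (filter_subset _ _) (filter_subset _ _) ?_
    intro x hx y hy
    rw [hS, mem_filter, mem_fs] at hx
    rw [hU', mem_filter, mem_fs] at hy
    rw [mem_sdiff]
    refine ⟨(m₂ _ y hy.1).2 hx.2, fun h => hy.2 ?_⟩
    rw [add_right_comm] at h
    exact (m₁ _ x hx.1).1 h
  have f2 : U.card * S'.card ≤ (fs (H₁ ⊓ H₂)).card * (C₁ \ C₂).card := by
    rw [mul_comm]
    refine fibre_le H₁ H₂ S' U _ c (filter_subset _ _) (filter_subset _ _) ?_
    intro x hx y hy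
    rw [hS', mem_filter, mem_fs] at hx
    rw [hU, mem_filter, mem_fs] at hy
    rw [mem_sdiff]
    refine ⟨?_, fun h => hx.2 ((m₂ _ y hy.1).1 h)⟩
    rw [add_right_comm]
    exact (m₁ _ x hx.1).2 hy.2
  have g1 : (fs (H₁ ⊓ H₂)).card ≤ S.card := by
    refine card_ge _ S ?_ ⟨0, ?_⟩
    · intro x hx h hh
      rw [AddSubgroup.mem_inf] at hh
      rw [hS, mem_filter, mem_fs] at hx ⊢
      refine ⟨H₁.add_mem hx.1 hh.1, ?_⟩
      rw [← add_assoc]
      exact (m₂ _ h hh.2).2 hx.2
    · rw [hS, mem_filter, mem_fs]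
      exact ⟨H₁.zero_mem, by simpa using hc.1⟩
  have g2 : (fs (H₁ ⊓ H₂)).card ≤ U'.card := by
    refine card_ge _ U' ?_ ⟨0, ?_⟩
    · intro x hx h hh
      rw [AddSubgroup.mem_inf] at hh
      rw [hU', mem_filter, mem_fs] at hx ⊢
      refine ⟨H₂.add_mem hx.1 hh.2, ?_⟩
      rw [← add_assoc]
      exact fun h' => hx.2 ((m₁ _ h hh.1).1 h')
    · rw [hU', mem_filter, mem_fs]
      exact ⟨H₂.zero_mem, by simpa using hc.2⟩
  have g3 : U.card = 0 ∨ (fs (H₁ ⊓ H₂)).card ≤ U.card := by
    rcases U.eq_empty_or_nonempty with h | h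
    · left; simp [h]
    · right
      refine card_ge _ U ?_ h
      intro x hx h hh
      rw [AddSubgroup.mem_inf] at hh
      rw [hU, mem_filter, mem_fs] at hx ⊢
      refine ⟨H₂.add_mem hx.1 hh.2, ?_⟩
      rw [← add_assoc]
      exact (m₁ _ h hh.1).2 hx.2
  exact numeric U.card S.card S'.card U'.card _ _ _ _ _ hpos g1 g2 cS.symm cU.symm f1 f2 h1 h2 g3

theorem union {t : ℕ} {C₁ C₂ : Finset G} (h₁ : Q t C₁) (h₂ : Q t C₂) : Q t (C₁ ∪ C₂) := by
  obtain ⟨H₁, p₁, t₁⟩ := h₁
  obtain ⟨H₂, p₂, t₂⟩ := h₂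
  by_cases e1 : C₂ \ C₁ = ∅
  · have : C₁ ∪ C₂ = C₁ := union_eq_left.2 (sdiff_eq_empty_iff_subset.1 e1)
    rw [this]
    exact ⟨H₁, p₁, t₁⟩
  by_cases e2 : C₁ \ C₂ = ∅
  · have : C₁ ∪ C₂ = C₂ := union_eq_right.2 (sdiff_eq_empty_iff_subset.1 e2)
    rw [this]
    exact ⟨H₂, p₂, t₂⟩
  refine ⟨H₁ ⊓ H₂, ?_, ?_⟩
  · intro x hx h hh
    rw [AddSubgroup.mem_inf] at hh
    rw [mem_union] at hx ⊢
    rcases hx with hx | hx
    · exact Or.inl (p₁ x hx h hh.1)
    · exact Or.inr (p₂ x hx h hh.2)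
  · rw [← card_fs] at t₁ t₂ ⊢
    have c1 : (C₁ ∪ C₂).card = C₁.card + (C₂ \ C₁).card := by
      rw [← union_sdiff_self_eq_union, card_union_of_disjoint disjoint_sdiff]
    have c2 : (C₁ ∪ C₂).card = C₂.card + (C₁ \ C₂).card := by
      rw [union_comm, ← union_sdiff_self_eq_union, card_union_of_disjoint disjoint_sdiff]
    by_contra hcon
    have h1 : (C₂ \ C₁).card + (fs (H₁ ⊓ H₂)).card < (fs H₁).card := by omega
    have h2 : (C₁ \ C₂).card + (fs (H₁ ⊓ H₂)).card < (fs H₂).card := by omega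
    obtain ⟨c, hc⟩ := nonempty_iff_ne_empty.2 e1
    obtain ⟨c', hc'⟩ := nonempty_iff_ne_empty.2 e2
    have l1 := lt_of_mem H₁ H₂ C₁ C₂ p₁ p₂ h1 h2 c hc
    rw [inf_comm] at h1 h2
    have l2 := lt_of_mem H₂ H₁ C₂ C₁ p₂ p₁ h2 h1 c' hc'
    omega

theorem biUnion {ι : Type} [DecidableEq ι] {t : ℕ} (s : Finset ι) (hs : s.Nonempty)
    (C : ι → Finset G) (h : ∀ i ∈ s, Q t (C i)) : Q t (s.biUnion C) := by
  induction s using Finset.induction_on with
  | empty => exact absurd hs (by simp)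
  | insert a s ha ih =>
    rw [biUnion_insert]
    rcases s.eq_empty_or_nonempty with he | hne
    · subst he
      simpa using h a (mem_insert_self _ _)
    · exact union (h a (mem_insert_self _ _)) (ih hne fun i hi => h i (mem_insert_of_mem hi))

/-- the e-transform -/
theorem etransform (A B : Finset G) (a₀ b₀ : G) (ha : a₀ ∈ A) (hb : b₀ ∈ B) :
    ∃ C : Finset G, a₀ + b₀ ∈ C ∧ C ⊆ A + B ∧ Q (A.card + B.card) C := by
  classical
  let P : ℕ → Prop := fun n => ∃ A' B' : Finset G, B'.card = n ∧ a₀ + b₀ ∈ A' ∧ (0 : G) ∈ B' ∧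
    A' + B' ⊆ A + B ∧ A.card + B.card ≤ A'.card + B'.card
  have hP : ∃ n, P n := by
    refine ⟨_, A.image (fun x => x + b₀), B.image (fun x => x - b₀), rfl, ?_, ?_, ?_, ?_⟩
    · exact mem_image_of_mem _ ha
    · exact mem_image.2 ⟨b₀, hb, sub_self _⟩
    · intro z hz
      obtain ⟨x, hx, y, hy, rfl⟩ := mem_add.1 hz
      obtain ⟨x', hx', rfl⟩ := mem_image.1 hx
      obtain ⟨y', hy', rfl⟩ := mem_image.1 hy
      have : x' + b₀ + (y' - b₀) = x' + y' := by abel
      rw [this]
      exact add_mem_add hx' hy'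
    · rw [card_image_of_injective _ (add_left_injective b₀),
        card_image_of_injective _ sub_left_injective]
  obtain ⟨A', B', hn, h0, hz, hsub, hcard⟩ := Nat.find_spec hP
  have hmin : ∀ A'' B'' : Finset G, a₀ + b₀ ∈ A'' → (0 : G) ∈ B'' → A'' + B'' ⊆ A + B →
      A.card + B.card ≤ A''.card + B''.card → B'.card ≤ B''.card := by
    intro A'' B'' g1 g2 g3 g4
    rw [hn]
    exact Nat.find_min' hP ⟨A'', B'', rfl, g1, g2, g3, g4⟩
  have key : ∀ x ∈ A', ∀ b ∈ B', x + b ∈ A' := by
    intro x hx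
    set X := B'.image (fun b => x + b) with hX
    set Y := B'.filter (fun b => x + b ∈ A') with hY
    have cX : (X \ A').card + Y.card = B'.card := by
      have : X \ A' = (B'.filter (fun b => ¬ x + b ∈ A')).image (fun b => x + b) := by
        ext z
        simp only [hX, mem_sdiff, mem_image, mem_filter]
        constructor
        · rintro ⟨⟨b, hb, rfl⟩, hz⟩
          exact ⟨b, ⟨hb, hz⟩, rfl⟩
        · rintro ⟨b, ⟨hb, hz⟩, rfl⟩
          exact ⟨⟨b, hb, rfl⟩, hz⟩
      rw [this, card_image_of_injective _ (add_right_injective x), add_comm]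
      exact card_filter_add_card_filter_not _
    have hle := hmin (A' ∪ X) Y (mem_union_left _ h0) (by
        rw [hY, mem_filter]
        exact ⟨hz, by simpa using hx⟩) (by
        intro z hz'
        obtain ⟨u, hu, v, hv, rfl⟩ := mem_add.1 hz'
        rw [hY, mem_filter] at hv
        rw [mem_union] at hu
        rcases hu with hu | hu
        · exact hsub (add_mem_add hu hv.1)
        · obtain ⟨b, hb', rfl⟩ := mem_image.1 hu
          have : x + b + v = (x + v) + b := by abel
          rw [this]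
          exact hsub (add_mem_add hv.2 hb')) (by
        rw [← union_sdiff_self_eq_union, card_union_of_disjoint disjoint_sdiff]
        omega)
    have hYB : Y = B' := eq_of_subset_of_card_le (filter_subset _ _) hle
    intro b hb'
    rw [← hYB, hY, mem_filter] at hb'
    exact hb'.2
  have key2 : ∀ b ∈ B', A'.image (fun x => x + b) = A' := by
    intro b hb'
    refine eq_of_subset_of_card_le ?_ ?_
    · intro z hz'
      obtain ⟨x, hx, rfl⟩ := mem_image.1 hz'
      exact key x hx b hb'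
    · rw [card_image_of_injective _ (add_left_injective b)]
  refine ⟨A', h0, ?_, ?_⟩
  · intro x hx
    have := hsub (add_mem_add hx hz)
    simpa using this
  · let H : AddSubgroup G :=
      { carrier := {g | ∀ x, x + g ∈ A' ↔ x ∈ A'}
        add_mem' := by
          intro a b ha' hb' x
          rw [← add_assoc, hb' (x + a), ha' x]
        zero_mem' := by
          intro x
          rw [add_zero]
        neg_mem' := by
          intro a ha' x
          have := ha' (x + -a)
          rw [neg_add_cancel_right] at this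
          exact this.symm }
    refine ⟨H, ?_, ?_⟩
    · intro x hx h hh
      exact (hh x).2 hx
    · have hle : B'.card ≤ Nat.card H := by
        rw [← card_fs]
        refine card_le_card ?_
        intro b hb'
        rw [mem_fs]
        intro x
        constructor
        · intro hx
          rw [← key2 b hb', mem_image] at hx
          obtain ⟨y, hy, hyx⟩ := hx
          rwa [← add_right_cancel hyx]
        · intro hx
          exact key x hx b hb'
      omega

end KneserMod

open KneserMod in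
theorem kneser_holds : KneserS := by
  intro G _ _ _ A B hA hB
  classical
  choose! C h0 hsub hQ using fun (p : G × G) (hp : p.1 ∈ A ∧ p.2 ∈ B) =>
    etransform A B p.1 p.2 hp.1 hp.2
  have hU : (A ×ˢ B).biUnion C = A + B := by
    ext z
    rw [mem_biUnion]
    constructor
    · rintro ⟨p, hp, hz⟩
      exact hsub p (mem_product.1 hp) hz
    · intro hz
      obtain ⟨a, ha, b, hb, rfl⟩ := mem_add.1 hz
      exact ⟨(a, b), mem_product.2 ⟨ha, hb⟩, h0 (a, b) ⟨ha, hb⟩⟩
  have := biUnion (t := A.card + B.card) (A ×ˢ B) (hA.product hB) C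
    (fun p hp => hQ p (mem_product.1 hp))
  rw [hU] at this
  exact this

end Pool.Agent.Lib.KM
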