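import Pool.Agent.Lib.MP_7b7e48_nt.KM.Stmts

/-!
# KM project, module A3: popular sums of the glued models
-/

open Finset

namespace Pool.Agent.Lib.KM.PopCount

open Pool.Agent.Lib.GT (e lam Lw V pr Tw Rough)

theorem sum_split {M : Type*} [AddCommMonoid M] (H N : ℕ) (g : ℕ → M) :
    ∑ n ∈ range (H * N), g n = ∑ n₀ ∈ range H, ∑ k ∈ range N, g (H * k + n₀) := by
  rw [sum_comm]
  induction N with
  | zero => simp
  | succ N ih =>
    rw [Nat.mul_succ, sum_range_add, ih, sum_range_succ]

theorem sum_mod (q m : ℕ) (f : ℕ → ℝ) :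
    ∑ n ∈ range (q * m), f (n % q) = m * ∑ z ∈ range q, f z := by
  rw [sum_split]
  have : ∀ n₀ ∈ range q, ∑ k ∈ range m, f ((q * k + n₀) % q) = m * f n₀ := by
    intro n₀ hn
    have h1 : ∀ k ∈ range m, f ((q * k + n₀) % q) = f n₀ := by
      intro k _
      rw [Nat.mul_add_mod, Nat.mod_eq_of_lt (mem_range.1 hn)]
    rw [sum_congr rfl h1, sum_const, card_range, nsmul_eq_mul]
  rw [sum_congr rfl this, mul_sum]

theorem card_split (H N : ℕ) (P : ℕ → Prop) [DecidablePred P] :
    ((range (H * N)).filter P).card =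
      ∑ n₀ ∈ range H, ((range N).filter (fun k => P (H * k + n₀))).card := by
  simp only [card_filter]
  exact sum_split H N (fun n => if P n then 1 else 0)

theorem exists_min (q : ℕ) (a : ℕ → ℝ) : ∃ m : ℝ, 0 < m ∧ ∀ u < q, 0 < a u → m ≤ a u := by
  induction q with
  | zero => exact ⟨1, one_pos, fun u hu => absurd hu (Nat.not_lt_zero u)⟩
  | succ q ih =>
    obtain ⟨m, hm, h⟩ := ih
    by_cases hq : 0 < a q
    · refine ⟨min m (a q), lt_min hm hq, fun u hu h0 => ?_⟩
      rcases Nat.lt_succ_iff_lt_or_eq.1 hu with h1 | h1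
      · exact (min_le_left _ _).trans (h u h1 h0)
      · rw [h1]; exact min_le_right _ _
    · refine ⟨m, hm, fun u hu h0 => ?_⟩
      rcases Nat.lt_succ_iff_lt_or_eq.1 hu with h1 | h1
      · exact h u h1 h0
      · rw [h1] at h0; exact absurd h0 hq

theorem kz_cases (q : ℕ) (a b : ℕ → ℝ) (z : ℕ) (hq : 0 < q) :
    kz q a b z = 0 ∨ ∃ u v : ℕ, u < q ∧ v < q ∧ u.Coprime q ∧ v.Coprime q ∧
      (u + v) % q = (2 * z) % q ∧ 0 < a u ∧ 0 < b v ∧ kz q a b z = min 1 (a u + b v) := by
  have : NeZero q := ⟨hq.ne'⟩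
  obtain ⟨p, hp⟩ := exists_eq_ciSup_of_finite (f := fun p : Fin q × Fin q =>
    if (p.1 : ℕ).Coprime q ∧ (p.2 : ℕ).Coprime q ∧
    ((p.1 : ℕ) + p.2) % q = (2 * z) % q ∧ 0 < a p.1 ∧ 0 < b p.2 then min 1 (a p.1 + b p.2) else 0)
  by_cases hc : (p.1 : ℕ).Coprime q ∧ (p.2 : ℕ).Coprime q ∧
    ((p.1 : ℕ) + p.2) % q = (2 * z) % q ∧ 0 < a p.1 ∧ 0 < b p.2
  · right
    rw [if_pos hc] at hp
    exact ⟨p.1, p.2, p.1.2, p.2.2, hc.1, hc.2.1, hc.2.2.1, hc.2.2.2.1, hc.2.2.2.2, hp.symm⟩
  · left
    rw [if_neg hc] at hp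
    exact hp.symm

/-- double counting: many `k` are popular for many `b` -/
theorem double_count {ι : Type*} (R : Finset ι) (N : ℕ) (P : ι → ℕ → Prop)
    [∀ i, DecidablePred (P i)] (M e₁ : ℝ) (hR : 0 < R.card) (he : 0 ≤ e₁)
    (h : ∀ i ∈ R, M * N - 1 ≤ (((range N).filter (P i)).card : ℝ)) :
    (M - e₁) * N - 1 ≤ (((range N).filter (fun k => e₁ * R.card ≤
      ((R.filter (fun i => P i k)).card : ℝ))).card : ℝ) := by
  have hR' : (0 : ℝ) < R.card := by exact_mod_cast hR
  have h1 : (R.card : ℝ) * (M * N - 1) ≤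
      ∑ k ∈ range N, ((R.filter (fun i => P i k)).card : ℝ) := by
    have h2 : ∑ k ∈ range N, ((R.filter (fun i => P i k)).card : ℝ) =
        ∑ i ∈ R, (((range N).filter (P i)).card : ℝ) := by
      simp only [card_filter, Nat.cast_sum]
      rw [sum_comm]
    rw [h2]
    calc (R.card : ℝ) * (M * N - 1) = ∑ i ∈ R, (M * N - 1) := by
          rw [sum_const, nsmul_eq_mul]
      _ ≤ _ := sum_le_sum h
  have h3 : ∑ k ∈ range N, ((R.filter (fun i => P i k)).card : ℝ) ≤
      ∑ k ∈ range N, ((if e₁ * R.card ≤ ((R.filter (fun i => P i k)).card : ℝ) then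
        (R.card : ℝ) else 0) + e₁ * R.card) := by
    refine sum_le_sum fun k _ => ?_
    split_ifs with hk
    · have : ((R.filter (fun i => P i k)).card : ℝ) ≤ R.card := by
        exact_mod_cast card_filter_le _ _
      have : 0 ≤ e₁ * R.card := mul_nonneg he hR'.le
      linarith
    · linarith [not_le.1 hk]
  rw [sum_add_distrib, ← sum_filter, sum_const, sum_const, card_range, nsmul_eq_mul,
    nsmul_eq_mul] at h3
  have h4 := h1.trans h3
  have h5 : (R.card : ℝ) * ((M - e₁) * N - 1) ≤ R.card *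
    (((range N).filter (fun k => e₁ * R.card ≤
      ((R.filter (fun i => P i k)).card : ℝ))).card : ℝ) := by
    nlinarith
  exact le_of_mul_le_mul_left h5 hR'

/-- counting after a shift by `δ ∈ {0, 1}` -/
theorem shift_count (N δ : ℕ) (hδ : δ ≤ 1) (Q : ℕ → Prop) [DecidablePred Q] :
    (((range N).filter Q).card : ℝ) - 1 ≤
      (((range N).filter (fun k => δ ≤ k ∧ Q (k - δ))).card : ℝ) := by
  rcases Nat.le_one_iff_eq_zero_or_eq_one.1 hδ with rfl | rfl
  · have : (range N).filter (fun k => 0 ≤ k ∧ Q (k - 0)) = (range N).filter Q := by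
      ext k; simp
    rw [this]; linarith
  · have h1 : ((range N).filter Q).card ≤
        ((range N).filter (fun k => 1 ≤ k ∧ Q (k - 1))).card + 1 := by
      have h2 : ((range N).filter Q) ⊆
          insert (N - 1) (((range N).filter (fun k => 1 ≤ k ∧ Q (k - 1))).image
            (fun k => k - 1)) := by
        intro k hk
        rw [mem_filter, mem_range] at hk
        rw [mem_insert, mem_image]
        by_cases hk1 : k = N - 1
        · exact Or.inl hk1
        · right
          refine ⟨k + 1, ?_, by omega⟩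
          rw [mem_filter, mem_range]
          refine ⟨by omega, by omega, ?_⟩
          simpa using hk.2
      calc _ ≤ _ := card_le_card h2
        _ ≤ _ := card_insert_le _ _
        _ ≤ _ := Nat.add_le_add_right card_image_le 1
    have : (((range N).filter Q).card : ℝ) ≤
        (((range N).filter (fun k => 1 ≤ k ∧ Q (k - 1))).card : ℝ) + 1 := by exact_mod_cast h1
    linarith

theorem V_pos (w : ℕ) : 0 < V w := by
  unfold V
  refine prod_pos fun p hp => ?_
  have : p.Prime := (mem_filter.1 hp).2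
  have h2 : (2 : ℝ) ≤ p := by exact_mod_cast this.two_le
  have : 1 / (p : ℝ) ≤ 1 / 2 := one_div_le_one_div_of_le (by norm_num) h2
  linarith

/-- the complementary residue -/
def comp (W s b : ℕ) : ℕ := if b ≤ s then s - b else s + W - b

/-- the shift -/
def dl (s b : ℕ) : ℕ := if b ≤ s then 0 else 1

theorem dl_le (s b : ℕ) : dl s b ≤ 1 := by unfold dl; split_ifs <;> omega

theorem comp_lt {W s b : ℕ} (hs : s < W) (hb : b < W) : comp W s b < W := by
  unfold comp; split_ifs <;> omega

theorem add_comp {W s b : ℕ} (hb : b < W) : b + comp W s b = s + dl s b * W := by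
  unfold comp dl; split_ifs <;> omega

theorem comp_coprime {W s b : ℕ} (h : (s + W - b).Coprime W) : (comp W s b).Coprime W := by
  unfold comp
  split_ifs with hb
  · have : s + W - b = (s - b) + W := by omega
    rw [this] at h
    exact (Nat.coprime_add_self_left).1 h
  · exact h

theorem glue_eq (w W N : ℕ) (F : ℕ → ℕ → ℝ) {b m : ℕ} (hb : b < W) (hc : b.Coprime W)
    (hm : m < N) : glue w W N F (W * m + b) = (V w)⁻¹ * F b m := by
  unfold glue
  have hW : 0 < W := by omega
  have h1 : (W * m + b) % W = b := by rw [Nat.mul_add_mod, Nat.mod_eq_of_lt hb]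
  have h2 : (W * m + b) / W = m := by
    rw [Nat.mul_add_div hW, Nat.div_eq_of_lt hb, add_zero]
  have h3 : (W * m + b).Coprime W := by
    rw [add_comm]
    exact (Nat.coprime_add_mul_left_left b W m).2 hc
  have h4 : W * m + b < W * N := by
    calc W * m + b < W * m + W := by omega
      _ = W * (m + 1) := by ring
      _ ≤ W * N := Nat.mul_le_mul_left _ hm
  rw [if_pos ⟨h3, h4⟩, h1, h2]

theorem glue_nonneg (w W N : ℕ) (F : ℕ → ℕ → ℝ) (hF : ∀ b m, 0 ≤ F b m) (n : ℕ) :
    0 ≤ glue w W N F n := by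
  unfold glue
  split_ifs
  · exact mul_nonneg (inv_nonneg.2 (V_pos w).le) (hF _ _)
  · exact le_rfl

/-- the convolution at `W k + s` dominates the sum over the classes in `R'` -/
theorem conv_lower (w W N k s : ℕ) (F G : ℕ → ℕ → ℝ) (hF : ∀ b m, 0 ≤ F b m)
    (hG : ∀ b m, 0 ≤ G b m) (hs : s < W) (hk : k < N) (R : Finset ℕ) (T : ℝ)
    (hR : ∀ b ∈ R, b < W ∧ b.Coprime W ∧ (s + W - b).Coprime W ∧ dl s b ≤ k ∧
      T ≤ ∑ x ∈ range (k - dl s b + 1), F b x * G (comp W s b) (k - dl s b - x)) :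
    (V w)⁻¹ ^ 2 * (R.card * T) ≤
      ∑ x ∈ range (W * k + s + 1), glue w W N F x * glue w W N G (W * k + s - x) := by
  have hV : 0 < (V w)⁻¹ := inv_pos.2 (V_pos w)
  have hgF := glue_nonneg w W N F hF
  have hgG := glue_nonneg w W N G hG
  set g : ℕ → ℝ := fun x => if x < W * k + s + 1 then
    glue w W N F x * glue w W N G (W * k + s - x) else 0 with hg
  have hg0 : ∀ x, 0 ≤ g x := by
    intro x
    simp only [hg]
    split_ifs
    · exact mul_nonneg (hgF _) (hgG _)
    · exact le_rfl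
  have h1 : ∑ x ∈ range (W * k + s + 1), glue w W N F x * glue w W N G (W * k + s - x) =
      ∑ x ∈ range (W * (k + 1)), g x := by
    have hle : W * k + s + 1 ≤ W * (k + 1) := by
      rw [Nat.mul_succ]; omega
    rw [← sum_subset (range_subset_range.2 hle)]
    · refine sum_congr rfl fun x hx => ?_
      simp only [hg]
      rw [if_pos (mem_range.1 hx)]
    · intro x _ hx
      simp only [hg]
      rw [if_neg (fun h => hx (mem_range.2 h))]
  rw [h1, sum_split]
  have hRW : R ⊆ range W := fun b hb => mem_range.2 (hR b hb).1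
  refine le_trans ?_ (sum_le_sum_of_subset_of_nonneg hRW
    (fun b _ _ => sum_nonneg fun m _ => hg0 _))
  have h2 : ∀ b ∈ R, (V w)⁻¹ ^ 2 * T ≤ ∑ m ∈ range (k + 1), g (W * m + b) := by
    intro b hb
    obtain ⟨hbW, hbc, hcc, hd, hT⟩ := hR b hb
    have hsub : range (k - dl s b + 1) ⊆ range (k + 1) := range_subset_range.2 (by omega)
    refine le_trans ?_ (sum_le_sum_of_subset_of_nonneg hsub (fun m _ _ => hg0 _))
    have h3 : ∀ m ∈ range (k - dl s b + 1), g (W * m + b) =
        (V w)⁻¹ ^ 2 * (F b m * G (comp W s b) (k - dl s b - m)) := by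
      intro m hm
      rw [mem_range] at hm
      have hadd := add_comp (W := W) (s := s) hbW
      have hkey : W * k + s = (W * m + b) + (W * (k - dl s b - m) + comp W s b) := by
        have h4 : k = m + (k - dl s b - m) + dl s b := by omega
        have h5 : W * k = W * m + W * (k - dl s b - m) + W * dl s b := by
          conv_lhs => rw [h4]
          ring
        have h6 : dl s b * W = W * dl s b := by ring
        omega
      simp only [hg]
      rw [if_pos (by omega)]
      have h7 : W * k + s - (W * m + b) = W * (k - dl s b - m) + comp W s b := by omega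
      rw [h7, glue_eq w W N F hbW hbc (by omega),
        glue_eq w W N G (comp_lt hs hbW) (comp_coprime hcc) (by omega)]
      ring
    rw [sum_congr rfl h3, ← mul_sum]
    exact mul_le_mul_of_nonneg_left hT (by positivity)
  calc (V w)⁻¹ ^ 2 * (R.card * T) = ∑ b ∈ R, (V w)⁻¹ ^ 2 * T := by
        rw [sum_const, nsmul_eq_mul]; ring
    _ ≤ _ := sum_le_sum h2

end Pool.Agent.Lib.KM.PopCount

namespace Pool.Agent.Lib.KM

open Pool.Agent.Lib.GT (e lam Lw V pr Tw Rough)
open PopCount

theorem popCount_of (hI : PopIntS) (hL : LocalPairsS) : PopCountS := by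
  intro q a b hq ha hb ε hε
  obtain ⟨ma, hma, hma'⟩ := exists_min q a
  obtain ⟨mb, hmb, hmb'⟩ := exists_min q b
  obtain ⟨e₁, he₁, h14, h1a, h1b⟩ : ∃ e₁ : ℝ, 0 < e₁ ∧ e₁ ≤ ε / 4 ∧ e₁ ≤ ma ∧ e₁ ≤ mb :=
    ⟨min (ε / 4) (min ma mb), lt_min (by linarith) (lt_min hma hmb), min_le_left _ _,
      (min_le_right _ _).trans (min_le_left _ _), (min_le_right _ _).trans (min_le_right _ _)⟩
  obtain ⟨c₁, κ, hc₁, hκ, q₀, N₁, hq₀, hI'⟩ := hI e₁ he₁
  obtain ⟨cq, hcq, hL'⟩ := hL q hq
  refine ⟨e₁ * cq * c₁, κ, by positivity, hκ, q₀, hq₀, max 2 q, max N₁ (⌈2 / ε⌉₊ + 1), ?_⟩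
  intro w hw N hN A B η F G hF hG
  have hw2 : 2 ≤ w := (le_max_left _ _).trans hw
  have hqw : q ≤ w := (le_max_right _ _).trans hw
  have hN1 : N₁ ≤ N := (le_max_left _ _).trans hN
  have hN2 : 2 / ε ≤ N := by
    have h1 : ⌈2 / ε⌉₊ + 1 ≤ N := (le_max_right _ _).trans hN
    have h2 : (⌈2 / ε⌉₊ : ℝ) ≤ N := by exact_mod_cast (Nat.le_succ _).trans h1
    exact (Nat.le_ceil _).trans h2
  have hN3 : 1 ≤ ε / 2 * N := by
    rw [div_le_iff₀ hε] at hN2
    linarith
  have h2mem : 2 ∈ pr w := by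
    unfold pr
    rw [mem_filter, mem_range]
    exact ⟨by omega, Nat.prime_two⟩
  obtain ⟨P', hP'⟩ : 2 ∣ ∏ p ∈ pr w, p := dvd_prod_of_mem (fun p => p) h2mem
  obtain ⟨W, hW⟩ : ∃ W, W = Wq q w := ⟨_, rfl⟩
  have hWq : W = 2 * (q * P') := by rw [hW, Wq, hP']; ring
  have hpp : 0 < ∏ p ∈ pr w, p := prod_pos fun p hp => (mem_filter.1 hp).2.pos
  have hP'0 : 0 < P' := by omega
  have hW0 : 0 < W := by rw [hWq]; positivity
  have hH : W / 2 = q * P' := by rw [hWq]; omega
  have hVp := V_pos w
  rw [← hW]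
  rw [hH]
  have hkey : ∀ n₀ ∈ range (q * P'), (kz q a b (n₀ % q) - 2 * e₁) * N - 1 ≤
      (((range N).filter (fun k => e₁ * cq * c₁ * (W * N : ℕ) ≤
        ∑ x ∈ range (2 * (q * P' * k + n₀) + 1), glue w W N F x *
          glue w W N G (2 * (q * P' * k + n₀) - x))).card : ℝ) := by
    intro n₀ hn₀
    rw [mem_range] at hn₀
    rcases kz_cases q a b (n₀ % q) hq with h0 | ⟨u, v, hu, hv, huc, hvc, huv, hau, hbv, hk⟩
    · rw [h0]
      have : (0 : ℝ) ≤ (((range N).filter (fun k => e₁ * cq * c₁ * (W * N : ℕ) ≤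
        ∑ x ∈ range (2 * (q * P' * k + n₀) + 1), glue w W N F x *
          glue w W N G (2 * (q * P' * k + n₀) - x))).card : ℝ) := Nat.cast_nonneg _
      nlinarith [Nat.cast_nonneg (α := ℝ) N]
    · rw [hk]
      have hs : 2 * n₀ < W := by omega
      have huv' : (u + v) % q = (2 * n₀) % q := by
        rw [huv, Nat.mul_mod, Nat.mod_mod, ← Nat.mul_mod]
      have hloc := hL' w hw2 hqw (2 * n₀) u v (even_two_mul _) huc hvc huv'
      rw [← hW] at hloc
      set R := (range W).filter (fun b => b.Coprime W ∧ (2 * n₀ + W - b).Coprime W ∧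
        b % q = u % q) with hR
      have hRpos : (0 : ℝ) < R.card := lt_of_lt_of_le (by positivity) hloc
      have hRpos' : 0 < R.card := by exact_mod_cast hRpos
      have hone : ∀ i ∈ R, (min 1 (a u + b v) - e₁) * N - 1 ≤
          (((range N).filter (fun k => dl (2 * n₀) i ≤ k ∧
            c₁ * N ≤ ∑ x ∈ range (k - dl (2 * n₀) i + 1),
              F i x * G (comp W (2 * n₀) i) (k - dl (2 * n₀) i - x))).card : ℝ) := by
        intro i hi
        rw [hR, mem_filter, mem_range] at hi
        obtain ⟨hiW, hic, hic2, hiu⟩ := hi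
        have hcl := comp_lt (s := 2 * n₀) hs hiW
        have hcc := comp_coprime hic2
        have hadd := add_comp (W := W) (s := 2 * n₀) hiW
        have hiu' : i % q = u := by rw [hiu, Nat.mod_eq_of_lt hu]
        have hcv : comp W (2 * n₀) i % q = v := by
          have hqW : W ≡ 0 [MOD q] := by
            rw [Nat.modEq_zero_iff_dvd, hWq]
            exact ⟨2 * P', by ring⟩
          have h1 : i + comp W (2 * n₀) i ≡ i + v [MOD q] := by
            rw [hadd]
            calc 2 * n₀ + dl (2 * n₀) i * W ≡ 2 * n₀ + dl (2 * n₀) i * 0 [MOD q] :=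
                  (Nat.ModEq.refl _).add ((Nat.ModEq.refl _).mul hqW)
              _ = 2 * n₀ := by ring
              _ ≡ u + v [MOD q] := huv'.symm
              _ ≡ i + v [MOD q] := by
                  refine Nat.ModEq.add ?_ (Nat.ModEq.refl _)
                  exact hiu.symm
          have h2 : comp W (2 * n₀) i ≡ v [MOD q] := Nat.ModEq.add_left_cancel' i h1
          have h3 : comp W (2 * n₀) i % q = v % q := h2
          rw [h3, Nat.mod_eq_of_lt hv]
        have hpop := hI' N hN1 (a u) (b v) (h1a.trans (hma' u hu hau))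
          (h1b.trans (hmb' v hv hbv)) (ha u).2 (hb v).2 (F i) (G (comp W (2 * n₀) i))
          (hF.1 i) (hG.1 _) (hF.2.1 i) (hG.2.1 _)
          (fun s t r hst htN hr => by
            have := hF.2.2.2 i (hW ▸ hiW) (hW ▸ hic) s t r hst htN hr
            rwa [hiu'] at this)
          (fun s t r hst htN hr => by
            have := hG.2.2.2 (comp W (2 * n₀) i) (hW ▸ hcl) (hW ▸ hcc) s t r hst htN hr
            rwa [hcv] at this)
        have hsh := shift_count N (dl (2 * n₀) i) (dl_le _ _)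
          (fun k => c₁ * N ≤ ∑ x ∈ range (k + 1), F i x * G (comp W (2 * n₀) i) (k - x))
        linarith
      have hdc := double_count R N (fun i k => dl (2 * n₀) i ≤ k ∧
            c₁ * N ≤ ∑ x ∈ range (k - dl (2 * n₀) i + 1),
              F i x * G (comp W (2 * n₀) i) (k - dl (2 * n₀) i - x))
        (min 1 (a u + b v) - e₁) e₁ hRpos' he₁.le hone
      have heq : (min 1 (a u + b v) - 2 * e₁) * (N : ℝ) - 1 =
          (min 1 (a u + b v) - e₁ - e₁) * N - 1 := by ring
      rw [heq]
      refine hdc.trans ?_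
      have hsub : (range N).filter (fun k => e₁ * R.card ≤
          ((R.filter (fun i => dl (2 * n₀) i ≤ k ∧
            c₁ * N ≤ ∑ x ∈ range (k - dl (2 * n₀) i + 1),
              F i x * G (comp W (2 * n₀) i) (k - dl (2 * n₀) i - x))).card : ℝ)) ⊆
          (range N).filter (fun k => e₁ * cq * c₁ * (W * N : ℕ) ≤
            ∑ x ∈ range (2 * (q * P' * k + n₀) + 1), glue w W N F x *
              glue w W N G (2 * (q * P' * k + n₀) - x)) := by
        intro k hk'
        rw [mem_filter, mem_range] at hk' ⊢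
        refine ⟨hk'.1, ?_⟩
        have h2n : 2 * (q * P' * k + n₀) = W * k + 2 * n₀ := by rw [hWq]; ring
        rw [h2n]
        refine le_trans ?_ (conv_lower w W N k (2 * n₀) F G (fun b m => (hF.1 b m).1)
          (fun b m => (hG.1 b m).1) hs hk'.1 (R.filter (fun i => dl (2 * n₀) i ≤ k ∧
            c₁ * N ≤ ∑ x ∈ range (k - dl (2 * n₀) i + 1),
              F i x * G (comp W (2 * n₀) i) (k - dl (2 * n₀) i - x))) (c₁ * N) ?_)
        · have h5 : cq * W * V w ^ 2 * e₁ ≤
              ((R.filter (fun i => dl (2 * n₀) i ≤ k ∧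
            c₁ * N ≤ ∑ x ∈ range (k - dl (2 * n₀) i + 1),
              F i x * G (comp W (2 * n₀) i) (k - dl (2 * n₀) i - x))).card : ℝ) := by
            refine le_trans ?_ hk'.2
            rw [mul_comm e₁]
            exact mul_le_mul_of_nonneg_right hloc he₁.le
          have h6 : e₁ * cq * c₁ * ((W * N : ℕ) : ℝ) =
              (V w)⁻¹ ^ 2 * (cq * W * V w ^ 2 * e₁ * (c₁ * N)) := by
            push_cast
            field_simp
          rw [h6]
          refine mul_le_mul_of_nonneg_left ?_ (by positivity)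
          exact mul_le_mul_of_nonneg_right h5 (by positivity)
        · intro i hi
          rw [mem_filter, hR, mem_filter, mem_range] at hi
          exact ⟨hi.1.1, hi.1.2.1, hi.1.2.2.1, hi.2.1, hi.2.2⟩
      exact_mod_cast card_le_card hsub
  have hsum := sum_le_sum hkey
  rw [card_split (q * P') N, Nat.cast_sum]
  refine le_trans ?_ hsum
  rw [sum_sub_distrib, ← sum_mul, sum_sub_distrib, sum_mod q P' (kz q a b), sum_const, sum_const,
    card_range, nsmul_eq_mul, nsmul_eq_mul]
  have hK : ∑ z ∈ range q, kz q a b z = q * K q a b := by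
    unfold K
    have : (q : ℝ) ≠ 0 := by exact_mod_cast hq.ne'
    field_simp
  rw [hK]
  have hHpos : (0 : ℝ) ≤ (q : ℝ) * P' := by positivity
  push_cast
  have h7 : 0 ≤ (q : ℝ) * P' * (ε * N - 2 * e₁ * N - 1) := by
    refine mul_nonneg hHpos ?_
    nlinarith [Nat.cast_nonneg (α := ℝ) N]
  nlinarith [h7]

end Pool.Agent.Lib.KM
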