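import Pool.Agent.Lib.MP_7b7e48_nt.KM.Stmts
import Pool.Agent.Lib.MP_7b7e48_nt.GT.ConvL2

/-!
# D1: properties of the smoothed function
-/

open Finset

namespace Pool.Agent.Lib.KM

open Pool.Agent.Lib.GT (e lam Lw V pr Tw Rough)

namespace Smooth

theorem conj_e (x : ℝ) : (starRingEnd ℂ) (e x) = e (-x) := by
  unfold e
  rw [← Complex.exp_conj]
  congr 1
  simp only [map_mul, Complex.conj_I, Complex.conj_ofReal, map_ofNat]
  push_cast
  ring

theorem sum_sub_one {ν : ℕ → ℝ} {N : ℕ} {τ : ℝ} (hps : PsRand ν N τ) {M : ℕ} (hM : M ≤ N) :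
    |∑ n ∈ range M, (ν n - 1)| ≤ τ * N := by
  have h2 := hps M hM 0
  have h3 : ∑ n ∈ range M, ((ν n - 1 : ℝ) : ℂ) * e (0 * n) =
      ((∑ n ∈ range M, (ν n - 1) : ℝ) : ℂ) := by
    rw [Complex.ofReal_sum]
    refine Finset.sum_congr rfl fun n _ => ?_
    rw [zero_mul, Pool.Agent.Lib.GT.e_zero, mul_one]
  rwa [h3, Complex.norm_real, Real.norm_eq_abs] at h2

theorem mass {ν : ℕ → ℝ} {N : ℕ} {τ : ℝ} (hps : PsRand ν N τ) {x y : ℕ} (hxy : x ≤ y)
    (hy : y ≤ N) : ∑ n ∈ Ico x y, ν n ≤ ((y : ℝ) - x) + 2 * τ * N := by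
  have h1 := (abs_le.1 (sum_sub_one hps hy)).2
  have h2 := (abs_le.1 (sum_sub_one hps (hxy.trans hy))).1
  have h3 : ∑ n ∈ Ico x y, (ν n - 1) = ∑ n ∈ range y, (ν n - 1) - ∑ n ∈ range x, (ν n - 1) :=
    Finset.sum_Ico_eq_sub _ hxy
  have h4 : ∑ n ∈ Ico x y, (ν n - 1) = ∑ n ∈ Ico x y, ν n - ((y : ℝ) - x) := by
    rw [Finset.sum_sub_distrib, Finset.sum_const, Nat.card_Ico, nsmul_eq_mul, mul_one,
      Nat.cast_sub hxy]
  linarith

theorem massf {f ν : ℕ → ℝ} {N : ℕ} {τ : ℝ} (hf : ∀ n, 0 ≤ f n ∧ f n ≤ ν n) (hps : PsRand ν N τ)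
    {x y : ℕ} (hxy : x ≤ y) (hy : y ≤ N) :
    ∑ n ∈ Ico x y, f n ≤ ((y : ℝ) - x) + 2 * τ * N :=
  (Finset.sum_le_sum fun n _ => (hf n).2).trans (mass hps hxy hy)

/-- reindexing -/
theorem reindex {K : Type*} [CommRing K] (F : ℕ → K) (w : ℕ → K) (N s t : ℕ) :
    ∑ n ∈ range N, (if t ≤ n + s ∧ n + s - t < N then F (n + s - t) else 0) * w n =
      ∑ m ∈ range N, (if s ≤ m + t ∧ m + t - s < N then F m * w (m + t - s) else 0) := by
  have h1 : ∀ n, (if t ≤ n + s ∧ n + s - t < N then F (n + s - t) else 0) * w n =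
      if t ≤ n + s ∧ n + s - t < N then F (n + s - t) * w n else 0 := by
    intro n
    split_ifs
    · rfl
    · rw [zero_mul]
  rw [Finset.sum_congr rfl fun n _ => h1 n, ← Finset.sum_filter, ← Finset.sum_filter]
  refine Finset.sum_nbij' (fun n => n + s - t) (fun m => m + t - s) ?_ ?_ ?_ ?_ ?_
  · intro n hn
    rw [Finset.mem_filter, Finset.mem_range] at hn ⊢
    obtain ⟨h1, h2, h3⟩ := hn
    refine ⟨h3, by omega, by omega⟩
  · intro n hn
    rw [Finset.mem_filter, Finset.mem_range] at hn ⊢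
    obtain ⟨h1, h2, h3⟩ := hn
    refine ⟨h3, by omega, by omega⟩
  · intro n hn
    rw [Finset.mem_filter, Finset.mem_range] at hn
    omega
  · intro n hn
    rw [Finset.mem_filter, Finset.mem_range] at hn
    omega
  · intro n hn
    rw [Finset.mem_filter, Finset.mem_range] at hn
    have : n + s - t + t - s = n := by omega
    rw [this]

theorem sum_ite_zero (F : ℕ → ℝ) (S : Finset ℕ) (p : ℕ → Prop) [DecidablePred p] :
    ∑ m ∈ S, (if p m then 0 else F m) = ∑ m ∈ S.filter (fun m => ¬ p m), F m := by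
  rw [Finset.sum_filter]
  simp only [ite_not]

/-- the inner term -/
noncomputable def T (N : ℕ) (f : ℕ → ℝ) (s t n : ℕ) : ℝ :=
  if t ≤ n + s ∧ n + s - t < N then f (n + s - t) else 0

theorem smooth_eq {Λ : Finset ℕ} {N : ℕ} {f : ℕ → ℝ} {n : ℕ} (hn : n < N) :
    smooth Λ N f n = (∑ s ∈ Λ, ∑ t ∈ Λ, T N f s t n) / (Λ.card : ℝ) ^ 2 := by
  unfold smooth T
  rw [if_pos hn]

theorem T_nonneg {N : ℕ} {f : ℕ → ℝ} (hf : ∀ n, 0 ≤ f n) (s t n : ℕ) : 0 ≤ T N f s t n := by
  unfold T
  split_ifs
  · exact hf _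
  · exact le_rfl

/-- the convolution bound -/
theorem conv_bound {N R : ℕ} {Λ : Finset ℕ} (hR : R ≤ N) (hΛ : ∀ t ∈ Λ, t < R)
    {g : ℕ → ℝ} (hg : ∀ n, N ≤ n → g n = 0) {B : ℝ}
    (hB : ∀ α : ℝ, ‖∑ n ∈ range N, (g n : ℂ) * e (α * n)‖ ≤ B) {n : ℕ} (hn : n < N) :
    |∑ s ∈ Λ, ∑ t ∈ Λ, (if t ≤ n + s then g (n + s - t) else 0)| ≤ Λ.card * B := by
  classical
  have hB0 : 0 ≤ B := (norm_nonneg _).trans (hB 0)
  obtain ⟨X, rfl⟩ : ∃ X, N = X + 1 := ⟨N - 1, by omega⟩
  set v : ℕ → ℝ := fun m => if m ∈ Λ then 1 else 0 with hv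
  have h1 := Pool.Agent.Lib.GT.Transfer.conv_l2 (X := X) (u := g) (v := v) (S := B)
    (fun m hm => hg m (by omega))
    (fun m hm => by
      show (if m ∈ Λ then (1 : ℝ) else 0) = 0
      rw [if_neg]
      intro h
      have := hΛ m h
      omega) hB
  have h2 : ∑ m ∈ range (X + 1), (v m) ^ 2 = Λ.card := by
    have h3 : ∀ m, (v m) ^ 2 = if m ∈ Λ then 1 else 0 := by
      intro m
      show (if m ∈ Λ then (1 : ℝ) else 0) ^ 2 = _
      split_ifs <;> norm_num
    rw [Finset.sum_congr rfl fun m _ => h3 m, ← Finset.sum_filter, Finset.sum_const,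
      nsmul_eq_mul, mul_one]
    congr 2
    ext m
    rw [Finset.mem_filter, Finset.mem_range]
    constructor
    · exact fun h => h.2
    · intro h
      have := hΛ m h
      exact ⟨by omega, h⟩
  rw [h2] at h1
  -- the inner sum is the convolution
  set c : ℕ → ℝ := fun k => ∑ x ∈ range (k + 1), g x * v (k - x) with hc
  have h3 : ∀ k, ∑ t ∈ Λ, (if t ≤ k then g (k - t) else 0) = c k := by
    intro k
    show _ = ∑ x ∈ range (k + 1), g x * v (k - x)
    have h4 : ∀ x, g x * v (k - x) = if (k - x) ∈ Λ then g x else 0 := by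
      intro x
      show g x * (if (k - x) ∈ Λ then (1 : ℝ) else 0) = _
      split_ifs
      · rw [mul_one]
      · rw [mul_zero]
    rw [Finset.sum_congr rfl fun x _ => h4 x, ← Finset.sum_filter, ← Finset.sum_filter]
    refine Finset.sum_nbij' (fun t => k - t) (fun x => k - x) ?_ ?_ ?_ ?_ ?_
    · intro t ht
      rw [Finset.mem_filter] at ht
      rw [Finset.mem_filter, Finset.mem_range]
      refine ⟨by omega, ?_⟩
      rw [show k - (k - t) = t by omega]
      exact ht.1
    · intro x hx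
      rw [Finset.mem_filter, Finset.mem_range] at hx
      rw [Finset.mem_filter]
      exact ⟨hx.2, by omega⟩
    · intro t ht
      rw [Finset.mem_filter] at ht
      omega
    · intro x hx
      rw [Finset.mem_filter, Finset.mem_range] at hx
      omega
    · intro t ht
      rfl
  rw [Finset.sum_congr rfl fun s _ => h3 (n + s)]
  -- Cauchy-Schwarz
  have h5 : (∑ s ∈ Λ, c (n + s)) ^ 2 ≤ Λ.card * ∑ s ∈ Λ, c (n + s) ^ 2 := by
    have h6 := Finset.sum_mul_sq_le_sq_mul_sq Λ (fun _ => (1 : ℝ)) (fun s => c (n + s))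
    simpa using h6
  have h7 : ∑ s ∈ Λ, c (n + s) ^ 2 ≤ ∑ k ∈ range (2 * X + 1), c k ^ 2 := by
    rw [← Finset.sum_image (s := Λ) (g := fun s => n + s) (f := fun k => c k ^ 2)
      (fun a _ b _ h => by simpa using h)]
    refine Finset.sum_le_sum_of_subset_of_nonneg ?_ fun _ _ _ => sq_nonneg _
    intro k hk
    rw [Finset.mem_image] at hk
    obtain ⟨s, hs, rfl⟩ := hk
    have := hΛ s hs
    rw [Finset.mem_range]
    omega
  have h8 : (∑ s ∈ Λ, c (n + s)) ^ 2 ≤ (Λ.card * B) ^ 2 := by
    have h9 : (0 : ℝ) ≤ Λ.card := Nat.cast_nonneg _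
    calc (∑ s ∈ Λ, c (n + s)) ^ 2 ≤ Λ.card * (B ^ 2 * Λ.card) :=
          h5.trans (mul_le_mul_of_nonneg_left (h7.trans h1) h9)
      _ = (Λ.card * B) ^ 2 := by ring
  exact abs_le_of_sq_le_sq h8 (by positivity)

end Smooth

open Smooth in
/-- D1 -/
theorem smooth_holds : SmoothS := by
  classical
  intro N Λ R hN hΛ0 hRN hΛ f ν hf τ hτ hps
  have hf0 : ∀ n, 0 ≤ f n := fun n => (hf n).1
  have hcard : (0 : ℝ) < Λ.card := by exact_mod_cast Finset.card_pos.2 hΛ0
  have hNR : (0 : ℝ) < N := by exact_mod_cast hN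
  have hRNr : (R : ℝ) ≤ N := by exact_mod_cast hRN
  refine ⟨?_, ?_, ?_, ?_⟩
  · -- nonnegativity
    intro n
    by_cases hn : n < N
    · rw [smooth_eq hn]
      exact div_nonneg (Finset.sum_nonneg fun s _ => Finset.sum_nonneg fun t _ =>
        T_nonneg hf0 s t n) (by positivity)
    · unfold smooth
      rw [if_neg hn]
  · -- upper bound
    intro n
    by_cases hn : n < N
    swap
    · unfold smooth
      rw [if_neg hn]
      positivity
    rw [smooth_eq hn, div_le_iff₀ (by positivity)]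
    set g : ℕ → ℝ := fun m => if m < N then ν m - 1 else 0 with hg
    have hgB : ∀ α : ℝ, ‖∑ m ∈ range N, (g m : ℂ) * e (α * m)‖ ≤ τ * N := by
      intro α
      have h1 : ∑ m ∈ range N, (g m : ℂ) * e (α * m) =
          ∑ m ∈ range N, ((ν m - 1 : ℝ) : ℂ) * e (α * m) := by
        refine Finset.sum_congr rfl fun m hm => ?_
        show (((if m < N then ν m - 1 else 0 : ℝ)) : ℂ) * _ = _
        rw [if_pos (Finset.mem_range.1 hm)]
      rw [h1]
      exact hps N le_rfl α
    have h2 := conv_bound hRN hΛ (g := g) (fun m hm => by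
      show (if m < N then ν m - 1 else 0) = 0
      rw [if_neg (by omega)]) hgB hn
    have h3 : ∀ s t, T N f s t n ≤ 1 + (if t ≤ n + s then g (n + s - t) else 0) := by
      intro s t
      unfold T
      by_cases h4 : t ≤ n + s
      · by_cases h5 : n + s - t < N
        · rw [if_pos ⟨h4, h5⟩, if_pos h4]
          show _ ≤ 1 + (if n + s - t < N then ν (n + s - t) - 1 else 0)
          rw [if_pos h5]
          have := (hf (n + s - t)).2
          linarith
        · rw [if_neg (fun h => h5 h.2), if_pos h4]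
          show _ ≤ 1 + (if n + s - t < N then ν (n + s - t) - 1 else 0)
          rw [if_neg h5]
          norm_num
      · rw [if_neg (fun h => h4 h.1), if_neg h4]
        norm_num
    calc ∑ s ∈ Λ, ∑ t ∈ Λ, T N f s t n
        ≤ ∑ s ∈ Λ, ∑ t ∈ Λ, (1 + (if t ≤ n + s then g (n + s - t) else 0)) :=
          Finset.sum_le_sum fun s _ => Finset.sum_le_sum fun t _ => h3 s t
      _ = (Λ.card : ℝ) ^ 2 + ∑ s ∈ Λ, ∑ t ∈ Λ, (if t ≤ n + s then g (n + s - t) else 0) := by
          simp only [Finset.sum_add_distrib, Finset.sum_const, nsmul_eq_mul, mul_one]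
          ring
      _ ≤ (Λ.card : ℝ) ^ 2 + Λ.card * (τ * N) := by
          have := (abs_le.1 h2).2
          linarith
      _ = (1 + τ * N / Λ.card) * (Λ.card : ℝ) ^ 2 := by
          field_simp
  · -- Fourier transform
    intro θ
    set fh : ℂ := ∑ n ∈ range N, (f n : ℂ) * e (θ * n) with hfh
    -- the error for each pair
    set E : ℕ → ℕ → ℂ := fun s t => ∑ m ∈ range N,
      (if s ≤ m + t ∧ m + t - s < N then 0 else (f m : ℂ) * e (θ * m)) with hE
    have hterm : ∀ s t, ∑ n ∈ range N, ((T N f s t n : ℝ) : ℂ) * e (θ * n) =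
        e (θ * t) * e (-(θ * s)) * (fh - E s t) := by
      intro s t
      have h1 : ∀ n : ℕ, ((T N f s t n : ℝ) : ℂ) * e (θ * n) =
          (if t ≤ n + s ∧ n + s - t < N then (fun m => (f m : ℂ)) (n + s - t) else 0) *
            (fun n : ℕ => e (θ * n)) n := by
        intro n
        unfold T
        split_ifs
        · rfl
        · simp
      rw [Finset.sum_congr rfl fun n _ => h1 n,
        reindex (K := ℂ) (fun m => (f m : ℂ)) (fun n : ℕ => e (θ * n)) N s t, hfh, hE,
        ← Finset.sum_sub_distrib, Finset.mul_sum]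
      refine Finset.sum_congr rfl fun m _ => ?_
      split_ifs with h2
      · have h3 : ((m + t - s : ℕ) : ℝ) = (m : ℝ) + t - s := by
          rw [Nat.cast_sub h2.1]
          push_cast
          ring
        show (f m : ℂ) * e (θ * ((m + t - s : ℕ) : ℝ)) = _
        rw [h3, show θ * ((m : ℝ) + t - s) = θ * t + (-(θ * s) + θ * m) by ring,
          Pool.Agent.Lib.GT.e_add, Pool.Agent.Lib.GT.e_add]
        ring
      · ring
    have hEb : ∀ s ∈ Λ, ∀ t ∈ Λ, ‖E s t‖ ≤ R + 2 * τ * N := by
      intro s hs t ht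
      have hsR := hΛ s hs
      have htR := hΛ t ht
      have h1 : ‖E s t‖ ≤ ∑ m ∈ range N, (if s ≤ m + t ∧ m + t - s < N then 0 else f m) := by
        refine norm_sum_le_of_le _ fun m _ => ?_
        split_ifs
        · simp
        · rw [norm_mul, Complex.norm_real, Real.norm_eq_abs, abs_of_nonneg (hf0 m),
            Pool.Agent.Lib.GT.norm_e, mul_one]
      refine h1.trans ?_
      rcases le_total s t with hst | hst
      · have h2 : ∑ m ∈ range N, (if s ≤ m + t ∧ m + t - s < N then 0 else f m) ≤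
            ∑ m ∈ Ico (N - R) N, f m := by
          rw [sum_ite_zero]
          refine Finset.sum_le_sum_of_subset_of_nonneg ?_ fun _ _ _ => hf0 _
          intro m hm
          rw [Finset.mem_filter, Finset.mem_range] at hm
          rw [Finset.mem_Ico]
          constructor
          · by_contra hc
            exact hm.2 ⟨by omega, by omega⟩
          · exact hm.1
        refine h2.trans ((massf hf hps (Nat.sub_le N R) le_rfl).trans ?_)
        rw [Nat.cast_sub hRN]
        linarith
      · have h2 : ∑ m ∈ range N, (if s ≤ m + t ∧ m + t - s < N then 0 else f m) ≤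
            ∑ m ∈ Ico 0 R, f m := by
          rw [sum_ite_zero]
          refine Finset.sum_le_sum_of_subset_of_nonneg ?_ fun _ _ _ => hf0 _
          intro m hm
          rw [Finset.mem_filter, Finset.mem_range] at hm
          rw [Finset.mem_Ico]
          constructor
          · omega
          · by_contra hc
            exact hm.2 ⟨by omega, by omega⟩
        refine h2.trans ((massf hf hps (Nat.zero_le R) hRN).trans ?_)
        push_cast
        linarith
    set L : ℂ := ∑ t ∈ Λ, e (θ * t) with hL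
    have hLL : ∑ s ∈ Λ, ∑ t ∈ Λ, e (θ * t) * e (-(θ * s)) = ((‖L‖ ^ 2 : ℝ) : ℂ) := by
      rw [← Complex.normSq_eq_norm_sq, ← Complex.mul_conj, hL, map_sum, Finset.sum_mul_sum,
        Finset.sum_comm]
      refine Finset.sum_congr rfl fun s _ => Finset.sum_congr rfl fun t _ => ?_
      rw [conj_e]
    have hsm : ∑ n ∈ range N, ((smooth Λ N f n : ℝ) : ℂ) * e (θ * n) =
        (((‖L‖ ^ 2 : ℝ) : ℂ) * fh - ∑ s ∈ Λ, ∑ t ∈ Λ, e (θ * t) * e (-(θ * s)) * E s t) /
          (Λ.card : ℂ) ^ 2 := by
      have h1 : ∀ n ∈ range N, ((smooth Λ N f n : ℝ) : ℂ) * e (θ * n) =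
          (∑ s ∈ Λ, ∑ t ∈ Λ, ((T N f s t n : ℝ) : ℂ) * e (θ * n)) / (Λ.card : ℂ) ^ 2 := by
        intro n hn
        rw [smooth_eq (Finset.mem_range.1 hn)]
        push_cast
        rw [div_mul_eq_mul_div, Finset.sum_mul]
        congr 1
        refine Finset.sum_congr rfl fun s _ => ?_
        rw [Finset.sum_mul]
      rw [Finset.sum_congr rfl h1, ← Finset.sum_div, Finset.sum_comm]
      congr 1
      rw [← hLL, Finset.sum_mul, ← Finset.sum_sub_distrib]
      refine Finset.sum_congr rfl fun s _ => ?_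
      rw [Finset.sum_comm, Finset.sum_mul, ← Finset.sum_sub_distrib]
      refine Finset.sum_congr rfl fun t _ => ?_
      rw [hterm]
      ring
    have hcardC : (Λ.card : ℂ) ≠ 0 := by exact_mod_cast hcard.ne'
    have hdiff : ∑ n ∈ range N, ((f n - smooth Λ N f n : ℝ) : ℂ) * e (θ * n) =
        fh * (1 - ((‖L / Λ.card‖ ^ 2 : ℝ) : ℂ)) +
          (∑ s ∈ Λ, ∑ t ∈ Λ, e (θ * t) * e (-(θ * s)) * E s t) / (Λ.card : ℂ) ^ 2 := by
      have h1 : ∑ n ∈ range N, ((f n - smooth Λ N f n : ℝ) : ℂ) * e (θ * n) =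
          fh - ∑ n ∈ range N, ((smooth Λ N f n : ℝ) : ℂ) * e (θ * n) := by
        rw [hfh, ← Finset.sum_sub_distrib]
        refine Finset.sum_congr rfl fun n _ => ?_
        push_cast
        ring
      have h2 : ((‖L / Λ.card‖ ^ 2 : ℝ) : ℂ) = ((‖L‖ ^ 2 : ℝ) : ℂ) / (Λ.card : ℂ) ^ 2 := by
        rw [norm_div, div_pow, Complex.norm_natCast]
        push_cast
        rfl
      rw [h1, hsm, h2]
      field_simp
      ring
    rw [hdiff]
    have hEsum : ‖(∑ s ∈ Λ, ∑ t ∈ Λ, e (θ * t) * e (-(θ * s)) * E s t) / (Λ.card : ℂ) ^ 2‖ ≤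
        R + 2 * τ * N := by
      rw [norm_div, norm_pow, Complex.norm_natCast, div_le_iff₀ (by positivity)]
      calc ‖∑ s ∈ Λ, ∑ t ∈ Λ, e (θ * t) * e (-(θ * s)) * E s t‖
          ≤ ∑ s ∈ Λ, ∑ t ∈ Λ, (R + 2 * τ * N) := by
            refine norm_sum_le_of_le _ fun s hs => norm_sum_le_of_le _ fun t ht => ?_
            rw [norm_mul, norm_mul, Pool.Agent.Lib.GT.norm_e, Pool.Agent.Lib.GT.norm_e, one_mul,
              one_mul]
            exact hEb s hs t ht
        _ = (R + 2 * τ * N) * (Λ.card : ℝ) ^ 2 := by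
            rw [Finset.sum_const, Finset.sum_const, nsmul_eq_mul, nsmul_eq_mul]
            ring
    have hLle : ‖L / Λ.card‖ ≤ 1 := by
      rw [norm_div, Complex.norm_natCast, div_le_one hcard]
      calc ‖L‖ ≤ ∑ t ∈ Λ, (1 : ℝ) :=
            norm_sum_le_of_le _ fun t _ => (Pool.Agent.Lib.GT.norm_e _).le
        _ = Λ.card := by rw [Finset.sum_const, nsmul_eq_mul, mul_one]
    have h1 : ‖(1 : ℂ) - ((‖L / Λ.card‖ ^ 2 : ℝ) : ℂ)‖ = 1 - ‖L / Λ.card‖ ^ 2 := by
      rw [show (1 : ℂ) - ((‖L / Λ.card‖ ^ 2 : ℝ) : ℂ) = ((1 - ‖L / Λ.card‖ ^ 2 : ℝ) : ℂ) by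
        push_cast; ring, Complex.norm_real, Real.norm_eq_abs, abs_of_nonneg]
      have : ‖L / Λ.card‖ ^ 2 ≤ 1 := pow_le_one₀ (norm_nonneg _) hLle
      linarith
    refine (norm_add_le _ _).trans ?_
    rw [norm_mul, h1]
    have h2 : (0 : ℝ) ≤ R := Nat.cast_nonneg _
    have h3 : 0 ≤ τ * N := by positivity
    nlinarith
  · -- classes
    intro q₀ hq₀ hdvd s t r hst htN hr
    set w : ℕ → ℝ := fun n => if (s ≤ n ∧ n < t) ∧ n % q₀ = r then 1 else 0 with hw
    have hconv : ∀ F : ℕ → ℝ, ∑ n ∈ (Ico s t).filter (fun n => n % q₀ = r), F n =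
        ∑ n ∈ range N, F n * w n := by
      intro F
      have h1 : ∀ n, F n * w n = if (s ≤ n ∧ n < t) ∧ n % q₀ = r then F n else 0 := by
        intro n
        show F n * (if (s ≤ n ∧ n < t) ∧ n % q₀ = r then (1 : ℝ) else 0) = _
        split_ifs
        · rw [mul_one]
        · rw [mul_zero]
      rw [Finset.sum_congr rfl fun n _ => h1 n, ← Finset.sum_filter]
      congr 1
      ext n
      simp only [Finset.mem_filter, Finset.mem_Ico, Finset.mem_range]
      constructor
      · rintro ⟨⟨h2, h3⟩, h4⟩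
        exact ⟨by omega, ⟨h2, h3⟩, h4⟩
      · rintro ⟨_, h2, h4⟩
        exact ⟨h2, h4⟩
    set I : ℕ → Finset ℕ := fun x => Ico (x - R) (min (x + R) N) with hI
    have hpair : ∀ s' ∈ Λ, ∀ t' ∈ Λ, |∑ n ∈ range N, T N f s' t' n * w n -
        ∑ n ∈ range N, f n * w n| ≤ 4 * (R + 2 * τ * N) := by
      intro s' hs' t' ht'
      have hsR := hΛ s' hs'
      have htR := hΛ t' ht'
      obtain ⟨s'', rfl⟩ := hdvd s' hs'
      obtain ⟨t'', rfl⟩ := hdvd t' ht'
      have h1 : ∑ n ∈ range N, T N f (q₀ * s'') (q₀ * t'') n * w n =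
          ∑ m ∈ range N, (if q₀ * s'' ≤ m + q₀ * t'' ∧ m + q₀ * t'' - q₀ * s'' < N then
            f m * w (m + q₀ * t'' - q₀ * s'') else 0) := by
        rw [← reindex (K := ℝ)]
        rfl
      rw [h1, ← Finset.sum_sub_distrib]
      have h2 : ∀ m ∈ range N, |(if q₀ * s'' ≤ m + q₀ * t'' ∧ m + q₀ * t'' - q₀ * s'' < N then
            f m * w (m + q₀ * t'' - q₀ * s'') else 0) - f m * w m| ≤
            (if m ∈ I s then f m else 0) + (if m ∈ I t then f m else 0) := by
        intro m hm
        have hmN := Finset.mem_range.1 hm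
        have hnn : 0 ≤ (if m ∈ I s then f m else 0) + (if m ∈ I t then f m else 0) := by
          refine add_nonneg ?_ ?_
          · split_ifs
            · exact hf0 m
            · exact le_rfl
          · split_ifs
            · exact hf0 m
            · exact le_rfl
        by_cases hmI : m ∈ I s ∨ m ∈ I t
        · have h3 : f m ≤ (if m ∈ I s then f m else 0) + (if m ∈ I t then f m else 0) := by
            rcases hmI with h | h
            · rw [if_pos h]
              have : 0 ≤ (if m ∈ I t then f m else 0) := by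
                split_ifs
                · exact hf0 m
                · exact le_rfl
              linarith
            · rw [if_pos h]
              have : 0 ≤ (if m ∈ I s then f m else 0) := by
                split_ifs
                · exact hf0 m
                · exact le_rfl
              linarith
          refine le_trans ?_ h3
          have hw01 : ∀ k, 0 ≤ w k ∧ w k ≤ 1 := by
            intro k
            show 0 ≤ (if (s ≤ k ∧ k < t) ∧ k % q₀ = r then (1 : ℝ) else 0) ∧
              (if (s ≤ k ∧ k < t) ∧ k % q₀ = r then (1 : ℝ) else 0) ≤ 1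
            split_ifs <;> norm_num
          have h5 := hf0 m
          have h6 := hw01 m
          have h7 := hw01 (m + q₀ * t'' - q₀ * s'')
          rw [abs_le]
          split_ifs
          · constructor <;> nlinarith [mul_nonneg h5 h6.1, mul_nonneg h5 h7.1]
          · constructor <;> nlinarith [mul_nonneg h5 h6.1]
        · push Not at hmI
          obtain ⟨hms, hmt⟩ := hmI
          have hms' : m < s - R ∨ s + R ≤ m := by
            by_contra hc
            push Not at hc
            exact hms (Finset.mem_Ico.2 ⟨hc.1, lt_min hc.2 hmN⟩)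
          have hmt' : m < t - R ∨ t + R ≤ m := by
            by_contra hc
            push Not at hc
            exact hmt (Finset.mem_Ico.2 ⟨hc.1, lt_min hc.2 hmN⟩)
          have heq : (if q₀ * s'' ≤ m + q₀ * t'' ∧ m + q₀ * t'' - q₀ * s'' < N then
            f m * w (m + q₀ * t'' - q₀ * s'') else 0) = f m * w m := by
            by_cases hcond : (s ≤ m ∧ m < t)
            · have hc1 : q₀ * s'' ≤ m + q₀ * t'' ∧ m + q₀ * t'' - q₀ * s'' < N := by
                constructor <;> omega
              rw [if_pos hc1]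
              congr 1
              show (if (s ≤ m + q₀ * t'' - q₀ * s'' ∧ m + q₀ * t'' - q₀ * s'' < t) ∧
                (m + q₀ * t'' - q₀ * s'') % q₀ = r then (1 : ℝ) else 0) =
                (if (s ≤ m ∧ m < t) ∧ m % q₀ = r then (1 : ℝ) else 0)
              have hmod : (m + q₀ * t'' - q₀ * s'') % q₀ = m % q₀ := by
                rw [Nat.sub_mul_mod hc1.1, Nat.add_mul_mod_self_left]
              rw [hmod]
              have hc2 : (s ≤ m + q₀ * t'' - q₀ * s'' ∧ m + q₀ * t'' - q₀ * s'' < t) := by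
                constructor <;> omega
              simp [hc2, hcond]
            · have hz : w m = 0 := by
                show (if (s ≤ m ∧ m < t) ∧ m % q₀ = r then (1 : ℝ) else 0) = 0
                rw [if_neg (fun h => hcond h.1)]
              rw [hz, mul_zero]
              split_ifs with hc1
              · have hz2 : w (m + q₀ * t'' - q₀ * s'') = 0 := by
                  show (if (s ≤ m + q₀ * t'' - q₀ * s'' ∧ m + q₀ * t'' - q₀ * s'' < t) ∧
                    (m + q₀ * t'' - q₀ * s'') % q₀ = r then (1 : ℝ) else 0) = 0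
                  rw [if_neg]
                  rintro ⟨⟨h3, h4⟩, _⟩
                  apply hcond
                  constructor <;> omega
                rw [hz2, mul_zero]
              · rfl
          rw [heq, sub_self, abs_zero]
          exact hnn
      have hImass : ∀ x, x ≤ N → ∑ m ∈ range N, (if m ∈ I x then f m else 0) ≤
          2 * R + 2 * τ * N := by
        intro x hx
        rw [← Finset.sum_filter]
        have h3 : (range N).filter (fun m => m ∈ I x) = I x := by
          ext m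
          rw [Finset.mem_filter, Finset.mem_range]
          constructor
          · exact fun h => h.2
          · intro h
            exact ⟨lt_of_lt_of_le (Finset.mem_Ico.1 h).2 (min_le_right _ _), h⟩
        rw [h3]
        have h4 : x - R ≤ min (x + R) N := by
          rw [le_min_iff]
          constructor <;> omega
        refine (massf hf hps h4 (min_le_right _ _)).trans ?_
        have h5 : ((min (x + R) N : ℕ) : ℝ) ≤ x + R := by
          have : min (x + R) N ≤ x + R := min_le_left _ _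
          exact_mod_cast this
        have h6 : (x : ℝ) - R ≤ ((x - R : ℕ) : ℝ) := by
          have : x ≤ (x - R) + R := by omega
          have h7 : (x : ℝ) ≤ ((x - R : ℕ) : ℝ) + R := by exact_mod_cast this
          linarith
        linarith
      calc |∑ m ∈ range N, ((if q₀ * s'' ≤ m + q₀ * t'' ∧ m + q₀ * t'' - q₀ * s'' < N then
            f m * w (m + q₀ * t'' - q₀ * s'') else 0) - f m * w m)|
          ≤ ∑ m ∈ range N, ((if m ∈ I s then f m else 0) + (if m ∈ I t then f m else 0)) :=
            (Finset.abs_sum_le_sum_abs _ _).trans (Finset.sum_le_sum h2)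
        _ ≤ (2 * R + 2 * τ * N) + (2 * R + 2 * τ * N) := by
            rw [Finset.sum_add_distrib]
            exact add_le_add (hImass s (hst.trans htN)) (hImass t htN)
        _ ≤ 4 * (R + 2 * τ * N) := by
            have : 0 ≤ τ * N := by positivity
            linarith
    rw [hconv]
    have h1 : ∑ n ∈ range N, (smooth Λ N f n - f n) * w n =
        (∑ s' ∈ Λ, ∑ t' ∈ Λ, (∑ n ∈ range N, T N f s' t' n * w n -
          ∑ n ∈ range N, f n * w n)) / (Λ.card : ℝ) ^ 2 := by
      have h2 : ∀ n ∈ range N, (smooth Λ N f n - f n) * w n =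
          (∑ s' ∈ Λ, ∑ t' ∈ Λ, (T N f s' t' n * w n - f n * w n)) / (Λ.card : ℝ) ^ 2 := by
        intro n hn
        rw [smooth_eq (Finset.mem_range.1 hn)]
        simp only [Finset.sum_sub_distrib, Finset.sum_const, nsmul_eq_mul, ← Finset.sum_mul]
        field_simp
      rw [Finset.sum_congr rfl h2, ← Finset.sum_div, Finset.sum_comm]
      congr 1
      refine Finset.sum_congr rfl fun s' _ => ?_
      rw [Finset.sum_comm]
      refine Finset.sum_congr rfl fun t' _ => ?_
      rw [Finset.sum_sub_distrib]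
    rw [h1, abs_div, abs_of_pos (show (0 : ℝ) < (Λ.card : ℝ) ^ 2 by positivity),
      div_le_iff₀ (by positivity)]
    calc |∑ s' ∈ Λ, ∑ t' ∈ Λ, (∑ n ∈ range N, T N f s' t' n * w n -
          ∑ n ∈ range N, f n * w n)|
        ≤ ∑ s' ∈ Λ, ∑ t' ∈ Λ, 4 * (R + 2 * τ * N) := by
          refine (Finset.abs_sum_le_sum_abs _ _).trans (Finset.sum_le_sum fun s' hs' => ?_)
          exact (Finset.abs_sum_le_sum_abs _ _).trans
            (Finset.sum_le_sum fun t' ht' => hpair s' hs' t' ht')
      _ = 4 * (R + 2 * τ * N) * (Λ.card : ℝ) ^ 2 := by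
          rw [Finset.sum_const, Finset.sum_const, nsmul_eq_mul, nsmul_eq_mul]
          ring

end Pool.Agent.Lib.KM
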