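import Pool.Agent.Lib.MP_7b7e48_nt.GT.Defs

/-!
# KM project: statements of the modules

Sharp Kneser-Mann type theorem for sets of primes. Every module file proves one or more of the
propositions below, with the propositions it depends on as hypotheses; `Final` composes them.
-/

open Finset

open scoped Pointwise

namespace Pool.Agent.Lib.KM

open Pool.Agent.Lib.GT (e lam Lw V pr Tw Rough)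

/-! ### Definitions used in the result -/

/-- number of primes `p ∈ A` with `s X < p ≤ t X` and `p ≡ c` mod `m` -/
noncomputable def cnt (A : Set ℕ) (m c : ℕ) (s t : ℝ) (X : ℕ) : ℕ :=
  Set.ncard {p : ℕ | p.Prime ∧ p ∈ A ∧ p % m = c % m ∧ s * X < p ∧ (p : ℝ) ≤ t * X}

/-- in every reduced class `c` to every modulus `m` divisible by `q`, and in every interval
`(sX, tX]`, the set `A` contains at least the proportion `a (c mod q)` of the primes,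
asymptotically -/
def Dens (A : Set ℕ) (q : ℕ) (a : ℕ → ℝ) : Prop :=
  ∀ m c : ℕ, 0 < m → q ∣ m → c.Coprime m → ∀ s t : ℝ, 0 < s → s < t → ∀ ε : ℝ, 0 < ε →
    ∃ X₀ : ℕ, ∀ X : ℕ, X₀ ≤ X →
      (a (c % q) - ε) * cnt Set.univ m c s t X ≤ cnt A m c s t X

/-- local bound at the residue `z` mod `q` of `n` -/
noncomputable def kz (q : ℕ) (a b : ℕ → ℝ) (z : ℕ) : ℝ :=
  ⨆ p : Fin q × Fin q, if (p.1 : ℕ).Coprime q ∧ (p.2 : ℕ).Coprime q ∧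
    ((p.1 : ℕ) + p.2) % q = (2 * z) % q ∧ 0 < a p.1 ∧ 0 < b p.2 then min 1 (a p.1 + b p.2) else 0

/-- the sharp constant -/
noncomputable def K (q : ℕ) (a b : ℕ → ℝ) : ℝ := (∑ z ∈ range q, kz q a b z) / q

/-- number of representations `N = p + p'` by primes `p ∈ A`, `p' ∈ B`, `p ≠ p'` -/
noncomputable def rep (A B : Set ℕ) (N : ℕ) : ℕ :=
  Set.ncard {p : ℕ × ℕ | p.1.Prime ∧ p.2.Prime ∧ p.1 ∈ A ∧ p.2 ∈ B ∧ p.1 ≠ p.2 ∧ p.1 + p.2 = N}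

/-! ### Part K: finite groups and intervals -/

/-- K1 -/
def KneserS : Prop := ∀ (G : Type) [AddCommGroup G] [Fintype G] [DecidableEq G] (A B : Finset G),
  A.Nonempty → B.Nonempty → ∃ H : AddSubgroup G,
    (∀ x ∈ A + B, ∀ h ∈ H, x + h ∈ A + B) ∧ A.card + B.card ≤ (A + B).card + Nat.card H

/-- K2 -/
def RemovalS : Prop := ∀ δ : ℝ, 0 < δ → ∃ c : ℝ, 0 < c ∧
  ∀ (G : Type) [AddCommGroup G] [Fintype G] [DecidableEq G] (A B E : Finset G),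
    (((A ×ˢ B).filter (fun p => p.1 + p.2 ∈ E)).card : ℝ) ≤ c * (Fintype.card G : ℝ) ^ 2 →
    ∃ A' B' E' : Finset G, A' ⊆ A ∧ B' ⊆ B ∧ E' ⊆ E ∧
      ((A \ A').card : ℝ) ≤ δ * Fintype.card G ∧ ((B \ B').card : ℝ) ≤ δ * Fintype.card G ∧
      ((E \ E').card : ℝ) ≤ δ * Fintype.card G ∧ ∀ x ∈ A', ∀ y ∈ B', x + y ∉ E'

/-- K3a: popular sums of two subsets of `ℤ/b`, both well distributed mod `q₀` -/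
def PopSetS : Prop := ∀ ε : ℝ, 0 < ε → ∃ q₀ : ℕ, 0 < q₀ ∧ ∀ γ : ℝ, 0 < γ → ∃ c : ℝ, 0 < c ∧
  ∀ b : ℕ, 0 < b → q₀ ∣ b → ∀ A B : Finset ℕ, A ⊆ range b → B ⊆ range b →
    (∀ r : ℕ, r < q₀ → γ * b ≤ (A.filter (fun x => x % q₀ = r)).card) →
    (∀ r : ℕ, r < q₀ → γ * b ≤ (B.filter (fun x => x % q₀ = r)).card) →
    min (b : ℝ) (A.card + B.card) - ε * b ≤
      ((range b).filter (fun z => c * b ≤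
        ((A.filter (fun x => (z + b - x) % b ∈ B)).card : ℝ))).card

/-- K3b: the same for functions with values in `[0, 1]` -/
def PopCycS : Prop := ∀ ε : ℝ, 0 < ε → ∃ c κ : ℝ, 0 < c ∧ 0 < κ ∧ ∃ q₀ : ℕ, 0 < q₀ ∧
  ∀ b : ℕ, 0 < b → q₀ ∣ b → ∀ α β : ℝ, ε ≤ α → ε ≤ β → α ≤ 1 → β ≤ 1 → ∀ F G : ℕ → ℝ,
    (∀ n, 0 ≤ F n ∧ F n ≤ 1) → (∀ n, 0 ≤ G n ∧ G n ≤ 1) →
    (∀ r : ℕ, r < q₀ → (α - κ) * b / q₀ ≤ ∑ x ∈ (range b).filter (fun x => x % q₀ = r), F x) →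
    (∀ r : ℕ, r < q₀ → (β - κ) * b / q₀ ≤ ∑ x ∈ (range b).filter (fun x => x % q₀ = r), G x) →
    (min 1 (α + β) - ε) * b ≤
      ((range b).filter (fun z => c * b ≤ ∑ x ∈ range b, F x * G ((z + b - x) % b))).card

/-- SPEC: Parseval bound for the large spectrum on the grid `j / (L N)` -/
def SpecS : Prop := ∀ (N L : ℕ), 0 < N → 0 < L → ∀ F : ℕ → ℝ, (∀ n, |F n| ≤ 1) →
  ∀ t : ℝ, 0 < t → (((range (L * N)).filter (fun j : ℕ =>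
    t * N ≤ ‖∑ n ∈ range N, (F n : ℂ) * e ((j : ℝ) / (L * N) * n)‖)).card : ℝ) ≤ L / t ^ 2

/-- BOHR: Bohr sets are large -/
def BohrS : Prop := ∀ (Θ : Finset ℝ) (K M : ℕ), 0 < K →
  ((M : ℝ) + 1) / (K : ℝ) ^ Θ.card ≤
    ((range (M + 1)).filter (fun t : ℕ => ∀ θ ∈ Θ, ‖e (θ * t) - 1‖ ≤ 2 * Real.pi / K)).card

/-- AP: almost periods -/
def AlmostPeriodS : Prop := ∀ δ ρ : ℝ, 0 < δ → 0 < ρ → ∀ q₀ : ℕ, 0 < q₀ → ∃ c₀ : ℝ, 0 < c₀ ∧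
  ∃ N₀ : ℕ, ∀ N : ℕ, N₀ ≤ N → ∀ F : ℕ → ℝ, (∀ n, |F n| ≤ 1) →
    ∃ b : ℕ, 0 < b ∧ q₀ ∣ b ∧ c₀ * N ≤ b ∧ (b : ℝ) ≤ ρ * N ∧
      ∀ α : ℝ, ‖∑ n ∈ range N, (F n : ℂ) * e (α * n)‖ * ‖e (α * b) - 1‖ ≤ δ * N

/-- PK: popular sums in the integers -/
def PopIntS : Prop := ∀ ε : ℝ, 0 < ε → ∃ c κ : ℝ, 0 < c ∧ 0 < κ ∧ ∃ q₀ N₀ : ℕ, 0 < q₀ ∧
  ∀ N : ℕ, N₀ ≤ N → ∀ α β : ℝ, ε ≤ α → ε ≤ β → α ≤ 1 → β ≤ 1 → ∀ F G : ℕ → ℝ,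
    (∀ n, 0 ≤ F n ∧ F n ≤ 1) → (∀ n, 0 ≤ G n ∧ G n ≤ 1) →
    (∀ n, N ≤ n → F n = 0) → (∀ n, N ≤ n → G n = 0) →
    (∀ s t r : ℕ, s ≤ t → t ≤ N → r < q₀ → α * ((t : ℝ) - s) / q₀ - κ * N ≤
      ∑ x ∈ (Ico s t).filter (fun x => x % q₀ = r), F x) →
    (∀ s t r : ℕ, s ≤ t → t ≤ N → r < q₀ → β * ((t : ℝ) - s) / q₀ - κ * N ≤
      ∑ x ∈ (Ico s t).filter (fun x => x % q₀ = r), G x) →
    (min 1 (α + β) - ε) * N ≤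
      ((range N).filter (fun k => c * N ≤ ∑ x ∈ range (k + 1), F x * G (k - x))).card

/-! ### Part D: dense model -/

/-- `ν` is pseudorandom on `[0, N)` with tolerance `τ` -/
def PsRand (ν : ℕ → ℝ) (N : ℕ) (τ : ℝ) : Prop := ∀ M : ℕ, M ≤ N → ∀ θ : ℝ,
  ‖∑ n ∈ range M, ((ν n - 1 : ℝ) : ℂ) * e (θ * n)‖ ≤ τ * N

/-- D0 -/
def SpecPRS : Prop := ∀ (N L : ℕ), 0 < N → 0 < L → ∀ f ν : ℕ → ℝ, (∀ n, 0 ≤ f n ∧ f n ≤ ν n) →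
  ∀ t τ : ℝ, 0 < t → t ≤ 1 → 0 ≤ τ → 4 * τ ≤ t ^ 2 → PsRand ν N τ →
  (((range (L * N)).filter (fun j : ℕ =>
    t * N ≤ ‖∑ n ∈ range N, (f n : ℂ) * e ((j : ℝ) / (L * N) * n)‖)).card : ℝ) ≤ 64 * L / t ^ 4

/-- the smoothed function attached to a finite set `Λ` of shifts -/
noncomputable def smooth (Λ : Finset ℕ) (N : ℕ) (f : ℕ → ℝ) (n : ℕ) : ℝ :=
  if n < N then (∑ s ∈ Λ, ∑ t ∈ Λ, if t ≤ n + s ∧ n + s - t < N then f (n + s - t) else 0) /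
    (Λ.card : ℝ) ^ 2 else 0

/-- D1: properties of the smoothed function -/
def SmoothS : Prop := ∀ (N : ℕ) (Λ : Finset ℕ) (R : ℕ), 0 < N → Λ.Nonempty → R ≤ N →
  (∀ t ∈ Λ, t < R) →
  ∀ f ν : ℕ → ℝ, (∀ n, 0 ≤ f n ∧ f n ≤ ν n) → ∀ τ : ℝ, 0 ≤ τ → PsRand ν N τ →
    (∀ n, 0 ≤ smooth Λ N f n) ∧ (∀ n, smooth Λ N f n ≤ 1 + τ * N / Λ.card) ∧
    (∀ θ : ℝ, ‖∑ n ∈ range N, ((f n - smooth Λ N f n : ℝ) : ℂ) * e (θ * n)‖ ≤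
      ‖∑ n ∈ range N, (f n : ℂ) * e (θ * n)‖ *
        (1 - ‖(∑ t ∈ Λ, e (θ * t)) / Λ.card‖ ^ 2) + 2 * (R + 2 * τ * N)) ∧
    (∀ q₀ : ℕ, 0 < q₀ → (∀ t ∈ Λ, q₀ ∣ t) → ∀ s t r : ℕ, s ≤ t → t ≤ N → r < q₀ →
      |∑ n ∈ (Ico s t).filter (fun n => n % q₀ = r), (smooth Λ N f n - f n)| ≤
        4 * (R + 2 * τ * N))

/-- D: the dense model theorem -/
def DenseModelS : Prop := ∀ η : ℝ, 0 < η → ∀ q₀ : ℕ, 0 < q₀ → ∃ τ : ℝ, 0 < τ ∧ ∃ N₀ : ℕ,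
  ∀ N : ℕ, N₀ ≤ N → ∀ f ν : ℕ → ℝ, (∀ n, 0 ≤ f n ∧ f n ≤ ν n) → PsRand ν N τ →
    ∃ F : ℕ → ℝ, (∀ n, 0 ≤ F n ∧ F n ≤ 1) ∧ (∀ n, N ≤ n → F n = 0) ∧
      (∀ θ : ℝ, ‖∑ n ∈ range N, ((f n - F n : ℝ) : ℂ) * e (θ * n)‖ ≤ η * N) ∧
      (∀ s t r : ℕ, s ≤ t → t ≤ N → r < q₀ →
        |∑ n ∈ (Ico s t).filter (fun n => n % q₀ = r), (F n - f n)| ≤ η * N)

/-! ### Part C: uniformity of the primes in a class mod `W` -/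

/-- the prime factors of `W` are exactly the primes `≤ w` -/
def IsW (w W : ℕ) : Prop := 0 < W ∧ ∀ p : ℕ, p.Prime → (p ∣ W ↔ p ≤ w)

/-- C1: the rough numbers in a class -/
def RoughClsS : Prop := ∀ w w₃ W : ℕ, 2 ≤ w → w ≤ w₃ → IsW w W → ∀ κ : ℝ, 0 < κ → ∃ N₀ : ℕ,
  ∀ N : ℕ, N₀ ≤ N → ∀ b : ℕ, b < W → b.Coprime W → ∀ M : ℕ, M ≤ N → ∀ θ : ℝ,
    ‖∑ m ∈ range M, ((V w * Lw w₃ (W * m + b) - 1 : ℝ) : ℂ) * e (θ * m)‖ ≤ (4 / w + κ) * N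

/-- C: the primes in a class -/
def ClsUniformS : Prop := ∀ τ : ℝ, 0 < τ → ∃ w₀ : ℕ, ∀ w : ℕ, w₀ ≤ w → ∀ W : ℕ, IsW w W →
  ∃ N₀ : ℕ, ∀ N : ℕ, N₀ ≤ N → ∀ b : ℕ, b < W → b.Coprime W →
    PsRand (fun m => V w * lam (W * m + b)) N τ

/-! ### Part T: transference -/

/-- autocorrelation (this is `Transfer.acor` of the GT library, restated in the module) -/
def AcorS : Prop := ∃ C₁ : ℝ, 1 ≤ C₁ ∧ ∀ w : ℕ, 2 ≤ w → ∃ X₀ : ℕ, ∀ X : ℕ, X₀ ≤ X →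
  ∀ D : ℕ, 1 ≤ D → D ≤ X →
    ∑ x ∈ range (X + 1 - D), (lam x + Lw w x) * (lam (x + D) + Lw w (x + D)) ≤
      C₁ * Tw 0 D * X

/-- T: the transference theorem with independent levels -/
def Transfer2S : Prop := ∀ ε : ℝ, 0 < ε → ∃ η : ℝ, 0 < η ∧ ∃ w₀ : ℕ, ∀ w : ℕ, w₀ ≤ w →
  ∃ X₀ : ℕ, ∀ X : ℕ, X₀ ≤ X → ∀ f h : ℕ → ℝ, (∀ n, |f n| ≤ lam n + Lw w n) →
    (∀ n, |h n| ≤ lam n + Lw w n) → (∀ n, X < n → f n = 0 ∧ h n = 0) →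
    (∀ α : ℝ, ‖∑ n ∈ range (X + 1), (h n : ℂ) * e (α * n)‖ ≤ η * X) →
    ∑ n ∈ range (2 * X + 1), |∑ x ∈ range (n + 1), f x * h (n - x)| ≤ ε * X ^ 2

/-! ### Part L, M: local count, lower bounds for masses -/

/-- the modulus -/
def Wq (q w : ℕ) : ℕ := q * ∏ p ∈ pr w, p

/-- L -/
def LocalPairsS : Prop := ∀ q : ℕ, 0 < q → ∃ c : ℝ, 0 < c ∧ ∀ w : ℕ, 2 ≤ w → q ≤ w →
  ∀ z u v : ℕ, Even z → u.Coprime q → v.Coprime q → (u + v) % q = z % q →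
    c * Wq q w * V w ^ 2 ≤ (((range (Wq q w)).filter (fun b => b.Coprime (Wq q w) ∧
      (z + Wq q w - b).Coprime (Wq q w) ∧ b % q = u % q)).card : ℝ)

open Classical in
/-- the primes of `A`, weighted by the logarithm -/
noncomputable def lamA (A : Set ℕ) (n : ℕ) : ℝ := if n ∈ A then lam n else 0

/-- M -/
def MassS : Prop := ∀ (A : Set ℕ) (q : ℕ) (a : ℕ → ℝ), 0 < q → (∀ u, 0 ≤ a u ∧ a u ≤ 1) →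
  Dens A q a → ∀ m c : ℕ, 0 < m → q ∣ m → c.Coprime m → ∀ κ : ℝ, 0 < κ →
    ∃ X₀ : ℕ, ∀ X : ℕ, X₀ ≤ X → ∀ s t : ℕ, s ≤ t → t ≤ X →
      a (c % q) * ((t : ℝ) - s) / m.totient - κ * X ≤
        ∑ n ∈ (Ico s t).filter (fun n => n % m = c % m), lamA A n

/-! ### Part A: assembly of the lower bound -/

/-- the primes of `A` coprime to `W`, below `W N`, weighted -/
noncomputable def fA (A : Set ℕ) (W N : ℕ) (n : ℕ) : ℝ :=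
  if n.Coprime W ∧ n < W * N then lamA A n else 0

/-- `F b m` (class `b` mod `W`, `n = W m + b`) models `fA A W N` -/
def IsModel (A : Set ℕ) (q : ℕ) (a : ℕ → ℝ) (w N q₀ : ℕ) (η κ : ℝ) (F : ℕ → ℕ → ℝ) : Prop :=
  (∀ b m, 0 ≤ F b m ∧ F b m ≤ 1) ∧ (∀ b m, N ≤ m → F b m = 0) ∧
  (∀ b, b < Wq q w → b.Coprime (Wq q w) → ∀ θ : ℝ,
    ‖∑ m ∈ range N, ((V w * fA A (Wq q w) N (Wq q w * m + b) - F b m : ℝ) : ℂ) *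
      e (θ * m)‖ ≤ η * N) ∧
  (∀ b, b < Wq q w → b.Coprime (Wq q w) → ∀ s t r : ℕ, s ≤ t → t ≤ N → r < q₀ →
    a (b % q) * ((t : ℝ) - s) / q₀ - κ * N ≤
      ∑ m ∈ (Ico s t).filter (fun m => m % q₀ = r), F b m)

/-- A1 -/
def ModelS : Prop := ∀ (q : ℕ) (a : ℕ → ℝ), 0 < q → (∀ u, 0 ≤ a u ∧ a u ≤ 1) →
  ∀ η κ : ℝ, 0 < η → 0 < κ → ∀ q₀ : ℕ, 0 < q₀ → ∃ w₀ : ℕ, ∀ w : ℕ, w₀ ≤ w →
    ∀ A : Set ℕ, Dens A q a → ∃ N₀ : ℕ, ∀ N : ℕ, N₀ ≤ N →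
      ∃ F : ℕ → ℕ → ℝ, IsModel A q a w N q₀ η κ F

/-- the function on `ℕ` with classes `F b` -/
noncomputable def glue (w W N : ℕ) (F : ℕ → ℕ → ℝ) (n : ℕ) : ℝ :=
  if n.Coprime W ∧ n < W * N then (V w)⁻¹ * F (n % W) (n / W) else 0

/-- A2 -/
def GlobalS : Prop := ∀ (A : Set ℕ) (q : ℕ) (a : ℕ → ℝ) (w N q₀ : ℕ) (η κ : ℝ)
  (F : ℕ → ℕ → ℝ), 0 < q → q ≤ w → 2 ≤ w → 0 < N → 0 < η → IsModel A q a w N q₀ η κ F →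
    (∀ n, 0 ≤ glue w (Wq q w) N F n ∧ glue w (Wq q w) N F n ≤ Lw w n) ∧
    (∀ θ : ℝ, ‖∑ n ∈ range (Wq q w * N + 1),
      ((fA A (Wq q w) N n - glue w (Wq q w) N F n : ℝ) : ℂ) * e (θ * n)‖ ≤
        η * (Wq q w * N))

/-- A3: number of popular sums of the glued models; `n = (W/2) k + n₀` runs over `[0, (W/2) N)` -/
def PopCountS : Prop := ∀ (q : ℕ) (a b : ℕ → ℝ), 0 < q → (∀ u, 0 ≤ a u ∧ a u ≤ 1) →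
  (∀ u, 0 ≤ b u ∧ b u ≤ 1) → ∀ ε : ℝ, 0 < ε → ∃ c κ : ℝ, 0 < c ∧ 0 < κ ∧
  ∃ q₀ : ℕ, 0 < q₀ ∧ ∃ w₀ N₀ : ℕ, ∀ w : ℕ, w₀ ≤ w → ∀ N : ℕ, N₀ ≤ N →
    ∀ (A B : Set ℕ) (η : ℝ) (F G : ℕ → ℕ → ℝ), IsModel A q a w N q₀ η κ F →
      IsModel B q b w N q₀ η κ G →
      (K q a b - ε) * ((Wq q w / 2 : ℕ) * N) ≤
        (((range (Wq q w / 2 * N)).filter (fun n => c * (Wq q w * N : ℕ) ≤
          ∑ x ∈ range (2 * n + 1), glue w (Wq q w) N F x *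
            glue w (Wq q w) N G (2 * n - x))).card : ℝ)

/-- A4: the lower bound -/
def LowerS : Prop := ∀ (q : ℕ) (a b : ℕ → ℝ), 0 < q → (∀ u, 0 ≤ a u ∧ a u ≤ 1) →
  (∀ u, 0 ≤ b u ∧ b u ≤ 1) → ∀ ε : ℝ, 0 < ε → ∃ c : ℝ, 0 < c ∧ ∀ A B : Set ℕ,
    Dens A q a → Dens B q b → ∃ X₀ : ℕ, ∀ X : ℕ, X₀ ≤ X →
      (K q a b - ε) * X ≤ (((Icc 1 X).filter (fun n =>
        c * X / Real.log X ^ 2 ≤ (rep A B (2 * n) : ℝ))).card : ℝ)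

/-! ### Part S: sharpness -/

/-- S1: Weyl sums over primes in a class -/
def WeylS : Prop := ∀ m c : ℕ, 0 < m → ∀ k : ℤ, k ≠ 0 → ∀ ε : ℝ, 0 < ε → ∃ X₀ : ℕ, ∀ X : ℕ,
  X₀ ≤ X → ‖∑ n ∈ (range (X + 1)).filter (fun n => n % m = c % m),
    (lam n : ℂ) * e (k * Real.sqrt 2 * n)‖ ≤ ε * X

/-- S2: equidistribution from Weyl sums, for general weights -/
def EquiS : Prop := ∀ (x : ℕ → ℝ) (ω : ℕ → ℕ → ℝ) (N : ℕ → ℕ), (∀ X n, 0 ≤ ω X n) →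
  (∀ k : ℤ, k ≠ 0 → ∀ ε : ℝ, 0 < ε → ∃ X₀ : ℕ, ∀ X : ℕ, X₀ ≤ X →
    ‖∑ n ∈ range (N X), (ω X n : ℂ) * e (k * x n)‖ ≤ ε * ∑ n ∈ range (N X), ω X n) →
  ∀ a : ℝ, 0 ≤ a → a ≤ 1 → ∀ ε : ℝ, 0 < ε → ∃ X₀ : ℕ, ∀ X : ℕ, X₀ ≤ X →
    |∑ n ∈ (range (N X)).filter (fun n => Int.fract (x n) < a), ω X n -
      a * ∑ n ∈ range (N X), ω X n| ≤ ε * ∑ n ∈ range (N X), ω X n

/-- the example -/
def rotSet (q : ℕ) (a : ℕ → ℝ) : Set ℕ := {p : ℕ | Int.fract (Real.sqrt 2 * p) < a (p % q)}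

/-- S3 -/
def RotDensS : Prop := ∀ (q : ℕ) (a : ℕ → ℝ), 0 < q → (∀ u, 0 ≤ a u ∧ a u ≤ 1) →
  Dens (rotSet q a) q a

/-- S4 -/
def UpperS : Prop := ∀ (q : ℕ) (a b : ℕ → ℝ), 0 < q → (∀ u, 0 ≤ a u ∧ a u ≤ 1) →
  (∀ u, 0 ≤ b u ∧ b u ≤ 1) → ∀ ε : ℝ, 0 < ε → ∃ X₀ : ℕ, ∀ X : ℕ, X₀ ≤ X →
    (((Icc 1 X).filter (fun n => rep (rotSet q a) (rotSet q b) (2 * n) ≠ 0)).card : ℝ) ≤
      (K q a b + ε) * X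

end Pool.Agent.Lib.KM
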